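import Pool.Agent.P.MP_029dcd_co.F.Z.ZLinA

/-! Finiteness statements for number fields. -/

set_option autoImplicit false

namespace ECub.Z

open CubicStab MeasureTheory Filter Topology Finset
open scoped ENNReal

variable {ι : Type} [Fintype ι] {K : Type} [Field K]

theorem zlinc_coord (B : Finset (ι → K)) (hB : LinearIndepOn K id (B : Set (ι → K)))
    (b : ι → K) (hb : b ∈ B) :
    ∃ a : ι → K, ∀ c : (ι → K) → K, c b = ∑ k, a k * (∑ x ∈ B, c x • x) k := by
  classical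
  have h1 : b ∉ Submodule.span K (id '' ((B : Set (ι → K)) \ {b})) :=
    hB.notMem_span (Finset.mem_coe.2 hb)
  obtain ⟨f, hf1, hf2⟩ := Submodule.exists_dual_map_eq_bot_of_notMem h1 inferInstance
  have h2 : ∀ x ∈ B, x ≠ b → f x = 0 := by
    intro x hx hxb
    have : f x ∈ (Submodule.span K (id '' ((B : Set (ι → K)) \ {b}))).map f :=
      Submodule.mem_map_of_mem (Submodule.subset_span ⟨x, ⟨Finset.mem_coe.2 hx, hxb⟩, rfl⟩)
    rw [hf2] at this
    exact (Submodule.mem_bot K).1 this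
  refine ⟨fun k => (f b)⁻¹ * f (fun j => if k = j then 1 else 0), fun c => ?_⟩
  have h3 : f (∑ x ∈ B, c x • x) = c b * f b := by
    rw [map_sum, Finset.sum_eq_single b]
    · simp
    · intro x hx hxb
      simp [h2 x hx hxb]
    · intro h
      exact absurd hb h
  have h4 := LinearMap.pi_apply_eq_sum_univ f (∑ x ∈ B, c x • x)
  rw [h3] at h4
  calc c b = (f b)⁻¹ * (c b * f b) := by field_simp
    _ = _ := by
      rw [h4, Finset.mul_sum]
      refine Finset.sum_congr rfl fun k _ => ?_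
      simp only [smul_eq_mul]
      ring

theorem zlinc_vals (𝓣 : Finset (ι → K)) : ∃ A : Finset K, (∀ τ ∈ 𝓣, ∀ k, τ k ∈ A) ∧
    ∀ B ⊆ 𝓣, LinearIndepOn K id (B : Set (ι → K)) → ∀ b ∈ B, ∃ a : ι → K, (∀ k, a k ∈ A) ∧
      ∀ c : (ι → K) → K, c b = ∑ k, a k * (∑ x ∈ B, c x • x) k := by
  classical
  have h : ∀ (B : Finset (ι → K)) (b : ι → K), ∃ a : ι → K,
      LinearIndepOn K id (B : Set (ι → K)) → b ∈ B →
      ∀ c : (ι → K) → K, c b = ∑ k, a k * (∑ x ∈ B, c x • x) k := by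
    intro B b
    by_cases hB : LinearIndepOn K id (B : Set (ι → K)) ∧ b ∈ B
    · obtain ⟨a, ha⟩ := zlinc_coord B hB.1 b hB.2
      exact ⟨a, fun _ _ => ha⟩
    · exact ⟨0, fun h1 h2 => absurd ⟨h1, h2⟩ hB⟩
  choose a ha using h
  refine ⟨(𝓣.biUnion fun τ => Finset.univ.image τ) ∪
    (𝓣.powerset.biUnion fun B => B.biUnion fun b => Finset.univ.image (a B b)),
    fun τ hτ k => ?_, fun B hB hind b hb => ⟨a B b, fun k => ?_, ha B b hind hb⟩⟩
  · exact Finset.mem_union_left _ (Finset.mem_biUnion.2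
      ⟨τ, hτ, Finset.mem_image_of_mem _ (Finset.mem_univ k)⟩)
  · exact Finset.mem_union_right _ (Finset.mem_biUnion.2 ⟨B, Finset.mem_powerset.2 hB,
      Finset.mem_biUnion.2 ⟨b, hb, Finset.mem_image_of_mem _ (Finset.mem_univ k)⟩⟩)

theorem zlinc_le_N0 (w : AbsoluteValue K ℝ) (x : ι → K) (k : ι) : w (x k) ≤ N0 w x :=
  le_ciSup (f := fun k => w (x k)) (Finite.bddAbove_range _) k

omit [Fintype ι] in
theorem zlinc_N0_nonneg (w : AbsoluteValue K ℝ) (x : ι → K) : 0 ≤ N0 w x :=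
  Real.iSup_nonneg fun _ => w.nonneg _

theorem zlinc_ultra {w : AbsoluteValue K ℝ} (hw : IsNonarchimedean w) {α : Type} (s : Finset α)
    (f : α → K) (M : ℝ) (hM : 0 ≤ M) (h : ∀ i ∈ s, w (f i) ≤ M) : w (∑ i ∈ s, f i) ≤ M := by
  classical
  induction s using Finset.induction_on with
  | empty => simpa using hM
  | insert a s ha ih =>
    rw [Finset.sum_insert ha]
    exact (hw _ _).trans (max_le (h a (Finset.mem_insert_self _ _))
      (ih fun i hi => h i (Finset.mem_insert_of_mem hi)))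

theorem exists_goodAt (w : AbsoluteValue K ℝ) (𝓣 : Finset (ι → K)) :
    ∃ C : ℝ, 1 ≤ C ∧ GoodAt w 𝓣 C := by
  obtain ⟨A, hA1, hA2⟩ := zlinc_vals 𝓣
  set M : ℝ := ∑ y ∈ A, (w y + (w y)⁻¹) with hM
  have hn : ∀ y ∈ A, 0 ≤ w y + (w y)⁻¹ := fun y _ => by
    have := w.nonneg y
    positivity
  have hM0 : 0 ≤ M := Finset.sum_nonneg hn
  have h1 : ∀ y ∈ A, w y ≤ M := fun y hy => by
    have h2 := Finset.single_le_sum hn hy
    have h3 : 0 ≤ (w y)⁻¹ := inv_nonneg.2 (w.nonneg y)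
    linarith
  have h2 : ∀ y ∈ A, (w y)⁻¹ ≤ M := fun y hy => by
    have h2 := Finset.single_le_sum hn hy
    have h3 : 0 ≤ w y := w.nonneg y
    linarith
  have hc : (0 : ℝ) ≤ Fintype.card ι := Nat.cast_nonneg _
  have hcM : 0 ≤ (Fintype.card ι : ℝ) * M := mul_nonneg hc hM0
  refine ⟨1 + M + Fintype.card ι * M, by linarith, fun τ hτ => ?_, fun τ hτ h0 => ?_,
    fun B hB hind c b hb => ?_⟩
  · exact Real.iSup_le (fun k => (h1 _ (hA1 τ hτ k)).trans (by linarith)) (by linarith)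
  · obtain ⟨k, hk⟩ := Function.ne_iff.1 h0
    have h3 : 0 < w (τ k) := w.pos hk
    calc (1 : ℝ) = (w (τ k))⁻¹ * w (τ k) := by field_simp
      _ ≤ _ := mul_le_mul ((h2 _ (hA1 τ hτ k)).trans (by linarith)) (zlinc_le_N0 w τ k) h3.le
        (by linarith)
  · obtain ⟨a, ha1, ha2⟩ := hA2 B hB hind b hb
    have h0 := zlinc_N0_nonneg w (∑ x ∈ B, c x • x)
    rw [ha2 c]
    refine (w.sum_le _ _).trans ?_
    calc ∑ k, w (a k * (∑ x ∈ B, c x • x) k)
        ≤ ∑ _k : ι, M * N0 w (∑ x ∈ B, c x • x) := Finset.sum_le_sum fun k _ => by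
          rw [w.map_mul]
          exact mul_le_mul (h1 _ (ha1 k)) (zlinc_le_N0 w _ k) (w.nonneg _) hM0
      _ = Fintype.card ι * M * N0 w (∑ x ∈ B, c x • x) := by
          simp [mul_assoc]
      _ ≤ _ := mul_le_mul_of_nonneg_right (by linarith) h0

theorem finite_not_goodAt [Height.AdmissibleAbsValues K] (𝓣 : Finset (ι → K)) :
    {w | w ∈ Height.AdmissibleAbsValues.nonarchAbsVal (K := K) ∧ ¬ GoodAt w 𝓣 1}.Finite := by
  obtain ⟨A, hA1, hA2⟩ := zlinc_vals 𝓣
  have hfin : ∀ y : K, y ≠ 0 → {w | w ∈ Height.AdmissibleAbsValues.nonarchAbsVal (K := K) ∧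
      w y ≠ 1}.Finite := by
    intro y hy
    refine ((Height.AdmissibleAbsValues.hasFiniteMulSupport hy).image Subtype.val).subset ?_
    rintro w ⟨h1, h2⟩
    exact ⟨⟨w, h1⟩, h2, rfl⟩
  refine ((A.finite_toSet.subset (Set.sdiff_subset (t := {0}))).biUnion
    fun y hy => hfin y hy.2).subset ?_
  rintro w ⟨hw, hbad⟩
  by_contra hcon
  apply hbad
  have h1 : ∀ y ∈ A, y ≠ 0 → w y = 1 := by
    intro y hy h0
    by_contra h
    exact hcon (Set.mem_biUnion (show y ∈ (A : Set K) \ {0} from ⟨hy, h0⟩) ⟨hw, h⟩)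
  have h2 : ∀ y ∈ A, w y ≤ 1 := by
    intro y hy
    by_cases h0 : y = 0
    · simp [h0]
    · exact (h1 y hy h0).le
  refine ⟨fun τ hτ => Real.iSup_le (fun k => h2 _ (hA1 τ hτ k)) zero_le_one, fun τ hτ h0 => ?_,
    fun B hB hind c b hb => ?_⟩
  · obtain ⟨k, hk⟩ := Function.ne_iff.1 h0
    rw [one_mul, ← h1 _ (hA1 τ hτ k) hk]
    exact zlinc_le_N0 w τ k
  · obtain ⟨a, ha1, ha2⟩ := hA2 B hB hind b hb
    rw [ha2 c]
    refine zlinc_ultra (Height.AdmissibleAbsValues.isNonarchimedean w hw) _ _ _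
      (mul_nonneg zero_le_one (zlinc_N0_nonneg w _)) fun k _ => ?_
    rw [w.map_mul]
    exact mul_le_mul (h2 _ (ha1 k)) (zlinc_le_N0 w _ k) (w.nonneg _) zero_le_one

theorem finite_units [NumberField K] (S : Finset (AbsoluteValue K ℝ))
    (harch : ∀ w ∈ Height.AdmissibleAbsValues.archAbsVal (K := K), w ∈ S) (C : ℝ) :
    {x : K | x ≠ 0 ∧ (∀ w ∈ Height.AdmissibleAbsValues.nonarchAbsVal (K := K), w ∉ S → w x = 1) ∧
      ∀ w ∈ S, |Real.log (w x)| ≤ C}.Finite := by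
  classical
  set D : ℝ := Real.exp |C| with hD
  have hD1 : 1 ≤ D := Real.one_le_exp (abs_nonneg C)
  refine (NumberField.finite_setOfPred_mulHeight₁_le K
    (D ^ (Height.AdmissibleAbsValues.archAbsVal (K := K)).card *
      D ^ (S.subtype fun w => w ∈ Height.AdmissibleAbsValues.nonarchAbsVal (K := K)).card)).subset ?_
  rintro x ⟨hx, h1, h2⟩
  have h3 : ∀ w ∈ S, max (w x) 1 ≤ D := by
    intro w hw
    refine max_le ?_ hD1
    rw [← Real.exp_log (w.pos hx)]
    exact Real.exp_le_exp.2 ((le_abs_self _).trans ((h2 w hw).trans (le_abs_self C)))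
  rw [Set.mem_ofPred_eq, Height.mulHeight₁_eq]
  refine mul_le_mul ?_ ?_ (finprod_nonneg fun _ => le_max_of_le_right zero_le_one)
    (by positivity)
  · refine (Multiset.prod_map_le_prod_map₀ _ (fun _ => D)
      (fun _ _ => le_max_of_le_right zero_le_one) fun w hw => h3 w (harch w hw)).trans ?_
    simp
  · rw [finprod_eq_prod_of_mulSupport_subset _
      (s := S.subtype fun w => w ∈ Height.AdmissibleAbsValues.nonarchAbsVal (K := K))]
    · refine (Finset.prod_le_prod (g := fun _ => D) (fun _ _ => le_max_of_le_right zero_le_one)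
        fun w hw => h3 w.1 (Finset.mem_subtype.1 hw)).trans ?_
      simp
    · intro w hw
      rw [Finset.mem_coe, Finset.mem_subtype]
      by_contra hS
      exact hw (by simp [h1 w.1 w.2 hS])

open Classical in
/-- a finite set of real vectors with algebraic coordinates is defined over a number field -/
theorem exists_numberField (𝓣 : Finset (ι → ℝ)) (h : ∀ τ ∈ 𝓣, ∀ k, IsAlgebraic ℚ (τ k)) :
    ∃ (K1 : IntermediateField ℚ ℝ) (_ : NumberField K1) (𝓣1 : Finset (ι → K1)),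
      𝓣1.image cv = 𝓣 := by
  let A : Set ℝ := ⋃ τ ∈ 𝓣, Set.range τ
  have hA : A.Finite := 𝓣.finite_toSet.biUnion fun τ _ => Set.finite_range τ
  have : Finite A := hA.to_subtype
  have hfd : FiniteDimensional ℚ (IntermediateField.adjoin ℚ A) :=
    IntermediateField.finiteDimensional_adjoin fun x hx => by
      obtain ⟨τ, hτ, k, rfl⟩ := Set.mem_iUnion₂.1 hx
      exact (h τ hτ k).isIntegral
  have hm : ∀ τ ∈ 𝓣, ∀ k, τ k ∈ IntermediateField.adjoin ℚ A := fun τ hτ k =>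
    IntermediateField.subset_adjoin ℚ A (Set.mem_iUnion₂.2 ⟨τ, hτ, k, rfl⟩)
  refine ⟨IntermediateField.adjoin ℚ A, ⟨⟩,
    𝓣.attach.image fun τ k => ⟨τ.1 k, hm τ.1 τ.2 k⟩, ?_⟩
  rw [Finset.image_image]
  exact Finset.attach_image_val

theorem countable_alg : {τ : ι → ℝ | ∀ k, IsAlgebraic ℚ (τ k)}.Countable := by
  exact Set.countable_pi fun _ => Algebraic.countable ℚ ℝ

end ECub.Z
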