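import Pool.Agent.P.MP_029dcd_co.F.Z.ZCount0
import Pool.Agent.P.MP_029dcd_co.F.Z.ZLinC

/-! From bounded units to additive structure. -/

set_option autoImplicit false

namespace ECub.Z

open CubicStab MeasureTheory Filter Topology Finset
open scoped ENNReal

theorem zend_pig {α β : Type*} [DecidableEq β] (s : Finset α) (t : Finset β) (f : α → β)
    (hf : ∀ a ∈ s, f a ∈ t) (hs : s.Nonempty) (M : ℝ) (hM : (t.card : ℝ) ≤ M) :
    ∃ y ∈ t, (s.card : ℝ) / M ≤ ((s.filter fun a => f a = y).card : ℝ) := by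
  obtain ⟨a, ha⟩ := hs
  have ht : t.Nonempty := ⟨_, hf a ha⟩
  have hpos : (0 : ℝ) < t.card := by exact_mod_cast ht.card_pos
  have hM0 : 0 < M := lt_of_lt_of_le hpos hM
  refine Finset.exists_le_card_fiber_of_nsmul_le_card_of_maps_to hf ht ?_
  rw [nsmul_eq_mul, ← mul_div_assoc, div_le_iff₀ hM0, mul_comm]
  exact mul_le_mul_of_nonneg_left hM (Nat.cast_nonneg _)

theorem zend_cs {α β : Type*} [DecidableEq β] (s : Finset α) (p : α → β) :
    (s.card : ℝ) ^ 2 ≤ (s.image p).card *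
      (((s ×ˢ s).filter fun x => p x.1 = p x.2).card : ℝ) := by
  have h1 : s.card = ∑ y ∈ s.image p, (s.filter fun a => p a = y).card :=
    Finset.card_eq_sum_card_image p s
  have h2 : ((s ×ˢ s).filter fun x => p x.1 = p x.2).card
      = ∑ y ∈ s.image p, (s.filter fun a => p a = y).card ^ 2 := by
    rw [Finset.card_eq_sum_card_fiberwise (f := fun x : α × α => p x.1) (t := s.image p)]
    · refine Finset.sum_congr rfl fun y _ => ?_
      rw [sq, ← Finset.card_product]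
      refine congrArg Finset.card ?_
      ext x
      simp only [Finset.mem_filter, Finset.mem_product]
      constructor
      · rintro ⟨⟨⟨h1, h2⟩, h3⟩, h4⟩
        exact ⟨⟨h1, h4⟩, h2, h3 ▸ h4⟩
      · rintro ⟨⟨h1, h4⟩, h2, h3⟩
        exact ⟨⟨⟨h1, h2⟩, h4.trans h3.symm⟩, h4⟩
    · intro x hx
      have hx' := (Finset.mem_product.1 (Finset.mem_filter.1 (Finset.mem_coe.1 hx)).1).1
      exact Finset.mem_coe.2 (Finset.mem_image_of_mem p hx')
  rw [h2]
  conv_lhs => rw [h1]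
  push_cast
  exact sq_sum_le_card_mul_sum_sq

/-- many cells whose first line also meets one fixed second line -/
theorem zend_star {α β : Type*} [DecidableEq β] (s : Finset α) (hs : s.Nonempty) (p q : α → β)
    (hinj : ∀ a ∈ s, ∀ a' ∈ s, p a = p a' → q a = q a' → a = a') (M : ℝ)
    (hp : ((s.image p).card : ℝ) ≤ M) (hq : ((s.image q).card : ℝ) ≤ M) :
    ∃ a0 ∈ s, ∃ s1 ⊆ s, (s.card : ℝ) ^ 2 / M ^ 2 ≤ s1.card ∧
      ∀ a ∈ s1, ∃ a' ∈ s, p a = p a' ∧ q a' = q a0 := by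
  classical
  obtain ⟨a, ha⟩ := hs
  have hpos : (0 : ℝ) < (s.image p).card := by
    exact_mod_cast (Finset.Nonempty.image ⟨a, ha⟩ p).card_pos
  have hM0 : 0 < M := lt_of_lt_of_le hpos hp
  set P := (s ×ˢ s).filter fun x => p x.1 = p x.2 with hP
  have hPne : P.Nonempty := ⟨(a, a), by simp [hP, ha]⟩
  obtain ⟨y, hy, hcard⟩ := zend_pig P (s.image q) (fun x => q x.2) (fun x hx =>
    Finset.mem_image_of_mem q (Finset.mem_product.1 (Finset.mem_filter.1 hx).1).2) hPne M hq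
  obtain ⟨a0, ha0, rfl⟩ := Finset.mem_image.1 hy
  refine ⟨a0, ha0, (P.filter fun x => q x.2 = q a0).image Prod.fst, ?_, ?_, ?_⟩
  · intro b hb
    obtain ⟨x, hx, rfl⟩ := Finset.mem_image.1 hb
    exact (Finset.mem_product.1 (Finset.mem_filter.1 (Finset.mem_filter.1 hx).1).1).1
  · rw [Finset.card_image_of_injOn]
    · refine le_trans ?_ hcard
      have h1 := zend_cs s p
      have h2 : (s.card : ℝ) ^ 2 ≤ M * P.card :=
        h1.trans (mul_le_mul_of_nonneg_right hp (Nat.cast_nonneg _))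
      rw [div_le_div_iff₀ (by positivity) hM0]
      nlinarith
    · intro x hx x' hx' hxx
      have hx1 := Finset.mem_filter.1 (Finset.mem_coe.1 hx)
      have hx1' := Finset.mem_filter.1 (Finset.mem_coe.1 hx')
      have hx2 := Finset.mem_filter.1 hx1.1
      have hx2' := Finset.mem_filter.1 hx1'.1
      refine Prod.ext hxx (hinj _ (Finset.mem_product.1 hx2.1).2 _
        (Finset.mem_product.1 hx2'.1).2 ?_ (hx1.2.trans hx1'.2.symm))
      rw [← hx2.2, ← hx2'.2, hxx]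
  · intro b hb
    obtain ⟨x, hx, rfl⟩ := Finset.mem_image.1 hb
    have hx1 := Finset.mem_filter.1 hx
    have hx2 := Finset.mem_filter.1 hx1.1
    exact ⟨x.2, (Finset.mem_product.1 hx2.1).2, hx2.2, hx1.2⟩

/-- `β • x` has the size of `y`: exactly outside `S`, up to `c` on `S` -/
def zendOk {K : Type} [Field K] [NumberField K] (S : Finset (AbsoluteValue K ℝ)) {ι : Type}
    (Gw : AbsoluteValue K ℝ → Fin 3 → (ι → K) → ℝ) (i : Fin 3) (x : ι → K) (j : Fin 3)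
    (y : ι → K) (β : K) (c : ℝ) : Prop :=
  β ≠ 0 ∧ (∀ w ∈ Height.AdmissibleAbsValues.nonarchAbsVal (K := K), w ∉ S →
    w β * N0 w x = N0 w y) ∧ ∀ w ∈ S, |Real.log (w β) + Gw w i x - Gw w j y| ≤ c

theorem zendOk_trans {K : Type} [Field K] [NumberField K] {S : Finset (AbsoluteValue K ℝ)}
    {ι : Type} {Gw : AbsoluteValue K ℝ → Fin 3 → (ι → K) → ℝ} {i j l : Fin 3} {x y v : ι → K}
    {β β' : K} {c c' : ℝ} (h : zendOk S Gw i x j y β c) (h' : zendOk S Gw j y l v β' c') :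
    zendOk S Gw i x l v (β * β') (c + c') := by
  refine ⟨mul_ne_zero h.1 h'.1, fun w hw hS => ?_, fun w hw => ?_⟩
  · rw [map_mul, ← h'.2.1 w hw hS, ← h.2.1 w hw hS]
    ring
  · rw [map_mul, Real.log_mul (w.ne_zero h.1) (w.ne_zero h'.1)]
    have h1 := abs_le.1 (h.2.2 w hw)
    have h2 := abs_le.1 (h'.2.2 w hw)
    rw [abs_le]
    constructor <;> linarith [h1.1, h1.2, h2.1, h2.2]

theorem zendOk_symm {K : Type} [Field K] [NumberField K] {S : Finset (AbsoluteValue K ℝ)}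
    {ι : Type} {Gw : AbsoluteValue K ℝ → Fin 3 → (ι → K) → ℝ} {i j : Fin 3} {x y : ι → K}
    {β : K} {c : ℝ} (h : zendOk S Gw i x j y β c) : zendOk S Gw j y i x β⁻¹ c := by
  refine ⟨inv_ne_zero h.1, fun w hw hS => ?_, fun w hw => ?_⟩
  · rw [map_inv₀, ← h.2.1 w hw hS, ← mul_assoc, inv_mul_cancel₀ (w.ne_zero h.1), one_mul]
  · rw [map_inv₀, Real.log_inv]
    have h1 := abs_le.1 (h.2.2 w hw)
    rw [abs_le]
    constructor <;> linarith [h1.1, h1.2]

theorem zendOk_cell {K : Type} [Field K] [NumberField K] {S : Finset (AbsoluteValue K ℝ)}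
    {ι : Type} {Gw : AbsoluteValue K ℝ → Fin 3 → (ι → K) → ℝ} {x : Fin 3 → ι → K}
    {b : Fin 3 → K} {c : ℝ} (hb : ∀ i, b i ≠ 0)
    (h1 : ∀ w ∈ Height.AdmissibleAbsValues.nonarchAbsVal (K := K), w ∉ S → ∀ i j,
      w (b i) * N0 w (x i) = w (b j) * N0 w (x j))
    (h2 : ∀ w ∈ S, ∀ i j, |Real.log (w (b i)) + Gw w i (x i) -
      (Real.log (w (b j)) + Gw w j (x j))| ≤ c) (i j : Fin 3) :
    zendOk S Gw i (x i) j (x j) (b i / b j) c := by
  refine ⟨div_ne_zero (hb i) (hb j), fun w hw hS => ?_, fun w hw => ?_⟩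
  · have h0 : w (b j) ≠ 0 := w.ne_zero (hb j)
    rw [map_div₀, div_mul_eq_mul_div, h1 w hw hS i j]
    field_simp
  · rw [map_div₀, Real.log_div (w.ne_zero (hb i)) (w.ne_zero (hb j))]
    have h := abs_le.1 (h2 w hw i j)
    rw [abs_le]
    constructor <;> linarith [h.1, h.2]

theorem zendOk_unit {K : Type} [Field K] [NumberField K] {S : Finset (AbsoluteValue K ℝ)}
    {ι : Type} [Fintype ι] {Gw : AbsoluteValue K ℝ → Fin 3 → (ι → K) → ℝ} {i : Fin 3}
    {x : ι → K} (hx : x ≠ 0) {β : K} {c : ℝ} (h : zendOk S Gw i x i x β c) :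
    β ≠ 0 ∧ (∀ w ∈ Height.AdmissibleAbsValues.nonarchAbsVal (K := K), w ∉ S → w β = 1) ∧
      ∀ w ∈ S, |Real.log (w β)| ≤ c := by
  refine ⟨h.1, fun w hw hS => ?_, fun w hw => ?_⟩
  · have h1 := h.2.1 w hw hS
    have h2 := (N0_pos w hx).ne'
    exact mul_right_cancel₀ h2 (by rw [h1, one_mul])
  · have := h.2.2 w hw
    rwa [add_sub_cancel_right] at this

open Classical in
theorem endl {K : Type} [Field K] [NumberField K] (S : Finset (AbsoluteValue K ℝ))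
    (harch : ∀ w ∈ Height.AdmissibleAbsValues.archAbsVal (K := K), w ∈ S) (C γ : ℝ)
    (hγ : 0 < γ) (Kc : ℕ) : ∃ γ' : ℝ, 0 < γ' ∧ ∀ {ι : Type} [Fintype ι] (G : Gal) (k : ℕ) (C0 : ℝ),
      G.Ax k C0 → ∀ (u : ℕ) (Cs : Finset Z2) (F : Lb → ι → K), G.LineC F →
      ∀ Gw : AbsoluteValue K ℝ → Fin 3 → (ι → K) → ℝ,
      (∀ z ∈ Cs, z ∈ box 0 u ∧ G.tp z = true) → γ * (u : ℝ) ^ 2 ≤ Cs.card →
      (∀ i, (Cs.image fun z => G.rep (G.tlab z i)).card ≤ Kc * u) →
      (∀ z ∈ Cs, ∀ i, F (G.tlab z i) ≠ 0) →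
      (∀ z ∈ Cs, ∃ b' : Fin 3 → K, (∀ i, b' i ≠ 0) ∧ ∑ i, b' i • F (G.tlab z i) = 0 ∧
        (∀ w ∈ Height.AdmissibleAbsValues.nonarchAbsVal (K := K), w ∉ S → ∀ i j,
          w (b' i) * N0 w (F (G.tlab z i)) = w (b' j) * N0 w (F (G.tlab z j))) ∧
        ∀ w ∈ S, ∀ i j, |Real.log (w (b' i)) + Gw w i (F (G.tlab z i)) -
          (Real.log (w (b' j)) + Gw w j (F (G.tlab z j)))| ≤ C) →
      ∃ Cs' ⊆ Cs, γ' * (u : ℝ) ^ 2 ≤ Cs'.card ∧ ∃ φ : Fin 3 → Lb → ι → K,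
        (∀ i, G.LineC (φ i)) ∧ (∀ z ∈ Cs', ∑ i, φ i (G.tlab z i) = 0) ∧
        ∀ z ∈ Cs', ∀ i, ∃ r : K, r ≠ 0 ∧ φ i (G.tlab z i) = r • F (G.tlab z i) := by
  have hfin := finite_units S harch (C + (C + C) + (C + C))
  set U := hfin.toFinset with hU
  refine ⟨γ ^ 2 / ((Kc : ℝ) + 1) ^ 2 / ((U.card : ℝ) + 1) ^ 3, by positivity, ?_⟩
  intro ι _ G k C0 hG u Cs F hF Gw hCs hγu hKc hne hb
  rcases Nat.eq_zero_or_pos u with hu | hu
  · refine ⟨∅, Finset.empty_subset _, by simp [hu], fun _ _ => 0, fun i l l' _ _ _ => rfl,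
      by simp, by simp⟩
  have hu' : (0 : ℝ) < u := by exact_mod_cast hu
  have hCne : Cs.Nonempty := by
    rw [← Finset.card_pos]
    have : (0 : ℝ) < Cs.card := lt_of_lt_of_le (by positivity) hγu
    exact_mod_cast this
  have hval : ∀ z ∈ Cs, ∀ i, G.valid (G.tlab z i) := fun z hz i =>
    (hG.tp_can z (hCs z hz).2 i).1
  have hFeq : ∀ z ∈ Cs, ∀ z' ∈ Cs, ∀ i, G.rep (G.tlab z i) = G.rep (G.tlab z' i) →
      F (G.tlab z i) = F (G.tlab z' i) := fun z hz z' hz' i h =>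
    hF _ _ (hval z hz i) (hval z' hz' i)
      ((Gal.rep_eq_iff hG (hval z hz i) (hval z' hz' i)).1 h)
  have hM : ∀ i, ((Cs.image fun z => G.rep (G.tlab z i)).card : ℝ) ≤ ((Kc : ℝ) + 1) * u := by
    intro i
    have h1 : ((Cs.image fun z => G.rep (G.tlab z i)).card : ℝ) ≤ (Kc : ℝ) * u := by
      exact_mod_cast hKc i
    nlinarith
  obtain ⟨z0, hz0, Cs1, hsub, hcard1, hstar⟩ := zend_star Cs hCne
    (fun z => G.rep (G.tlab z 0)) (fun z => G.rep (G.tlab z 1))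
    (fun z hz z' hz' h0 h1 => tp_inj hG (hCs z hz).2 (hCs z' hz').2 (by decide) h0 h1)
    _ (hM 0) (hM 1)
  choose! b hb0 hbs hb1 hb2 using hb
  have hcell : ∀ z ∈ Cs, ∀ i j, zendOk S Gw i (F (G.tlab z i)) j (F (G.tlab z j))
      (b z i / b z j) C := fun z hz i j =>
    zendOk_cell (x := fun i => F (G.tlab z i)) (hb0 z hz) (hb1 z hz) (hb2 z hz) i j
  have hex : ∀ z ∈ Cs1, ∀ i, ∃ β, zendOk S Gw i (F (G.tlab z i)) 1 (F (G.tlab z0 1)) β
      (C + C) := by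
    intro z hz i
    obtain ⟨z', hz', h0, h1⟩ := hstar z hz
    have e0 := hFeq z (hsub hz) z' hz' 0 h0
    have e1 := hFeq z' hz' z0 hz0 1 h1
    have k1 := hcell z (hsub hz) i 0
    have k2 := hcell z' hz' 0 1
    rw [← e0, e1] at k2
    exact ⟨_, zendOk_trans k1 k2⟩
  let β : Fin 3 → (ι → K) → K := fun i x =>
    if h : ∃ β, zendOk S Gw i x 1 (F (G.tlab z0 1)) β (C + C) then h.choose else 1
  have hβ : ∀ z ∈ Cs1, ∀ i, zendOk S Gw i (F (G.tlab z i)) 1 (F (G.tlab z0 1))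
      (β i (F (G.tlab z i))) (C + C) := by
    intro z hz i
    have h := hex z hz i
    simp only [β, dif_pos h]
    exact h.choose_spec
  let lam : Z2 → Fin 3 → K := fun z i =>
    b z i / b z 0 * β 0 (F (G.tlab z 0)) * (β i (F (G.tlab z i)))⁻¹
  have hlam : ∀ z ∈ Cs1, lam z ∈ Fintype.piFinset fun _ : Fin 3 => U := by
    intro z hz
    rw [Fintype.mem_piFinset]
    intro i
    rw [hU, Set.Finite.mem_toFinset]
    exact zendOk_unit (hne z (hsub hz) i)
      (zendOk_trans (zendOk_trans (hcell z (hsub hz) i 0) (hβ z hz 0)) (zendOk_symm (hβ z hz i)))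
  have hlow : γ ^ 2 / ((Kc : ℝ) + 1) ^ 2 * (u : ℝ) ^ 2 ≤ Cs1.card := by
    refine le_trans ?_ hcard1
    have h1 : (γ * (u : ℝ) ^ 2) ^ 2 ≤ (Cs.card : ℝ) ^ 2 :=
      pow_le_pow_left₀ (by positivity) hγu 2
    have h2 : γ ^ 2 / ((Kc : ℝ) + 1) ^ 2 * (u : ℝ) ^ 2
        = (γ * (u : ℝ) ^ 2) ^ 2 / (((Kc : ℝ) + 1) * u) ^ 2 := by
      field_simp
    rw [h2]
    exact div_le_div_of_nonneg_right h1 (by positivity)
  have hC1ne : Cs1.Nonempty := by
    rw [← Finset.card_pos]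
    have : (0 : ℝ) < Cs1.card := lt_of_lt_of_le (by positivity) hlow
    exact_mod_cast this
  obtain ⟨l0, -, hl0⟩ := zend_pig Cs1 (Fintype.piFinset fun _ : Fin 3 => U) lam hlam hC1ne
    (((U.card : ℝ) + 1) ^ 3) (by
      rw [Fintype.card_piFinset]
      simp only [Finset.prod_const, Finset.card_univ, Fintype.card_fin]
      push_cast
      exact pow_le_pow_left₀ (Nat.cast_nonneg _) (by linarith) 3)
  refine ⟨Cs1.filter fun z => lam z = l0, (Finset.filter_subset _ _).trans hsub, ?_,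
    fun i l => (l0 i * β i (F l)) • F l, ?_, ?_, ?_⟩
  · refine le_trans ?_ hl0
    rw [div_mul_eq_mul_div]
    exact div_le_div_of_nonneg_right hlow (by positivity)
  · intro i l l' hl hl' hs
    simp only [hF l l' hl hl' hs]
  · intro z hz
    obtain ⟨hz1, hz2⟩ := Finset.mem_filter.1 hz
    have h1 : ∀ i, l0 i * β i (F (G.tlab z i)) = β 0 (F (G.tlab z 0)) / b z 0 * b z i := by
      intro i
      have := (hβ z hz1 i).1
      rw [← hz2]
      simp only [lam]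
      field_simp
    simp only [h1, mul_smul]
    rw [← Finset.smul_sum, hbs z (hsub hz1), smul_zero]
  · intro z hz i
    obtain ⟨hz1, hz2⟩ := Finset.mem_filter.1 hz
    refine ⟨l0 i * β i (F (G.tlab z i)), mul_ne_zero ?_ (hβ z hz1 i).1, rfl⟩
    rw [← hz2]
    exact mul_ne_zero (mul_ne_zero (div_ne_zero (hb0 z (hsub hz1) i) (hb0 z (hsub hz1) 0))
      (hβ z hz1 0).1) (inv_ne_zero (hβ z hz1 i).1)

end ECub.Z
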