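import Pool.Agent.P.MP_029dcd_co.F.Z.ZGauge_a

/-! Phase 2: the three cases of the gauge construction. -/

set_option autoImplicit false
set_option linter.unusedSectionVars false

namespace ECub.Z

open CubicStab MeasureTheory Filter Topology Finset
open scoped ENNReal

variable {ι : Type} [Fintype ι] {K : Type} [Field K] {G : Gal} {a : Lb → Prop}

/-- the gauges `Gw` fit all relations between the three vectors `x` -/
def zgauge_ok (w : AbsoluteValue K ℝ) (Gw : Fin 3 → (ι → K) → ℝ) (Cst : ℝ)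
    (x : Fin 3 → ι → K) : Prop :=
  ∀ b' : Fin 3 → K, (∀ i, b' i ≠ 0) → ∑ i, b' i • x i = 0 → ∀ i j,
    |Real.log (w (b' i)) + Gw i (x i) - (Real.log (w (b' j)) + Gw j (x j))| ≤ 4 * Cst

theorem zgauge_four (X : Fin 3 → ℝ) (Y C : ℝ) (h : ∀ i, |X i - Y| ≤ 2 * C) (i j : Fin 3) :
    |X i - X j| ≤ 4 * C := by
  have h1 := abs_le.1 (h i)
  have h2 := abs_le.1 (h j)
  rw [abs_le]
  constructor <;> linarith [h1.1, h1.2, h2.1, h2.2]

theorem zgauge_sum3 {M : Type} [AddCommMonoid M] {i j l : Fin 3} (hij : i ≠ j) (hil : i ≠ l)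
    (hjl : j ≠ l) (g : Fin 3 → M) : ∑ m, g m = g i + g j + g l := by
  rw [Fin.sum_univ_three]
  fin_cases i <;> fin_cases j <;> fin_cases l <;> first
    | exact absurd rfl hij
    | exact absurd rfl hil
    | exact absurd rfl hjl
    | (simp only [Fin.zero_eta, Fin.mk_one, Fin.reduceFinMk]; try abel)

theorem zgauge_all3 {i j l : Fin 3} (hij : i ≠ j) (hil : i ≠ l) (hjl : j ≠ l) (m : Fin 3) :
    m = i ∨ m = j ∨ m = l := by
  revert i j l m
  decide

theorem zgauge_sn {ι' : Type} [Fintype ι'] (w : AbsoluteValue K ℝ) (h : (ι → K) → ι' → K)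
    (h1 : ∀ (c : K) x, h (c • x) = c • h x) (h2 : ∀ x y, h (x + y) = h x + h y) :
    IsSN w fun x => N0 w (h x) :=
  ⟨fun x => (N0_isSN w).nonneg _, fun c x => by rw [h1]; exact (N0_isSN w).smul _ _,
    fun x y => by rw [h2]; exact (N0_isSN w).add _ _⟩

theorem zgauge_snf (w : AbsoluteValue K ℝ) (χ : (ι → K) →ₗ[K] K) : IsSN w fun x => w (χ x) :=
  ⟨fun x => w.nonneg _, fun c x => by rw [map_smul, smul_eq_mul, map_mul],
    fun x y => by rw [map_add]; exact w.add_le _ _⟩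

/-- the wedge product in coordinates -/
def zgauge_wd (x y : ι → K) : ι × ι → K := fun p => x p.1 * y p.2 - x p.2 * y p.1

theorem zgauge_wd_ne {x y : ι → K} (hy : y ≠ 0) (h : ∀ r : K, x ≠ r • y) :
    zgauge_wd x y ≠ 0 ∧ zgauge_wd y x ≠ 0 := by
  obtain ⟨k, hk⟩ := Function.ne_iff.1 hy
  have hk' : y k ≠ 0 := hk
  constructor
  · intro h0
    apply h (x k / y k)
    funext l
    have := congrFun h0 (k, l)
    simp only [zgauge_wd, Pi.zero_apply] at this
    simp only [Pi.smul_apply, smul_eq_mul]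
    field_simp
    linear_combination -this
  · intro h0
    apply h (x k / y k)
    funext l
    have := congrFun h0 (k, l)
    simp only [zgauge_wd, Pi.zero_apply] at this
    simp only [Pi.smul_apply, smul_eq_mul]
    field_simp
    linear_combination this

theorem zgauge_logeq {p q r s : ℝ} (hp : 0 < p) (hq : 0 < q) (hr : 0 < r) (hs : 0 < s)
    (h : p * q = r * s) : Real.log p + Real.log q = Real.log r + Real.log s := by
  rw [← Real.log_mul hp.ne' hq.ne', ← Real.log_mul hr.ne' hs.ne', h]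

theorem zgauge_N0_neg (w : AbsoluteValue K ℝ) (x : ι → K) : N0 w (-x) = N0 w x := by
  have := (N0_isSN w).smul (-1 : K) x
  rw [neg_one_smul] at this
  rw [this]
  simp

open Classical in
theorem zgauge_fin {w : AbsoluteValue K ℝ} {F : Lb → ι → K} {u : ℕ} {Cst M : ℝ}
    (Gw : Fin 3 → (ι → K) → ℝ) (Bd : Finset Z2) (hB : (Bd.card : ℝ) ≤ M)
    (h : ∀ z ∈ box 0 u, G.tp z = true → (∀ i, a (G.tlab z i)) → z ∉ Bd →
      zgauge_ok w Gw Cst fun i => F (G.tlab z i)) :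
    (((box 0 u).filter fun z => G.tp z = true ∧ (∀ i, a (G.tlab z i)) ∧
      ¬ zgauge_ok w Gw Cst fun i => F (G.tlab z i)).card : ℝ) ≤ M := by
  refine le_trans ?_ hB
  have : ((box 0 u).filter fun z => G.tp z = true ∧ (∀ i, a (G.tlab z i)) ∧
      ¬ zgauge_ok w Gw Cst fun i => F (G.tlab z i)) ⊆ Bd := by
    intro z hz
    obtain ⟨h1, h2, h3, h4⟩ := mem_filter.1 hz
    by_contra hn
    exact h4 (h z h1 h2 h3 hn)
  exact_mod_cast card_le_card this

open Classical in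
theorem zgauge_caseA {k : ℕ} {C : ℝ} (hG : G.Ax k C) (ha : G.LineC a) {F : Lb → ι → K}
    (hF : G.LineC F) {Uh : Fin 3 → Set (ι → K)}
    (hne : ∀ l, G.valid l → a l → F l ≠ 0) {w : AbsoluteValue K ℝ} {u : ℕ} (hu : 1 ≤ u)
    {c1 C1 Cst e2 : ℝ} (hc1 : 0 < c1) (he2 : 0 ≤ e2) (hcnt : ∀ i, Cnt G a i 0 u c1 C1)
    (htl : ∀ i, TLP G a i F w (Uh i) u Cst e2)
    (hnp : ∀ i, ∀ y : ι → K, ∃ x ∈ Uh i, ∀ r : K, x ≠ r • y) :
    ∃ Gw : Fin 3 → (ι → K) → ℝ, (((box 0 u).filter fun z => G.tp z = true ∧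
      (∀ i, a (G.tlab z i)) ∧ ¬ zgauge_ok w Gw Cst fun i => F (G.tlab z i)).card : ℝ)
      ≤ 6 * (C1 ^ 2 / c1 ^ 2) * e2 * (u : ℝ) ^ 2 := by
  have hV : ∀ i, ∀ p ∈ Vis G a i 0 u, F p ≠ 0 := fun i p hp =>
    hne p (of_mem_Vis hG ha hp).1 (of_mem_Vis hG ha hp).2.1
  have hN : ∀ i, ∃ x ∈ Uh i, N0 w x ≠ 0 := by
    intro i
    obtain ⟨x, hx, h⟩ := hnp i 0
    refine ⟨x, hx, (N0_pos w ?_).ne'⟩
    simpa using h 0
  have key : ∀ i j : Fin 3, ∃ κ : ℝ, ∃ Ex : Finset (Lb × Lb),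
      (Ex.card : ℝ) ≤ 2 * (C1 ^ 2 / c1 ^ 2) * e2 * (u : ℝ) ^ 2 ∧
      ∀ p ∈ Vis G a i 0 u, ∀ q ∈ Vis G a j 0 u, (p, q) ∉ Ex →
        0 < N0 w (zgauge_wd (F p) (F q)) ∧ 0 < N0 w (F p) ∧ 0 < N0 w (F q) ∧
        |Real.log (N0 w (zgauge_wd (F p) (F q))) - Real.log (N0 w (F p)) -
          Real.log (N0 w (F q)) - κ| ≤ 2 * Cst := by
    intro i j
    refine zgauge_conc (Bf := fun x y => N0 w (zgauge_wd x y)) hu hc1 he2 (hcnt i) (hcnt j)
      (htl i) (htl j) (N0_isSN w) (N0_isSN w) ?_ ?_ (hN i) (hN j) ?_ ?_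
    · intro y
      refine zgauge_sn w (fun x => zgauge_wd x y) ?_ ?_
      · intro c x; funext p; simp only [zgauge_wd, Pi.smul_apply, smul_eq_mul]; ring
      · intro x x'; funext p; simp only [zgauge_wd, Pi.add_apply]; ring
    · intro x
      refine zgauge_sn w (fun y => zgauge_wd x y) ?_ ?_
      · intro c y; funext p; simp only [zgauge_wd, Pi.smul_apply, smul_eq_mul]; ring
      · intro y y'; funext p; simp only [zgauge_wd, Pi.add_apply]; ring
    · intro q hq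
      obtain ⟨x, hx, h⟩ := hnp i (F q)
      exact ⟨x, hx, (N0_pos w (zgauge_wd_ne (hV j q hq) h).1).ne'⟩
    · intro p hp
      obtain ⟨y, hy, h⟩ := hnp j (F p)
      exact ⟨y, hy, (N0_pos w (zgauge_wd_ne (hV i p hp) h).2).ne'⟩
  obtain ⟨κ12, E12, c12, h12⟩ := key 1 2
  obtain ⟨κ02, E02, c02, h02⟩ := key 0 2
  obtain ⟨κ01, E01, c01, h01⟩ := key 0 1
  refine ⟨fun i x => Real.log (N0 w x) - ![κ12, κ02, κ01] i, ?_⟩
  refine zgauge_fin _
    (((box 0 u).filter fun z => G.tp z = true ∧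
      (G.rep (G.tlab z 1), G.rep (G.tlab z 2)) ∈ E12) ∪
     ((box 0 u).filter fun z => G.tp z = true ∧
      (G.rep (G.tlab z 0), G.rep (G.tlab z 2)) ∈ E02) ∪
     ((box 0 u).filter fun z => G.tp z = true ∧
      (G.rep (G.tlab z 0), G.rep (G.tlab z 1)) ∈ E01)) ?_ ?_
  · have t1 := zgauge_cells2 hG u (i := 1) (j := 2) (by decide) E12
    have t2 := zgauge_cells2 hG u (i := 0) (j := 2) (by decide) E02
    have t3 := zgauge_cells2 hG u (i := 0) (j := 1) (by decide) E01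
    have t4 := (card_union_le _ _).trans (add_le_add ((card_union_le _ _).trans
      (add_le_add t1 t2)) t3)
    have t5 := (Nat.cast_le (α := ℝ)).2 t4
    push_cast at t5
    linarith
  · intro z hz ht haz hn b' hb' hrel
    have m0 := zgauge_mem hG hF hz ht (haz 0)
    have m1 := zgauge_mem hG hF hz ht (haz 1)
    have m2 := zgauge_mem hG hF hz ht (haz 2)
    simp only [mem_union, mem_filter, not_or] at hn
    have a12 := h12 _ m1.1 _ m2.1 fun h => hn.1.1 ⟨hz, ht, h⟩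
    have a02 := h02 _ m0.1 _ m2.1 fun h => hn.1.2 ⟨hz, ht, h⟩
    have a01 := h01 _ m0.1 _ m1.1 fun h => hn.2 ⟨hz, ht, h⟩
    rw [m1.2, m2.2] at a12
    rw [m0.2, m2.2] at a02
    rw [m0.2, m1.2] at a01
    rw [Fin.sum_univ_three] at hrel
    beta_reduce at hrel
    set x0 := F (G.tlab z 0) with hx0
    set x1 := F (G.tlab z 1) with hx1
    set x2 := F (G.tlab z 2) with hx2
    have r1 : b' 0 • zgauge_wd x0 x2 = -(b' 1 • zgauge_wd x1 x2) := by
      funext p
      have e1 := congrFun hrel p.1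
      have e2 := congrFun hrel p.2
      simp only [Pi.add_apply, Pi.smul_apply, smul_eq_mul, Pi.zero_apply] at e1 e2
      simp only [zgauge_wd, Pi.smul_apply, Pi.neg_apply, smul_eq_mul]
      linear_combination x2 p.2 * e1 - x2 p.1 * e2
    have r2 : b' 0 • zgauge_wd x0 x1 = b' 2 • zgauge_wd x1 x2 := by
      funext p
      have e1 := congrFun hrel p.1
      have e2 := congrFun hrel p.2
      simp only [Pi.add_apply, Pi.smul_apply, smul_eq_mul, Pi.zero_apply] at e1 e2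
      simp only [zgauge_wd, Pi.smul_apply, smul_eq_mul]
      linear_combination x1 p.2 * e1 - x1 p.1 * e2
    have n1 := congrArg (N0 w) r1
    have n2 := congrArg (N0 w) r2
    rw [zgauge_N0_neg, (N0_isSN w).smul, (N0_isSN w).smul] at n1
    rw [(N0_isSN w).smul, (N0_isSN w).smul] at n2
    have l1 := zgauge_logeq (w.pos (hb' 0)) a02.1 (w.pos (hb' 1)) a12.1 n1
    have l2 := zgauge_logeq (w.pos (hb' 0)) a01.1 (w.pos (hb' 2)) a12.1 n2
    refine zgauge_four (fun i => Real.log (w (b' i)) +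
      (Real.log (N0 w (F (G.tlab z i))) - ![κ12, κ02, κ01] i))
      (Real.log (w (b' 0)) + Real.log (N0 w x0) + Real.log (N0 w x1) + Real.log (N0 w x2) -
        Real.log (N0 w (zgauge_wd x1 x2))) Cst ?_
    intro i
    fin_cases i
    · refine le_of_eq_of_le ?_ a12.2.2.2
      congr 1
      show Real.log (w (b' 0)) + (Real.log (N0 w x0) - κ12) - _ = _
      ring
    · refine le_of_eq_of_le ?_ a02.2.2.2
      congr 1
      show Real.log (w (b' 1)) + (Real.log (N0 w x1) - κ02) - _ = _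
      linarith
    · refine le_of_eq_of_le ?_ a01.2.2.2
      congr 1
      show Real.log (w (b' 2)) + (Real.log (N0 w x2) - κ01) - _ = _
      linarith

open Classical in
theorem zgauge_caseB {k : ℕ} {C : ℝ} (hG : G.Ax k C) (ha : G.LineC a) {F : Lb → ι → K}
    (hF : G.LineC F) {i j l : Fin 3} (hij : i ≠ j) (hil : i ≠ l) (hjl : j ≠ l)
    {Uj Ul : Set (ι → K)} (hne : ∀ l, G.valid l → a l → F l ≠ 0) {w : AbsoluteValue K ℝ}
    {u : ℕ} (hu : 1 ≤ u) {c1 C1 Cst e2 : ℝ} (hc1 : 0 < c1) (hCst : 0 ≤ Cst) (he2 : 0 ≤ e2)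
    (hcj : Cnt G a j 0 u c1 C1) (hcl : Cnt G a l 0 u c1 C1) (htj : TLP G a j F w Uj u Cst e2)
    (htl : TLP G a l F w Ul u Cst e2) (χ : (ι → K) →ₗ[K] K)
    (hχ : ∀ p, G.valid p → a p → G.fam p = i → χ (F p) = 0) (hχj : ∃ x ∈ Uj, χ x ≠ 0)
    (hχl : ∃ x ∈ Ul, χ x ≠ 0) (hnj : ∀ y : ι → K, ∃ x ∈ Uj, ∀ r : K, x ≠ r • y)
    (hnl : ∀ y : ι → K, ∃ x ∈ Ul, ∀ r : K, x ≠ r • y) :
    ∃ Gw : Fin 3 → (ι → K) → ℝ, (((box 0 u).filter fun z => G.tp z = true ∧
      (∀ i, a (G.tlab z i)) ∧ ¬ zgauge_ok w Gw Cst fun i => F (G.tlab z i)).card : ℝ)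
      ≤ 2 * (C1 ^ 2 / c1 ^ 2) * e2 * (u : ℝ) ^ 2 := by
  have hV : ∀ i, ∀ p ∈ Vis G a i 0 u, F p ≠ 0 := fun i p hp =>
    hne p (of_mem_Vis hG ha hp).1 (of_mem_Vis hG ha hp).2.1
  have nv : ∀ Uh : Set (ι → K), (∃ x ∈ Uh, χ x ≠ 0) →
      (∀ y : ι → K, ∃ x ∈ Uh, ∀ r : K, x ≠ r • y) → ∀ y : ι → K, y ≠ 0 →
      ∃ x ∈ Uh, χ y • x - χ x • y ≠ 0 := by
    intro Uh h1 h2 y hy
    by_cases hc : χ y = 0
    · obtain ⟨x, hx, h⟩ := h1
      refine ⟨x, hx, ?_⟩
      rw [hc, zero_smul, zero_sub, neg_ne_zero]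
      exact smul_ne_zero h hy
    · obtain ⟨x, hx, h⟩ := h2 y
      refine ⟨x, hx, fun h0 => h (χ x / χ y) ?_⟩
      rw [sub_eq_zero] at h0
      rw [div_eq_inv_mul, mul_smul, ← h0, smul_smul, inv_mul_cancel₀ hc, one_smul]
  obtain ⟨κ, Ex, hEx, hgood⟩ := zgauge_conc (Bf := fun x y => N0 w (χ y • x - χ x • y)) hu hc1
    he2 hcj hcl htj htl (zgauge_snf w χ) (zgauge_snf w χ)
    (fun y => zgauge_sn w (fun x => χ y • x - χ x • y)
      (fun c x => by rw [map_smul, smul_sub, smul_comm (χ y) c x, smul_assoc])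
      (fun x x' => by rw [map_add, smul_add, add_smul]; abel))
    (fun x => zgauge_sn w (fun y => χ y • x - χ x • y)
      (fun c y => by rw [map_smul, smul_sub, smul_comm (χ x) c y, smul_assoc])
      (fun y y' => by rw [map_add, smul_add, add_smul]; abel))
    (by obtain ⟨x, hx, h⟩ := hχj; exact ⟨x, hx, (w.pos h).ne'⟩)
    (by obtain ⟨x, hx, h⟩ := hχl; exact ⟨x, hx, (w.pos h).ne'⟩)
    (fun q hq => by
      obtain ⟨x, hx, h⟩ := nv Uj hχj hnj _ (hV l q hq)
      exact ⟨x, hx, (N0_pos w h).ne'⟩)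
    (fun p hp => by
      obtain ⟨y, hy, h⟩ := nv Ul hχl hnl _ (hV j p hp)
      refine ⟨y, hy, (N0_pos w ?_).ne'⟩
      rw [← neg_sub]
      exact neg_ne_zero.2 h)
  refine ⟨fun m x => if m = i then Real.log (N0 w x) - κ else Real.log (w (χ x)), ?_⟩
  refine zgauge_fin _ ((box 0 u).filter fun z => G.tp z = true ∧
      (G.rep (G.tlab z j), G.rep (G.tlab z l)) ∈ Ex) ?_ ?_
  · exact le_trans (by exact_mod_cast zgauge_cells2 hG u hjl Ex) hEx
  · intro z hz ht haz hn b' hb' hrel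
    have mj := zgauge_mem hG hF hz ht (haz j)
    have ml := zgauge_mem hG hF hz ht (haz l)
    have ag := hgood _ mj.1 _ ml.1 fun h => hn (mem_filter.2 ⟨hz, ht, h⟩)
    rw [mj.2, ml.2] at ag
    rw [zgauge_sum3 hij hil hjl] at hrel
    beta_reduce at hrel
    have hci := hG.tp_can z ht i
    have h0 : χ (F (G.tlab z i)) = 0 := hχ _ hci.1 (haz i) hci.2.1
    have hxi : F (G.tlab z i) ≠ 0 := hne _ hci.1 (haz i)
    set xi := F (G.tlab z i) with hxi'
    set xj := F (G.tlab z j) with hxj'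
    set xl := F (G.tlab z l) with hxl'
    have r1 : b' j * χ xj = -(b' l * χ xl) := by
      have := congrArg χ hrel
      simp only [map_add, map_smul, smul_eq_mul, map_zero, h0] at this
      linear_combination this
    have r2 : (χ xl * b' i) • xi = -(b' j • (χ xl • xj - χ xj • xl)) := by
      funext p
      have e1 := congrFun hrel p
      simp only [Pi.add_apply, Pi.smul_apply, smul_eq_mul, Pi.zero_apply] at e1
      simp only [Pi.smul_apply, Pi.neg_apply, Pi.sub_apply, smul_eq_mul]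
      linear_combination χ xl * e1 - xl p * r1
    have n1 : w (b' j) * w (χ xj) = w (b' l) * w (χ xl) := by
      rw [← map_mul, ← map_mul, r1, AbsoluteValue.map_neg]
    have n2 := congrArg (N0 w) r2
    rw [zgauge_N0_neg, (N0_isSN w).smul, (N0_isSN w).smul, map_mul] at n2
    have l1 := zgauge_logeq (w.pos (hb' j)) ag.2.1 (w.pos (hb' l)) ag.2.2.1 n1
    have l2 := zgauge_logeq (mul_pos ag.2.2.1 (w.pos (hb' i))) (N0_pos w hxi) (w.pos (hb' j))
      ag.1 n2
    rw [Real.log_mul ag.2.2.1.ne' (w.pos (hb' i)).ne'] at l2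
    refine zgauge_four (fun m => Real.log (w (b' m)) +
      (if m = i then Real.log (N0 w (F (G.tlab z m))) - κ else Real.log (w (χ (F (G.tlab z m))))))
      (Real.log (w (b' j)) + Real.log (w (χ xj))) Cst ?_
    intro m
    rcases zgauge_all3 hij hil hjl m with rfl | rfl | rfl
    · rw [if_pos rfl]
      refine le_of_eq_of_le ?_ ag.2.2.2
      congr 1
      linarith
    · rw [if_neg hij.symm, sub_self, abs_zero]
      positivity
    · rw [if_neg hil.symm, ← l1, sub_self, abs_zero]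
      positivity

open Classical in
theorem zgauge_caseC {k : ℕ} {C : ℝ} (hG : G.Ax k C) {F : Lb → ι → K}
    (hF : G.LineC F) {i j l : Fin 3} (hij : i ≠ j) (hil : i ≠ l) (hjl : j ≠ l)
    {Ul : Set (ι → K)} {w : AbsoluteValue K ℝ}
    {u : ℕ} (hu : 1 ≤ u) {c1 C1 Cst e2 : ℝ} (hc1 : 0 < c1) (hCst : 0 ≤ Cst) (he2 : 0 ≤ e2)
    (hcl : Cnt G a l 0 u c1 C1) (htl : TLP G a l F w Ul u Cst e2) (χ χ' : (ι → K) →ₗ[K] K)
    (hχ : ∀ p, G.valid p → a p → G.fam p = i → χ (F p) = 0)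
    (hχ' : ∀ p, G.valid p → a p → G.fam p = j → χ' (F p) = 0) (hχl : ∃ x ∈ Ul, χ x ≠ 0)
    (hχl' : ∃ x ∈ Ul, χ' x ≠ 0) :
    ∃ Gw : Fin 3 → (ι → K) → ℝ, (((box 0 u).filter fun z => G.tp z = true ∧
      (∀ i, a (G.tlab z i)) ∧ ¬ zgauge_ok w Gw Cst fun i => F (G.tlab z i)).card : ℝ)
      ≤ 3 * (1 / c1) * e2 * (u : ℝ) ^ 2 := by
  obtain ⟨κ, Ex, hEx, hgood⟩ := zgauge_tl hu hc1 he2 hcl htl (zgauge_snf w χ) (zgauge_snf w χ')
    (by obtain ⟨x, hx, h⟩ := hχl; exact ⟨x, hx, (w.pos h).ne'⟩)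
    (by obtain ⟨x, hx, h⟩ := hχl'; exact ⟨x, hx, (w.pos h).ne'⟩)
  refine ⟨fun m x => if m = i then Real.log (w (χ' x)) + κ else Real.log (w (χ x)), ?_⟩
  refine zgauge_fin _ ((box 0 u).filter fun z => G.tp z = true ∧ G.rep (G.tlab z l) ∈ Ex) ?_ ?_
  · have t1 := (Nat.cast_le (α := ℝ)).2 (zgauge_cells1 hG u l Ex)
    push_cast at t1
    have hu1 : (1 : ℝ) ≤ u := by exact_mod_cast hu
    have t2 : (2 * (u : ℝ) + 1) * Ex.card ≤ 3 * u * (e2 / c1 * u) :=
      mul_le_mul (by linarith) hEx (by positivity) (by positivity)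
    refine t1.trans (t2.trans (le_of_eq ?_))
    ring
  · intro z hz ht haz hn b' hb' hrel
    have ml := zgauge_mem hG hF hz ht (haz l)
    have ag := hgood _ ml.1 fun h => hn (mem_filter.2 ⟨hz, ht, h⟩)
    rw [ml.2] at ag
    rw [zgauge_sum3 hij hil hjl] at hrel
    beta_reduce at hrel
    have hci := hG.tp_can z ht i
    have hcj := hG.tp_can z ht j
    have h0 : χ (F (G.tlab z i)) = 0 := hχ _ hci.1 (haz i) hci.2.1
    have h0' : χ' (F (G.tlab z j)) = 0 := hχ' _ hcj.1 (haz j) hcj.2.1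
    set xi := F (G.tlab z i) with hxi'
    set xj := F (G.tlab z j) with hxj'
    set xl := F (G.tlab z l) with hxl'
    have r1 : b' j * χ xj = -(b' l * χ xl) := by
      have := congrArg χ hrel
      simp only [map_add, map_smul, smul_eq_mul, map_zero, h0] at this
      linear_combination this
    have r2 : b' i * χ' xi = -(b' l * χ' xl) := by
      have := congrArg χ' hrel
      simp only [map_add, map_smul, smul_eq_mul, map_zero, h0'] at this
      linear_combination this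
    have n1 : w (b' j) * w (χ xj) = w (b' l) * w (χ xl) := by
      rw [← map_mul, ← map_mul, r1, AbsoluteValue.map_neg]
    have n2 : w (b' i) * w (χ' xi) = w (b' l) * w (χ' xl) := by
      rw [← map_mul, ← map_mul, r2, AbsoluteValue.map_neg]
    have p1 : 0 < w (χ xj) := by
      have : 0 < w (b' j) * w (χ xj) := n1 ▸ mul_pos (w.pos (hb' l)) ag.1
      exact (mul_pos_iff_of_pos_left (w.pos (hb' j))).1 this
    have p2 : 0 < w (χ' xi) := by
      have : 0 < w (b' i) * w (χ' xi) := n2 ▸ mul_pos (w.pos (hb' l)) ag.2.1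
      exact (mul_pos_iff_of_pos_left (w.pos (hb' i))).1 this
    have l1 := zgauge_logeq (w.pos (hb' j)) p1 (w.pos (hb' l)) ag.1 n1
    have l2 := zgauge_logeq (w.pos (hb' i)) p2 (w.pos (hb' l)) ag.2.1 n2
    refine zgauge_four (fun m => Real.log (w (b' m)) +
      (if m = i then Real.log (w (χ' (F (G.tlab z m)))) + κ
        else Real.log (w (χ (F (G.tlab z m))))))
      (Real.log (w (b' l)) + Real.log (w (χ xl))) Cst ?_
    intro m
    rcases zgauge_all3 hij hil hjl m with rfl | rfl | rfl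
    · rw [if_pos rfl]
      have := abs_le.1 ag.2.2
      rw [abs_le]
      constructor <;> linarith [this.1, this.2]
    · rw [if_neg hij.symm, l1, sub_self, abs_zero]
      positivity
    · rw [if_neg hil.symm, sub_self, abs_zero]
      positivity

end ECub.Z
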