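import Pool.Agent.P.MP_029dcd_co.F.Z.ZDefs

/-! Linear algebra over a subfield of the reals; seminorms. -/

set_option autoImplicit false

namespace ECub.Z

open CubicStab MeasureTheory Filter Topology Finset
open scoped ENNReal

variable {ι : Type} [Fintype ι] {K : Type} [Field K]

theorem zlina_le (w : AbsoluteValue K ℝ) (x : ι → K) (k : ι) : w (x k) ≤ N0 w x :=
  le_ciSup (f := fun k => w (x k)) (Finite.bddAbove_range _) k

theorem zlina_N0_le (w : AbsoluteValue K ℝ) {x : ι → K} {M : ℝ} (hM : 0 ≤ M)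
    (h : ∀ k, w (x k) ≤ M) : N0 w x ≤ M :=
  Real.iSup_le h hM

theorem zlina_nonneg (w : AbsoluteValue K ℝ) (x : ι → K) : 0 ≤ N0 w x :=
  Real.iSup_nonneg fun _ => w.nonneg _

theorem N0_isSN (w : AbsoluteValue K ℝ) : IsSN w (N0 w : (ι → K) → ℝ) := by
  refine ⟨zlina_nonneg w, fun c x => ?_, fun x y => ?_⟩
  · unfold N0
    rw [Real.mul_iSup_of_nonneg (w.nonneg c)]
    exact iSup_congr fun k => w.map_mul c (x k)
  · exact zlina_N0_le w (add_nonneg (zlina_nonneg w x) (zlina_nonneg w y)) fun k =>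
      (w.add_le _ _).trans (add_le_add (zlina_le w x k) (zlina_le w y k))

theorem N0_pos (w : AbsoluteValue K ℝ) {x : ι → K} (hx : x ≠ 0) : 0 < N0 w x := by
  obtain ⟨k, hk⟩ := Function.ne_iff.1 hx
  exact (w.pos hk).trans_le (zlina_le w x k)

theorem N0_ultra {w : AbsoluteValue K ℝ} (hw : IsNonarchimedean w) (x y : ι → K) :
    N0 w (x + y) ≤ max (N0 w x) (N0 w y) := by
  exact zlina_N0_le w ((zlina_nonneg w x).trans (le_max_left _ _)) fun k =>
    (hw _ _).trans (max_le_max (zlina_le w x k) (zlina_le w y k))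

theorem IsSN.comp {w : AbsoluteValue K ℝ} {σ : (ι → K) → ℝ} (hσ : IsSN w σ)
    (h : (ι → K) →ₗ[K] (ι → K)) : IsSN w fun x => σ (h x) := by
  exact ⟨fun x => hσ.nonneg _, fun c x => by rw [map_smul, hσ.smul],
    fun x y => by rw [map_add]; exact hσ.add _ _⟩

theorem zlina_rel {w : AbsoluteValue K ℝ} {𝓣 : Finset (ι → K)} (hC : GoodAt w 𝓣 1)
    {x y z : ι → K} (hx : x ∈ 𝓣) (hy : y ∈ 𝓣) (hz : z ∈ 𝓣) (hxy : ∀ r : K, x ≠ r • y)
    (hyx : ∀ r : K, y ≠ r • x) {a b c : K} (h : a • x + b • y + c • z = 0) : w a ≤ w c := by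
  classical
  have hne : x ≠ y := fun e => hxy 1 (by rw [one_smul]; exact e)
  have hx0 : x ≠ 0 := fun e => hxy 0 (by rw [zero_smul]; exact e)
  have h1 := hC.coef {x, y} (insert_subset hx (singleton_subset_iff.2 hy))
    (by rw [coe_pair]; exact linearIndepOn_id_pair hx0 fun r => (hyx r).symm)
    (fun v => if v = x then a else b) x (mem_insert_self _ _)
  rw [sum_pair hne, if_pos rfl, if_neg hne.symm, one_mul, eq_neg_of_add_eq_zero_left h, ← neg_smul,
    (N0_isSN w).smul, w.map_neg] at h1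
  exact h1.trans (mul_le_of_le_one_right (w.nonneg c) (hC.le z hz))

/-- at a good place the coefficients of a relation between three vectors have equal size -/
theorem GoodAt.rel {w : AbsoluteValue K ℝ} {𝓣 : Finset (ι → K)} (hC : GoodAt w 𝓣 1)
    (x : Fin 3 → ι → K) (hx : ∀ i, x i ∈ 𝓣) (hind : ∀ i j, i ≠ j → ∀ r : K, x i ≠ r • x j)
    (b : Fin 3 → K) (hb : ∀ i, b i ≠ 0) (h : ∑ i, b i • x i = 0) (i j : Fin 3) :
    w (b i) = w (b j) := by
  rw [Fin.sum_univ_three] at h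
  have key : ∀ i j k : Fin 3, i ≠ j → b i • x i + b j • x j + b k • x k = 0 →
      w (b i) ≤ w (b k) := fun i j k hij h =>
    zlina_rel hC (hx i) (hx j) (hx k) (hind i j hij) (hind j i hij.symm) h
  have h02 := key 0 1 2 (by decide) h
  have h21 := key 2 0 1 (by decide) (by rw [← h]; abel)
  have h10 := key 1 2 0 (by decide) (by rw [← h]; abel)
  have e : ∀ i, w (b i) = w (b 0) := fun i => by
    fin_cases i
    · rfl
    · exact le_antisymm h10 (h02.trans h21)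
    · exact le_antisymm (h21.trans h10) h02
  rw [e i, e j]

variable [Algebra K ℝ]

/-- a linear functional applied to all coordinates -/
def zlina_P (φ : ℝ →ₗ[K] K) : (ι → ℝ) →+ ι → K where
  toFun v k := φ (v k)
  map_zero' := funext fun _ => map_zero φ
  map_add' _ _ := funext fun _ => map_add φ _ _

omit [Fintype ι] in
theorem zlina_P_smul (φ : ℝ →ₗ[K] K) (c : ℝ) (x : ι → K) :
    zlina_P φ (c • cv x) = φ c • x := by
  funext k
  show φ (c * algebraMap K ℝ (x k)) = φ c * x k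
  rw [mul_comm c, ← Algebra.smul_def, map_smul, smul_eq_mul, mul_comm]

theorem zlina_exists {r : ℝ} (hr : r ≠ 0) : ∃ φ : ℝ →ₗ[K] K, φ r = 1 := by
  obtain ⟨φ, hφ⟩ := not_forall.1 fun h => hr ((Module.forall_dual_apply_eq_zero_iff K r).1 h)
  exact ⟨(φ r)⁻¹ • φ, by rw [LinearMap.smul_apply, smul_eq_mul, inv_mul_cancel₀ hφ]⟩

omit [Fintype ι] in
theorem zlina_P_cv {φ : ℝ →ₗ[K] K} (hφ : φ 1 = 1) (x : ι → K) : zlina_P φ (cv x) = x := by
  have h := zlina_P_smul φ 1 x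
  rwa [one_smul, hφ, one_smul] at h

omit [Fintype ι] in
theorem zlina_P_mem (φ : ℝ →ₗ[K] K) (s : Set (ι → K)) {v : ι → ℝ}
    (hv : v ∈ Submodule.span ℝ (cv '' s)) : zlina_P φ v ∈ Submodule.span K s := by
  have key : ∀ c : ℝ, zlina_P φ (c • v) ∈ Submodule.span K s := by
    induction hv using Submodule.span_induction with
    | mem v hv =>
      obtain ⟨x, hx, rfl⟩ := hv
      intro c
      rw [zlina_P_smul]
      exact Submodule.smul_mem _ _ (Submodule.subset_span hx)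
    | zero =>
      intro c
      rw [smul_zero, map_zero]
      exact zero_mem _
    | add u v _ _ hu hv =>
      intro c
      rw [smul_add, map_add]
      exact add_mem (hu c) (hv c)
    | smul a v _ hv =>
      intro c
      rw [smul_smul]
      exact hv _
  simpa only [one_smul] using key 1

omit [Fintype ι] in
theorem zlina_cv_zero : cv (0 : ι → K) = 0 := funext fun _ => map_zero (algebraMap K ℝ)

theorem cv_injective : Function.Injective (cv : (ι → K) → ι → ℝ) := by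
  exact fun x y h => funext fun k => (algebraMap K ℝ).injective (congrFun h k)

theorem cv_add (x y : ι → K) : cv (x + y) = cv x + cv y := by
  exact funext fun k => map_add (algebraMap K ℝ) _ _

theorem cv_smul (c : K) (x : ι → K) : cv (c • x) = algebraMap K ℝ c • cv x := by
  exact funext fun k => map_mul (algebraMap K ℝ) _ _

theorem rat_spec {x : ι → ℝ} (h : IsRat K x) : ∃ c : ℝ, c ≠ 0 ∧ c • x = cv (rat K x) := by
  unfold rat
  rw [dif_pos h]
  exact h.choose_spec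

/-- two vectors over `K` on the same real line are proportional over `K` -/
theorem prop_of_cv {x y : ι → K} (hx : x ≠ 0) {c : ℝ} (hc : c ≠ 0) (h : c • cv x = cv y) :
    ∃ β : K, β ≠ 0 ∧ y = β • x := by
  obtain ⟨φ, hφ⟩ := zlina_exists (K := K) one_ne_zero
  have h1 := zlina_P_smul φ c x
  rw [h, zlina_P_cv hφ] at h1
  refine ⟨φ c, fun h0 => hx (cv_injective ?_), h1⟩
  rw [h1, h0, zero_smul, zlina_cv_zero] at h
  rw [zlina_cv_zero]
  exact (smul_eq_zero.1 h).resolve_left hc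

theorem rat_span (s : Set (ι → K)) (x : ι → K) (hx : cv x ∈ Submodule.span ℝ (cv '' s)) :
    x ∈ Submodule.span K s := by
  obtain ⟨φ, hφ⟩ := zlina_exists (K := K) one_ne_zero
  have h := zlina_P_mem φ s hx
  rwa [zlina_P_cv hφ] at h

theorem rat_inf (s t : Set (ι → K))
    (h : Submodule.span ℝ (cv '' s) ⊓ Submodule.span ℝ (cv '' t) ≠ ⊥) :
    Submodule.span K s ⊓ Submodule.span K t ≠ ⊥ := by
  obtain ⟨v, hv, h0⟩ := (Submodule.ne_bot_iff _).1 h
  obtain ⟨k, hk⟩ := Function.ne_iff.1 h0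
  obtain ⟨φ, hφ⟩ := zlina_exists (K := K) hk
  refine (Submodule.ne_bot_iff _).2
    ⟨zlina_P φ v, ⟨zlina_P_mem φ s hv.1, zlina_P_mem φ t hv.2⟩, fun e => ?_⟩
  exact one_ne_zero (hφ.symm.trans (congrFun e k))

theorem rat_rel (x : Fin 3 → ι → K) (c : Fin 3 → ℝ) (hc : ∀ i, c i ≠ 0)
    (h : ∑ i, c i • cv (x i) = 0) (hind : ∀ i j, i ≠ j → ∀ r : ℝ, cv (x i) ≠ r • cv (x j)) :
    ∃ b : Fin 3 → K, (∀ i, b i ≠ 0) ∧ ∑ i, b i • x i = 0 := by
  obtain ⟨φ, hφ⟩ := zlina_exists (K := K) (hc 0)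
  have h1 : ∑ i, φ (c i) • x i = 0 := by
    have h2 := congrArg (zlina_P φ) h
    rw [map_sum, map_zero] at h2
    simpa only [zlina_P_smul] using h2
  have key : ∀ j, 0 ≠ j → ∀ r : K, x 0 + r • x j ≠ 0 := fun j hj r e =>
    hind 0 j hj (algebraMap K ℝ (-r)) (by
      rw [← cv_smul, neg_smul, eq_neg_of_add_eq_zero_left e])
  refine ⟨fun i => φ (c i), fun i => ?_, h1⟩
  rw [Fin.sum_univ_three, hφ, one_smul] at h1
  fin_cases i
  · exact fun e => one_ne_zero (hφ.symm.trans e)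
  · intro e
    have e' : φ (c 1) = 0 := e
    rw [e', zero_smul, add_zero] at h1
    exact key 2 (by decide) _ h1
  · intro e
    have e' : φ (c 2) = 0 := e
    rw [e', zero_smul, add_zero] at h1
    exact key 1 (by decide) _ h1

theorem rat_fun (s t : Set (ι → K))
    (h : ¬ Submodule.span ℝ (cv '' t) ≤ Submodule.span ℝ (cv '' s)) :
    ∃ χ : (ι → K) →ₗ[K] K, (∀ x ∈ s, χ x = 0) ∧ ∃ y ∈ t, χ y ≠ 0 := by
  have key : ∀ y ∈ Submodule.span K s, cv y ∈ Submodule.span ℝ (cv '' s) := fun y hy => by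
    induction hy using Submodule.span_induction with
    | mem y hy => exact Submodule.subset_span ⟨y, hy, rfl⟩
    | zero =>
      rw [zlina_cv_zero]
      exact zero_mem _
    | add u v _ _ hu hv =>
      rw [cv_add]
      exact add_mem hu hv
    | smul a v _ hv =>
      rw [cv_smul]
      exact Submodule.smul_mem _ _ hv
  have h1 : ∃ y ∈ t, y ∉ Submodule.span K s := by
    by_contra hn
    refine h (Submodule.span_le.2 ?_)
    rintro _ ⟨y, hy, rfl⟩
    exact key y (not_not.1 fun e => hn ⟨y, hy, e⟩)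
  obtain ⟨y, hy, hys⟩ := h1
  obtain ⟨χ, h2, h3⟩ := Submodule.exists_le_ker_of_notMem hys
  exact ⟨χ, fun x hx => h3 (Submodule.subset_span hx), y, hy, h2⟩

omit [Algebra K ℝ] [Fintype ι] in
theorem zlina_zero {w : AbsoluteValue K ℝ} {σ : (ι → K) → ℝ} (hσ : IsSN w σ) : σ 0 = 0 := by
  have h := hσ.smul 0 0
  rwa [zero_smul, w.map_zero, zero_mul] at h

/-- expansion in a basis chosen inside `s` -/
theorem zlina_basis {w : AbsoluteValue K ℝ} {𝓣 : Finset (ι → K)} {C : ℝ} (hC : GoodAt w 𝓣 C)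
    (s : Set (ι → K)) (hs : s ⊆ 𝓣) (x : ι → K) (hx : cv x ∈ Submodule.span ℝ (cv '' s)) :
    ∃ (B : Finset (ι → K)) (c : (ι → K) → K), B.card ≤ Fintype.card ι ∧ (∀ y ∈ B, y ∈ s) ∧
      ∑ y ∈ B, c y • y = x ∧ ∀ y ∈ B, w (c y) ≤ C * N0 w x := by
  obtain ⟨b, hb, hsp, hli⟩ := exists_linearIndependent K s
  obtain ⟨B, rfl⟩ := (𝓣.finite_toSet.subset (hb.trans hs)).exists_finset_coe
  have h1 := rat_span s x hx
  rw [← hsp] at h1
  obtain ⟨c, -, hc⟩ := Submodule.mem_span_finset.1 h1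
  refine ⟨B, c, ?_, fun y hy => hb hy, hc, fun y hy => ?_⟩
  · have h2 := LinearIndependent.finset_card_le_finrank (R := K) (b := B) hli
    rwa [Module.finrank_fintype_fun_eq_card] at h2
  · have h2 := hC.coef B (coe_subset.1 (hb.trans hs)) hli c y hy
    rwa [hc] at h2

/-- a seminorm is controlled by its values on a spanning part of `𝓣` -/
theorem gen {w : AbsoluteValue K ℝ} {𝓣 : Finset (ι → K)} {C : ℝ} (hC : GoodAt w 𝓣 C)
    (hC0 : 0 ≤ C) {σ : (ι → K) → ℝ} (hσ : IsSN w σ) (s : Set (ι → K)) (hs : s ⊆ 𝓣) (M : ℝ)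
    (hM0 : 0 ≤ M) (hM : ∀ y ∈ s, σ y ≤ M) (x : ι → K)
    (hx : cv x ∈ Submodule.span ℝ (cv '' s)) :
    σ x ≤ Fintype.card ι * C * N0 w x * M := by
  obtain ⟨B, c, h1, h2, h3, h4⟩ := zlina_basis hC s hs x hx
  have h0 : 0 ≤ C * N0 w x := mul_nonneg hC0 (zlina_nonneg w x)
  have h5 : σ (∑ y ∈ B, c y • y) ≤ ∑ y ∈ B, σ (c y • y) :=
    le_sum_of_subadditive σ (zlina_zero hσ).le hσ.add B _
  have h6 : ∑ y ∈ B, σ (c y • y) ≤ B.card • (C * N0 w x * M) :=
    sum_le_card_nsmul _ _ _ fun y hy => by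
      rw [hσ.smul]
      exact mul_le_mul (h4 y hy) (hM y (h2 y hy)) (hσ.nonneg y) h0
  rw [h3] at h5
  rw [nsmul_eq_mul] at h6
  calc σ x ≤ B.card * (C * N0 w x * M) := h5.trans h6
    _ ≤ Fintype.card ι * (C * N0 w x * M) :=
      mul_le_mul_of_nonneg_right (Nat.cast_le.2 h1) (mul_nonneg h0 hM0)
    _ = _ := by ring

theorem gen_ultra {w : AbsoluteValue K ℝ} {𝓣 : Finset (ι → K)} (hC : GoodAt w 𝓣 1)
    {σ : (ι → K) → ℝ} (hσ : IsSN w σ) (hu : ∀ x y, σ (x + y) ≤ max (σ x) (σ y))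
    (s : Set (ι → K)) (hs : s ⊆ 𝓣) (M : ℝ) (hM0 : 0 ≤ M) (hM : ∀ y ∈ s, σ y ≤ M) (x : ι → K)
    (hx : cv x ∈ Submodule.span ℝ (cv '' s)) : σ x ≤ N0 w x * M := by
  obtain ⟨B, c, -, h2, h3, h4⟩ := zlina_basis hC s hs x hx
  have h0 := zlina_nonneg w x
  have h5 : σ (∑ y ∈ B, c y • y) ≤ N0 w x * M := by
    refine sum_induction _ (fun v => σ v ≤ N0 w x * M)
      (fun u v h h' => (hu u v).trans (max_le h h')) ?_ fun y hy => ?_
    · rw [zlina_zero hσ]
      exact mul_nonneg h0 hM0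
    · rw [hσ.smul]
      exact mul_le_mul ((h4 y hy).trans_eq (one_mul _)) (hM y (h2 y hy)) (hσ.nonneg y) h0
  rwa [h3] at h5

end ECub.Z
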