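import Pool.Agent.P.MP_029dcd_co.F.Z.ZCount0
import Pool.Agent.P.MP_029dcd_co.F.Z.ZLinA
import Pool.Agent.P.MP_029dcd_co.F.Z.ZGauge_b

/-! Phase 2: gauges. -/

set_option autoImplicit false

namespace ECub.Z

open CubicStab MeasureTheory Filter Topology Finset
open scoped ENNReal

variable {ι : Type} [Fintype ι] {K : Type} [Field K] [Algebra K ℝ] {G : Gal} {a : Lb → Prop}
  {f : Lb → ι → ℝ} {U : Fin 3 → Submodule ℝ (ι → ℝ)}

omit [Fintype ι] in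
theorem zgauge_np (g0 : (ι → ℝ) ≃ₗ[ℝ] (ι → ℝ)) (W : Submodule ℝ (ι → ℝ))
    (h2 : 2 ≤ Module.finrank ℝ W)
    (hsp : W.map (g0 : (ι → ℝ) →ₗ[ℝ] (ι → ℝ)) ≤
      Submodule.span ℝ (cv '' {x : ι → K | g0.symm (cv x) ∈ W})) [Fintype ι] (y : ι → K) :
    ∃ x ∈ {x : ι → K | g0.symm (cv x) ∈ W}, ∀ r : K, x ≠ r • y := by
  by_contra hn
  push Not at hn
  have h1 : Submodule.span ℝ (cv '' {x : ι → K | g0.symm (cv x) ∈ W}) ≤
      Submodule.span ℝ {cv y} := by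
    rw [Submodule.span_le]
    rintro _ ⟨x, hx, rfl⟩
    obtain ⟨r, rfl⟩ := hn x hx
    rw [cv_smul]
    exact Submodule.smul_mem _ _ (Submodule.mem_span_singleton_self _)
  have h3 := Submodule.finrank_mono (hsp.trans h1)
  rw [LinearEquiv.finrank_map_eq] at h3
  have h4 : Module.finrank ℝ (Submodule.span ℝ ({cv y} : Set (ι → ℝ))) ≤ 1 := by
    simpa using finrank_span_le_card (R := ℝ) ({cv y} : Set (ι → ℝ))
  omega

theorem zgauge_chi (g0 : (ι → ℝ) ≃ₗ[ℝ] (ι → ℝ)) (W W' : Submodule ℝ (ι → ℝ)) (h : ¬ W' ≤ W)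
    (hsp : W'.map (g0 : (ι → ℝ) →ₗ[ℝ] (ι → ℝ)) ≤
      Submodule.span ℝ (cv '' {x : ι → K | g0.symm (cv x) ∈ W'})) :
    ∃ χ : (ι → K) →ₗ[K] K, (∀ x : ι → K, g0.symm (cv x) ∈ W → χ x = 0) ∧
      ∃ y ∈ {x : ι → K | g0.symm (cv x) ∈ W'}, χ y ≠ 0 := by
  refine rat_fun {x : ι → K | g0.symm (cv x) ∈ W} _ fun hle => h ?_
  have h1 : Submodule.span ℝ (cv '' {x : ι → K | g0.symm (cv x) ∈ W}) ≤
      W.map (g0 : (ι → ℝ) →ₗ[ℝ] (ι → ℝ)) := by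
    rw [Submodule.span_le]
    rintro _ ⟨x, hx, rfl⟩
    exact ⟨g0.symm (cv x), hx, g0.apply_symm_apply _⟩
  intro v hv
  obtain ⟨v', hv', e⟩ := (hsp.trans (hle.trans h1)) (Submodule.mem_map_of_mem hv)
  have : v' = v := g0.injective e
  exact this ▸ hv'

open Classical in
theorem gauge (env : Env G a f U) (g0 : (ι → ℝ) ≃ₗ[ℝ] (ι → ℝ))
    (hrat : ∀ l, G.valid l → a l → IsRat K (g0 (f l))) {b c : Fin 3} (hbc : b ≠ c)
    (I : Finset (Fin 3)) (hb : b ∈ I) (hc : c ∈ I) (hI : ∀ i, U i = U b ⊔ U c → i ∈ I)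
    (hsp : ∀ i ∈ I, (U i).map (g0 : (ι → ℝ) →ₗ[ℝ] (ι → ℝ)) ≤
      Submodule.span ℝ (cv '' {x : ι → K | g0.symm (cv x) ∈ U i}))
    (w : AbsoluteValue K ℝ) (u : ℕ) (hu : 1 ≤ u) (c1 C1 Cst e2 : ℝ) (hc1 : 0 < c1)
    (hCst : 0 ≤ Cst) (he2 : 0 ≤ e2) (hcnt : ∀ i ∈ I, Cnt G a i 0 u c1 C1)
    (htl : ∀ i ∈ I, TLP G a i (fun l => rat K (g0 (f l))) w {x | g0.symm (cv x) ∈ U i} u Cst e2) :
    ∃ Gw : Fin 3 → (ι → K) → ℝ, (((box 0 u).filter fun z => G.tp z = true ∧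
      (∀ i, a (G.tlab z i)) ∧ ¬ ∀ b' : Fin 3 → K, (∀ i, b' i ≠ 0) →
        ∑ i, b' i • rat K (g0 (f (G.tlab z i))) = 0 → ∀ i j,
        |Real.log (w (b' i)) + Gw i (rat K (g0 (f (G.tlab z i)))) -
          (Real.log (w (b' j)) + Gw j (rat K (g0 (f (G.tlab z j)))))| ≤ 4 * Cst).card : ℝ)
      ≤ 10 * (C1 ^ 2 / c1 ^ 2 + 1 / c1) * e2 * (u : ℝ) ^ 2 := by
  obtain ⟨k, C, hG⟩ := env.ax
  have hF : G.LineC fun l => rat K (g0 (f l)) := fun l l' h1 h2 h3 => by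
    show rat K (g0 (f l)) = rat K (g0 (f l'))
    rw [env.f_line l l' h1 h2 h3]
  have hmem : ∀ l, G.valid l → a l →
      g0.symm (cv (rat K (g0 (f l)))) ∈ U (G.fam l) ∧ rat K (g0 (f l)) ≠ 0 := by
    intro l h1 h2
    obtain ⟨r, hr, e⟩ := rat_spec (hrat l h1 h2)
    constructor
    · rw [← e, map_smul, g0.symm_apply_apply]
      exact Submodule.smul_mem _ _ (env.f_mem l h1 h2)
    · intro h0
      rw [h0] at e
      have e0 : cv (0 : ι → K) = 0 := by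
        funext m
        simp [cv]
      rw [e0, smul_eq_zero] at e
      rcases e with e | e
      · exact hr e
      · exact env.f_ne l h1 h2 (g0.injective (by rw [e, map_zero]))
  have hne : ∀ l, G.valid l → a l → rat K (g0 (f l)) ≠ 0 := fun l h1 h2 => (hmem l h1 h2).2
  have hV : ∀ i j, i ≠ j → U i ⊔ U j = U b ⊔ U c := fun i j hij =>
    le_antisymm (sup_le (env.sup b c i hbc) (env.sup b c j hbc))
      (sup_le (env.sup i j b hij) (env.sup i j c hij))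
  have hnp : ∀ i ∈ I, ∀ y : ι → K,
      ∃ x ∈ {x : ι → K | g0.symm (cv x) ∈ U i}, ∀ r : K, x ≠ r • y :=
    fun i hi y => zgauge_np g0 (U i) (env.two i) (hsp i hi) y
  have hchi : ∀ i j, i ≠ j → U i ≠ U b ⊔ U c → j ∈ I → ∃ χ : (ι → K) →ₗ[K] K,
      (∀ x : ι → K, g0.symm (cv x) ∈ U i → χ x = 0) ∧
      ∃ y ∈ {x : ι → K | g0.symm (cv x) ∈ U j}, χ y ≠ 0 := by
    intro i j hij hi hj
    refine zgauge_chi g0 (U i) (U j) (fun hle => hi ?_) (hsp j hj)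
    rw [← hV i j hij, sup_eq_left.2 hle]
  have hA : (0 : ℝ) ≤ C1 ^ 2 / c1 ^ 2 * e2 * (u : ℝ) ^ 2 := by positivity
  have hB : (0 : ℝ) ≤ 1 / c1 * e2 * (u : ℝ) ^ 2 := by positivity
  have cB : ∀ i j l : Fin 3, i ≠ j → i ≠ l → j ≠ l → U i ≠ U b ⊔ U c → U j = U b ⊔ U c →
      U l = U b ⊔ U c → ∃ Gw : Fin 3 → (ι → K) → ℝ, (((box 0 u).filter fun z => G.tp z = true ∧
        (∀ i, a (G.tlab z i)) ∧ ¬ zgauge_ok w Gw Cst fun i => rat K (g0 (f (G.tlab z i)))).card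
        : ℝ) ≤ 10 * (C1 ^ 2 / c1 ^ 2 + 1 / c1) * e2 * (u : ℝ) ^ 2 := by
    intro i j l hij hil hjl hi hj hl
    obtain ⟨χ, h1, h2⟩ := hchi i j hij hi (hI j hj)
    obtain ⟨Gw, h⟩ := zgauge_caseB hG env.a_line hF hij hil hjl hne hu hc1 hCst he2
      (hcnt j (hI j hj)) (hcnt l (hI l hl)) (htl j (hI j hj)) (htl l (hI l hl)) χ
      (fun p h3 h4 h5 => h1 _ (h5 ▸ (hmem p h3 h4).1)) h2 (by rw [hl, ← hj]; exact h2)
      (hnp j (hI j hj)) (hnp l (hI l hl))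
    exact ⟨Gw, h.trans (by nlinarith)⟩
  have cC : ∀ i j l : Fin 3, i ≠ j → i ≠ l → j ≠ l → U i ≠ U b ⊔ U c → U j ≠ U b ⊔ U c →
      l ∈ I → ∃ Gw : Fin 3 → (ι → K) → ℝ, (((box 0 u).filter fun z => G.tp z = true ∧
        (∀ i, a (G.tlab z i)) ∧ ¬ zgauge_ok w Gw Cst fun i => rat K (g0 (f (G.tlab z i)))).card
        : ℝ) ≤ 10 * (C1 ^ 2 / c1 ^ 2 + 1 / c1) * e2 * (u : ℝ) ^ 2 := by
    intro i j l hij hil hjl hi hj hl
    obtain ⟨χ, h1, h2⟩ := hchi i l hil hi hl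
    obtain ⟨χ', h1', h2'⟩ := hchi j l hjl hj hl
    obtain ⟨Gw, h⟩ := zgauge_caseC hG hF hij hil hjl hu hc1 hCst he2 (hcnt l hl) (htl l hl) χ χ'
      (fun p h3 h4 h5 => h1 _ (h5 ▸ (hmem p h3 h4).1))
      (fun p h3 h4 h5 => h1' _ (h5 ▸ (hmem p h3 h4).1)) h2 h2'
    exact ⟨Gw, h.trans (by nlinarith)⟩
  have hd : ∃ d : Fin 3, d ≠ b ∧ d ≠ c := by
    clear * - hbc
    revert b c
    decide
  obtain ⟨d, hdb, hdc⟩ := hd
  show ∃ Gw : Fin 3 → (ι → K) → ℝ, (((box 0 u).filter fun z => G.tp z = true ∧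
        (∀ i, a (G.tlab z i)) ∧ ¬ zgauge_ok w Gw Cst fun i => rat K (g0 (f (G.tlab z i)))).card
        : ℝ) ≤ 10 * (C1 ^ 2 / c1 ^ 2 + 1 / c1) * e2 * (u : ℝ) ^ 2
  by_cases h1 : U d = U b ⊔ U c <;> by_cases h2 : U b = U b ⊔ U c <;>
    by_cases h3 : U c = U b ⊔ U c
  · have hall : ∀ i, i ∈ I := by
      intro i
      rcases zgauge_all3 hdb hdc hbc i with rfl | rfl | rfl
      · exact hI _ h1
      · exact hb
      · exact hc
    obtain ⟨Gw, h⟩ := zgauge_caseA hG env.a_line hF hne hu hc1 he2 (fun i => hcnt i (hall i))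
      (fun i => htl i (hall i)) (fun i => hnp i (hall i))
    exact ⟨Gw, h.trans (by nlinarith)⟩
  · exact cB c d b hdc.symm hbc.symm hdb h3 h1 h2
  · exact cB b d c hdb.symm hbc hdc h2 h1 h3
  · exact cC b c d hbc hdb.symm hdc.symm h2 h3 (hI d h1)
  · exact cB d b c hdb hdc hbc h1 h2 h3
  · exact cC d c b hdc hdb hbc.symm h1 h3 hb
  · exact cC d b c hdb hdc hbc h1 h2 hc
  · exact cC d b c hdb hdc hbc h1 h2 hc

end ECub.Z
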