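import Pool.Agent.P.MP_029dcd_co.F.Z.ZCount0
import Pool.Agent.P.MP_029dcd_co.F.LayT

/-! Non-degeneracy of the vectors of the lines that visit a box. -/

set_option autoImplicit false

namespace ECub.Z

open CubicStab MeasureTheory Filter Topology Finset
open scoped ENNReal

/-- the pairing of a functional with a mark and an offset -/
def zae2_ph {n : ℕ} (p y : E n × ℝ) : ℝ := p.1 ⬝ᵥ y.1 + p.2 * y.2

theorem zae2_ph_cont {n : ℕ} :
    Continuous fun z : (E n × ℝ) × (E n × ℝ) => zae2_ph z.1 z.2 := by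
  unfold zae2_ph dotProduct
  fun_prop

theorem zae2_ph_cont' {n : ℕ} (p : E n × ℝ) : Continuous fun y : E n × ℝ => zae2_ph p y := by
  unfold zae2_ph dotProduct
  fun_prop

theorem zae2_null {n : ℕ} (m : Measure (E n)) [IsFiniteMeasure m] (W : Submodule ℝ (E n))
    (hW : m (W : Set (E n))ᶜ = 0) (hnd : ∀ W', W' < W → m W' = 0) (p : E n × ℝ) (hp : p.1 ∈ W)
    (hp0 : p ≠ 0) : (m.prod volume) {y | zae2_ph p y = 0} = 0 := by
  have hm : MeasurableSet {y : E n × ℝ | zae2_ph p y = 0} :=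
    (isClosed_eq (zae2_ph_cont' p) continuous_const).measurableSet
  rw [Measure.measure_prod_null hm]
  by_cases hb : p.2 = 0
  · have h1 : p.1 ≠ 0 := fun h => hp0 (Prod.ext h hb)
    let φ : E n →ₗ[ℝ] ℝ :=
      { toFun := fun x => p.1 ⬝ᵥ x
        map_add' := fun x y => dotProduct_add _ _ _
        map_smul' := fun c x => by simp [dotProduct_smul] }
    have hlt : W ⊓ LinearMap.ker φ < W := by
      refine lt_of_le_of_ne inf_le_left fun h => h1 ?_
      have : p.1 ∈ W ⊓ LinearMap.ker φ := by rw [h]; exact hp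
      exact dotProduct_self_eq_zero.1 this.2
    have hz : m {x | p.1 ⬝ᵥ x = 0} = 0 := by
      refine measure_mono_null (t := (W : Set (E n))ᶜ ∪ ((W ⊓ LinearMap.ker φ : Submodule ℝ (E n)) :
        Set (E n))) ?_ (measure_union_null hW (hnd _ hlt))
      intro x hx
      by_cases hxW : x ∈ W
      · exact Or.inr ⟨hxW, hx⟩
      · exact Or.inl hxW
    have hz' : ∀ᵐ x ∂m, p.1 ⬝ᵥ x ≠ 0 := by
      rw [ae_iff]; simpa using hz
    filter_upwards [hz'] with x hx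
    have : Prod.mk x ⁻¹' {y : E n × ℝ | zae2_ph p y = 0} = ∅ := by
      ext s
      simp [zae2_ph, hb, hx]
    simp [this]
  · refine Eventually.of_forall fun x => ?_
    have : Prod.mk x ⁻¹' {y : E n × ℝ | zae2_ph p y = 0} = {-(p.1 ⬝ᵥ x) / p.2} := by
      ext s
      simp only [zae2_ph, Set.mem_preimage, Set.mem_ofPred_eq, Set.mem_singleton_iff]
      rw [eq_div_iff hb]
      constructor <;> intro h <;> linarith
    simp [this]

/-- the test function -/
noncomputable def zae2_F {n : ℕ} (p : E n × ℝ) (η B : ℝ) (y : E n × ℝ) : ℝ :=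
  max 0 (min 1 (min (2 - |zae2_ph p y| / η) (B + 1 - |y.2|)))

theorem zae2_F_cont {n : ℕ} (p : E n × ℝ) (η B : ℝ) : Continuous (zae2_F p η B) := by
  have := zae2_ph_cont' p
  unfold zae2_F
  fun_prop

theorem zae2_F_nonneg {n : ℕ} (p : E n × ℝ) (η B : ℝ) (y : E n × ℝ) : 0 ≤ zae2_F p η B y :=
  le_max_left _ _

theorem zae2_F_le {n : ℕ} (p : E n × ℝ) (η B : ℝ) (y : E n × ℝ) : zae2_F p η B y ≤ 1 :=
  max_le zero_le_one (min_le_left _ _)

theorem zae2_F_one {n : ℕ} (p : E n × ℝ) {η B : ℝ} (hη : 0 < η) {y : E n × ℝ}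
    (h1 : |zae2_ph p y| ≤ η) (h2 : |y.2| ≤ B) : zae2_F p η B y = 1 := by
  have h3 : |zae2_ph p y| / η ≤ 1 := (div_le_one hη).2 h1
  have : min 1 (min (2 - |zae2_ph p y| / η) (B + 1 - |y.2|)) = 1 :=
    min_eq_left (le_min (by linarith) (by linarith))
  simp [zae2_F, this]

theorem zae2_F_zero {n : ℕ} (p : E n × ℝ) {η B : ℝ} {y : E n × ℝ}
    (h : B + 1 ≤ |y.2|) : zae2_F p η B y = 0 := by
  refine max_eq_left ?_
  exact (min_le_right _ _).trans ((min_le_right _ _).trans (by linarith))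

theorem zae2_F_zero' {n : ℕ} (p : E n × ℝ) {η B : ℝ} (hη : 0 < η) {y : E n × ℝ}
    (h : 2 * η ≤ |zae2_ph p y|) : zae2_F p η B y = 0 := by
  refine max_eq_left ?_
  have : 2 ≤ |zae2_ph p y| / η := (le_div_iff₀ hη).2 h
  exact (min_le_right _ _).trans ((min_le_left _ _).trans (by linarith))

theorem zae2_small {n : ℕ} (m : Measure (E n)) [IsFiniteMeasure m] (p : E n × ℝ)
    (h0 : (m.prod volume) {y | zae2_ph p y = 0} = 0) (B e : ℝ) (he : 0 < e) :
    ∃ η : ℝ, 0 < η ∧ ∫ y, zae2_F p η B y ∂(m.prod volume) < e := by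
  let s : ℕ → Set (E n × ℝ) := fun k =>
    {y | |zae2_ph p y| ≤ 2 * (1 / ((k : ℝ) + 1)) ∧ |y.2| ≤ B + 1}
  have hc := zae2_ph_cont' p
  have hsm : ∀ k, MeasurableSet (s k) := fun k =>
    ((isClosed_le hc.abs continuous_const).and
      (isClosed_le continuous_snd.abs continuous_const)).measurableSet
  have hfin : ∀ k, (m.prod volume) (s k) ≠ ∞ := by
    intro k
    have hsub : s k ⊆ (Set.univ : Set (E n)) ×ˢ Set.Icc (-(B + 1)) (B + 1) := fun y hy =>
      ⟨trivial, abs_le.1 hy.2⟩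
    refine ne_top_of_le_ne_top ?_ (measure_mono hsub)
    rw [Measure.prod_prod]
    exact ENNReal.mul_ne_top (measure_ne_top _ _) (by simp)
  have hanti : Antitone s := by
    intro k k' hk y hy
    refine ⟨hy.1.trans ?_, hy.2⟩
    have : (1 : ℝ) / ((k' : ℝ) + 1) ≤ 1 / ((k : ℝ) + 1) := Nat.one_div_le_one_div hk
    linarith
  have ht := tendsto_measure_iInter_atTop (μ := m.prod volume)
    (fun k => (hsm k).nullMeasurableSet) hanti ⟨0, hfin 0⟩
  have hz : (m.prod volume) (⋂ k, s k) = 0 := by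
    refine measure_mono_null ?_ h0
    intro y hy
    have h1 : ∀ k : ℕ, |zae2_ph p y| ≤ 2 * (1 / ((k : ℝ) + 1)) := fun k => (Set.mem_iInter.1 hy k).1
    have h2 : Tendsto (fun k : ℕ => 2 * (1 / ((k : ℝ) + 1))) atTop (𝓝 (2 * 0)) :=
      tendsto_one_div_add_atTop_nhds_zero_nat.const_mul 2
    have h3 := ge_of_tendsto' h2 h1
    have h4 : |zae2_ph p y| = 0 := le_antisymm (by simpa using h3) (abs_nonneg _)
    exact abs_eq_zero.1 h4
  rw [hz] at ht
  have ht' : Tendsto (fun k => (m.prod volume).real (s k)) atTop (𝓝 0) := by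
    have := (ENNReal.tendsto_toReal ENNReal.zero_ne_top).comp ht
    simpa [Measure.real, Function.comp_def] using this
  obtain ⟨k, hk⟩ := (ht'.eventually (gt_mem_nhds he)).exists
  have hη : (0 : ℝ) < 1 / ((k : ℝ) + 1) := Nat.one_div_pos_of_nat
  refine ⟨1 / ((k : ℝ) + 1), hη, lt_of_le_of_lt ?_ hk⟩
  rw [← integral_indicator_one (hsm k)]
  refine integral_mono_of_nonneg (Eventually.of_forall fun y => zae2_F_nonneg _ _ _ _)
    ((integrable_indicator_iff (hsm k)).2 (integrableOn_const (hfin k)))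
    (Eventually.of_forall fun y => ?_)
  by_cases hy : y ∈ s k
  · simpa [Set.indicator_of_mem hy] using zae2_F_le p _ B y
  · rw [Set.indicator_of_notMem hy]
    have hy' : ¬ (|zae2_ph p y| ≤ 2 * (1 / ((k : ℝ) + 1)) ∧ |y.2| ≤ B + 1) := hy
    rcases not_and_or.1 hy' with h | h
    · exact (zae2_F_zero' p hη (not_le.1 h).le).le
    · exact (zae2_F_zero p (not_le.1 h).le).le

open Classical in
/-- uniformly few points on hyperplanes -/
theorem zae2_unif {n : ℕ} (m : Measure (E n)) [IsFiniteMeasure m] (W : Submodule ℝ (E n))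
    (hW : m (W : Set (E n))ᶜ = 0) (hnd : ∀ W', W' < W → m W' = 0) (B e : ℝ) (he : 0 < e)
    {L : ℕ → Finset Lb} {d : ℕ → Lb → E n × ℝ}
    (heq : ∀ F : BoundedContinuousFunction (E n × ℝ) ℝ, (∀ y, B + 1 ≤ |y.2| → F y = 0) →
      Tendsto (fun u : ℕ => (∑ l ∈ L u, F (d u l)) / (u : ℝ)) atTop
        (𝓝 (∫ y, F y ∂(m.prod volume)))) :
    ∀ᶠ u : ℕ in atTop, ∀ p ∈ {p : E n × ℝ | p.1 ∈ W ∧ ‖p‖ = 1},
      (((L u).filter fun l => ‖d u l‖ ≤ B ∧ zae2_ph p (d u l) = 0).card : ℝ) ≤ e * u := by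
  have hK : IsCompact {p : E n × ℝ | p.1 ∈ W ∧ ‖p‖ = 1} := by
    have h1 : IsClosed {p : E n × ℝ | p.1 ∈ W} :=
      W.closed_of_finiteDimensional.preimage continuous_fst
    have h2 := (isCompact_sphere (0 : E n × ℝ) 1).inter_left h1
    refine h2.of_isClosed_subset (h1.inter (isClosed_eq continuous_norm continuous_const)) ?_
    intro p hp
    exact ⟨hp.1, by simpa using hp.2⟩
  refine hK.induction_on (p := fun s => ∀ᶠ u : ℕ in atTop, ∀ p ∈ s,
      (((L u).filter fun l => ‖d u l‖ ≤ B ∧ zae2_ph p (d u l) = 0).card : ℝ) ≤ e * u)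
    (by simp) ?_ ?_ ?_
  · intro s t hst h
    filter_upwards [h] with u hu p hp using hu p (hst hp)
  · intro s t hs ht
    filter_upwards [hs, ht] with u h1 h2 p hp
    rcases hp with hp | hp
    · exact h1 p hp
    · exact h2 p hp
  · intro p0 hp0
    have hne : p0 ≠ 0 := by
      intro h
      have := hp0.2
      rw [h] at this
      simp at this
    obtain ⟨η, hη, hint⟩ := zae2_small m p0 (zae2_null m W hW hnd p0 hp0.1 hne) B e he
    have hnear : ∀ᶠ p in 𝓝 p0, ∀ y ∈ Metric.closedBall (0 : E n × ℝ) B,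
        |zae2_ph p y - zae2_ph p0 y| < η := by
      refine (isCompact_closedBall (0 : E n × ℝ) B).eventually_forall_of_forall_eventually
        (P := fun p y => |zae2_ph p y - zae2_ph p0 y| < η) fun y _ => ?_
      have hc : Continuous fun z : (E n × ℝ) × (E n × ℝ) =>
          |zae2_ph z.1 z.2 - zae2_ph p0 z.2| :=
        (zae2_ph_cont.sub ((zae2_ph_cont' p0).comp continuous_snd)).abs
      exact hc.continuousAt.eventually_lt continuousAt_const (by simpa using hη)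
    refine ⟨_, mem_nhdsWithin_of_mem_nhds hnear, ?_⟩
    let F : BoundedContinuousFunction (E n × ℝ) ℝ :=
      BoundedContinuousFunction.ofNormedAddCommGroup (zae2_F p0 η B) (zae2_F_cont _ _ _) 1
        fun y => by
          rw [Real.norm_eq_abs, abs_of_nonneg (zae2_F_nonneg _ _ _ _)]
          exact zae2_F_le _ _ _ _
    have hF : ∀ y, F y = zae2_F p0 η B y := fun y => rfl
    have ht := heq F fun y hy => zae2_F_zero p0 hy
    filter_upwards [ht.eventually (gt_mem_nhds hint), eventually_gt_atTop 0] with u hu hu0 p hp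
    have hu0' : (0 : ℝ) < u := by exact_mod_cast hu0
    rw [div_lt_iff₀ hu0'] at hu
    refine le_trans ?_ hu.le
    rw [card_eq_sum_ones, Nat.cast_sum]
    refine le_trans (sum_le_sum fun l hl => ?_)
      (sum_le_sum_of_subset_of_nonneg (filter_subset _ _) fun l _ _ => zae2_F_nonneg _ _ _ _)
    obtain ⟨-, h1, h2⟩ := mem_filter.1 hl
    have h3 := hp (d u l) (by simpa using h1)
    rw [h2, zero_sub, abs_neg] at h3
    have h4 : |(d u l).2| ≤ B := le_trans (by simpa using norm_snd_le (d u l)) h1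
    rw [hF, zae2_F_one p0 hη h3.le h4]
    simp

theorem zae2_orth {ι : Type} [Fintype ι] (U V : Submodule ℝ (ι → ℝ))
    (h : Module.finrank ℝ V < Module.finrank ℝ U) :
    ∃ x ∈ U, x ≠ 0 ∧ ∀ y ∈ V, x ⬝ᵥ y = 0 := by
  let φ : U →ₗ[ℝ] Module.Dual ℝ V :=
    LinearMap.mk₂ ℝ (fun x y => (x : ι → ℝ) ⬝ᵥ (y : ι → ℝ))
      (fun x x' y => by simp [add_dotProduct]) (fun c x y => by simp [smul_dotProduct])
      (fun x y y' => by simp [dotProduct_add]) (fun c x y => by simp [dotProduct_smul])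
  have hk : LinearMap.ker φ ≠ ⊥ :=
    LinearMap.ker_ne_bot_of_finrank_lt (by rwa [Subspace.dual_finrank_eq])
  obtain ⟨x, hx, hx0⟩ := Submodule.exists_mem_ne_zero_of_ne_bot hk
  refine ⟨x, x.2, fun h0 => hx0 (Subtype.ext h0), fun y hy => ?_⟩
  have := LinearMap.congr_fun (LinearMap.mem_ker.1 hx) ⟨y, hy⟩
  simpa [φ] using this

theorem zae2_carried (S : Sys) {A : Set (S.Ω × ℕ)} (hA : MeasurableSet A) {n : ℕ}
    {ν : S.Ω × ℕ → E n} (hν : Measurable ν) (i : Fin 3) (W : Submodule ℝ (E n))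
    (hW : ∀ x ∈ A, (S.Γ x.1).fam (0, x.2) = i → ν x ∈ W) :
    S.mA A ν i (W : Set (E n))ᶜ = 0 := by
  have hm : MeasurableSet (W : Set (E n))ᶜ := W.closed_of_finiteDimensional.measurableSet.compl
  unfold Sys.mA Sys.mh
  rw [Measure.map_apply hν hm, Measure.restrict_apply (hν hm),
    Measure.restrict_apply ((hν hm).inter hA)]
  have : ν ⁻¹' (W : Set (E n))ᶜ ∩ A ∩ {x | (S.Γ x.1).Can i (0, x.2)} = ∅ := by
    ext x
    simp only [Set.mem_inter_iff, Set.mem_preimage, Set.mem_compl_iff, SetLike.mem_coe,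
      Set.mem_ofPred_eq, Set.mem_empty_iff_false, iff_false]
    rintro ⟨⟨h1, h2⟩, h3⟩
    exact h1 (hW x h2 h3.2.1)
  rw [this, measure_empty]

theorem nd_ae (S : Sys) (hS : S.toDyn.Erg) {Λ : (ℝ × ℝ) ≃L[ℝ] (ℝ × ℝ)} (hΛ : S.Lin Λ)
    {A : Set (S.Ω × ℕ)} (hA : S.LineSet A) {n : ℕ} {ν : S.Ω × ℕ → E n} (hν : S.Marks0 ν)
    (i : Fin 3) (W : Submodule ℝ (E n))
    (hW : ∀ x ∈ A, (S.Γ x.1).fam (0, x.2) = i → ν x ∈ W)
    (hnd : ∀ W', W' < W → S.mA A ν i W' = 0) :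
    ∀ᵐ ω ∂S.μ, ∀ e : ℝ, 0 < e → ∀ᶠ v : ℕ in atTop,
      ND (S.Γ ω) (aw S A ω) (fw S ν ω) i 0 v (e * v) (Module.finrank ℝ (UW W)) := by
  classical
  obtain ⟨m, hmf, hm1, -, heq⟩ := S.equi hS hΛ hA hν i
  obtain ⟨B0, hB0, hoff⟩ := Gal.off_le hΛ.ok 1
  obtain ⟨Bν, hBν⟩ := hν.bdd
  have hmW : m (W : Set (E n))ᶜ = 0 := hm1 (zae2_carried S hA.1 hν.meas i W hW)
  have hmnd : ∀ W', W' < W → m W' = 0 := fun W' h => hm1 (hnd W' h)
  filter_upwards [heq, hΛ.lin, hA.2, hν.line] with ω heq hL hAl hνl e he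
  have hG := S.ax ω
  set B := max B0 Bν with hB
  have hBpos : 0 < B + 1 := by have := le_max_left B0 Bν; linarith
  have hun := zae2_unif m W hmW hmnd B e he
    (L := fun u => S.lnsA A ω i ((B + 1) * (S.Γ ω).R u))
    (d := fun u l => (S.ev ν ω l, (S.Γ ω).s l / (S.Γ ω).R u)) (heq (B + 1) hBpos)
  filter_upwards [hun, hoff hG hL, hL 1 1 one_pos] with v hv hoffv hR T hT hinj hcard
  have hR0 := hR.1
  by_contra hlt
  obtain ⟨x, hxU, hx0, hx⟩ := zae2_orth (UW W) _ (not_le.1 hlt)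
  let q : E n × ℝ := (fun k => x (some k), x none * (S.Γ ω).R v)
  have hq0 : q ≠ 0 := by
    intro h
    apply hx0
    funext o
    cases o with
    | none =>
      have := congrArg Prod.snd h
      simpa [q, hR0.ne'] using this
    | some k => exact congrFun (congrArg Prod.fst h) k
  have hqn : 0 < ‖q‖ := norm_pos_iff.2 hq0
  have hp : (‖q‖⁻¹ • q) ∈ {p : E n × ℝ | p.1 ∈ W ∧ ‖p‖ = 1} := by
    refine ⟨W.smul_mem _ hxU, ?_⟩
    rw [norm_smul, norm_inv, norm_norm, inv_mul_cancel₀ hqn.ne']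
  have hle := hv _ hp
  refine absurd (lt_of_lt_of_le hcard (le_trans ?_ hle)) (lt_irrefl _)
  have hval : ∀ l ∈ T, l.1 ∈ box 0 v ∧ (S.Γ ω).valid l ∧ aw S A ω l ∧ (S.Γ ω).fam l = i :=
    fun l hl => mem_visL.1 (hT hl)
  have hinj' : Set.InjOn (S.Γ ω).rep (T : Set Lb) := fun l hl l' hl' h =>
    hinj l hl l' hl' ((Gal.rep_eq_iff hG (hval l hl).2.1 (hval l' hl').2.1).1 h)
  rw [Nat.cast_le]
  refine card_le_card_of_injOn (S.Γ ω).rep (fun l hl => ?_) hinj'
  obtain ⟨h1, h2, h3, h4⟩ := hval l hl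
  obtain ⟨hc, hs, hi⟩ := Gal.at'_spec hG h2 0
  have hrv : (S.Γ ω).valid ((S.Γ ω).rep l) := hc.1
  have hs' : (S.Γ ω).same l ((S.Γ ω).rep l) = true := hs
  have hss : (S.Γ ω).s ((S.Γ ω).rep l) = (S.Γ ω).s l := (hG.same_s l _ h2 hrv hs').symm
  have hνs : S.ev ν ω ((S.Γ ω).rep l) = S.ev ν ω l := (hνl l _ h2 hrv hs').symm
  have hAs : (S.T ((S.Γ ω).rep l).1 ω, ((S.Γ ω).rep l).2) ∈ A := by
    have h5 : ((S.T l.1 ω, l.2) ∈ A) = ((S.T ((S.Γ ω).rep l).1 ω, ((S.Γ ω).rep l).2) ∈ A) :=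
      hAl l _ h2 hrv hs'
    exact h5 ▸ h3
  have hsl : |(S.Γ ω).s l| ≤ B0 * (S.Γ ω).R v := hoffv l h2 (by simpa using h1)
  have hsB : |(S.Γ ω).s l| ≤ B * (S.Γ ω).R v :=
    hsl.trans (mul_le_mul_of_nonneg_right (le_max_left _ _) hR0.le)
  refine mem_coe.2 (mem_filter.2 ⟨?_, ?_, ?_⟩)
  · refine mem_filter.2 ⟨(Gal.mem_lns hG hΛ.ok hL i _ _).2 ⟨⟨h4 ▸ hc, h4 ▸ hi⟩, ?_⟩, hAs⟩
    rw [hss]
    nlinarith
  · rw [hνs, hss, Prod.norm_def]
    refine max_le ((hBν _).trans (le_max_right _ _)) ?_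
    rw [Real.norm_eq_abs, abs_div, abs_of_pos hR0, div_le_iff₀ hR0]
    exact hsB
  · rw [hνs, hss]
    have h5 := hx (fw S ν ω l) (Submodule.subset_span ⟨l, hl, rfl⟩)
    have h6 : zae2_ph q (S.ev ν ω l, (S.Γ ω).s l / (S.Γ ω).R v) = 0 := by
      rw [← h5]
      simp only [zae2_ph, q, dotProduct, Fintype.sum_option, fw, toV, Sys.fv, Option.elim]
      field_simp
      ring
    have h7 : zae2_ph (‖q‖⁻¹ • q) (S.ev ν ω l, (S.Γ ω).s l / (S.Γ ω).R v) =
        ‖q‖⁻¹ * zae2_ph q (S.ev ν ω l, (S.Γ ω).s l / (S.Γ ω).R v) := by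
      simp only [zae2_ph, Prod.smul_fst, Prod.smul_snd, smul_dotProduct, smul_eq_mul]
      ring
    rw [h7, h6, mul_zero]

end ECub.Z
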