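import Pool.Agent.P.MP_029dcd_co.F.Z.ZCount0
import Pool.Agent.P.MP_029dcd_co.F.LayT

/-! Most pairs of lines cross not far away. -/

set_option autoImplicit false

namespace ECub.Z

open CubicStab MeasureTheory Filter Topology Finset
open scoped ENNReal

/-- a bump in slope and offset -/
noncomputable def zae3_g {n : ℕ} (t0 r B : ℝ) (y : E n × ℝ) : ℝ :=
  max 0 (min 1 (min (3 - |y.1 1 - t0| / r) (2 - |y.2| / B)))

theorem zae3_g_cont {n : ℕ} (t0 r B : ℝ) : Continuous (zae3_g (n := n) t0 r B) := by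
  unfold zae3_g
  fun_prop

theorem zae3_g_nonneg {n : ℕ} (t0 r B : ℝ) (y : E n × ℝ) : 0 ≤ zae3_g t0 r B y := le_max_left _ _

theorem zae3_g_le {n : ℕ} (t0 r B : ℝ) (y : E n × ℝ) : zae3_g t0 r B y ≤ 1 :=
  max_le zero_le_one (min_le_left _ _)

theorem zae3_g_one {n : ℕ} {t0 r B : ℝ} (hr : 0 < r) (hB : 0 < B) {y : E n × ℝ}
    (h1 : |y.1 1 - t0| ≤ 2 * r) (h2 : |y.2| ≤ B) : zae3_g t0 r B y = 1 := by
  have a1 : |y.1 1 - t0| / r ≤ 2 := by rw [div_le_iff₀ hr]; exact h1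
  have a2 : |y.2| / B ≤ 1 := by rw [div_le_iff₀ hB]; linarith
  unfold zae3_g
  rw [min_eq_left (le_min (by linarith) (by linarith)), max_eq_right zero_le_one]

theorem zae3_g_zero {n : ℕ} {t0 r B : ℝ} (hr : 0 < r) (hB : 0 < B) {y : E n × ℝ}
    (h : 3 * r ≤ |y.1 1 - t0| ∨ 2 * B ≤ |y.2|) : zae3_g t0 r B y = 0 := by
  unfold zae3_g
  apply max_eq_left
  rcases h with h | h
  · have : 3 ≤ |y.1 1 - t0| / r := by rw [le_div_iff₀ hr]; exact h
    exact (min_le_right _ _).trans ((min_le_left _ _).trans (by linarith))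
  · have : 2 ≤ |y.2| / B := by rw [le_div_iff₀ hB]; exact h
    exact (min_le_right _ _).trans ((min_le_right _ _).trans (by linarith))

noncomputable def zae3_F {n : ℕ} (t0 r B : ℝ) : BoundedContinuousFunction (E n × ℝ) ℝ :=
  BoundedContinuousFunction.ofNormedAddCommGroup (zae3_g t0 r B) (zae3_g_cont t0 r B) 1
    fun y => by
      rw [Real.norm_eq_abs, abs_of_nonneg (zae3_g_nonneg _ _ _ _)]
      exact zae3_g_le _ _ _ _

theorem zae3_F_apply {n : ℕ} (t0 r B : ℝ) (y : E n × ℝ) : zae3_F t0 r B y = zae3_g t0 r B y := rfl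

theorem zae3_int {n : ℕ} (m : Measure (E n)) [IsFiniteMeasure m] {t0 r B η : ℝ} (hr : 0 < r)
    (hB : 0 < B) (hη : 0 ≤ η) (h : m {x | |x 1 - t0| < 3 * r} ≤ ENNReal.ofReal η) :
    ∫ y, zae3_F t0 r B y ∂(m.prod volume) ≤ η * (4 * B) := by
  have h1 : ENNReal.ofReal (∫ y, zae3_F t0 r B y ∂(m.prod volume)) ≤
      (m.prod volume) ({x : E n | |x 1 - t0| < 3 * r} ×ˢ Set.Ioo (-(2 * B)) (2 * B)) := by
    apply integral_le_measure
    · intro y _
      exact zae3_g_le _ _ _ _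
    · intro y hy
      refine (zae3_g_zero hr hB ?_).le
      by_contra hc
      push Not at hc
      exact hy ⟨hc.1, abs_lt.1 hc.2⟩
  rw [Measure.prod_prod, Real.volume_Ioo] at h1
  have h2 : ENNReal.ofReal (∫ y, zae3_F t0 r B y ∂(m.prod volume)) ≤
      ENNReal.ofReal (η * (4 * B)) := by
    refine h1.trans ?_
    rw [ENNReal.ofReal_mul hη, show 2 * B - -(2 * B) = 4 * B by ring]
    exact mul_le_mul_left h _
  exact (ENNReal.ofReal_le_ofReal_iff (by positivity)).1 h2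

theorem zae3_small {n : ℕ} (m : Measure (E n)) [IsFiniteMeasure m] (t0 : ℝ)
    (h0 : m {x | x 1 = t0} = 0) {η : ℝ} (hη : 0 < η) :
    ∃ r : ℝ, 0 < r ∧ m {x | |x 1 - t0| < 3 * r} ≤ ENNReal.ofReal η := by
  have hT := tendsto_measure_biInter_gt (μ := m) (s := fun r : ℝ => {x : E n | |x 1 - t0| < 3 * r})
    (a := 0) (fun r _ => (measurableSet_lt (by fun_prop) measurable_const).nullMeasurableSet)
    (fun a b _ hab x hx => lt_of_lt_of_le (show |x 1 - t0| < 3 * a from hx) (by linarith)) ⟨1, one_pos, measure_ne_top _ _⟩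
  have he : (⋂ r > (0 : ℝ), {x : E n | |x 1 - t0| < 3 * r}) = {x | x 1 = t0} := by
    ext x
    simp only [Set.mem_iInter, Set.mem_setOf_eq]
    constructor
    · intro h
      by_contra hc
      have hp : 0 < |x 1 - t0| := abs_pos.2 (sub_ne_zero.2 hc)
      have := h (|x 1 - t0| / 3) (by positivity)
      linarith
    · intro h r hr
      rw [h, sub_self, abs_zero]
      linarith
  rw [he, h0] at hT
  have h1 : ∀ᶠ r in 𝓝[>] (0 : ℝ), m {x : E n | |x 1 - t0| < 3 * r} < ENNReal.ofReal η :=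
    hT.eventually (gt_mem_nhds (ENNReal.ofReal_pos.2 hη))
  obtain ⟨r, hr1, hr2⟩ := (h1.and self_mem_nhdsWithin).exists
  exact ⟨r, hr2, hr1.le⟩

/-- a finite cover of the slope range by intervals of small mass -/
theorem zae3_cover {n : ℕ} (m : Measure (E n)) [IsFiniteMeasure m]
    (h0 : ∀ t0, m {x | x 1 = t0} = 0) {η : ℝ} (hη : 0 < η) (c : ℝ) :
    ∃ (J : Finset ℝ) (r : ℝ → ℝ) (θ : ℝ), 0 < θ ∧ (∀ t, 0 < r t) ∧
      (∀ t, m {x | |x 1 - t| < 3 * r t} ≤ ENNReal.ofReal η) ∧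
      ∀ s, |s - c| ≤ 1 / 100 → ∃ t ∈ J, ∀ s', |s - s'| ≤ θ → |s' - t| ≤ 2 * r t := by
  choose r hr hm using fun t => zae3_small m t (h0 t) hη
  obtain ⟨J, hJ⟩ := (isCompact_closedBall c (1 / 100)).elim_finite_subcover
    (fun t : ℝ => Metric.ball t (r t)) (fun t => Metric.isOpen_ball)
    (fun t _ => Set.mem_iUnion.2 ⟨t, Metric.mem_ball_self (hr t)⟩)
  obtain ⟨θ, hθ, hθJ⟩ : ∃ θ : ℝ, 0 < θ ∧ ∀ t ∈ J, θ ≤ r t := by
    rcases J.eq_empty_or_nonempty with h | h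
    · exact ⟨1, one_pos, by simp [h]⟩
    · obtain ⟨t, ht, hmin⟩ := J.exists_min_image r h
      exact ⟨r t, hr t, hmin⟩
  refine ⟨J, r, θ, hθ, hr, hm, fun s hs => ?_⟩
  have hs' : s ∈ Metric.closedBall c (1 / 100) := by rwa [Metric.mem_closedBall, Real.dist_eq]
  obtain ⟨t, ht, hst⟩ := Set.mem_iUnion₂.1 (hJ hs')
  rw [Metric.mem_ball, Real.dist_eq] at hst
  refine ⟨t, ht, fun s' h => ?_⟩
  have h1 := hθJ t ht
  have h2 : |s' - t| ≤ |s' - s| + |s - t| := abs_sub_le _ _ _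
  rw [abs_sub_comm s' s] at h2
  linarith

theorem zae3_noat (S : Sys) {A : Set (S.Ω × ℕ)} {n : ℕ} {ν : S.Ω × ℕ → E n}
    (hν : S.Marks0 ν) (i : Fin 3) (hi : S.NonAt A i) (hA : MeasurableSet A) (t0 : ℝ) :
    S.mA A ν i {x | x 1 = t0} = 0 := by
  have hm : MeasurableSet {x : E n | x 1 = t0} := measurableSet_eq_fun (by fun_prop) measurable_const
  have hm' : MeasurableSet (A ∩ {x | S.sl x = t0}) :=
    hA.inter (measurableSet_eq_fun S.measurable_sl measurable_const)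
  have h1 := hi t0
  unfold Sys.mA
  rw [Measure.map_apply hν.meas hm, Measure.restrict_apply (hν.meas hm)]
  unfold Sys.mh at h1 ⊢
  rw [Measure.restrict_apply hm'] at h1
  rw [Measure.restrict_apply ((hν.meas hm).inter hA)]
  refine measure_mono_null ?_ h1
  rintro x ⟨⟨hx1, hx2⟩, hx3⟩
  refine ⟨⟨hx2, ?_⟩, hx3⟩
  have := hν.slope x hx3.1
  simp only [Set.mem_preimage, Set.mem_setOf_eq] at hx1 ⊢
  rw [← this, hx1]

theorem zae3_ev (S : Sys) {n : ℕ} {ν : S.Ω × ℕ → E n} (hν : S.Marks0 ν) (ω : S.Ω) {l : Lb}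
    (hl : (S.Γ ω).valid l) : S.ev ν ω l 1 = (S.Γ ω).t l := by
  have hs := S.shift ω l.1
  have hv : (S.Γ (S.T l.1 ω)).valid (0, l.2) := by
    unfold Gal.valid at hl ⊢
    rw [hs.g, add_zero]
    exact hl
  have := hν.slope (S.T l.1 ω, l.2) hv
  unfold Sys.ev
  rw [this]
  unfold Sys.sl
  rw [hs.t, add_zero]

theorem zae3_box {a b : ℕ} (h : a ≤ b) : box 0 a ⊆ box 0 b := by
  intro w hw
  simp only [box, Finset.mem_product, Finset.mem_Icc] at hw ⊢
  have : (a : ℤ) ≤ b := by exact_mod_cast h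
  omega

open Classical in
/-- the counting step -/
theorem zae3_count (V : Finset Lb) (t : Lb → ℝ) (bad : Lb × Lb → Prop) (θ x y : ℝ)
    (hV : (V.card : ℝ) ≤ x) (hy : 0 ≤ y)
    (hbad : ∀ p ∈ V, ∀ p' ∈ V, bad (p, p') → |t p - t p'| ≤ θ)
    (hc : ∀ p ∈ V, ((V.filter fun p' => |t p - t p'| ≤ θ).card : ℝ) ≤ y) :
    (((V ×ˢ V).filter bad).card : ℝ) ≤ x * y := by
  have h1 : (V ×ˢ V).filter bad ⊆
      V.biUnion fun p => (V.filter fun p' => |t p - t p'| ≤ θ).image fun p' => (p, p') := by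
    rintro ⟨p, p'⟩ hp
    simp only [Finset.mem_filter, Finset.mem_product] at hp
    simp only [Finset.mem_biUnion, Finset.mem_image, Finset.mem_filter]
    exact ⟨p, hp.1.1, p', ⟨hp.1.2, hbad p hp.1.1 p' hp.1.2 hp.2⟩, rfl⟩
  have h2 := (Finset.card_le_card h1).trans Finset.card_biUnion_le
  have h3 : (((V ×ˢ V).filter bad).card : ℝ) ≤ ∑ p ∈ V,
      (((V.filter fun p' => |t p - t p'| ≤ θ).image fun p' => (p, p')).card : ℝ) := by
    exact_mod_cast h2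
  refine h3.trans ?_
  have h4 : ∑ p ∈ V, (((V.filter fun p' => |t p - t p'| ≤ θ).image fun p' => (p, p')).card : ℝ)
      ≤ ∑ p ∈ V, y := by
    refine Finset.sum_le_sum fun p hp => le_trans ?_ (hc p hp)
    exact_mod_cast Finset.card_image_le
  refine h4.trans ?_
  rw [Finset.sum_const, nsmul_eq_mul]
  exact mul_le_mul_of_nonneg_right hV hy

theorem crs_ae (S : Sys) (hS : S.toDyn.Erg) {Λ : (ℝ × ℝ) ≃L[ℝ] (ℝ × ℝ)} (hΛ : S.Lin Λ)
    {A : Set (S.Ω × ℕ)} (hA : S.LineSet A) {n : ℕ} {ν : S.Ω × ℕ → E n} (hν : S.Marks0 ν)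
    (i : Fin 3) (hi : S.NonAt A i) (ε : ℝ) (hε : 0 < ε) :
    ∀ᶠ A0 : ℕ in atTop, ∀ᵐ ω ∂S.μ, ∀ᶠ v : ℕ in atTop, Crs (S.Γ ω) (aw S A ω) i 0 v ε A0 := by
  classical
  obtain ⟨B, hB, hoff⟩ := Gal.off_le hΛ.ok 1
  obtain ⟨K, hK⟩ := S.few_lns hS hΛ B
  obtain ⟨m, hmf, hm1, -, hequi⟩ := S.equi hS hΛ hA hν i
  have h0 : ∀ t0, m {x | x 1 = t0} = 0 := fun t0 => hm1 (zae3_noat S hν i hi hA.1 t0)
  set η : ℝ := ε / ((K + 1) * (4 * B + 1)) with hη
  have hηp : 0 < η := by positivity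
  obtain ⟨J, r, θ, hθ, hr, hm, hcov⟩ := zae3_cover m h0 hηp (ctr i)
  obtain ⟨A1, hcr⟩ := Gal.loc_cr hΛ.ok (B + 2 * B / θ)
  filter_upwards [eventually_ge_atTop A1] with A0 hA0
  filter_upwards [hK, hequi, hΛ.lin, hA.2] with ω hKω hEω hLω hAω
  have hG := S.ax ω
  have hE : ∀ᶠ u : ℕ in atTop, ∀ t ∈ J, (∑ l ∈ S.lnsA A ω i (2 * B * (S.Γ ω).R u),
      zae3_F t (r t) B (S.ev ν ω l, (S.Γ ω).s l / (S.Γ ω).R u)) / (u : ℝ) < η * (4 * B + 1) := by
    rw [Finset.eventually_all]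
    intro t _
    refine (hEω (2 * B) (by positivity) (zae3_F t (r t) B)
      (fun y hy => zae3_g_zero (hr t) hB (Or.inr hy))).eventually (gt_mem_nhds ?_)
    have := zae3_int m (hr t) hB hηp.le (hm t)
    linarith
  filter_upwards [hKω, hE, hoff hG hLω, hcr hG hLω, hLω 0 1 one_pos, eventually_gt_atTop 0]
    with u hKu hEu hoffu hcru hRu hu
  have hR : 0 < (S.Γ ω).R u := hRu.1
  have hu' : (0 : ℝ) < u := by exact_mod_cast hu
  have ha : (S.Γ ω).LineC (aw S A ω) := hAω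
  set V := Vis (S.Γ ω) (aw S A ω) i 0 u with hVdef
  have hV : ∀ p ∈ V, (S.Γ ω).valid p ∧ aw S A ω p ∧ (S.Γ ω).fam p = i ∧ (S.Γ ω).rep p = p ∧
      (S.Γ ω).Ln i p ∧ |(S.Γ ω).s p| ≤ B * (S.Γ ω).R u := by
    intro p hp
    obtain ⟨h1, h2, h3, h4, l, hl, hl1, hl2⟩ := of_mem_Vis hG ha hp
    rw [mem_visL] at hl
    have h5 := Gal.at'_spec hG h1 0
    have h6 : (S.Γ ω).at' p 0 = p := h4
    rw [h6, h3] at h5
    refine ⟨h1, h2, h3, h4, ⟨h5.1, h5.2.2⟩, ?_⟩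
    rw [← hG.same_s l p hl.2.1 h1 hl2]
    exact hoffu l hl.2.1 (by rw [one_mul]; exact hl.1)
  have hVK : (V.card : ℝ) ≤ K * u := by
    have h1 : V ⊆ (S.Γ ω).lns i (B * (S.Γ ω).R u) := fun p hp =>
      (Gal.mem_lns hG hΛ.ok hLω i _ p).2 ⟨(hV p hp).2.2.2.2.1, (hV p hp).2.2.2.2.2⟩
    exact_mod_cast (Finset.card_le_card h1).trans (hKu i)
  have key := zae3_count V (S.Γ ω).t
    (fun x => ¬ ∃ w ∈ box 0 (A0 * u), Xc (S.Γ ω) w x.1 x.2) θ (K * u) (η * (4 * B + 1) * u) hVK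
    (by positivity) ?_ ?_
  · unfold Crs
    refine le_trans (le_of_eq ?_) (key.trans ?_)
    · refine congrArg (fun s : Finset (Lb × Lb) => (s.card : ℝ)) ?_
      ext x
      simp only [Finset.mem_filter, hVdef]
    · have h1 : η * ((K + 1) * (4 * B + 1)) = ε := by
        rw [hη]; field_simp
      have h2 : 0 ≤ η * (4 * B + 1) * (u : ℝ) ^ 2 := by positivity
      rw [← h1]
      nlinarith
  · intro p hp p' hp' hb
    by_contra hc
    push Not at hc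
    apply hb
    obtain ⟨v1, -, -, r1, -, s1⟩ := hV p hp
    obtain ⟨v2, -, -, r2, -, s2⟩ := hV p' hp'
    have hne : (S.Γ ω).t p ≠ (S.Γ ω).t p' := by
      intro h
      rw [h, sub_self, abs_zero] at hc
      linarith
    obtain ⟨w, j, j', hx, e1, e2⟩ := hG.cr_ex p p' v1 v2 hne
    obtain ⟨w1, w2, -⟩ := hG.cr_valid w j j' hx
    have t1 := hG.same_t p _ v1 w1 e1
    have t2 := hG.same_t p' _ v2 w2 e2
    have o1 := hG.same_s p _ v1 w1 e1
    have o2 := hG.same_s p' _ v2 w2 e2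
    have hq : 0 ≤ 2 * B / θ := by positivity
    have hw := hcru w j j' hx (by rw [← t1, ← t2]; exact hne)
      (by rw [← o1]; exact s1.trans (mul_le_mul_of_nonneg_right (by linarith) hR.le))
      (by
        rw [← o1, ← o2, ← t1, ← t2]
        have a1 : |(S.Γ ω).s p' - (S.Γ ω).s p| ≤ |(S.Γ ω).s p'| + |(S.Γ ω).s p| := abs_sub _ _
        have a2 : (B + 2 * B / θ) * (S.Γ ω).R u * θ ≤
            (B + 2 * B / θ) * (S.Γ ω).R u * |(S.Γ ω).t p - (S.Γ ω).t p'| :=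
          mul_le_mul_of_nonneg_left hc.le (by positivity)
        have a3 : (B + 2 * B / θ) * (S.Γ ω).R u * θ =
            B * (S.Γ ω).R u * θ + 2 * (B * (S.Γ ω).R u) := by field_simp
        have a4 : 0 ≤ B * (S.Γ ω).R u * θ := by positivity
        linarith)
    refine ⟨w, zae3_box (Nat.mul_le_mul_right u hA0) hw, j, j', hx, ?_, ?_⟩
    · rw [← (Gal.rep_eq_iff hG v1 w1).2 e1]; exact r1
    · rw [← (Gal.rep_eq_iff hG v2 w2).2 e2]; exact r2
  · intro p hp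
    obtain ⟨v1, -, f1, -, -, -⟩ := hV p hp
    have hsl := hG.slope p v1
    rw [f1] at hsl
    obtain ⟨t, ht, htc⟩ := hcov _ hsl
    have h1 := hEu t ht
    rw [div_lt_iff₀ hu'] at h1
    refine le_trans ?_ h1.le
    have hsub : (V.filter fun p' => |(S.Γ ω).t p - (S.Γ ω).t p'| ≤ θ) ⊆
        S.lnsA A ω i (2 * B * (S.Γ ω).R u) := by
      intro p' hp'
      obtain ⟨-, a2, -, -, l2, s2⟩ := hV p' (Finset.mem_filter.1 hp').1
      unfold Sys.lnsA
      refine Finset.mem_filter.2 ⟨(Gal.mem_lns hG hΛ.ok hLω i _ p').2 ⟨l2, s2.trans ?_⟩, a2⟩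
      exact mul_le_mul_of_nonneg_right (by linarith) hR.le
    refine le_trans ?_ (Finset.sum_le_sum_of_subset_of_nonneg hsub
      fun l _ _ => zae3_g_nonneg _ _ _ _)
    rw [Finset.card_eq_sum_ones, Nat.cast_sum]
    refine Finset.sum_le_sum fun p' hp' => ?_
    obtain ⟨hp1, hp2⟩ := Finset.mem_filter.1 hp'
    obtain ⟨v2, -, -, -, -, s2⟩ := hV p' hp1
    rw [zae3_F_apply, zae3_g_one (hr t) hB]
    · simp
    · show |S.ev ν ω p' 1 - t| ≤ 2 * r t
      rw [zae3_ev S hν ω v2]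
      exact htc _ hp2
    · show |(S.Γ ω).s p' / (S.Γ ω).R u| ≤ B
      rw [abs_div, abs_of_pos hR, div_le_iff₀ hR]
      exact s2

end ECub.Z
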