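import Pool.Agent.P.MP_029dcd_co.F.Z.ZCount0

/-! Measurability and shift invariance of the events that involve vectors. -/

set_option autoImplicit false

namespace ECub.Z

open CubicStab MeasureTheory Filter Topology Finset
open scoped ENNReal

theorem zmeas2_rank_iff {V α : Type} [AddCommGroup V] [Module ℝ V] (f : α → V) (J : Finset α)
    (r : ℕ) : r ≤ Module.finrank ℝ (Submodule.span ℝ (f '' (J : Set α))) ↔
      ∃ e : Fin r → α, (∀ k, e k ∈ J) ∧ LinearIndependent ℝ fun k => f (e k) := by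
  classical
  have hfin : (f '' (J : Set α)).Finite := J.finite_toSet.image f
  constructor
  · intro h
    obtain ⟨b, hb, hs, hli⟩ := exists_linearIndependent ℝ (f '' (J : Set α))
    have : Fintype b := (hfin.subset hb).fintype
    have h1 : Module.finrank ℝ (Submodule.span ℝ (Set.range ((↑) : b → V))) = Fintype.card b :=
      finrank_span_eq_card hli
    rw [Subtype.range_coe, hs] at h1
    obtain ⟨u⟩ : Nonempty (Fin r ↪ b) :=
      Function.Embedding.nonempty_of_card_le (by rw [Fintype.card_fin, ← h1]; exact h)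
    choose e he he' using fun k => hb (u k).2
    refine ⟨e, he, ?_⟩
    have h2 : (fun k => f (e k)) = ((↑) : b → V) ∘ u := funext he'
    rw [h2]
    exact hli.comp u u.injective
  · rintro ⟨e, he, hli⟩
    have : FiniteDimensional ℝ (Submodule.span ℝ (f '' (J : Set α))) :=
      FiniteDimensional.span_of_finite ℝ hfin
    have h1 := finrank_span_eq_card hli
    rw [Fintype.card_fin] at h1
    rw [← h1]
    refine Submodule.finrank_mono (Submodule.span_mono ?_)
    rintro _ ⟨k, rfl⟩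
    exact ⟨e k, he k, rfl⟩

theorem zmeas2_sigma {X : Type} [TopologicalSpace X] [T2Space X] [MeasurableSpace X]
    [OpensMeasurableSpace X] {s : Set X} (h : IsSigmaCompact s) : MeasurableSet s := by
  obtain ⟨K, hK, rfl⟩ := h
  exact MeasurableSet.iUnion fun m => (hK m).measurableSet

theorem zmeas2_orbit {ι J : Type} [Fintype ι] [Finite J] (τ : J → ι → ℝ) :
    MeasurableSet {x : J → ι → ℝ | ∃ g : (ι → ℝ) ≃ₗ[ℝ] (ι → ℝ), ∀ l, ∃ c : ℝ, c ≠ 0 ∧
      c • g (x l) = τ l} := by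
  have := Fintype.ofFinite J
  have : ProperSpace ((ι → ℝ) →L[ℝ] (ι → ℝ)) := FiniteDimensional.proper_real _
  let D : Set ((((ι → ℝ) →L[ℝ] (ι → ℝ)) × ((ι → ℝ) →L[ℝ] (ι → ℝ))) × (J → ℝ) × (J → ℝ)) :=
    {p | (p.1.1 * p.1.2 = 1 ∧ p.1.2 * p.1.1 = 1) ∧ p.2.1 * p.2.2 = 1}
  have hD : IsClosed D :=
    ((isClosed_eq (by fun_prop) continuous_const).inter
      (isClosed_eq (by fun_prop) continuous_const)).inter
      (isClosed_eq (by fun_prop) continuous_const)
  have hc : Continuous fun (p : (((ι → ℝ) →L[ℝ] (ι → ℝ)) × ((ι → ℝ) →L[ℝ] (ι → ℝ))) ×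
      (J → ℝ) × (J → ℝ)) (l : J) => p.2.1 l • p.1.1 (τ l) := by fun_prop
  have h1 := zmeas2_sigma ((isSigmaCompact_univ.of_isClosed_subset hD (Set.subset_univ _)).image hc)
  refine h1.congr (Set.ext fun x => Iff.symm ?_)
  constructor
  · rintro ⟨g, hg⟩
    choose c hc0 hcx using hg
    refine ⟨((LinearMap.toContinuousLinearMap g.symm.toLinearMap,
      LinearMap.toContinuousLinearMap g.toLinearMap), fun l => (c l)⁻¹, c), ⟨⟨?_, ?_⟩, ?_⟩, ?_⟩
    · ext y : 1; simp
    · ext y : 1; simp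
    · funext l; simp [hc0 l]
    · funext l
      simp [← hcx l, smul_smul, hc0 l]
  · rintro ⟨⟨⟨M, M'⟩, c, c'⟩, ⟨⟨h1, h2⟩, h3⟩, rfl⟩
    have e1 : ∀ y, M (M' y) = y := fun y => congrArg (fun F : (ι → ℝ) →L[ℝ] (ι → ℝ) => F y) h1
    have e2 : ∀ y, M' (M y) = y := fun y => congrArg (fun F : (ι → ℝ) →L[ℝ] (ι → ℝ) => F y) h2
    have e3 : ∀ l, c l * c' l = 1 := fun l => congrFun h3 l
    refine ⟨LinearEquiv.ofLinearMap M'.toLinearMap M.toLinearMap (LinearMap.ext e2)
      (LinearMap.ext e1), fun l => ⟨c' l, right_ne_zero_of_mul_eq_one (e3 l), ?_⟩⟩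
    simp [e2, smul_smul, mul_comm (c' l), e3 l]

variable (S : Sys) {A : Set (S.Ω × ℕ)} {n : ℕ} {ν : S.Ω × ℕ → E n}

theorem zmeas2_T (l : Lb) : Measurable fun ω : S.Ω => (S.T l.1 ω, l.2) :=
  (S.mp l.1).measurable.prodMk measurable_const

theorem zmeas2_fw (hν : Measurable ν) (l : Lb) : Measurable fun ω => fw S ν ω l := by
  refine measurable_pi_lambda _ fun o => ?_
  cases o with
  | none => exact S.meas.s l
  | some k => exact (measurable_pi_apply k).comp (hν.comp (zmeas2_T S l))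

theorem zmeas2_labs (hA : MeasurableSet A) (B : Finset Z2) (l : Lb) :
    Measurable fun ω => l ∈ labs (S.Γ ω) (aw S A ω) B := by
  simp only [mem_labs]
  refine measurable_const.and (Measurable.and ?_ ?_)
  · exact (measurable_of_countable fun m : ℕ => l.2 < m).comp (S.meas.g l.1)
  · exact (measurableSet_setOfPred.1 hA).comp (zmeas2_T S l)

theorem zmeas2_visL (hA : MeasurableSet A) (i : Fin 3) (v : ℕ) (l : Lb) :
    Measurable fun ω => l ∈ visL (S.Γ ω) (aw S A ω) i 0 v := by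
  classical
  simp only [visL, mem_filter]
  exact (zmeas2_labs S hA _ l).and
    ((measurable_of_countable fun m : Fin 3 => m = i).comp (S.meas.fam l))

theorem meas_nd (hA : MeasurableSet A) (hν : Measurable ν) (i : Fin 3) (v : ℕ) (m : ℝ) (r : ℕ) :
    MeasurableSet {ω | ND (S.Γ ω) (aw S A ω) (fw S ν ω) i 0 v m r} := by
  rw [measurableSet_setOfPred]
  simp only [ND, zmeas2_rank_iff]
  refine Measurable.forall fun J => Measurable.imp ?_ (Measurable.imp ?_
    (measurable_const.imp (Measurable.exists fun e => measurable_const.and ?_)))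
  · simp only [Finset.subset_iff]
    exact Measurable.forall fun l => measurable_const.imp (zmeas2_visL S hA i v l)
  · refine Measurable.forall fun l => measurable_const.imp (Measurable.forall fun l' =>
      measurable_const.imp (Measurable.imp ?_ measurable_const))
    exact (measurable_of_countable fun b : Bool => b = true).comp (S.meas.same l l')
  · exact (measurableSet_setOfPred.1
      (isOpen_setOfPred_linearIndependent (𝕜 := ℝ) (E := Ix n → ℝ) (ι := Fin r)).measurableSet).comp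
      (measurable_pi_lambda _ fun k => zmeas2_fw S hν (e k))

theorem meas_str (hA : MeasurableSet A) (hν : Measurable ν) (𝓣 : Finset (Ix n → ℝ)) (L : ℕ) :
    MeasurableSet {ω | ∃ g, Str (S.Γ ω) (aw S A ω) (fw S ν ω) 𝓣 0 L g} := by
  have key : ∀ ω, (∃ g, Str (S.Γ ω) (aw S A ω) (fw S ν ω) 𝓣 0 L g) ↔
      ∃ J : Finset Lb, (∀ l, l ∈ labs (S.Γ ω) (aw S A ω) (box 0 L) → l ∈ J) ∧
        ∃ τ : J → 𝓣, ∃ g : (Ix n → ℝ) ≃ₗ[ℝ] (Ix n → ℝ), ∀ l : J, ∃ c : ℝ, c ≠ 0 ∧
          c • g (fw S ν ω l) = τ l := by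
    intro ω
    constructor
    · rintro ⟨g, hg⟩
      choose τ h1 h2 using hg
      exact ⟨_, fun _ h => h, fun l => ⟨τ l.1 l.2, h1 l.1 l.2⟩, g, fun l => h2 l.1 l.2⟩
    · rintro ⟨J, hJ, τ, g, hg⟩
      exact ⟨g, fun l hl => ⟨τ ⟨l, hJ l hl⟩, (τ ⟨l, hJ l hl⟩).2, hg ⟨l, hJ l hl⟩⟩⟩
  rw [measurableSet_setOfPred]
  simp only [key]
  refine Measurable.exists fun J => Measurable.and
    (Measurable.forall fun l => (zmeas2_labs S hA _ l).imp measurable_const)
    (Measurable.exists fun τ => ?_)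
  exact (measurableSet_setOfPred.1 (zmeas2_orbit fun l : J => (τ l).1)).comp
    (measurable_pi_lambda _ fun l : J => zmeas2_fw S hν l)

/-- the change of the offset under a shift -/
noncomputable def zmeas2_psi (n : ℕ) (c : ℝ) (hc : c ≠ 0) (p : ℝ × ℝ) :
    (Ix n → ℝ) ≃ₗ[ℝ] (Ix n → ℝ) where
  toFun y o := o.elim (c * (y none + y (some 1) * p.1 - y (some 0) * p.2)) fun k => y (some k)
  invFun y o := o.elim (y none / c - y (some 1) * p.1 + y (some 0) * p.2) fun k => y (some k)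
  map_add' y y' := by
    funext o
    cases o with
    | none => simp only [Option.elim_none, Pi.add_apply]; ring
    | some k => rfl
  map_smul' a y := by
    funext o
    cases o with
    | none => simp only [Option.elim_none, Pi.smul_apply, smul_eq_mul, RingHom.id_apply]; ring
    | some k => rfl
  left_inv y := by
    funext o
    cases o with
    | none => simp only [Option.elim_none, Option.elim_some]; field_simp; ring
    | some k => rfl
  right_inv y := by
    funext o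
    cases o with
    | none => simp only [Option.elim_none, Option.elim_some]; field_simp; ring
    | some k => rfl

theorem zmeas2_TT (ω : S.Ω) (z x : Z2) : S.T x (S.T z ω) = S.T (z + x) ω := by
  rw [add_comm, S.T_add]

/-- the vectors change by an invertible linear map under a shift -/
theorem shift_fw (hν : S.Marks0 ν) (ω : S.Ω) (z : Z2) :
    ∃ ψ : (Ix n → ℝ) ≃ₗ[ℝ] (Ix n → ℝ), ∀ x j, (S.Γ ω).valid (z + x, j) →
      fw S ν (S.T z ω) (x, j) = ψ (fw S ν ω (z + x, j)) := by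
  obtain ⟨c, hc, -, hs⟩ := (S.shift ω z).geo
  refine ⟨zmeas2_psi n c hc.ne' ((S.Γ ω).v z), fun x j hv => ?_⟩
  funext o
  cases o with
  | none =>
    have h0 := hν.one (S.T (z + x) ω, j)
    have h1 := hν.slope (S.T (z + x) ω, j) (by
      have := (S.shift ω (z + x)).g 0
      simp only [Gal.valid] at hv ⊢
      rw [this, add_zero]
      exact hv)
    have h2 := (S.shift ω (z + x)).t 0 j
    rw [add_zero] at h2
    change (S.Γ (S.T z ω)).s (x, j) = c * ((S.Γ ω).s (z + x, j) +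
      ν (S.T (z + x) ω, j) 1 * ((S.Γ ω).v z).1 - ν (S.T (z + x) ω, j) 0 * ((S.Γ ω).v z).2)
    rw [hs x j hv, h0, h1, Sys.sl, h2, one_mul]
  | some k =>
    change ν (S.T x (S.T z ω), j) k = ν (S.T (z + x) ω, j) k
    rw [zmeas2_TT]

theorem zmeas2_box {z x : Z2} {u : ℕ} : z + x ∈ box z u ↔ x ∈ box 0 u := by
  simp only [box, mem_product, mem_Icc, Prod.fst_add, Prod.snd_add, Prod.fst_zero, Prod.snd_zero]
  omega

theorem zmeas2_labs_shift (ω : S.Ω) (z x : Z2) (j u : ℕ) :
    (x, j) ∈ labs (S.Γ (S.T z ω)) (aw S A (S.T z ω)) (box 0 u) ↔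
      (z + x, j) ∈ labs (S.Γ ω) (aw S A ω) (box z u) := by
  simp only [mem_labs, zmeas2_box, Gal.valid, aw, (S.shift ω z).g, zmeas2_TT]

theorem shift_nd (hν : S.Marks0 ν) (ω : S.Ω) (z : Z2) {i : Fin 3} {v : ℕ} {m : ℝ} {r : ℕ}
    (h : ND (S.Γ (S.T z ω)) (aw S A (S.T z ω)) (fw S ν (S.T z ω)) i 0 v m r) :
    ND (S.Γ ω) (aw S A ω) (fw S ν ω) i z v m r := by
  classical
  obtain ⟨ψ, hψ⟩ := shift_fw S hν ω z
  intro J hJ hsame hm
  let σ : Lb → Lb := fun l => (l.1 - z, l.2)
  have hσ : ∀ l : Lb, (z + (l.1 - z), l.2) = l := fun l => by rw [add_sub_cancel]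
  have hinj : Function.Injective σ := fun l l' e => by
    rw [← hσ l, ← hσ l']
    exact congrArg (fun q : Lb => (z + q.1, q.2)) e
  have h1 := h (J.image σ) (by
      intro q hq
      obtain ⟨l, hl, rfl⟩ := mem_image.1 hq
      have h2 := hJ hl
      simp only [visL, mem_filter] at h2 ⊢
      refine ⟨(zmeas2_labs_shift S ω z _ _ v).2 (by rw [hσ]; exact h2.1), ?_⟩
      rw [(S.shift ω z).fam, hσ]
      exact h2.2) (by
      intro q hq q' hq' hs
      obtain ⟨l, hl, rfl⟩ := mem_image.1 hq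
      obtain ⟨l', hl', rfl⟩ := mem_image.1 hq'
      rw [(S.shift ω z).same, hσ, hσ] at hs
      rw [hsame l hl l' hl' hs]) (by rwa [card_image_of_injective _ hinj])
  have h3 : fw S ν (S.T z ω) '' ((J.image σ : Finset Lb) : Set Lb) =
      ψ.toLinearMap '' (fw S ν ω '' (J : Set Lb)) := by
    rw [coe_image, Set.image_image, Set.image_image]
    refine Set.image_congr fun l hl => ?_
    have h4 := hψ (l.1 - z) l.2 (by rw [hσ]; exact (mem_visL.1 (hJ hl)).2.1)
    rw [hσ] at h4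
    exact h4
  rwa [h3, ← Submodule.map_span, LinearEquiv.finrank_map_eq] at h1

theorem shift_str (hν : S.Marks0 ν) (ω : S.Ω) (z : Z2) {𝓣 : Finset (Ix n → ℝ)} {L : ℕ}
    (h : ∃ g, Str (S.Γ (S.T z ω)) (aw S A (S.T z ω)) (fw S ν (S.T z ω)) 𝓣 0 L g) :
    ∃ g, Str (S.Γ ω) (aw S A ω) (fw S ν ω) 𝓣 z L g := by
  obtain ⟨ψ, hψ⟩ := shift_fw S hν ω z
  obtain ⟨g, hg⟩ := h
  refine ⟨ψ.trans g, fun l hl => ?_⟩
  have hσ : (z + (l.1 - z), l.2) = l := by rw [add_sub_cancel]
  obtain ⟨τ, h1, c, h2, h3⟩ :=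
    hg (l.1 - z, l.2) ((zmeas2_labs_shift S ω z _ _ L).2 (by rw [hσ]; exact hl))
  have h4 := hψ (l.1 - z) l.2 (by rw [hσ]; exact (mem_labs.1 hl).2.1)
  rw [hσ] at h4
  exact ⟨τ, h1, c, h2, by rw [← h3, h4]; rfl⟩

end ECub.Z
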