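import Pool.Agent.P.MP_029dcd_co.F.Z.ZMeas1
import Pool.Agent.P.MP_029dcd_co.F.Z.ZMeas2

/-! Good events of large probability. -/

set_option autoImplicit false

namespace ECub.Z

open CubicStab MeasureTheory Filter Topology Finset
open scoped ENNReal

/-- an almost surely eventual property holds from some index on outside a small set -/
theorem zgood1_ev {Ω : Type*} [MeasurableSpace Ω] (μ : Measure Ω) [IsFiniteMeasure μ]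
    (P : ℕ → Ω → Prop) (hP : ∀ v, MeasurableSet {ω | P v ω})
    (h : ∀ᵐ ω ∂μ, ∀ᶠ v : ℕ in atTop, P v ω) (δ : ℝ≥0∞) (hδ : 0 < δ) :
    ∀ᶠ L : ℕ in atTop, MeasurableSet {ω | ∀ v, L ≤ v → P v ω} ∧
      μ {ω | ∀ v, L ≤ v → P v ω}ᶜ ≤ δ := by
  have hm : ∀ L : ℕ, MeasurableSet {ω | ∀ v, L ≤ v → P v ω} := by
    intro L
    have h1 : {ω | ∀ v, L ≤ v → P v ω} = ⋂ v, ⋂ (_ : L ≤ v), {ω | P v ω} := by
      ext ω
      simp only [Set.mem_ofPred_eq, Set.mem_iInter]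
    rw [h1]
    exact MeasurableSet.iInter fun v => MeasurableSet.iInter fun _ => hP v
  have hanti : Antitone fun L : ℕ => {ω | ∀ v, L ≤ v → P v ω}ᶜ := by
    intro L L' hLL
    exact Set.compl_subset_compl.2 fun ω hω v hv => hω v (hLL.trans hv)
  have hlim := tendsto_measure_iInter_atTop (μ := μ)
    (fun L => (hm L).compl.nullMeasurableSet) hanti ⟨0, measure_ne_top _ _⟩
  have h0 : μ (⋂ L : ℕ, {ω | ∀ v, L ≤ v → P v ω}ᶜ) = 0 := by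
    refine measure_mono_null (fun ω hω => ?_) (ae_iff.1 h)
    intro hev
    obtain ⟨L, hL⟩ := eventually_atTop.1 hev
    exact Set.mem_iInter.1 hω L hL
  rw [h0] at hlim
  filter_upwards [hlim.eventually (ge_mem_nhds hδ)] with L hL
  exact ⟨hm L, hL⟩

theorem zgood1_fin {Ω : Type*} [MeasurableSpace Ω] (I : Finset (Fin 3)) (P : Fin 3 → Ω → Prop)
    (hP : ∀ i, MeasurableSet {ω | P i ω}) : MeasurableSet {ω | ∀ i ∈ I, P i ω} := by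
  have h1 : {ω | ∀ i ∈ I, P i ω} = ⋂ i, ⋂ (_ : i ∈ I), {ω | P i ω} := by
    ext ω
    simp only [Set.mem_ofPred_eq, Set.mem_iInter]
  rw [h1]
  exact MeasurableSet.iInter fun v => MeasurableSet.iInter fun _ => hP v

/-- a countable set is exhausted by finite subsets -/
theorem zgood1_exh {α : Type*} [Inhabited α] {𝓒 : Set α} (hc : 𝓒.Countable) :
    ∃ t : ℕ → Finset α, (∀ m, (t m : Set α) ⊆ 𝓒) ∧ ∀ τ ∈ 𝓒, ∀ᶠ m : ℕ in atTop, τ ∈ t m := by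
  classical
  refine ⟨fun m => ((range m).image (Set.enumerateCountable hc default)).filter (· ∈ 𝓒),
    fun m x hx => (mem_filter.1 (mem_coe.1 hx)).2, fun τ hτ => ?_⟩
  obtain ⟨j, hj⟩ := Set.subset_range_enumerate hc default hτ
  filter_upwards [eventually_gt_atTop j] with m hm
  exact mem_filter.2 ⟨mem_image.2 ⟨j, mem_range.2 hm, hj⟩, hτ⟩

/-- the coordinates as a linear equivalence -/
def zgood1_eqv (n : ℕ) : H n ≃ₗ[ℝ] (Ix n → ℝ) where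
  toFun := toV
  invFun := fun x => (fun k => x (some k), x none)
  map_add' := fun x y => by
    funext o
    cases o <;> rfl
  map_smul' := fun c x => by
    funext o
    cases o <;> rfl
  left_inv := fun x => rfl
  right_inv := fun x => by
    funext o
    cases o <;> rfl

theorem Loc.mono {ι : Type} [Fintype ι] {G : Gal} {a : Lb → Prop} {f : Lb → ι → ℝ}
    {U : Fin 3 → Submodule ℝ (ι → ℝ)} {I : Finset (Fin 3)} {𝓣 𝓣' : Finset (ι → ℝ)}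
    {c1 C1 e : ℝ} {L : ℕ} {z : Z2} (h : Loc G a f U I 𝓣 c1 C1 e L z) (h' : 𝓣 ⊆ 𝓣') :
    Loc G a f U I 𝓣' c1 C1 e L z := by
  obtain ⟨g, hg⟩ := h.str
  refine ⟨⟨g, fun l hl => ?_⟩, h.cnt, h.nd⟩
  obtain ⟨τ, hτ, hc⟩ := hg l hl
  exact ⟨τ, h' hτ, hc⟩

theorem good_loc (S : Sys) {A : Set (S.Ω × ℕ)} (hA : MeasurableSet A) {n : ℕ}
    {ν : S.Ω × ℕ → E n} (hν : S.Marks0 ν) (I : Finset (Fin 3))
    (U : Fin 3 → Submodule ℝ (Ix n → ℝ)) (c1 C1 e : ℝ)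
    (hcnt : ∀ i ∈ I, ∀ᵐ ω ∂S.μ, ∀ᶠ v : ℕ in atTop, Cnt (S.Γ ω) (aw S A ω) i 0 v c1 C1)
    (hnd : ∀ i ∈ I, ∀ᵐ ω ∂S.μ, ∀ᶠ v : ℕ in atTop,
      ND (S.Γ ω) (aw S A ω) (fw S ν ω) i 0 v (e * v) (Module.finrank ℝ (U i)))
    (𝓒 : Set (Ix n → ℝ)) (hc : 𝓒.Countable)
    (hrat : ∀ᵐ ω ∂S.μ, ∀ J : Finset Lb, (∀ l ∈ J, S.InA A ω l) →
      ∃ g : (Ix n → ℝ) ≃ₗ[ℝ] (Ix n → ℝ), ∀ l ∈ J, ∃ τ ∈ 𝓒, ∃ c : ℝ, c ≠ 0 ∧
        c • g (fw S ν ω l) = τ)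
    (δ : ℝ≥0∞) (hδ : 0 < δ) :
    ∀ᶠ L : ℕ in atTop, ∃ 𝓣 : Finset (Ix n → ℝ), (𝓣 : Set (Ix n → ℝ)) ⊆ 𝓒 ∧ ∃ B : Set S.Ω,
      MeasurableSet B ∧ S.μ Bᶜ ≤ δ ∧ ∀ ω, ∀ z ∈ cw S B ω,
        Loc (S.Γ ω) (aw S A ω) (fw S ν ω) U I 𝓣 c1 C1 e L z := by
  have hδ2 : 0 < δ / 2 := ENNReal.half_pos hδ.ne'
  have h1 := zgood1_ev S.μ (fun v ω => ∀ i ∈ I, Cnt (S.Γ ω) (aw S A ω) i 0 v c1 C1 ∧
      ND (S.Γ ω) (aw S A ω) (fw S ν ω) i 0 v (e * v) (Module.finrank ℝ (U i)))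
    (fun v => zgood1_fin I _ fun i =>
      (meas_cnt S hA i v c1 C1).inter (meas_nd S hA hν.meas i v _ _)) ?_ _ hδ2
  swap
  · have h2 : ∀ᵐ ω ∂S.μ, ∀ i ∈ I, ∀ᶠ v : ℕ in atTop, Cnt (S.Γ ω) (aw S A ω) i 0 v c1 C1 ∧
        ND (S.Γ ω) (aw S A ω) (fw S ν ω) i 0 v (e * v) (Module.finrank ℝ (U i)) := by
      refine (eventually_all_finset I).2 fun i hi => ?_
      filter_upwards [hcnt i hi, hnd i hi] with ω h3 h4
      exact h3.and h4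
    filter_upwards [h2] with ω h3
    exact (eventually_all_finset I).2 h3
  obtain ⟨t, ht, hex⟩ := zgood1_exh hc
  filter_upwards [h1] with L ⟨hVm, hV⟩
  have h2 := zgood1_ev S.μ
    (fun m ω => ∃ g, Str (S.Γ ω) (aw S A ω) (fw S ν ω) (t m) 0 L g)
    (fun m => meas_str S hA hν.meas (t m) L) ?_ _ hδ2
  swap
  · filter_upwards [hrat] with ω hω
    obtain ⟨g, hg⟩ := hω (labs (S.Γ ω) (aw S A ω) (box 0 L)) fun l hl => (mem_labs.1 hl).2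
    have h3 : ∀ᶠ m : ℕ in atTop, ∀ l ∈ labs (S.Γ ω) (aw S A ω) (box 0 L),
        ∃ τ ∈ t m, ∃ c : ℝ, c ≠ 0 ∧ c • g (fw S ν ω l) = τ := by
      refine (eventually_all_finset _).2 fun l hl => ?_
      obtain ⟨τ, hτ, hc⟩ := hg l hl
      filter_upwards [hex τ hτ] with m hm
      exact ⟨τ, hm, hc⟩
    filter_upwards [h3] with m hm
    exact ⟨g, hm⟩
  obtain ⟨m, hWm, hW⟩ := h2.exists
  refine ⟨t m, ht m, _, hVm.inter hWm, ?_, fun ω z hz => ?_⟩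
  · rw [Set.compl_inter]
    refine (measure_union_le _ _).trans ?_
    rw [← ENNReal.add_halves δ]
    exact add_le_add hV hW
  · obtain ⟨h3, h4⟩ := hz
    exact ⟨shift_str S hν ω z (h4 m le_rfl), fun i hi => shift_cnt S ω z (h3 L le_rfl i hi).1,
      fun i hi => shift_nd S hν ω z (h3 L le_rfl i hi).2⟩

theorem good_far (S : Sys) {A : Set (S.Ω × ℕ)} (hA : MeasurableSet A) (I : Finset (Fin 3))
    {B : Set S.Ω} (hB : MeasurableSet B) (L : ℕ) (c1 C1 ε : ℝ) (A0 : ℕ)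
    (h : ∀ᵐ ω ∂S.μ, ∀ᶠ v : ℕ in atTop, Far (S.Γ ω) (aw S A ω) I (cw S B ω) L c1 C1 ε A0 0 v)
    (δ : ℝ≥0∞) (hδ : 0 < δ) :
    ∀ᶠ L' : ℕ in atTop, ∃ V : Set S.Ω, MeasurableSet V ∧ S.μ Vᶜ ≤ δ ∧ ∀ ω, ∀ z ∈ cw S V ω,
      ∀ v, L' ≤ v → Far (S.Γ ω) (aw S A ω) I (cw S B ω) L c1 C1 ε A0 z v := by
  have h1 := zgood1_ev S.μ
    (fun v ω => Far (S.Γ ω) (aw S A ω) I (cw S B ω) L c1 C1 ε A0 0 v) (fun v => ?_) h δ hδ
  · filter_upwards [h1] with L' ⟨hVm, hV⟩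
    refine ⟨_, hVm, hV, fun ω z hz v hv => ?_⟩
    have h2 := hz v hv
    exact ⟨fun i hi => shift_cnt S ω z (h2.cnt i hi), fun i hi => shift_crs S ω z (h2.crs i hi),
      shift_bad S B ω z h2.bad⟩
  · have h2 : {ω | Far (S.Γ ω) (aw S A ω) I (cw S B ω) L c1 C1 ε A0 0 v} =
        {ω | ∀ i ∈ I, Cnt (S.Γ ω) (aw S A ω) i 0 v c1 C1} ∩
          ({ω | ∀ i ∈ I, Crs (S.Γ ω) (aw S A ω) i 0 v ε A0} ∩
            {ω | Bad (S.Γ ω) (cw S B ω) L 0 v ε A0}) := by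
      ext ω
      exact ⟨fun h => ⟨h.cnt, h.crs, h.bad⟩, fun h => ⟨h.1, h.2.1, h.2.2⟩⟩
    rw [h2]
    exact (zgood1_fin I _ fun i => meas_cnt S hA i v c1 C1).inter
      ((zgood1_fin I _ fun i => meas_crs S hA i v ε A0).inter (meas_bad S hB L v ε A0))

/-- the projectively algebraic structure in the coordinates `Ix n` -/
theorem projAlg_fw (S : Sys) {A A' : Set (S.Ω × ℕ)} (hsub : A' ⊆ A) {n : ℕ}
    {ν : S.Ω × ℕ → E n} (h : S.ProjAlg A ν) :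
    ∀ᵐ ω ∂S.μ, ∀ J : Finset Lb, (∀ l ∈ J, S.InA A' ω l) →
      ∃ g : (Ix n → ℝ) ≃ₗ[ℝ] (Ix n → ℝ), ∀ l ∈ J,
        ∃ τ ∈ {τ : Ix n → ℝ | ∀ k, IsAlgebraic ℚ (τ k)}, ∃ c : ℝ, c ≠ 0 ∧
          c • g (fw S ν ω l) = τ := by
  filter_upwards [h] with ω hω J hJ
  obtain ⟨g, hg⟩ := hω J fun l hl => ⟨(hJ l hl).1, hsub (hJ l hl).2⟩
  refine ⟨(zgood1_eqv n).symm.trans (g.trans (zgood1_eqv n)), fun l hl => ?_⟩
  obtain ⟨c, hc, h1, h2⟩ := hg l hl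
  refine ⟨toV (c • g (S.fv ν ω l)), fun k => ?_, c, hc, ?_⟩
  · cases k with
    | none => exact h2
    | some k => exact h1 k
  · have h3 : fw S ν ω l = zgood1_eqv n (S.fv ν ω l) := rfl
    rw [h3, LinearEquiv.trans_apply, LinearEquiv.symm_apply_apply, LinearEquiv.trans_apply,
      ← map_smul]
    rfl

end ECub.Z
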