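import Pool.Agent.P.MP_029dcd_co.F.Z.ZCount0

/-! Densities of events in a galaxy. -/

set_option autoImplicit false

namespace ECub.Z

open CubicStab MeasureTheory Filter Topology Finset
open scoped ENNReal

theorem zgood2_mem_box {y w : Z2} {u : ℕ} :
    w ∈ box y u ↔ (y.1 - u ≤ w.1 ∧ w.1 ≤ y.1 + u) ∧ (y.2 - u ≤ w.2 ∧ w.2 ≤ y.2 + u) := by
  simp only [box, mem_product, mem_Icc]

theorem zgood2_card_box (y : Z2) (u : ℕ) : (box y u).card = (2 * u + 1) ^ 2 := by
  have h : ∀ a : ℤ, (a + u + 1 - (a - u)).toNat = 2 * u + 1 := fun a => by omega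
  simp only [box, card_product, Int.card_Icc, h, sq]

theorem zgood2_box_eq (u : ℕ) :
    box 0 u = Ico (-(u : ℤ)) ((u : ℤ) + 1) ×ˢ Ico (-(u : ℤ)) ((u : ℤ) + 1) := by
  ext w
  simp only [zgood2_mem_box, mem_product, mem_Ico, Prod.fst_zero, Prod.snd_zero]
  omega

open Classical in
theorem zgood2_card_shift (S : Sys) (B : Set S.Ω) (ω : S.Ω) (w : Z2) (L : ℕ) :
    ((box 0 L).filter fun z => z ∈ cw S B (S.T w ω)).card =
      ((box w L).filter fun z => z ∈ cw S B ω).card := by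
  refine card_nbij' (fun z => z + w) (fun z => z - w) ?_ ?_ ?_ ?_
  · intro z hz
    simp only [coe_filter, Set.mem_setOf_eq, zgood2_mem_box, cw, Prod.fst_zero, Prod.snd_zero,
      Prod.fst_add, Prod.snd_add] at hz ⊢
    refine ⟨by omega, ?_⟩
    rw [S.T_add]; exact hz.2
  · intro z hz
    simp only [coe_filter, Set.mem_setOf_eq, zgood2_mem_box, cw, Prod.fst_zero, Prod.snd_zero,
      Prod.fst_sub, Prod.snd_sub] at hz ⊢
    refine ⟨by omega, ?_⟩
    rw [← S.T_add, sub_add_cancel]; exact hz.2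
  · intro z _; simp
  · intro z _; simp

theorem zgood2_half_shift (S : Sys) (B : Set S.Ω) (ω : S.Ω) (w : Z2) (L : ℕ) :
    Half (cw S B (S.T w ω)) L 0 ↔ Half (cw S B ω) L w := by
  unfold Half
  rw [zgood2_card_shift]

open Classical in
theorem zgood2_meas_card (S : Sys) {B : Set S.Ω} (hB : MeasurableSet B) (L : ℕ) :
    Measurable fun ω => ((box 0 L).filter fun z => z ∈ cw S B ω).card := by
  have h : (fun ω => ((box 0 L).filter fun z => z ∈ cw S B ω).card) =
      fun ω => ∑ z ∈ box 0 L, if S.T z ω ∈ B then 1 else 0 := by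
    funext ω
    rw [card_filter]
    rfl
  rw [h]
  refine Finset.measurable_sum _ fun z _ => ?_
  exact Measurable.ite ((S.mp z).measurable hB) measurable_const measurable_const

theorem zgood2_meas_half (S : Sys) {B : Set S.Ω} (hB : MeasurableSet B) (L : ℕ) :
    MeasurableSet {ω | ¬ Half (cw S B ω) L 0} := by
  have h := zgood2_meas_card S hB L
    (MeasurableSet.of_discrete (s := {m : ℕ | ¬ (2 * L + 1) ^ 2 ≤ 2 * m}))
  exact h

open Classical in
/-- Markov inequality -/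
theorem zgood2_markov (S : Sys) {B : Set S.Ω} (hB : MeasurableSet B) (L : ℕ) :
    S.μ {ω | ¬ Half (cw S B ω) L 0} ≤ 2 * S.μ Bᶜ := by
  set N := {ω | ¬ Half (cw S B ω) L 0} with hN
  have hNm : MeasurableSet N := zgood2_meas_half S hB L
  set m : ℕ := (2 * L + 1) ^ 2 with hm
  have hm0 : (m : ℝ≥0∞) ≠ 0 := by
    have : m ≠ 0 := by positivity
    exact_mod_cast this
  have hpt : ∀ ω, N.indicator (fun _ => (m : ℝ≥0∞)) ω ≤
      2 * ∑ z ∈ box 0 L, (S.T z ⁻¹' Bᶜ).indicator (fun _ => (1 : ℝ≥0∞)) ω := by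
    intro ω
    by_cases hω : ω ∈ N
    · rw [Set.indicator_of_mem hω]
      have h1 : ¬ m ≤ 2 * ((box 0 L).filter fun z => z ∈ cw S B ω).card := hω
      have h2 := card_filter_add_card_filter_not (s := box 0 L) (fun z => z ∈ cw S B ω)
      rw [zgood2_card_box, ← hm] at h2
      have h3 : m ≤ 2 * ((box 0 L).filter fun z => ¬ z ∈ cw S B ω).card := by omega
      have h4 : ∑ z ∈ box 0 L, (S.T z ⁻¹' Bᶜ).indicator (fun _ => (1 : ℝ≥0∞)) ω =
          (((box 0 L).filter fun z => ¬ z ∈ cw S B ω).card : ℝ≥0∞) := by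
        rw [card_filter]
        push_cast
        refine sum_congr rfl fun z _ => ?_
        by_cases hz : S.T z ω ∈ B
        · have hz' : z ∈ cw S B ω := hz
          rw [Set.indicator_of_notMem (by simpa using hz), if_neg (not_not.2 hz')]
        · have hz' : ¬ z ∈ cw S B ω := hz
          rw [Set.indicator_of_mem (by simpa using hz), if_pos hz']
      rw [h4]
      exact_mod_cast h3
    · rw [Set.indicator_of_notMem hω]
      exact zero_le
  have hint := lintegral_mono (μ := S.μ) hpt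
  have hmz : ∀ z : Z2, MeasurableSet (S.T z ⁻¹' Bᶜ) := fun z => (S.mp z).measurable hB.compl
  rw [lintegral_indicator_const hNm, lintegral_const_mul _
    (Finset.measurable_sum _ fun z _ => measurable_const.indicator (hmz z)),
    lintegral_finset_sum _ fun z _ => measurable_const.indicator (hmz z)] at hint
  have h5 : ∀ z ∈ box 0 L, ∫⁻ ω, (S.T z ⁻¹' Bᶜ).indicator (fun _ => (1 : ℝ≥0∞)) ω ∂S.μ =
      S.μ Bᶜ := by
    intro z _
    rw [lintegral_indicator_const (hmz z), one_mul,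
      (S.mp z).measure_preimage hB.compl.nullMeasurableSet]
  rw [sum_congr rfl h5, sum_const, zgood2_card_box, ← hm, nsmul_eq_mul, mul_left_comm] at hint
  exact (ENNReal.mul_le_mul_iff_right hm0 (ENNReal.natCast_ne_top m)).1 hint

theorem zgood2_crN_le (G : Gal) (w : Z2) : (crN G w : ℝ≥0∞) ≤ G.ncr w := by
  unfold crN Gal.ncr
  rw [card_filter]
  push_cast
  exact ENNReal.sum_le_tsum _

theorem zgood2_ncr_shift (S : Sys) (ω : S.Ω) (w : Z2) :
    (S.Γ (S.T w ω)).ncr 0 = (S.Γ ω).ncr w := by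
  unfold Gal.ncr
  refine tsum_congr fun p => ?_
  rw [(S.shift ω w).cr, add_zero]

theorem good_bad (S : Sys) (hS : S.toDyn.Erg) (ε : ℝ) (hε : 0 < ε) (A0 : ℕ) :
    ∃ δ : ℝ≥0∞, 0 < δ ∧ ∀ (B : Set S.Ω) (L : ℕ), MeasurableSet B → S.μ Bᶜ ≤ δ →
      ∀ᵐ ω ∂S.μ, ∀ᶠ v : ℕ in atTop, Bad (S.Γ ω) (cw S B ω) L 0 v ε A0 := by
  classical
  obtain ⟨F, hF, hi, hb⟩ := S.int
  set η : ℝ := ε / (2 * (2 * (A0 : ℝ) + 1) ^ 2) with hη
  have hη0 : 0 < η := by positivity
  obtain ⟨δ0, hδ0, hδ⟩ := exists_pos_setLIntegral_lt_of_measure_lt (μ := S.μ) hi.ne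
    (ε := ENNReal.ofReal η) (by simpa using hη0)
  have hd : (0 : ℝ≥0∞) < min δ0 1 := lt_min hδ0 one_pos
  have hd' : min δ0 1 ≠ ∞ := ne_top_of_le_ne_top ENNReal.one_ne_top (min_le_right _ _)
  refine ⟨min δ0 1 / 2 / 2, ENNReal.half_pos (ENNReal.half_pos hd.ne').ne', ?_⟩
  intro B L hB hBδ
  set N := {ω | ¬ Half (cw S B ω) L 0} with hN
  have hNm : MeasurableSet N := zgood2_meas_half S hB L
  have hNδ : S.μ N < δ0 := by
    calc S.μ N ≤ 2 * S.μ Bᶜ := zgood2_markov S hB L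
      _ ≤ 2 * (min δ0 1 / 2 / 2) := by gcongr
      _ = min δ0 1 / 2 := ENNReal.mul_div_cancel two_ne_zero ENNReal.ofNat_ne_top
      _ < min δ0 1 := ENNReal.half_lt_self hd.ne' hd'
      _ ≤ δ0 := min_le_left _ _
  have hI : Integrable (fun ω => (F ω).toReal) S.μ :=
    integrable_toReal_of_lintegral_ne_top hF.aemeasurable hi.ne
  have hfI : Integrable (N.indicator fun ω => (F ω).toReal) S.μ := hI.indicator hNm
  have hc : ∫ ω, N.indicator (fun ω => (F ω).toReal) ω ∂S.μ ≤ η := by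
    rw [integral_indicator hNm, integral_toReal hF.aemeasurable
      (ae_restrict_of_ae (ae_lt_top hF hi.ne))]
    exact ENNReal.toReal_le_of_le_ofReal hη0.le (hδ N hNδ).le
  have hc0 : 0 ≤ ∫ ω, N.indicator (fun ω => (F ω).toReal) ω ∂S.μ :=
    integral_nonneg fun ω => Set.indicator_nonneg (fun _ _ => ENNReal.toReal_nonneg) ω
  have hfin : ∀ᵐ ω ∂S.μ, ∀ w : Z2, F (S.T w ω) < ∞ :=
    ae_all_iff.2 fun w => (S.mp w).quasiMeasurePreserving.ae (ae_lt_top hF hi.ne)
  filter_upwards [et2_erg S.μ S.T S.T_zero S.T_add S.mp hS _ hfI, hfin] with ω hω hωf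
  filter_upwards [hω (A0 + 1) (ε / 2) (half_pos hε), eventually_ge_atTop 1] with v hv hv1
  set c := ∫ ω, N.indicator (fun ω => (F ω).toReal) ω ∂S.μ with hcdef
  have hv1' : (1 : ℤ) ≤ v := by exact_mod_cast hv1
  have hv1r : (1 : ℝ) ≤ v := by exact_mod_cast hv1
  have hA : (0 : ℤ) ≤ (A0 : ℤ) * v := by positivity
  have e1 : -(((A0 + 1 : ℕ) : ℤ) * v) ≤ -((A0 * v : ℕ) : ℤ) := by push_cast; nlinarith
  have e2 : -((A0 * v : ℕ) : ℤ) ≤ ((A0 * v : ℕ) : ℤ) + 1 := by push_cast; linarith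
  have e3 : ((A0 * v : ℕ) : ℤ) + 1 ≤ ((A0 + 1 : ℕ) : ℤ) * v := by push_cast; nlinarith
  have h1 := hv _ _ _ _ e1 e2 e3 e1 e2 e3
  rw [← zgood2_box_eq] at h1
  have h2 := (abs_le.1 h1).2
  have h3 : (∑ w ∈ (box 0 (A0 * v)).filter (fun w => ¬ Half (cw S B ω) L w),
      (crN (S.Γ ω) w : ℝ)) ≤
      ∑ w ∈ box 0 (A0 * v), N.indicator (fun ω => (F ω).toReal) (S.T w ω) := by
    rw [sum_filter]
    refine sum_le_sum fun w _ => ?_
    by_cases hw : ¬ Half (cw S B ω) L w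
    · have hw' : S.T w ω ∈ N := fun h => hw ((zgood2_half_shift S B ω w L).1 h)
      rw [if_pos hw, Set.indicator_of_mem hw']
      have h4 : (crN (S.Γ ω) w : ℝ≥0∞) ≤ F (S.T w ω) :=
        (zgood2_crN_le _ _).trans ((zgood2_ncr_shift S ω w).symm.le.trans (hb _).2.1)
      have h5 := ENNReal.toReal_mono (hωf w).ne h4
      rwa [ENNReal.toReal_natCast] at h5
    · rw [if_neg hw]
      exact Set.indicator_nonneg (fun _ _ => ENNReal.toReal_nonneg) _
  have h6 : ((((A0 * v : ℕ) : ℤ) + 1 - -((A0 * v : ℕ) : ℤ) : ℤ) : ℝ) = 2 * (A0 * v) + 1 := by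
    push_cast; ring
  rw [h6] at h2
  have hA0 : (0 : ℝ) ≤ A0 := Nat.cast_nonneg _
  have h7 : 2 * ((A0 : ℝ) * v) + 1 ≤ (2 * A0 + 1) * v := by nlinarith
  have h8 : (2 * ((A0 : ℝ) * v) + 1) * (2 * (A0 * v) + 1) * c ≤
      ((2 * A0 + 1) * v) * ((2 * A0 + 1) * v) * η := by
    gcongr
  have h9 : ((2 * (A0 : ℝ) + 1) * v) * ((2 * A0 + 1) * v) * η = ε / 2 * (v : ℝ) ^ 2 := by
    rw [hη]; field_simp
  unfold Bad
  linarith

open Classical in
/-- the cells of an event of positive measure have positive density -/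
theorem dens_ae (S : Sys) (hS : S.toDyn.Erg) {B : Set S.Ω} (hB : MeasurableSet B) :
    ∀ᵐ ω ∂S.μ, ∀ᶠ u : ℕ in atTop, (S.μ B).toReal * (u : ℝ) ^ 2 ≤
      ((box 0 u).filter fun z => S.T z ω ∈ B).card := by
  by_cases hc : (S.μ B).toReal = 0
  · refine Eventually.of_forall fun ω => Eventually.of_forall fun u => ?_
    rw [hc, zero_mul]
    exact Nat.cast_nonneg _
  have hc0 : 0 < (S.μ B).toReal := lt_of_le_of_ne ENNReal.toReal_nonneg (Ne.symm hc)
  have hI : Integrable (B.indicator fun _ => (1 : ℝ)) S.μ := (integrable_const _).indicator hB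
  have hint : ∫ ω, B.indicator (fun _ => (1 : ℝ)) ω ∂S.μ = (S.μ B).toReal := by
    rw [integral_indicator_const _ hB, smul_eq_mul, mul_one, measureReal_def]
  filter_upwards [et2_erg S.μ S.T S.T_zero S.T_add S.mp hS _ hI] with ω hω
  rw [hint] at hω
  filter_upwards [hω 1 _ hc0] with u hu
  have hu0 : (0 : ℤ) ≤ u := Int.natCast_nonneg u
  have e1 : -(((1 : ℕ) : ℤ) * u) ≤ -(u : ℤ) := by push_cast; linarith
  have e2 : -(u : ℤ) ≤ u := by linarith
  have e3 : (u : ℤ) ≤ ((1 : ℕ) : ℤ) * u := by push_cast; linarith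
  have h1 := (abs_le.1 (hu _ _ _ _ e1 e2 e3 e1 e2 e3)).1
  have h2 : ∑ w ∈ Ico (-(u : ℤ)) u ×ˢ Ico (-(u : ℤ)) u,
      B.indicator (fun _ => (1 : ℝ)) (S.T w ω) ≤
      ((box 0 u).filter fun z => S.T z ω ∈ B).card := by
    rw [card_filter]
    push_cast
    refine le_trans (sum_le_sum_of_subset_of_nonneg (t := box 0 u) ?_ ?_) (le_of_eq ?_)
    · intro w hw
      simp only [zgood2_mem_box, mem_product, mem_Ico, Prod.fst_zero, Prod.snd_zero] at hw ⊢
      omega
    · intro w _ _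
      exact Set.indicator_nonneg (fun _ _ => zero_le_one) _
    · refine sum_congr rfl fun w _ => ?_
      rw [Set.indicator_apply]
  have h3 : (((u : ℤ) - -(u : ℤ) : ℤ) : ℝ) = 2 * u := by push_cast; ring
  rw [h3] at h1
  have h4 : 0 ≤ (S.μ B).toReal * (u : ℝ) ^ 2 := by positivity
  nlinarith

end ECub.Z
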