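import Pool.Agent.P.MP_029dcd_co.F.Z.ZAe1
import Pool.Agent.P.MP_029dcd_co.F.Z.ZAe2
import Pool.Agent.P.MP_029dcd_co.F.Z.ZAe3
import Pool.Agent.P.MP_029dcd_co.F.Z.ZGood1
import Pool.Agent.P.MP_029dcd_co.F.Z.ZGood2
import Pool.Agent.P.MP_029dcd_co.F.Z.ZLinA

/-! Choice of the constants and events of the endgame. -/

set_option autoImplicit false

namespace ECub.Z

open CubicStab MeasureTheory Filter Topology Finset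
open scoped ENNReal

theorem Cnt.mono {G : Gal} {a : Lb → Prop} {i : Fin 3} {z : Z2} {v : ℕ} {c1 C1 c1' C1' : ℝ}
    (h : Cnt G a i z v c1 C1) (h1 : c1' ≤ c1) (h2 : C1 ≤ C1') : Cnt G a i z v c1' C1' :=
  ⟨le_trans (mul_le_mul_of_nonneg_right h1 (Nat.cast_nonneg v)) h.1,
    le_trans h.2 (mul_le_mul_of_nonneg_right h2 (Nat.cast_nonneg v))⟩

theorem cnt_common (S : Sys) (hS : S.toDyn.Erg) {Λ : (ℝ × ℝ) ≃L[ℝ] (ℝ × ℝ)} (hΛ : S.Lin Λ)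
    {A : Set (S.Ω × ℕ)} (hA : S.LineSet A) {n : ℕ} {ν : S.Ω × ℕ → E n} (hν : S.Marks0 ν)
    (hpos : ∀ i, S.mh i A ≠ 0) :
    ∃ c1 C1 : ℝ, 0 < c1 ∧ 0 ≤ C1 ∧ ∀ i, ∀ᵐ ω ∂S.μ, ∀ᶠ v : ℕ in atTop,
      Cnt (S.Γ ω) (aw S A ω) i 0 v c1 C1 := by
  choose c C hc h using fun i => count_ae S hS hΛ hA hν i (hpos i)
  refine ⟨min (c 0) (min (c 1) (c 2)), max 0 (max (C 0) (max (C 1) (C 2))),
    lt_min (hc 0) (lt_min (hc 1) (hc 2)), le_max_left _ _, fun i => ?_⟩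
  filter_upwards [h i] with ω hω
  filter_upwards [hω] with v hv
  refine hv.mono ?_ ?_
  · fin_cases i <;> simp
  · fin_cases i <;> simp

theorem pack (S : Sys) (hS : S.toDyn.Erg) {Λ : (ℝ × ℝ) ≃L[ℝ] (ℝ × ℝ)} (hΛ : S.Lin Λ)
    {A : Set (S.Ω × ℕ)} (hA : S.LineSet A) {n : ℕ} {ν : S.Ω × ℕ → E n} (hν : S.Marks0 ν)
    (W : Fin 3 → Submodule ℝ (E n)) (hW : ∀ x ∈ A, ν x ∈ W ((S.Γ x.1).fam (0, x.2)))
    (hnd : ∀ i W', W' < W i → S.mA A ν i W' = 0) (I : Finset (Fin 3))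
    (hI : ∀ i ∈ I, S.NonAt A i) (hpos : ∀ i, S.mh i A ≠ 0)
    (𝓒 : Set (Ix n → ℝ)) (hc : 𝓒.Countable)
    (hrat : ∀ᵐ ω ∂S.μ, ∀ J : Finset Lb, (∀ l ∈ J, S.InA A ω l) →
      ∃ g : (Ix n → ℝ) ≃ₗ[ℝ] (Ix n → ℝ), ∀ l ∈ J, ∃ τ ∈ 𝓒, ∃ c : ℝ, c ≠ 0 ∧
        c • g (fw S ν ω l) = τ) :
    ∃ c1 C1 : ℝ, 0 < c1 ∧ 0 ≤ C1 ∧ ∀ e2 : ℝ, 0 < e2 →
      ∃ (ε e : ℝ) (A0 L : ℕ) (𝓣 : Finset (Ix n → ℝ)) (B : Set S.Ω), 0 < ε ∧ 0 < e ∧ 1 ≤ A0 ∧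
        1 ≤ L ∧ 2 * ε + 25 * (A0 : ℝ) ^ 2 * C1 * ((Fintype.card (Ix n) + 2) * e) ≤ e2 ∧
        10 * ((Fintype.card (Ix n) + 2) * e) ≤ c1 ∧ (𝓣 : Set (Ix n → ℝ)) ⊆ 𝓒 ∧
        (∀ ω, ∀ z ∈ cw S B ω,
          Loc (S.Γ ω) (aw S A ω) (fw S ν ω) (fun i => UW (W i)) I 𝓣 c1 C1 e L z) ∧
        (∀ᵐ ω ∂S.μ, ∀ᶠ v : ℕ in atTop,
          Far (S.Γ ω) (aw S A ω) I (cw S B ω) L c1 C1 ε A0 0 v ∧ ∀ i ∈ I,
            ND (S.Γ ω) (aw S A ω) (fw S ν ω) i 0 v (e * v) (Module.finrank ℝ (UW (W i)))) ∧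
        ∀ δ : ℝ≥0∞, 0 < δ → ∃ (L' : ℕ) (𝓣' : Finset (Ix n → ℝ)) (V : Set S.Ω), L ≤ L' ∧
          (𝓣' : Set (Ix n → ℝ)) ⊆ 𝓒 ∧ MeasurableSet V ∧ S.μ Vᶜ ≤ δ ∧ ∀ ω, ∀ z ∈ cw S V ω,
            Loc (S.Γ ω) (aw S A ω) (fw S ν ω) (fun i => UW (W i)) I 𝓣' c1 C1 e L' z ∧
            ∀ v, L' ≤ v → Far (S.Γ ω) (aw S A ω) I (cw S B ω) L c1 C1 ε A0 z v := by
  classical
  obtain ⟨c1, C1, hc1, hC1, hcnt⟩ := cnt_common S hS hΛ hA hν hpos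
  refine ⟨c1, C1, hc1, hC1, fun e2 he2 => ?_⟩
  have hε : 0 < e2 / 4 := by positivity
  have hcrs : ∀ᶠ A0 : ℕ in atTop, ∀ i ∈ I, ∀ᵐ ω ∂S.μ, ∀ᶠ v : ℕ in atTop,
      Crs (S.Γ ω) (aw S A ω) i 0 v (e2 / 4) A0 :=
    (eventually_all_finset I).2 fun i hi => crs_ae S hS hΛ hA hν i (hI i hi) _ hε
  obtain ⟨A0, hA0crs, hA0⟩ := (hcrs.and (eventually_ge_atTop 1)).exists
  set d : ℝ := Fintype.card (Ix n) + 2 with hd
  have hdpos : 0 < d := by positivity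
  set D : ℝ := 25 * (A0 : ℝ) ^ 2 * C1 with hD
  have hD0 : 0 ≤ D := by positivity
  set e : ℝ := min (c1 / (10 * d)) (e2 / (2 * (D + 1) * d)) with he
  have hepos : 0 < e := lt_min (by positivity) (by positivity)
  have he1 : 10 * (d * e) ≤ c1 := by
    have : e ≤ c1 / (10 * d) := min_le_left _ _
    rw [le_div_iff₀ (by positivity)] at this
    linarith
  have he2' : 2 * (e2 / 4) + D * (d * e) ≤ e2 := by
    have : e ≤ e2 / (2 * (D + 1) * d) := min_le_right _ _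
    rw [le_div_iff₀ (by positivity)] at this
    have h3 : 0 ≤ d * e := by positivity
    nlinarith
  have hndae : ∀ i, ∀ᵐ ω ∂S.μ, ∀ᶠ v : ℕ in atTop,
      ND (S.Γ ω) (aw S A ω) (fw S ν ω) i 0 v (e * v) (Module.finrank ℝ (UW (W i))) := by
    intro i
    filter_upwards [nd_ae S hS hΛ hA hν i (W i) (fun x hx hf => hf ▸ hW x hx) (hnd i)] with ω hω
    exact hω e hepos
  obtain ⟨δ0, hδ0, hbad⟩ := good_bad S hS (e2 / 4) hε A0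
  have hloc := fun δ hδ => good_loc S hA.1 hν I (fun i => UW (W i)) c1 C1 e
    (fun i _ => hcnt i) (fun i _ => hndae i) 𝓒 hc hrat δ hδ
  obtain ⟨L, ⟨𝓣, h𝓣, B, hB, hBm, hBloc⟩, hL⟩ := ((hloc δ0 hδ0).and (eventually_ge_atTop 1)).exists
  have hfar : ∀ᵐ ω ∂S.μ, ∀ᶠ v : ℕ in atTop,
      Far (S.Γ ω) (aw S A ω) I (cw S B ω) L c1 C1 (e2 / 4) A0 0 v := by
    have h1 : ∀ᵐ ω ∂S.μ, ∀ i ∈ I, ∀ᶠ v : ℕ in atTop,
        Crs (S.Γ ω) (aw S A ω) i 0 v (e2 / 4) A0 := (eventually_all_finset I).2 hA0crs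
    filter_upwards [h1, ae_all_iff.2 hcnt, hbad B L hB hBm] with ω h1 h2 h3
    filter_upwards [(eventually_all_finset I).2 h1, eventually_all.2 h2, h3] with v a1 a2 a3
    exact ⟨fun i _ => a2 i, a1, a3⟩
  refine ⟨e2 / 4, e, A0, L, 𝓣, B, hε, hepos, hA0, hL, he2', he1, h𝓣, hBloc, ?_, ?_⟩
  · filter_upwards [hfar, ae_all_iff.2 hndae] with ω h1 h2
    filter_upwards [h1, eventually_all.2 h2] with v a1 a2
    exact ⟨a1, fun i _ => a2 i⟩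
  · intro δ hδ
    have hδ2 : 0 < δ / 2 := ENNReal.half_pos hδ.ne'
    obtain ⟨L', ⟨⟨𝓣', h𝓣', B', hB', hBm', hBloc'⟩, V, hV, hVm, hVfar⟩, hL'⟩ :=
      (((hloc _ hδ2).and (good_far S hA.1 I hB L c1 C1 (e2 / 4) A0 hfar _ hδ2)).and
        (eventually_ge_atTop L)).exists
    refine ⟨L', 𝓣', B' ∩ V, hL', h𝓣', hB'.inter hV, ?_, fun ω z hz => ⟨hBloc' ω z hz.1,
      hVfar ω z hz.2⟩⟩
    rw [Set.compl_inter]
    exact (measure_union_le _ _).trans ((add_le_add hBm' hVm).trans (ENNReal.add_halves δ).le)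

variable {ι : Type} [Fintype ι] {K : Type} [Field K] [Algebra K ℝ] {G : Gal} {a : Lb → Prop}
  {f : Lb → ι → ℝ} {U : Fin 3 → Submodule ℝ (ι → ℝ)}

theorem rat_ne_zero {x : ι → ℝ} (h : IsRat K x) (hx : x ≠ 0) : rat K x ≠ 0 := by
  obtain ⟨c, hc, e⟩ := rat_spec h
  intro h0
  rw [h0] at e
  have : cv (0 : ι → K) = 0 := by ext k; simp [cv]
  rw [this] at e
  exact hx ((smul_eq_zero.1 e).resolve_left hc)

theorem exists_rel (env : Env G a f U) (g0 : (ι → ℝ) ≃ₗ[ℝ] (ι → ℝ)) {z : Z2}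
    (hz : G.tp z = true) (ha : ∀ i, a (G.tlab z i)) (hrat : ∀ i, IsRat K (g0 (f (G.tlab z i)))) :
    ∃ b' : Fin 3 → K, (∀ i, b' i ≠ 0) ∧ ∑ i, b' i • rat K (g0 (f (G.tlab z i))) = 0 := by
  obtain ⟨k, C, hG⟩ := env.ax
  obtain ⟨c, hc, hrel⟩ := env.rel z hz ha
  choose r hr er using fun i => rat_spec (hrat i)
  refine rat_rel _ (fun i => c i / r i) (fun i => div_ne_zero (hc i) (hr i)) ?_ ?_
  · have : ∑ i, (c i / r i) • cv (rat K (g0 (f (G.tlab z i)))) =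
        g0 (∑ i, c i • f (G.tlab z i)) := by
      rw [map_sum]
      refine sum_congr rfl fun i _ => ?_
      rw [← er i, smul_smul, div_mul_cancel₀ _ (hr i), map_smul]
    rw [this, hrel, map_zero]
  · intro i j hij s e
    rw [← er i, ← er j, smul_smul] at e
    have hi := hG.tp_can z hz i
    have hj := hG.tp_can z hz j
    refine env.indep _ _ hi.1 hj.1 (ha i) (ha j) (by rw [hi.2.1, hj.2.1]; exact hij)
      ((r i)⁻¹ * (s * r j)) (g0.injective ?_)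
    rw [map_smul, ← smul_smul, ← e, smul_smul, inv_mul_cancel₀ (hr i), one_smul]

theorem prop_of_rat (g0 : (ι → ℝ) ≃ₗ[ℝ] (ι → ℝ)) {x y : ι → ℝ} (hx : IsRat K (g0 x))
    (hy : IsRat K (g0 y)) {r r' : K} (hr : r ≠ 0) (h : r • rat K (g0 x) = r' • rat K (g0 y)) :
    ∃ s : ℝ, x = s • y := by
  obtain ⟨c, hc, e⟩ := rat_spec hx
  obtain ⟨c', _, e'⟩ := rat_spec hy
  have h1 := congrArg cv h
  rw [cv_smul, cv_smul, ← e, ← e', smul_smul, smul_smul] at h1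
  have hr' : algebraMap K ℝ r * c ≠ 0 := mul_ne_zero (by simpa using hr) hc
  refine ⟨(algebraMap K ℝ r * c)⁻¹ * (algebraMap K ℝ r' * c'), g0.injective ?_⟩
  rw [map_smul, ← smul_smul, ← h1, smul_smul, inv_mul_cancel₀ hr', one_smul]

open Classical in
theorem exists_preimage_cv (𝓣 : Finset (ι → ℝ))
    (h : (𝓣 : Set (ι → ℝ)) ⊆ Set.range (cv : (ι → K) → ι → ℝ)) :
    ∃ 𝓣1 : Finset (ι → K), 𝓣1.image cv = 𝓣 := by
  refine ⟨𝓣.preimage cv (cv_injective.injOn), ?_⟩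
  rw [image_preimage]
  exact filter_true_of_mem fun x hx => h hx

end ECub.Z
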