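import Pool.Agent.P.MP_029dcd_co.F.Z.ZLinA

/-! Comparison of rational structures. -/

set_option autoImplicit false

namespace ECub.Z

open CubicStab MeasureTheory Filter Topology Finset
open scoped ENNReal

variable {ι : Type} [Fintype ι] {K : Type} [Field K] [Algebra K ℝ]

theorem zlinb_equiv {R : Type} [Field R] [DecidableEq ι] (M : Matrix ι ι R) (hM : M.det ≠ 0) :
    ∃ e : (ι → R) ≃ₗ[R] (ι → R), ∀ x, e x = M.mulVec x := by
  have hU : IsUnit M := (Matrix.isUnit_iff_isUnit_det M).2 (Ne.isUnit hM)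
  obtain ⟨hI⟩ := hU.nonempty_invertible
  refine ⟨Matrix.toLinearEquiv' M hI, fun x => ?_⟩
  exact congrArg (fun f : (ι → R) →ₗ[R] (ι → R) => f x) (Matrix.toLinearEquiv'_apply M hI)

theorem zlinb_cv (M : Matrix ι ι K) (x : ι → K) :
    (M.map (algebraMap K ℝ)).mulVec (cv x) = cv (M.mulVec x) := by
  funext i
  simp [cv, Matrix.mulVec, dotProduct, map_sum]

omit [Fintype ι] in
theorem zlinb_cv_smul (c : K) (x : ι → K) : cv (c • x) = algebraMap K ℝ c • cv x := by
  funext i
  simp [cv]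

omit [Fintype ι] in
theorem zlinb_cv_ne {x : ι → K} (hx : x ≠ 0) : cv x ≠ 0 := by
  intro h
  apply hx
  funext i
  have := congrFun h i
  simpa [cv] using this

/-- decomposition of a real matrix along a basis of the reals over `K` -/
theorem zlinb_dec (A : Matrix ι ι ℝ) :
    ∃ (I : Type) (s : Finset I) (γ : I → ℝ) (φ : I → ℝ →ₗ[K] K),
      ∀ i j, A i j = ∑ m ∈ s, γ m * algebraMap K ℝ (φ m (A i j)) := by
  classical
  let b := Module.Basis.ofVectorSpace K ℝ
  refine ⟨_, univ.biUnion fun p : ι × ι => (b.repr (A p.1 p.2)).support, b, b.coord,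
    fun i j => ?_⟩
  have h1 : A i j = (b.repr (A i j)).sum fun m c => c • b m :=
    (b.linearCombination_repr (A i j)).symm
  have h2 := Finsupp.sum_of_support_subset (b.repr (A i j))
    (s := univ.biUnion fun p : ι × ι => (b.repr (A p.1 p.2)).support)
    (fun m hm => mem_biUnion.2 ⟨(i, j), mem_univ _, hm⟩) (fun m c => c • b m)
    (fun m _ => zero_smul K _)
  refine h1.trans (h2.trans (sum_congr rfl fun m _ => ?_))
  rw [Algebra.smul_def, mul_comm]
  rfl

/-- some combination over `K` of the components is invertible -/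
theorem zlinb_comb [DecidableEq ι] {I : Type} (s : Finset I) (γ : I → ℝ) (G : I → Matrix ι ι K)
    (A : Matrix ι ι ℝ) (hA : A.det ≠ 0)
    (h : ∀ i j, A i j = ∑ m ∈ s, γ m * algebraMap K ℝ (G m i j)) :
    ∃ t : I → K, (Matrix.of fun i j => ∑ m ∈ s, t m * G m i j).det ≠ 0 := by
  have : CharZero K := RingHom.charZero (algebraMap K ℝ)
  by_contra hc
  push Not at hc
  let Q : Matrix ι ι (MvPolynomial I K) :=
    Matrix.of fun i j => ∑ m ∈ s, MvPolynomial.X m * MvPolynomial.C (G m i j)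
  have hQ : Q.det = 0 := by
    apply MvPolynomial.funext
    intro t
    rw [RingHom.map_det, map_zero, ← hc t]
    congr 1
    ext i j
    simp [Q, map_sum]
  apply hA
  have h2 : (MvPolynomial.aeval γ : MvPolynomial I K →ₐ[K] ℝ) Q.det = A.det := by
    rw [AlgHom.map_det]
    congr 1
    ext i j
    rw [h i j]
    simp [Q, map_sum]
  rw [← h2, hQ, map_zero]

/-- comparison of two rational structures -/
theorem eig (h : (ι → ℝ) ≃ₗ[ℝ] (ι → ℝ)) :
    ∃ (h0 : (ι → K) ≃ₗ[K] (ι → K)) (hR : (ι → ℝ) ≃ₗ[ℝ] (ι → ℝ)),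
      (∀ x, hR (cv x) = cv (h0 x)) ∧ ∀ U : Submodule ℝ (ι → ℝ),
        (∃ θ : ℝ, θ ≠ 0 ∧ ∀ x ∈ U, h x = θ • hR x) ∨
        ∃ 𝓤 : Finset (Submodule ℝ (ι → ℝ)), 𝓤.card ≤ Fintype.card ι ∧ (∀ U' ∈ 𝓤, U' < U) ∧
          ∀ x : ι → K, x ≠ 0 → cv x ∈ U → IsRat K (h (cv x)) → ∃ U' ∈ 𝓤, cv x ∈ U' := by
  classical
  let A : Matrix ι ι ℝ := LinearMap.toMatrix' h.toLinearMap
  have hAx : ∀ x, h x = A.mulVec x := fun x => (LinearMap.toMatrix'_mulVec h.toLinearMap x).symm
  have hA : A.det ≠ 0 := by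
    rw [LinearMap.det_toMatrix']
    exact (LinearEquiv.isUnit_det' h).ne_zero
  obtain ⟨I, s, γ, φ, hdec⟩ := zlinb_dec (K := K) A
  let G : I → Matrix ι ι K := fun m => Matrix.of fun i j => φ m (A i j)
  obtain ⟨t, ht⟩ := zlinb_comb s γ G A hA hdec
  set Gs : Matrix ι ι K := Matrix.of fun i j => ∑ m ∈ s, t m * G m i j with hGs
  have htR : (Gs.map (algebraMap K ℝ)).det ≠ 0 := by
    rw [← RingHom.mapMatrix_apply, ← RingHom.map_det]
    exact (map_ne_zero _).2 ht
  obtain ⟨h0, hh0⟩ := zlinb_equiv Gs ht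
  obtain ⟨hR, hhR⟩ := zlinb_equiv _ htR
  have hcomp : ∀ x, hR (cv x) = cv (h0 x) := fun x => by rw [hhR, hh0, zlinb_cv]
  refine ⟨h0, hR, hcomp, fun U => ?_⟩
  let B : I → Module.End ℝ (ι → ℝ) := fun m =>
    hR.symm.toLinearMap ∘ₗ Matrix.toLin' ((G m).map (algebraMap K ℝ))
  have hB : ∀ m x, hR (B m x) = ((G m).map (algebraMap K ℝ)).mulVec x := fun m x => by
    simp [B, Matrix.toLin'_apply]
  have hsum : ∀ x, h x = ∑ m ∈ s, γ m • hR (B m x) := fun x => by
    rw [hAx]
    funext i
    simp only [hB, Finset.sum_apply, Pi.smul_apply, smul_eq_mul, Matrix.mulVec, dotProduct,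
      Matrix.map_apply, mul_sum]
    rw [sum_comm]
    refine sum_congr rfl fun j _ => ?_
    rw [hdec i j, sum_mul]
    refine sum_congr rfl fun m _ => ?_
    simp only [G, Matrix.of_apply]
    ring
  by_cases hall : ∀ m, ∃ l : ℝ, ∀ x ∈ U, B m x = l • x
  · left
    choose l hl using hall
    have hθ : ∀ x ∈ U, h x = (∑ m ∈ s, γ m * l m) • hR x := fun x hx => by
      rw [hsum, sum_smul]
      refine sum_congr rfl fun m _ => ?_
      rw [hl m x hx, map_smul, mul_smul]
    by_cases h0θ : (∑ m ∈ s, γ m * l m) = 0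
    · refine ⟨1, one_ne_zero, fun x hx => ?_⟩
      have hx0 : x = 0 := by
        have := hθ x hx
        rw [h0θ, zero_smul] at this
        exact h.map_eq_zero_iff.1 this
      simp [hx0]
    · exact ⟨_, h0θ, hθ⟩
  · right
    push Not at hall
    obtain ⟨m, hm⟩ := hall
    refine ⟨(B m).charpoly.roots.toFinset.image fun l => U ⊓ (B m).eigenspace l, ?_, ?_, ?_⟩
    · refine card_image_le.trans ((Multiset.toFinset_card_le _).trans
        ((Polynomial.card_roots' _).trans ?_))
      rw [LinearMap.charpoly_natDegree, Module.finrank_fintype_fun_eq_card]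
    · intro U' hU'
      obtain ⟨l, -, rfl⟩ := mem_image.1 hU'
      refine lt_of_le_of_ne inf_le_left fun he => ?_
      obtain ⟨x, hx, hne⟩ := hm l
      rw [← he] at hx
      exact hne (Module.End.mem_eigenspace_iff.1 hx.2)
    · rintro x hx hxU ⟨y, c, hc, hy⟩
      have hy' : ∀ i, ∑ j, x j • A i j = y i • c⁻¹ := fun i => by
        have := congrFun hy i
        rw [hAx] at this
        simp only [Pi.smul_apply, smul_eq_mul, Matrix.mulVec, dotProduct, cv] at this
        simp only [Algebra.smul_def]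
        rw [← this, mul_comm c, mul_assoc, mul_inv_cancel₀ hc, mul_one]
        exact sum_congr rfl fun j _ => mul_comm _ _
      have hG : ∀ n, (G n).mulVec x = φ n c⁻¹ • y := fun n => by
        funext i
        have := congrArg (φ n) (hy' i)
        simp only [map_sum, map_smul, smul_eq_mul] at this
        simp only [G, Matrix.mulVec, dotProduct, Matrix.of_apply, Pi.smul_apply, smul_eq_mul]
        rw [mul_comm, ← this]
        exact sum_congr rfl fun j _ => mul_comm _ _
      have hGx : h0 x = (∑ n ∈ s, t n * φ n c⁻¹) • y := by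
        rw [hh0]
        funext i
        have e1 : Gs.mulVec x i = ∑ n ∈ s, t n * (G n).mulVec x i := by
          simp only [hGs, Matrix.mulVec, dotProduct, Matrix.of_apply, sum_mul, mul_sum]
          rw [sum_comm]
          exact sum_congr rfl fun n _ => sum_congr rfl fun j _ => mul_assoc _ _ _
        rw [e1]
        simp only [hG, Pi.smul_apply, smul_eq_mul, sum_mul, mul_assoc]
      set μ : K := ∑ n ∈ s, t n * φ n c⁻¹ with hμ
      have hμ0 : μ ≠ 0 := fun e => by
        rw [e, zero_smul] at hGx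
        exact hx (h0.map_eq_zero_iff.1 hGx)
      have hev : B m (cv x) = algebraMap K ℝ (φ m c⁻¹ / μ) • cv x := by
        apply hR.injective
        rw [hB, zlinb_cv, hG, map_smul, hcomp, hGx, ← zlinb_cv_smul, smul_smul,
          div_mul_cancel₀ _ hμ0]
      have hmem : cv x ∈ (B m).eigenspace (algebraMap K ℝ (φ m c⁻¹ / μ)) :=
        Module.End.mem_eigenspace_iff.2 hev
      refine ⟨_, mem_image.2 ⟨algebraMap K ℝ (φ m c⁻¹ / μ), ?_, rfl⟩, hxU, hmem⟩
      rw [Multiset.mem_toFinset, Polynomial.mem_roots (LinearMap.charpoly_monic _).ne_zero,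
        ← Module.End.hasEigenvalue_iff_isRoot_charpoly]
      exact Module.End.hasEigenvalue_of_hasEigenvector ⟨hmem, zlinb_cv_ne hx⟩

end ECub.Z
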