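import Pool.Agent.P.MP_029dcd_co.F.Z.ZCount
import Pool.Agent.P.MP_029dcd_co.F.Z.ZLinB

/-! Phase 2: concentration of ratios of seminorms. -/

set_option autoImplicit false

namespace ECub.Z

open CubicStab MeasureTheory Filter Topology Finset
open scoped ENNReal

variable {ι : Type} [Fintype ι] {K : Type} [Field K] [Algebra K ℝ] {G : Gal} {a : Lb → Prop}
  {f : Lb → ι → ℝ} {U : Fin 3 → Submodule ℝ (ι → ℝ)}

open Classical in
/-- one seminorm on the lines of one box -/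
theorem ztl_one (𝓣 : Finset (ι → K)) (w : AbsoluteValue K ℝ) (Cw : ℝ) (hCw : 1 ≤ Cw)
    (hw : GoodAt w 𝓣 Cw) (hι : 0 < Fintype.card ι) (V : Finset Lb) (F : Lb → ι → K)
    (h0 : (ι → K) ≃ₗ[K] (ι → K)) (τ : Lb → ι → K) (β : Lb → K) (Uh : Set (ι → K)) (m : ℝ)
    (hτ : ∀ p ∈ V, τ p ∈ 𝓣 ∧ β p ≠ 0 ∧ τ p = β p • h0 (F p)) (hF : ∀ p ∈ V, F p ∈ Uh)
    (hspan : ∀ s : Set (ι → K), (∀ x ∈ Uh, cv (h0 x) ∈ Submodule.span ℝ (cv '' s)) ∨
      ((V.filter fun p => cv (h0 (F p)) ∈ Submodule.span ℝ (cv '' s)).card : ℝ) ≤ m)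
    (hm0 : 0 ≤ m) (hm : m < V.card) (σ : (ι → K) → ℝ) (hσ : IsSN w σ) (hx : ∃ x ∈ Uh, σ x ≠ 0) :
    ∃ M : ℝ, 0 < M ∧ ∃ Exc : Finset Lb, (Exc.card : ℝ) ≤ m ∧ ∀ p ∈ V, p ∉ Exc →
      M < (2 * Fintype.card ι * Cw ^ 2) * (w (β p) * σ (F p)) ∧ w (β p) * σ (F p) ≤ M := by
  have hσ1 : IsSN w fun x => σ (h0.symm x) := hσ.comp (h0.symm : (ι → K) →ₗ[K] (ι → K))
  have hVne : V.Nonempty := by
    rw [← Finset.card_pos]
    have : (0 : ℝ) < V.card := lt_of_le_of_lt hm0 hm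
    exact_mod_cast this
  have hval : ∀ p ∈ V, σ (h0.symm (τ p)) = w (β p) * σ (F p) := by
    intro p hp
    rw [(hτ p hp).2.2, map_smul, LinearEquiv.symm_apply_apply, hσ.smul]
  have hmem : ∀ p ∈ V, ∀ s : Set (ι → K), τ p ∈ s →
      cv (h0 (F p)) ∈ Submodule.span ℝ (cv '' s) := by
    intro p hp s hs
    obtain ⟨_, hβ, he⟩ := hτ p hp
    have h1 : h0 (F p) = (β p)⁻¹ • τ p := by rw [he, smul_smul, inv_mul_cancel₀ hβ, one_smul]
    rw [h1, cv_smul]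
    exact Submodule.smul_mem _ _ (Submodule.subset_span ⟨_, hs, rfl⟩)
  obtain ⟨p0, hp0, hmax⟩ := V.exists_max_image (fun p => w (β p) * σ (F p)) hVne
  set M := w (β p0) * σ (F p0) with hMdef
  have hM0 : 0 ≤ M := mul_nonneg (w.nonneg _) (hσ.nonneg _)
  have hCw0 : 0 ≤ Cw := by linarith
  have hιR : (0 : ℝ) < Fintype.card ι := by exact_mod_cast hι
  have hMpos : 0 < M := by
    rcases hspan (τ '' (V : Set Lb)) with h | h
    · obtain ⟨x, hxU, hx0⟩ := hx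
      have h2 := gen hw hCw0 hσ1 (τ '' (V : Set Lb))
        (by rintro _ ⟨p, hp, rfl⟩; exact (hτ p hp).1) M hM0
        (by rintro _ ⟨p, hp, rfl⟩; rw [hval p hp]; exact hmax p hp) (h0 x) (h x hxU)
      simp only [LinearEquiv.symm_apply_apply] at h2
      rcases hM0.lt_or_eq with h3 | h3
      · exact h3
      · exfalso
        rw [← h3, mul_zero] at h2
        exact hx0 (le_antisymm h2 (hσ.nonneg x))
    · exfalso
      rw [Finset.filter_true_of_mem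
        (fun p hp => hmem p hp (τ '' (V : Set Lb)) ⟨p, hp, rfl⟩)] at h
      linarith
  have hD : (0 : ℝ) < 2 * Fintype.card ι * Cw ^ 2 := by positivity
  set D : ℝ := 2 * Fintype.card ι * Cw ^ 2 with hDdef
  set s : Set (ι → K) := {y | y ∈ τ '' (V : Set Lb) ∧ σ (h0.symm y) ≤ M / D} with hs
  rcases hspan s with h | h
  · exfalso
    have h1 : cv (τ p0) ∈ Submodule.span ℝ (cv '' s) := by
      rw [(hτ p0 hp0).2.2, cv_smul]
      exact Submodule.smul_mem _ _ (h _ (hF p0 hp0))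
    have h2 := gen hw hCw0 hσ1 s
      (by rintro _ ⟨⟨p, hp, rfl⟩, _⟩; exact (hτ p hp).1) (M / D) (by positivity)
      (fun y hy => hy.2) (τ p0) h1
    rw [hval p0 hp0] at h2
    have h3 := hw.le _ (hτ p0 hp0).1
    have h4 : (Fintype.card ι : ℝ) * Cw * N0 w (τ p0) * (M / D) ≤
        (Fintype.card ι : ℝ) * Cw * Cw * (M / D) := by gcongr
    have h5 : (Fintype.card ι : ℝ) * Cw * Cw * (M / D) = M / 2 := by
      rw [hDdef]; field_simp
    linarith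
  · refine ⟨M, hMpos, _, h, fun p hp hpE => ⟨?_, hmax p hp⟩⟩
    by_contra hcon
    apply hpE
    refine Finset.mem_filter.2 ⟨hp, hmem p hp s ⟨⟨p, hp, rfl⟩, ?_⟩⟩
    rw [hval p hp, le_div_iff₀ hD]
    linarith [not_lt.1 hcon]

theorem ztl_log {D M M' a b c d x y : ℝ} (hD : 0 < D) (hM : 0 < M) (hM' : 0 < M')
    (hx : 0 ≤ x) (hy : 0 ≤ y) (ha : 0 ≤ a) (hb : 0 ≤ b) (hc : 0 ≤ c) (hd : 0 ≤ d)
    (h1 : M < D * (x * a) ∧ x * a ≤ M) (h2 : M' < D * (x * b) ∧ x * b ≤ M')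
    (h3 : M < D * (y * c) ∧ y * c ≤ M) (h4 : M' < D * (y * d) ∧ y * d ≤ M') :
    0 < a ∧ 0 < b ∧ 0 < c ∧ 0 < d ∧
      |Real.log (a / b) - Real.log (c / d)| ≤ 2 * Real.log D := by
  have key : ∀ {N s t : ℝ}, 0 < N → 0 ≤ s → 0 ≤ t → (N < D * (s * t) ∧ s * t ≤ N) →
      0 < s ∧ 0 < t ∧ Real.log N ≤ Real.log D + (Real.log s + Real.log t) ∧
        Real.log s + Real.log t ≤ Real.log N := by
    intro N s t hN hs ht h
    have hst : 0 < s * t := by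
      by_contra hcon
      have : D * (s * t) ≤ 0 := mul_nonpos_of_nonneg_of_nonpos hD.le (not_lt.1 hcon)
      linarith [h.1]
    have hs' : 0 < s := by
      rcases hs.lt_or_eq with h' | h'
      · exact h'
      · rw [← h', zero_mul] at hst; exact absurd hst (lt_irrefl _)
    have ht' : 0 < t := by
      rcases ht.lt_or_eq with h' | h'
      · exact h'
      · rw [← h', mul_zero] at hst; exact absurd hst (lt_irrefl _)
    refine ⟨hs', ht', ?_, ?_⟩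
    · rw [← Real.log_mul hs'.ne' ht'.ne', ← Real.log_mul hD.ne' hst.ne']
      exact Real.log_le_log hN h.1.le
    · rw [← Real.log_mul hs'.ne' ht'.ne']
      exact Real.log_le_log hst h.2
  obtain ⟨_, a0, a1, a2⟩ := key hM hx ha h1
  obtain ⟨_, b0, b1, b2⟩ := key hM' hx hb h2
  obtain ⟨_, c0, c1, c2⟩ := key hM hy hc h3
  obtain ⟨_, d0, d1, d2⟩ := key hM' hy hd h4
  refine ⟨a0, b0, c0, d0, ?_⟩
  rw [Real.log_div a0.ne' b0.ne', Real.log_div c0.ne' d0.ne', abs_le]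
  constructor <;> linarith

open Classical in
/-- a subspace contains `U i` or few lines -/
theorem ztl_sub (env : Env G a f U) {i : Fin 3} {z : Z2} {L : ℕ} {m : ℝ} (hm : 0 ≤ m)
    (hnd : ND G a f i z L m (Module.finrank ℝ (U i))) (W : Submodule ℝ (ι → ℝ)) :
    U i ≤ W ∨ (((Vis G a i z L).filter fun p => f p ∈ W).card : ℝ) ≤ m := by
  obtain ⟨k, C, hG⟩ := env.ax
  by_cases h : U i ≤ W
  · exact Or.inl h
  · right
    have hlt : W ⊓ U i < U i := by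
      refine lt_of_le_of_ne inf_le_right fun h' => h ?_
      rw [← h']; exact inf_le_left
    have h1 := ND.card_le hG env.f_line hnd (W ⊓ U i) (Submodule.finrank_lt_finrank_of_lt hlt)
    rw [max_eq_left hm] at h1
    refine le_trans ?_ h1
    have : ((Vis G a i z L).filter fun p => f p ∈ W) ⊆
        ((Vis G a i z L).filter fun p => f p ∈ W ⊓ U i) := by
      intro p hp
      obtain ⟨hp1, hp2⟩ := Finset.mem_filter.1 hp
      obtain ⟨h2, h3, h4, _⟩ := of_mem_Vis hG env.a_line hp1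
      refine Finset.mem_filter.2 ⟨hp1, hp2, ?_⟩
      have := env.f_mem p h2 h3
      rwa [h4] at this
    exact_mod_cast Finset.card_le_card this

open Classical in
/-- the structure of the lines of a good box -/
theorem ztl_str (env : Env G a f U) (g0 : (ι → ℝ) ≃ₗ[ℝ] (ι → ℝ))
    (hrat : ∀ l, G.valid l → a l → IsRat K (g0 (f l))) (𝓣 : Finset (ι → K))
    {i : Fin 3} {z : Z2} {L : ℕ} {m : ℝ} (hm : 0 ≤ m)
    (hnd : ND G a f i z L m (Module.finrank ℝ (U i)))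
    (hbig : Fintype.card ι * m < (Vis G a i z L).card)
    (g : (ι → ℝ) ≃ₗ[ℝ] (ι → ℝ)) (hg : Str G a f (𝓣.image cv) z L g) :
    ∃ (h0 : (ι → K) ≃ₗ[K] (ι → K)) (hR : (ι → ℝ) ≃ₗ[ℝ] (ι → ℝ)),
      (∀ x, hR (cv x) = cv (h0 x)) ∧ ∀ p ∈ Vis G a i z L, ∃ τ ∈ 𝓣, ∃ β : K, β ≠ 0 ∧
        τ = β • h0 (rat K (g0 (f p))) := by
  obtain ⟨k, C, hG⟩ := env.ax
  obtain ⟨h0, hR, hh, hU⟩ := eig (K := K) (g0.symm.trans g)
  refine ⟨h0, hR, hh, ?_⟩
  have hp : ∀ p ∈ Vis G a i z L, f p ∈ U i ∧ f p ≠ 0 ∧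
      (∃ c : ℝ, c ≠ 0 ∧ c • g0 (f p) = cv (rat K (g0 (f p)))) ∧
      ∃ τ ∈ 𝓣, ∃ c : ℝ, c ≠ 0 ∧ c • g (f p) = cv τ := by
    intro p hp
    obtain ⟨h2, h3, h4, _, l, hl, _, hs⟩ := of_mem_Vis hG env.a_line hp
    obtain ⟨l1, l2, l3, _⟩ := mem_visL.1 hl
    refine ⟨h4 ▸ env.f_mem p h2 h3, env.f_ne p h2 h3, rat_spec (hrat p h2 h3), ?_⟩
    obtain ⟨τ, hτ, c, hc, he⟩ := hg l (mem_labs.2 ⟨l1, l2, l3⟩)
    obtain ⟨τ', hτ', rfl⟩ := Finset.mem_image.1 hτ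
    exact ⟨τ', hτ', c, hc, by rw [← env.f_line l p l2 h2 hs]; exact he⟩
  have hne : ∀ p ∈ Vis G a i z L, rat K (g0 (f p)) ≠ 0 := by
    intro p hpV h
    obtain ⟨_, h2, ⟨c, hc, he⟩, _⟩ := hp p hpV
    rw [h] at he
    have h3 : cv (0 : ι → K) = 0 := by funext k; simp [cv]
    rw [h3, smul_eq_zero] at he
    rcases he with he | he
    · exact hc he
    · exact h2 (g0.map_eq_zero_iff.1 he)
  rcases hU ((U i).map (g0 : (ι → ℝ) →ₗ[ℝ] (ι → ℝ))) with ⟨θ, hθ, h⟩ | ⟨𝓤, h1, h2, h3⟩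
  · intro p hpV
    obtain ⟨hpU, _, ⟨c, hc, he⟩, τ, hτ, c', hc', he'⟩ := hp p hpV
    refine ⟨τ, hτ, ?_⟩
    have e1 := h (g0 (f p)) ⟨f p, hpU, rfl⟩
    simp only [LinearEquiv.trans_apply, LinearEquiv.symm_apply_apply] at e1
    have e2 : g0 (f p) = c⁻¹ • cv (rat K (g0 (f p))) := by
      rw [← he, smul_smul, inv_mul_cancel₀ hc, one_smul]
    have e3 : hR (g0 (f p)) = c⁻¹ • cv (h0 (rat K (g0 (f p)))) := by
      rw [← hh, ← map_smul, ← e2]
    have e4 : (c' * θ * c⁻¹) • cv (h0 (rat K (g0 (f p)))) = cv τ := by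
      rw [← he', e1, e3, smul_smul, smul_smul]
    exact prop_of_cv (fun h' => hne p hpV (h0.map_eq_zero_iff.1 h'))
      (mul_ne_zero (mul_ne_zero hc' hθ) (inv_ne_zero hc)) e4
  · exfalso
    have hsub : Vis G a i z L ⊆ 𝓤.biUnion fun U' =>
        (Vis G a i z L).filter fun p => f p ∈ U'.comap (g0 : (ι → ℝ) →ₗ[ℝ] (ι → ℝ)) := by
      intro p hpV
      obtain ⟨hpU, _, ⟨c, hc, he⟩, τ, hτ, c', hc', he'⟩ := hp p hpV
      obtain ⟨U', hU', hm'⟩ := h3 (rat K (g0 (f p))) (hne p hpV)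
        (by rw [← he]; exact Submodule.smul_mem _ _ ⟨f p, hpU, rfl⟩)
        ⟨τ, c' * c⁻¹, mul_ne_zero hc' (inv_ne_zero hc), by
          rw [← he, ← he', map_smul, smul_smul, mul_assoc, inv_mul_cancel₀ hc, mul_one]
          simp⟩
      refine Finset.mem_biUnion.2 ⟨U', hU', Finset.mem_filter.2 ⟨hpV, ?_⟩⟩
      rw [← he] at hm'
      exact Submodule.mem_comap.2 ((Submodule.smul_mem_iff U' hc).1 hm')
    have hc1 : ((Vis G a i z L).card : ℝ) ≤ ∑ U' ∈ 𝓤,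
        (((Vis G a i z L).filter fun p =>
          f p ∈ U'.comap (g0 : (ι → ℝ) →ₗ[ℝ] (ι → ℝ))).card : ℝ) := by
      exact_mod_cast (Finset.card_le_card hsub).trans Finset.card_biUnion_le
    have hc2 : ∑ U' ∈ 𝓤, (((Vis G a i z L).filter fun p =>
          f p ∈ U'.comap (g0 : (ι → ℝ) →ₗ[ℝ] (ι → ℝ))).card : ℝ) ≤ ∑ _U' ∈ 𝓤, m := by
      refine Finset.sum_le_sum fun U' hU' => ?_
      rcases ztl_sub env hm hnd (U'.comap (g0 : (ι → ℝ) →ₗ[ℝ] (ι → ℝ))) with h | h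
      · exact absurd (Submodule.map_le_iff_le_comap.2 h) (not_le_of_gt (h2 U' hU'))
      · exact h
    rw [Finset.sum_const, nsmul_eq_mul] at hc2
    have hc3 : (𝓤.card : ℝ) * m ≤ Fintype.card ι * m :=
      mul_le_mul_of_nonneg_right (by exact_mod_cast h1) hm
    linarith

open Classical in
theorem tl (env : Env G a f U) (g0 : (ι → ℝ) ≃ₗ[ℝ] (ι → ℝ))
    (hrat : ∀ l, G.valid l → a l → IsRat K (g0 (f l))) (𝓣 : Finset (ι → K))
    (w : AbsoluteValue K ℝ) (Cw : ℝ) (hCw : 1 ≤ Cw) (hw : GoodAt w 𝓣 Cw) (I : Finset (Fin 3))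
    {i : Fin 3} (hi : i ∈ I) (c1 C1 ε e : ℝ) (A0 L u : ℕ) (hA0 : 1 ≤ A0) (hL : 1 ≤ L)
    (hu : L ≤ u) (hC1 : 0 ≤ C1) (he : 0 ≤ e) (small : (Fintype.card ι + 2) * e < c1)
    (Gd : Set Z2) (hGd : ∀ z ∈ Gd, Loc G a f U I (𝓣.image cv) c1 C1 e L z)
    (hfar : Far G a I Gd L c1 C1 ε A0 0 u) :
    TLP G a i (fun l => rat K (g0 (f l))) w {x | g0.symm (cv x) ∈ U i} u
      (2 * Real.log (2 * Fintype.card ι * Cw ^ 2))
      (2 * ε + 25 * (A0 : ℝ) ^ 2 * C1 * (2 * e)) := by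
  intro σ σ' hσ hσ' hx hx'
  obtain ⟨k, C, hG⟩ := env.ax
  have hι : 0 < Fintype.card ι := by
    have h1 := env.two i
    have h2 := (U i).finrank_le
    rw [Module.finrank_fintype_fun_eq_card] at h2
    omega
  have hιR : (1 : ℝ) ≤ Fintype.card ι := by exact_mod_cast hι
  have hLR : (1 : ℝ) ≤ L := by exact_mod_cast hL
  refine le_trans ?_ (tl0 hG env.a_line i Gd L hL C1 (2 * e) hC1 (by linarith)
    (fun p p' => 0 < σ (rat K (g0 (f p))) ∧ 0 < σ' (rat K (g0 (f p))) ∧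
      0 < σ (rat K (g0 (f p'))) ∧ 0 < σ' (rat K (g0 (f p'))) ∧
      |Real.log (σ (rat K (g0 (f p))) / σ' (rat K (g0 (f p)))) -
        Real.log (σ (rat K (g0 (f p'))) / σ' (rat K (g0 (f p'))))| ≤
        2 * Real.log (2 * Fintype.card ι * Cw ^ 2)) ?_ 0 u ε A0 hA0 hu (hfar.crs i hi) hfar.bad)
  · refine Nat.cast_le.2 (Finset.card_le_card fun x hx => ?_)
    simp only [Finset.mem_filter] at hx ⊢
    exact hx
  intro z hz
  obtain ⟨⟨g, hg⟩, hcnt, hnd⟩ := hGd z hz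
  have hm : 0 ≤ e * L := by positivity
  have hbig : Fintype.card ι * (e * L) < (Vis G a i z L).card := by
    have h1 := (hcnt i hi).1
    have h2 : (Fintype.card ι + 2) * e * L < c1 * L := mul_lt_mul_of_pos_right small (by linarith)
    nlinarith
  have hbig' : e * L < (Vis G a i z L).card := by nlinarith
  obtain ⟨h0, hR, hh, hstr⟩ := ztl_str env g0 hrat 𝓣 hm (hnd i hi) hbig g hg
  choose! τ hτ β hβ using hstr
  have hF : ∀ p ∈ Vis G a i z L, rat K (g0 (f p)) ∈ {x : ι → K | g0.symm (cv x) ∈ U i} := by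
    intro p hp
    obtain ⟨h2, h3, h4, _⟩ := of_mem_Vis hG env.a_line hp
    obtain ⟨c, _, he⟩ := rat_spec (hrat p h2 h3)
    show g0.symm (cv (rat K (g0 (f p)))) ∈ U i
    rw [← he, map_smul, LinearEquiv.symm_apply_apply]
    exact Submodule.smul_mem _ _ (h4 ▸ env.f_mem p h2 h3)
  have hspan : ∀ s : Set (ι → K),
      (∀ x ∈ {x : ι → K | g0.symm (cv x) ∈ U i}, cv (h0 x) ∈ Submodule.span ℝ (cv '' s)) ∨
      (((Vis G a i z L).filter fun p =>
        cv (h0 (rat K (g0 (f p)))) ∈ Submodule.span ℝ (cv '' s)).card : ℝ) ≤ e * L := by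
    intro s
    rcases ztl_sub env hm (hnd i hi) ((Submodule.span ℝ (cv '' s)).comap
      ((g0.trans hR : (ι → ℝ) ≃ₗ[ℝ] (ι → ℝ)) : (ι → ℝ) →ₗ[ℝ] (ι → ℝ))) with h | h
    · left
      intro x hxU
      have := h hxU
      simpa [hh] using this
    · right
      refine le_trans ?_ h
      have : ((Vis G a i z L).filter fun p =>
          cv (h0 (rat K (g0 (f p)))) ∈ Submodule.span ℝ (cv '' s)) ⊆
          ((Vis G a i z L).filter fun p => f p ∈ (Submodule.span ℝ (cv '' s)).comap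
            ((g0.trans hR : (ι → ℝ) ≃ₗ[ℝ] (ι → ℝ)) : (ι → ℝ) →ₗ[ℝ] (ι → ℝ))) := by
        intro p hp
        obtain ⟨hp1, hp2⟩ := Finset.mem_filter.1 hp
        obtain ⟨h2, h3, _⟩ := of_mem_Vis hG env.a_line hp1
        obtain ⟨c, hc, he⟩ := rat_spec (hrat p h2 h3)
        refine Finset.mem_filter.2 ⟨hp1, ?_⟩
        rw [← hh, ← he, map_smul] at hp2
        exact Submodule.mem_comap.2 ((Submodule.smul_mem_iff _ hc).1 hp2)
      exact_mod_cast Finset.card_le_card this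
  obtain ⟨M, hM, Ex, hEx, h1⟩ := ztl_one 𝓣 w Cw hCw hw hι (Vis G a i z L)
    (fun p => rat K (g0 (f p))) h0 τ β _ (e * L) (fun p hp => ⟨hτ p hp, hβ p hp⟩) hF hspan hm
    hbig' σ hσ hx
  obtain ⟨M', hM', Ex', hEx', h2⟩ := ztl_one 𝓣 w Cw hCw hw hι (Vis G a i z L)
    (fun p => rat K (g0 (f p))) h0 τ β _ (e * L) (fun p hp => ⟨hτ p hp, hβ p hp⟩) hF hspan hm
    hbig' σ' hσ' hx'
  refine ⟨(hcnt i hi).2, Ex ∪ Ex', ?_, fun p hp p' hp' hn hn' => ?_⟩
  · have : ((Ex ∪ Ex').card : ℝ) ≤ Ex.card + Ex'.card := by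
      exact_mod_cast Finset.card_union_le Ex Ex'
    linarith
  · rw [Finset.mem_union, not_or] at hn hn'
    exact ztl_log (by positivity) hM hM' (w.nonneg (β p)) (w.nonneg (β p')) (hσ.nonneg _)
      (hσ'.nonneg _) (hσ.nonneg _) (hσ'.nonneg _) (h1 p hp hn.1) (h2 p hp hn.2)
      (h1 p' hp' hn'.1) (h2 p' hp' hn'.2)

/-- the space `U i` is spanned by rational vectors -/
theorem rat_spanned (env : Env G a f U) (g0 : (ι → ℝ) ≃ₗ[ℝ] (ι → ℝ))
    (hrat : ∀ l, G.valid l → a l → IsRat K (g0 (f l))) {i : Fin 3} {z : Z2} {L : ℕ}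
    {c1 C1 e : ℝ} (hL : 1 ≤ L) (small : e < c1) (hcnt : Cnt G a i z L c1 C1)
    (hnd : ND G a f i z L (e * L) (Module.finrank ℝ (U i))) :
    (U i).map (g0 : (ι → ℝ) →ₗ[ℝ] (ι → ℝ)) ≤
      Submodule.span ℝ (cv '' {x : ι → K | g0.symm (cv x) ∈ U i}) := by
  classical
  obtain ⟨k, C, hG⟩ := env.ax
  have hLR : (1 : ℝ) ≤ L := by exact_mod_cast hL
  have hm : 0 ≤ e * L := by
    by_contra hcon
    have h1 := hnd ∅ (Finset.empty_subset _) (by simp) (by simpa using not_le.1 hcon)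
    have h2 := env.two i
    rw [Finset.coe_empty, Set.image_empty, Submodule.span_empty, finrank_bot] at h1
    omega
  rcases ztl_sub env hm hnd ((Submodule.span ℝ (cv '' {x : ι → K | g0.symm (cv x) ∈ U i})).comap
    (g0 : (ι → ℝ) →ₗ[ℝ] (ι → ℝ))) with h | h
  · exact Submodule.map_le_iff_le_comap.2 h
  · exfalso
    rw [Finset.filter_true_of_mem] at h
    · have h1 := hcnt.1
      have h2 : e * L < c1 * L := mul_lt_mul_of_pos_right small (by linarith)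
      linarith
    · intro p hp
      obtain ⟨h2, h3, h4, _⟩ := of_mem_Vis hG env.a_line hp
      obtain ⟨c, hc, he⟩ := rat_spec (hrat p h2 h3)
      refine Submodule.mem_comap.2 ((Submodule.smul_mem_iff _ hc).1 ?_)
      show c • g0 (f p) ∈ _
      rw [he]
      refine Submodule.subset_span ⟨_, ?_, rfl⟩
      show g0.symm (cv (rat K (g0 (f p)))) ∈ U i
      rw [← he, map_smul, LinearEquiv.symm_apply_apply]
      exact Submodule.smul_mem _ _ (h4 ▸ env.f_mem p h2 h3)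

end ECub.Z
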