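import Pool.Agent.P.MP_029dcd_co.F.LayB
import Pool.Agent.P.MP_029dcd_co.F.Z.ZPack
import Pool.Agent.P.MP_029dcd_co.F.Z.ZTl
import Pool.Agent.P.MP_029dcd_co.F.Z.ZGauge
import Pool.Agent.P.MP_029dcd_co.F.Z.ZEnd

/-! The last step of the endgame inside one galaxy. -/

set_option autoImplicit false

namespace ECub.Z

open CubicStab MeasureTheory Filter Topology Finset
open scoped ENNReal

theorem TA_iff (S : Sys) (A : Set (S.Ω × ℕ)) (ω : S.Ω) (z : Z2) :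
    S.T z ω ∈ S.TA A ↔ (S.Γ ω).tp z = true ∧ ∀ i, aw S A ω ((S.Γ ω).tlab z i) := by
  have h := S.shift ω z
  have h1 := h.tp 0
  have h2 := h.tl 0
  rw [add_zero] at h1
  simp only [add_zero] at h2
  simp only [Sys.TA, Set.mem_ofPred_eq, Sys.tx, aw, Gal.tlab, h1, h2]

theorem self_mem_box (z : Z2) (L : ℕ) : z ∈ box z L := by
  simp only [box, mem_product, mem_Icc]
  omega

theorem card_rep_le {G : Gal} {k : ℕ} {C : ℝ} (hG : G.Ax k C) (Cs : Finset Z2) (i : Fin 3)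
    (M : ℕ) (htp : ∀ z ∈ Cs, G.tp z = true) (hM : ∀ z ∈ Cs, G.MultLE (G.tlab z i) M)
    (heq : ∀ z ∈ Cs, ∀ z' ∈ Cs,
      G.t (G.tlab z i) = G.t (G.tlab z' i) ∧ G.s (G.tlab z i) = G.s (G.tlab z' i)) :
    (Cs.image fun z => G.rep (G.tlab z i)).card ≤ M := by
  rcases Cs.eq_empty_or_nonempty with rfl | ⟨z0, hz0⟩
  · simp
  have key : ∀ z ∈ Cs, G.valid (G.tlab z i) ∧ G.valid (G.rep (G.tlab z i)) ∧
      G.same (G.tlab z i) (G.rep (G.tlab z i)) = true := fun z hz =>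
    have h := (hG.tp_can z (htp z hz) i).1
    ⟨h, (Gal.at'_spec hG h 0).1.1, (Gal.at'_spec hG h 0).2.1⟩
  refine hM z0 hz0 _ ?_ ?_
  · intro l' hl'
    obtain ⟨z, hz, rfl⟩ := mem_image.1 hl'
    obtain ⟨h1, h2, h3⟩ := key z hz
    refine ⟨h2, ?_, ?_, ?_⟩
    · rw [← hG.same_fam _ _ h1 h2 h3, (hG.tp_can z (htp z hz) i).2.1,
        (hG.tp_can z0 (htp z0 hz0) i).2.1]
    · rw [← hG.same_t _ _ h1 h2 h3]; exact (heq z hz z0 hz0).1
    · rw [← hG.same_s _ _ h1 h2 h3]; exact (heq z hz z0 hz0).2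
  · intro p hp p' hp' hs
    obtain ⟨z, hz, rfl⟩ := mem_image.1 hp
    obtain ⟨z', hz', rfl⟩ := mem_image.1 hp'
    obtain ⟨h1, h2, h3⟩ := key z hz
    obtain ⟨h1', h2', h3'⟩ := key z' hz'
    exact (Gal.rep_eq_iff hG h1 h1').2 (hG.same_trans _ _ _ h1 h2' h1'
      (hG.same_trans _ _ _ h1 h2 h2' h3 hs) (hG.same_symm _ _ h1' h2' h3'))

open Classical in
theorem card_good {α β : Type*} (X : Finset α) (S : Finset β) (p : α → Prop) (q : β → α → Prop)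
    (x y : ℝ) (h1 : x ≤ (X.filter p).card)
    (h2 : ∀ w ∈ S, ((X.filter fun z => p z ∧ ¬ q w z).card : ℝ) ≤ y) :
    x - S.card * y ≤ (X.filter fun z => p z ∧ ∀ w ∈ S, q w z).card := by
  have h3 : X.filter p ⊆ (X.filter fun z => p z ∧ ∀ w ∈ S, q w z) ∪
      S.biUnion fun w => X.filter fun z => p z ∧ ¬ q w z := by
    intro z hz
    rw [mem_filter] at hz
    by_cases h : ∀ w ∈ S, q w z
    · exact mem_union_left _ (mem_filter.2 ⟨hz.1, hz.2, h⟩)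
    · push Not at h
      obtain ⟨w, hw, hq⟩ := h
      exact mem_union_right _ (mem_biUnion.2 ⟨w, hw, mem_filter.2 ⟨hz.1, hz.2, hq⟩⟩)
  have h4 := (card_le_card h3).trans ((card_union_le _ _).trans
    (Nat.add_le_add_left card_biUnion_le _))
  have h5 : (∑ w ∈ S, ((X.filter fun z => p z ∧ ¬ q w z).card : ℝ)) ≤ S.card * y := by
    simpa using sum_le_card_nsmul S _ y h2
  have h6 : ((X.filter p).card : ℝ) ≤ (X.filter fun z => p z ∧ ∀ w ∈ S, q w z).card +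
      ∑ w ∈ S, ((X.filter fun z => p z ∧ ¬ q w z).card : ℝ) := by exact_mod_cast h4
  linarith

open Classical in
theorem final_gal {ι : Type} [Fintype ι] [Nonempty ι] {K : Type} [Field K] [NumberField K]
    [Algebra K ℝ] {G : Gal} {a : Lb → Prop} {f : Lb → ι → ℝ}
    {U : Fin 3 → Submodule ℝ (ι → ℝ)} (env : Env G a f U) (g0 : (ι → ℝ) ≃ₗ[ℝ] (ι → ℝ))
    (hrat : ∀ l, G.valid l → a l → IsRat K (g0 (f l))) {b c : Fin 3} (hbc : b ≠ c)
    (I : Finset (Fin 3)) (hb : b ∈ I) (hc : c ∈ I) (hI : ∀ i, U i = U b ⊔ U c → i ∈ I)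
    (Sp : Finset (AbsoluteValue K ℝ))
    (harch : ∀ w ∈ Height.AdmissibleAbsValues.archAbsVal (K := K), w ∈ Sp)
    (Z : Set Z2) (hZ : ∀ z ∈ Z, G.tp z = true ∧ ∀ i, a (G.tlab z i))
    (hex : ∀ w ∈ Height.AdmissibleAbsValues.nonarchAbsVal (K := K), w ∉ Sp → ∀ z ∈ Z,
      ∀ b' : Fin 3 → K, (∀ i, b' i ≠ 0) → ∑ i, b' i • rat K (g0 (f (G.tlab z i))) = 0 → ∀ i j,
        w (b' i) * N0 w (rat K (g0 (f (G.tlab z i))))
          = w (b' j) * N0 w (rat K (g0 (f (G.tlab z j)))))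
    (M : ℕ) (hM : ∀ z ∈ Z, ∀ i, G.MultLE (G.tlab z i) M)
    (hts : ∀ l l', G.valid l → G.valid l' → ∀ r : ℝ, f l = r • f l' →
      G.t l = G.t l' ∧ G.s l = G.s l')
    (Kc : ℕ) (hK : ∀ᶠ u : ℕ in atTop, ∀ i, (((box 0 u).filter fun w => G.tp w = true).image
      fun w => G.rep (G.tlab w i)).card ≤ Kc * u)
    (γ : ℝ) (hγ : 0 < γ)
    (hdens : ∀ᶠ u : ℕ in atTop, γ * (u : ℝ) ^ 2 ≤ ((box 0 u).filter fun z => z ∈ Z).card)
    (𝓣 : Finset (ι → K)) (c1 C1 ε e : ℝ) (A0 L : ℕ) (hA0 : 1 ≤ A0) (hL : 1 ≤ L) (hc1 : 0 < c1)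
    (hC1 : 0 ≤ C1) (hε : 0 < ε) (he : 0 < e)
    (s1 : Sp.card * (10 * (C1 ^ 2 / c1 ^ 2 + 1 / c1) *
      (2 * ε + 25 * (A0 : ℝ) ^ 2 * C1 * ((Fintype.card ι + 2) * e))) ≤ γ / 2)
    (s2 : 10 * ((Fintype.card ι + 2) * e) ≤ c1) (Gd : Set Z2)
    (hGd : ∀ z ∈ Gd, Loc G a f U I (𝓣.image cv) c1 C1 e L z)
    (hfar : ∀ᶠ v : ℕ in atTop, Far G a I Gd L c1 C1 ε A0 0 v ∧
      ∀ i ∈ I, ND G a f i 0 v (e * v) (Module.finrank ℝ (U i))) : False := by
  obtain ⟨k, C0, hG⟩ := env.ax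
  choose Cw hCw hgood using fun w : AbsoluteValue K ℝ => exists_goodAt w 𝓣
  have hd1 : (1 : ℝ) ≤ Fintype.card ι := by exact_mod_cast Fintype.card_pos
  have hCst : ∀ w, 0 ≤ 2 * Real.log (2 * Fintype.card ι * Cw w ^ 2) := fun w => by
    have h1 : 1 ≤ Cw w ^ 2 := one_le_pow₀ (hCw w)
    have : 0 ≤ Real.log (2 * Fintype.card ι * Cw w ^ 2) := Real.log_nonneg (by nlinarith)
    linarith
  obtain ⟨γ', hγ', hend⟩ := endl Sp harch
    (4 * ∑ w ∈ Sp, 2 * Real.log (2 * Fintype.card ι * Cw w ^ 2)) (γ / 2) (half_pos hγ) Kc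
  refine nadd G hG Kc hK (ι → K) γ' hγ' M ?_
  filter_upwards [hK, hdens, hfar, eventually_ge_atTop L] with u hKu hdu hfu hLu
  have hde : 0 < ((Fintype.card ι : ℝ) + 2) * e := by positivity
  have hsm : ((Fintype.card ι : ℝ) + 2) * e < c1 := by linarith
  have hsm' : e < c1 := by nlinarith
  have hD : 0 ≤ 10 * (C1 ^ 2 / c1 ^ 2 + 1 / c1) := by positivity
  choose Gw hGw using fun w : AbsoluteValue K ℝ => gauge env g0 hrat hbc I hb hc hI
    (fun i hi => rat_spanned env g0 hrat (hL.trans hLu) hsm' (hfu.1.cnt i hi) (hfu.2 i hi))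
    w u (hL.trans hLu) c1 C1 _ _ hc1 (hCst w) (by positivity) hfu.1.cnt
    (fun i hi => tl env g0 hrat 𝓣 w (Cw w) (hCw w) (hgood w) I hi c1 C1 ε e A0 L u hA0 hL hLu
      hC1 he.le hsm Gd hGd hfu.1)
  set q : AbsoluteValue K ℝ → Z2 → Prop := fun w z => ∀ b' : Fin 3 → K, (∀ i, b' i ≠ 0) →
    ∑ i, b' i • rat K (g0 (f (G.tlab z i))) = 0 → ∀ i j,
    |Real.log (w (b' i)) + Gw w i (rat K (g0 (f (G.tlab z i)))) -
      (Real.log (w (b' j)) + Gw w j (rat K (g0 (f (G.tlab z j)))))| ≤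
      4 * (2 * Real.log (2 * Fintype.card ι * Cw w ^ 2)) with hq
  have hcard := card_good (box 0 u) Sp (fun z => z ∈ Z) q _
    (10 * (C1 ^ 2 / c1 ^ 2 + 1 / c1) *
      (2 * ε + 25 * (A0 : ℝ) ^ 2 * C1 * ((Fintype.card ι + 2) * e)) * (u : ℝ) ^ 2) hdu
    (fun w _ => by
      refine le_trans ?_ ((hGw w).trans ?_)
      · refine Nat.cast_le.2 (card_le_card fun z hz => ?_)
        rw [mem_filter] at hz ⊢
        exact ⟨hz.1, (hZ z hz.2.1).1, (hZ z hz.2.1).2, hz.2.2⟩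
      · have : 2 * e ≤ ((Fintype.card ι : ℝ) + 2) * e := by nlinarith
        gcongr)
  set Cs := (box 0 u).filter fun z => z ∈ Z ∧ ∀ w ∈ Sp, q w z with hCs
  have hmem : ∀ z ∈ Cs, z ∈ box 0 u ∧ z ∈ Z ∧ ∀ w ∈ Sp, q w z := fun z hz => mem_filter.1 hz
  have hval : ∀ z ∈ Z, ∀ i, G.valid (G.tlab z i) := fun z hz i => (hG.tp_can z (hZ z hz).1 i).1
  have hr : ∀ z ∈ Z, ∀ i, IsRat K (g0 (f (G.tlab z i))) := fun z hz i =>
    hrat _ (hval z hz i) ((hZ z hz).2 i)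
  obtain ⟨Cs', hsub, hcard', φ, hφ, hsum, hprop⟩ := hend G k C0 hG u Cs
    (fun l => rat K (g0 (f l))) (fun l l' h h' hs => by
      simp only [env.f_line l l' h h' hs]) Gw
    (fun z hz => ⟨(hmem z hz).1, (hZ z (hmem z hz).2.1).1⟩)
    (by
      refine le_trans ?_ hcard
      have h0 : (0 : ℝ) ≤ (u : ℝ) ^ 2 := by positivity
      have := mul_le_mul_of_nonneg_right s1 h0
      nlinarith)
    (fun i => le_trans (card_le_card (image_subset_image fun z hz =>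
      mem_filter.2 ⟨(hmem z hz).1, (hZ z (hmem z hz).2.1).1⟩)) (hKu i))
    (fun z hz i => rat_ne_zero (hr z (hmem z hz).2.1 i) (by
      rw [ne_eq, map_eq_zero_iff _ g0.injective]
      exact env.f_ne _ (hval z (hmem z hz).2.1 i) ((hZ z (hmem z hz).2.1).2 i)))
    (fun z hz => by
      have hz' := (hmem z hz).2.1
      obtain ⟨b', hb', hrel⟩ := exists_rel env g0 (hZ z hz').1 (hZ z hz').2 (hr z hz')
      refine ⟨b', hb', hrel, fun w hw hw' => hex w hw hw' z hz' b' hb' hrel, fun w hw i j => ?_⟩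
      refine ((hmem z hz).2.2 w hw b' hb' hrel i j).trans ?_
      have := single_le_sum (f := fun w => 2 * Real.log (2 * Fintype.card ι * Cw w ^ 2))
        (fun w _ => hCst w) hw
      linarith)
  have hZ' : ∀ z ∈ Cs', z ∈ Z := fun z hz => (hmem z (hsub hz)).2.1
  refine ⟨Cs', φ, fun z hz => ⟨(hmem z (hsub hz)).1, (hZ z (hZ' z hz)).1⟩, hcard',
    fun i z hz z' hz' hs => hφ i _ _ (hval z (hZ' z hz) i) (hval z' (hZ' z' hz') i) hs, hsum,
    fun i y => ?_⟩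
  refine card_rep_le hG _ i M (fun z hz => ?_) (fun z hz => ?_) fun z hz z' hz' => ?_
  · simp only [mem_filter] at hz
    exact (hZ z (hZ' z hz.1)).1
  · simp only [mem_filter] at hz
    exact hM z (hZ' z hz.1) i
  simp only [mem_filter] at hz hz'
  obtain ⟨r, hr0, e1⟩ := hprop z hz.1 i
  obtain ⟨r', -, e2⟩ := hprop z' hz'.1 i
  obtain ⟨s, hs⟩ := prop_of_rat g0 (hr z (hZ' z hz.1) i) (hr z' (hZ' z' hz'.1) i) hr0
    (r' := r') (by rw [← e1, ← e2, hz.2, hz'.2])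
  exact hts _ _ (hval z (hZ' z hz.1) i) (hval z' (hZ' z' hz'.1) i) s hs

end ECub.Z
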