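import Pool.Agent.P.MP_029dcd_co.F.Z.ZPh1b_x

/-! Phase 1b: the norms at almost all places agree. -/

set_option autoImplicit false
set_option linter.unusedSectionVars false

namespace ECub.Z

open CubicStab MeasureTheory Filter Topology Finset
open scoped ENNReal

variable {ι : Type} [Fintype ι] {K : Type} [Field K] [Algebra K ℝ] {G : Gal} {a : Lb → Prop}
  {f : Lb → ι → ℝ} {U : Fin 3 → Submodule ℝ (ι → ℝ)}

open Classical in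
/-- the typical value at a cell where one of the two norms is constant on `𝓣` -/
theorem zph1b_typ (env : Env G a f U) {𝓣 : Finset (ι → K)} {w : AbsoluteValue K ℝ}
    (hw : GoodAt w 𝓣 1) {σ : (ι → K) → ℝ} (hσ : IsSN w σ)
    (hu : ∀ x y, σ (x + y) ≤ max (σ x) (σ y)) {z : Z2} {L : ℕ} (hL : 1 ≤ L)
    {g : (ι → ℝ) ≃ₗ[ℝ] (ι → ℝ)} (hg : Str G a f (𝓣.image cv) z L g) {i : Fin 3} {c1 C1 e : ℝ}
    (he : 0 ≤ e) (hec : e < c1) (hcnt : Cnt G a i z L c1 C1)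
    (hnd : ND G a f i z L (e * L) (Module.finrank ℝ (U i))) :
    ∃ M : ℝ, 0 ≤ M ∧
      (∀ x, cv x ∈ (U i).map (g : (ι → ℝ) →ₗ[ℝ] (ι → ℝ)) → σ x ≤ N0 w x * M) ∧
      ∃ Exc : Finset Lb, (Exc.card : ℝ) ≤ e * L ∧ ∀ p ∈ Vis G a i z L, p ∉ Exc →
        f p ∈ U i ∧ f p ≠ 0 ∧ ∃ t ∈ 𝓣, ∃ c : ℝ, c ≠ 0 ∧ c • g (f p) = cv t ∧ σ t = M := by
  have hW : 0 < Module.finrank ℝ ((U i).map (g : (ι → ℝ) →ₗ[ℝ] (ι → ℝ))) := by
    rw [LinearEquiv.finrank_map_eq]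
    have := env.two i
    omega
  obtain ⟨M, hM0, hM, W1, hW1, hM1⟩ := zph1b_top hw hσ hu _ hW
  rw [LinearEquiv.finrank_map_eq] at hW1
  obtain ⟨E1, hE1, hE1'⟩ := zph1b_few env he hnd g W1 hW1
  refine ⟨M, hM0, fun x hx => ?_, E1, hE1, fun p hp hpE => ?_⟩
  · refine gen_ultra hw hσ hu _ (fun t ht => ht.1) M hM0 hM x ?_
    rw [zph1b_span env hL hg he hec hcnt hnd]
    exact hx
  · obtain ⟨hpU, hp0, t, ht, c, hc, hct⟩ := zph1b_vis env hg hp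
    refine ⟨hpU, hp0, t, ht, c, hc, hct, hM1 t ⟨ht, ?_⟩ fun hm => ?_⟩
    · rw [← hct]
      exact Submodule.smul_mem _ _ ⟨f p, hpU, rfl⟩
    · rw [← hct, Submodule.smul_mem_iff _ hc] at hm
      exact hpE (hE1' p hp hm)

theorem zph1b_fwd {g0 g hR : (ι → ℝ) ≃ₗ[ℝ] (ι → ℝ)} {h0 : (ι → K) ≃ₗ[K] (ι → K)}
    (hh : ∀ x, hR (cv x) = cv (h0 x)) {θ : ℝ} (hθ : θ ≠ 0) {V : Submodule ℝ (ι → ℝ)}
    (hg : ∀ y ∈ V, g y = θ • hR (g0 y)) {x : ι → K}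
    (hx : cv x ∈ V.map (g0 : (ι → ℝ) →ₗ[ℝ] (ι → ℝ))) :
    cv (h0 x) ∈ V.map (g : (ι → ℝ) →ₗ[ℝ] (ι → ℝ)) := by
  obtain ⟨y, hy, hyx⟩ := hx
  refine ⟨θ⁻¹ • y, V.smul_mem _ hy, ?_⟩
  simp only [LinearEquiv.coe_coe] at hyx ⊢
  rw [map_smul, hg y hy, smul_smul, inv_mul_cancel₀ hθ, one_smul, hyx, hh]

theorem zph1b_bwd {g0 g hR : (ι → ℝ) ≃ₗ[ℝ] (ι → ℝ)} {h0 : (ι → K) ≃ₗ[K] (ι → K)}
    (hh : ∀ x, hR (cv x) = cv (h0 x)) {θ : ℝ} {V : Submodule ℝ (ι → ℝ)}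
    (hg : ∀ y ∈ V, g y = θ • hR (g0 y)) {t : ι → K}
    (ht : cv t ∈ V.map (g : (ι → ℝ) →ₗ[ℝ] (ι → ℝ))) :
    cv (h0.symm t) ∈ V.map (g0 : (ι → ℝ) →ₗ[ℝ] (ι → ℝ)) := by
  obtain ⟨y, hy, hyx⟩ := ht
  refine ⟨θ • y, V.smul_mem _ hy, ?_⟩
  simp only [LinearEquiv.coe_coe] at hyx ⊢
  apply hR.injective
  rw [hh, LinearEquiv.apply_symm_apply, map_smul, map_smul, ← hg y hy, hyx]

open Classical in
/-- local constancy propagates between two regular centres -/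
theorem zph1b_lc {β : Type*} {k : ℕ} {C : ℝ} (hG : G.Ax k C) (ha : G.LineC a) (Lam : Lb → β)
    (i : Fin 3) (Gd : Set Z2) (L L' : ℕ) (hL : 1 ≤ L) (hLL : L ≤ L') (c1 C1 e1 ε : ℝ) (A0 : ℕ)
    (hA0 : 1 ≤ A0) (hc1 : 0 < c1) (hC1 : 0 ≤ C1) (he1 : 0 ≤ e1)
    (small1 : 10 * (2 * ε + 25 * (A0 : ℝ) ^ 2 * C1 * e1) ≤ c1 ^ 2) (small2 : 10 * e1 ≤ c1)
    (hgood : ∀ z ∈ Gd, ((Vis G a i z L).card : ℝ) ≤ C1 * L ∧ ∃ Exc : Finset Lb,
      (Exc.card : ℝ) ≤ e1 * L ∧ ∀ p ∈ Vis G a i z L, ∀ p' ∈ Vis G a i z L,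
        p ∉ Exc → p' ∉ Exc → Lam p = Lam p')
    (z0 z1 : Z2) (hfar : ∀ z, z = z0 ∨ z = z1 → ∀ v, L' ≤ v →
      Cnt G a i z v c1 C1 ∧ Crs G a i z v ε A0 ∧ Bad G Gd L z v ε A0) (b0 b1 : β)
    (E0 E1 : Finset Lb) (hE0 : (E0.card : ℝ) ≤ e1 * L') (hE1 : (E1.card : ℝ) ≤ e1 * L')
    (h0 : ∀ p ∈ Vis G a i z0 L', p ∉ E0 → Lam p = b0)
    (h1 : ∀ p ∈ Vis G a i z1 L', p ∉ E1 → Lam p = b1) : b0 = b1 := by
  refine lc (G := G) (a := a) Lam i z0 z1 L' (hL.trans hLL) c1 _ _ hc1 small1 small2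
    ?_ _ _ ?_ ?_
  · intro z hz v hv
    obtain ⟨h2, h3, h4⟩ := hfar z hz v hv
    exact ⟨h2.1, tl0 hG ha i Gd L hL C1 e1 hC1 he1 (fun p p' => Lam p = Lam p') hgood z v ε A0 hA0
      (hLL.trans hv) h3 h4⟩
  · refine le_trans (Nat.cast_le.2 (Finset.card_le_card fun p hp => ?_)) hE0
    rw [Finset.mem_filter] at hp
    by_contra hpE
    exact hp.2 (h0 p hp.1 hpE)
  · refine le_trans (Nat.cast_le.2 (Finset.card_le_card fun p hp => ?_)) hE1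
    rw [Finset.mem_filter] at hp
    by_contra hpE
    exact hp.2 (h1 p hp.1 hpE)

open Classical in
/-- the two norms are proportional on the rational vectors of one family -/
theorem zph1b_ratio (env : Env G a f U) {I : Finset (Fin 3)} {i : Fin 3} (hi : i ∈ I)
    (𝓣 : Finset (ι → K)) (c1 C1 ε e : ℝ) (A0 L L' : ℕ) (hA0 : 1 ≤ A0) (hL : 1 ≤ L)
    (hLL : L ≤ L') (hc1 : 0 < c1) (hC1 : 0 ≤ C1) (he : 0 ≤ e)
    (small1 : 10 * (2 * ε + 25 * (A0 : ℝ) ^ 2 * C1 * ((Fintype.card ι + 2) * e)) ≤ c1 ^ 2)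
    (small2 : 10 * ((Fintype.card ι + 2) * e) ≤ c1) (Gd VG : Set Z2)
    (hGd : ∀ z ∈ Gd, Loc G a f U I (𝓣.image cv) c1 C1 e L z)
    (hVG : ∀ z ∈ VG, Loc G a f U I (𝓣.image cv) c1 C1 e L' z ∧
      ∀ v, L' ≤ v → Far G a I Gd L c1 C1 ε A0 z v)
    {z0 z : Z2} (hz0 : z0 ∈ VG) (hz : z ∈ VG) {g0 g hR : (ι → ℝ) ≃ₗ[ℝ] (ι → ℝ)}
    (hg0 : Str G a f (𝓣.image cv) z0 L' g0) (hg : Str G a f (𝓣.image cv) z L' g)
    {h0 : (ι → K) ≃ₗ[K] (ι → K)} (hh : ∀ x, hR (cv x) = cv (h0 x)) {θ : ℝ} (hθ : θ ≠ 0)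
    (hgθ : ∀ y ∈ U i, g y = θ • hR (g0 y)) {w : AbsoluteValue K ℝ} (hna : IsNonarchimedean w)
    (hw : GoodAt w 𝓣 1) :
    ∃ r : ℝ, 0 ≤ r ∧ ∀ x, cv x ∈ (U i).map (g0 : (ι → ℝ) →ₗ[ℝ] (ι → ℝ)) →
      N0 w (h0 x) = r * N0 w x := by
  obtain ⟨k, C, hG⟩ := env.ax
  have hd : (0 : ℝ) ≤ Fintype.card ι := by positivity
  have hde : 0 ≤ (Fintype.card ι : ℝ) * e := mul_nonneg hd he
  have hec : e < c1 := by nlinarith
  have hL' : 1 ≤ L' := hL.trans hLL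
  have he1 : 0 ≤ ((Fintype.card ι : ℝ) + 2) * e := by positivity
  obtain ⟨M, hM0, hM, E0, hE0, hE0'⟩ := zph1b_typ env hw (zph1b_sn w h0) (zph1b_ul hna h0) hL' hg0
    he hec ((hVG z0 hz0).1.cnt i hi) ((hVG z0 hz0).1.nd i hi)
  obtain ⟨M', hM0', hM', E1, hE1, hE1'⟩ := zph1b_typ env hw (zph1b_sn w h0.symm)
    (zph1b_ul hna h0.symm) hL' hg he hec ((hVG z hz).1.cnt i hi) ((hVG z hz).1.nd i hi)
  have heL : e * L' ≤ ((Fintype.card ι : ℝ) + 2) * e * L' := by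
    have : (0 : ℝ) ≤ L' := by positivity
    nlinarith [mul_nonneg hde this, mul_nonneg he this]
  have hlc : (some M : Option ℝ) = some M'⁻¹ := by
    refine zph1b_lc hG env.a_line (zph1b_Lam w g0 h0 f) i Gd L L' hL hLL c1 C1 _ ε A0 hA0 hc1 hC1
      he1 small1 small2 (fun z2 hz2 => ?_) z0 z (fun z' hz' v hv => ?_) _ _ E0 E1
      (hE0.trans heL) (hE1.trans heL) (fun p hp hpE => ?_) (fun p hp hpE => ?_)
    · obtain ⟨g2, hg2⟩ := (hGd z2 hz2).str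
      exact ⟨((hGd z2 hz2).cnt i hi).2,
        zph1b_loc env hna hw g0 h0 hg2 he ((hGd z2 hz2).nd i hi)⟩
    · have hz'V : z' ∈ VG := by rcases hz' with rfl | rfl <;> assumption
      have hF := (hVG z' hz'V).2 v hv
      exact ⟨hF.cnt i hi, hF.crs i hi, hF.bad⟩
    · obtain ⟨hpU, hp0, t, ht, c, hc, hct, hσ⟩ := hE0' p hp hpE
      obtain ⟨hr, hne, β, hβ, htβ⟩ := zph1b_lift (g0 := g0) (g := g0)
        (hR := LinearEquiv.refl ℝ _) (h0 := LinearEquiv.refl K _) (fun x => rfl) one_ne_zero hp0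
        (by simp) hc hct
      have ht0 : t ≠ 0 := by
        rw [htβ]
        exact smul_ne_zero hβ hne
      rw [zph1b_Lam_eq hr hβ htβ]
      simp only [LinearEquiv.refl_symm, LinearEquiv.refl_apply]
      rw [zph1b_N0_one hw ht ht0, div_one, hσ]
    · obtain ⟨hpU, hp0, t, ht, c, hc, hct, hσ⟩ := hE1' p hp hpE
      obtain ⟨hr, hne, β, hβ, htβ⟩ := zph1b_lift hh hθ hp0 (hgθ _ hpU) hc hct
      have ht0 : t ≠ 0 := by
        rw [htβ]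
        exact smul_ne_zero hβ (by simpa using hne)
      rw [zph1b_Lam_eq hr hβ htβ, LinearEquiv.apply_symm_apply, zph1b_N0_one hw ht ht0, hσ,
        one_div]
  have hMM : M = M'⁻¹ := Option.some_injective _ hlc
  refine ⟨M, hM0, fun x hx => le_antisymm ?_ ?_⟩
  · rw [mul_comm]; exact hM x hx
  · have h1 := hM' (h0 x) (zph1b_fwd hh hθ hgθ hx)
    rw [LinearEquiv.symm_apply_apply] at h1
    rcases hM0'.eq_or_lt with h2 | h2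
    · rw [hMM, ← h2, inv_zero, zero_mul]
      exact (N0_isSN w).nonneg _
    · rw [hMM, inv_mul_le_iff₀ h2, mul_comm]
      exact h1

open Classical in
/-- the two norms are proportional on all rational vectors -/
theorem zph1b_all (env : Env G a f U) {b c : Fin 3} (𝓣 : Finset (ι → K))
    (c1 C1 ε e : ℝ) (A0 L L' : ℕ) (hA0 : 1 ≤ A0) (hL : 1 ≤ L) (hLL : L ≤ L') (hc1 : 0 < c1)
    (hC1 : 0 ≤ C1) (he : 0 ≤ e)
    (small1 : 10 * (2 * ε + 25 * (A0 : ℝ) ^ 2 * C1 * ((Fintype.card ι + 2) * e)) ≤ c1 ^ 2)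
    (small2 : 10 * ((Fintype.card ι + 2) * e) ≤ c1) (Gd VG : Set Z2)
    (hGd : ∀ z ∈ Gd, Loc G a f U {b, c} (𝓣.image cv) c1 C1 e L z)
    (hVG : ∀ z ∈ VG, Loc G a f U {b, c} (𝓣.image cv) c1 C1 e L' z ∧
      ∀ v, L' ≤ v → Far G a {b, c} Gd L c1 C1 ε A0 z v)
    {z0 z : Z2} (hz0 : z0 ∈ VG) (hz : z ∈ VG) {g0 g hR : (ι → ℝ) ≃ₗ[ℝ] (ι → ℝ)}
    (hg0 : Str G a f (𝓣.image cv) z0 L' g0) (hg : Str G a f (𝓣.image cv) z L' g)
    {h0 : (ι → K) ≃ₗ[K] (ι → K)} (hh : ∀ x, hR (cv x) = cv (h0 x)) {θ : ℝ} (hθ : θ ≠ 0)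
    (hgθ : ∀ y ∈ U b ⊔ U c, g y = θ • hR (g0 y)) {w : AbsoluteValue K ℝ}
    (hna : IsNonarchimedean w) (hw : GoodAt w 𝓣 1) :
    ∃ r : ℝ, 0 < r ∧ ∀ x, cv x ∈ (U b ⊔ U c).map (g0 : (ι → ℝ) →ₗ[ℝ] (ι → ℝ)) →
      N0 w (h0 x) = r * N0 w x := by
  have hd : (0 : ℝ) ≤ Fintype.card ι := by positivity
  have hde : 0 ≤ (Fintype.card ι : ℝ) * e := mul_nonneg hd he
  have hec : e < c1 := by nlinarith
  have hL' : 1 ≤ L' := hL.trans hLL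
  have hb : b ∈ ({b, c} : Finset (Fin 3)) := by simp
  have hc : c ∈ ({b, c} : Finset (Fin 3)) := by simp
  have hgb : ∀ y ∈ U b, g y = θ • hR (g0 y) := fun y hy => hgθ y (Submodule.mem_sup_left hy)
  have hgc : ∀ y ∈ U c, g y = θ • hR (g0 y) := fun y hy => hgθ y (Submodule.mem_sup_right hy)
  obtain ⟨rb, -, hrb⟩ := zph1b_ratio env hb 𝓣 c1 C1 ε e A0 L L' hA0 hL hLL hc1 hC1 he small1
    small2 Gd VG hGd hVG hz0 hz hg0 hg hh hθ hgb hna hw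
  obtain ⟨rc, -, hrc⟩ := zph1b_ratio env hc 𝓣 c1 C1 ε e A0 L L' hA0 hL hLL hc1 hC1 he small1
    small2 Gd VG hGd hVG hz0 hz hg0 hg hh hθ hgc hna hw
  have sb0 := zph1b_span env hL' hg0 he hec ((hVG z0 hz0).1.cnt b hb) ((hVG z0 hz0).1.nd b hb)
  have sc0 := zph1b_span env hL' hg0 he hec ((hVG z0 hz0).1.cnt c hc) ((hVG z0 hz0).1.nd c hc)
  have sb1 := zph1b_span env hL' hg he hec ((hVG z hz).1.cnt b hb) ((hVG z hz).1.nd b hb)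
  have sc1 := zph1b_span env hL' hg he hec ((hVG z hz).1.cnt c hc) ((hVG z hz).1.nd c hc)
  obtain ⟨x0, hx0, hx0ne⟩ := (Submodule.ne_bot_iff _).1 (rat_inf
    (zph1b_s 𝓣 ((U b).map (g0 : (ι → ℝ) →ₗ[ℝ] (ι → ℝ))))
    (zph1b_s 𝓣 ((U c).map (g0 : (ι → ℝ) →ₗ[ℝ] (ι → ℝ)))) (by
      rw [sb0, sc0]
      obtain ⟨y, hy, hy0⟩ := (Submodule.ne_bot_iff _).1 (env.inf b c)
      exact (Submodule.ne_bot_iff _).2 ⟨g0 y, ⟨⟨y, hy.1, rfl⟩, ⟨y, hy.2, rfl⟩⟩,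
        by simpa using hy0⟩))
  have h1 := hrb x0 (zph1b_cv_mem _ _ (fun t ht => ht.2) hx0.1)
  have h2 := hrc x0 (zph1b_cv_mem _ _ (fun t ht => ht.2) hx0.2)
  have h3 := N0_pos w hx0ne
  have h4 : 0 < N0 w (h0 x0) := N0_pos w (by simpa using hx0ne)
  have hbc : rc = rb := mul_right_cancel₀ h3.ne' (h2.symm.trans h1)
  subst hbc
  have hr : 0 < rc := by
    rw [h1] at h4
    exact (mul_pos_iff_of_pos_right h3).1 h4
  refine ⟨rc, hr, fun x hx => le_antisymm ?_ ?_⟩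
  · rw [mul_comm]
    refine gen_ultra hw (zph1b_sn w h0) (zph1b_ul hna h0)
      (zph1b_s 𝓣 ((U b).map (g0 : (ι → ℝ) →ₗ[ℝ] (ι → ℝ))) ∪
        zph1b_s 𝓣 ((U c).map (g0 : (ι → ℝ) →ₗ[ℝ] (ι → ℝ)))) ?_ rc hr.le ?_ x ?_
    · rintro t (ht | ht) <;> exact ht.1
    · rintro t (ht | ht)
      · rw [hrb t ht.2]
        exact mul_le_of_le_one_right hr.le (hw.le t ht.1)
      · rw [hrc t ht.2]
        exact mul_le_of_le_one_right hr.le (hw.le t ht.1)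
    · rw [Set.image_union, Submodule.span_union, sb0, sc0, ← Submodule.map_sup]
      exact hx
  · have h5 := gen_ultra hw (zph1b_sn w h0.symm) (zph1b_ul hna h0.symm)
      (zph1b_s 𝓣 ((U b).map (g : (ι → ℝ) →ₗ[ℝ] (ι → ℝ))) ∪
        zph1b_s 𝓣 ((U c).map (g : (ι → ℝ) →ₗ[ℝ] (ι → ℝ)))) (by
        rintro t (ht | ht) <;> exact ht.1) rc⁻¹ (inv_nonneg.2 hr.le) (by
        rintro t (ht | ht)
        · have h6 := hrb _ (zph1b_bwd hh hgb ht.2)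
          rw [LinearEquiv.apply_symm_apply] at h6
          rw [← one_div, le_div_iff₀ hr, mul_comm, ← h6]
          exact hw.le t ht.1
        · have h6 := hrc _ (zph1b_bwd hh hgc ht.2)
          rw [LinearEquiv.apply_symm_apply] at h6
          rw [← one_div, le_div_iff₀ hr, mul_comm, ← h6]
          exact hw.le t ht.1) (h0 x) (by
        rw [Set.image_union, Submodule.span_union, sb1, sc1, ← Submodule.map_sup]
        exact zph1b_fwd hh hθ hgθ hx)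
    rw [LinearEquiv.symm_apply_apply, ← div_eq_mul_inv, le_div_iff₀ hr, mul_comm] at h5
    exact h5

open Classical in
theorem phase1 (env : Env G a f U) {b c : Fin 3} (hbc : b ≠ c) (𝓣 : Finset (ι → K))
    (c1 C1 ε e : ℝ) (A0 L L' : ℕ) (hA0 : 1 ≤ A0) (hL : 1 ≤ L) (hLL : L ≤ L') (hc1 : 0 < c1)
    (hC1 : 0 ≤ C1) (he : 0 ≤ e)
    (small1 : 10 * (2 * ε + 25 * (A0 : ℝ) ^ 2 * C1 * ((Fintype.card ι + 2) * e)) ≤ c1 ^ 2)
    (small2 : 10 * ((Fintype.card ι + 2) * e) ≤ c1) (Gd VG : Set Z2)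
    (hGd : ∀ z ∈ Gd, Loc G a f U {b, c} (𝓣.image cv) c1 C1 e L z)
    (hVG : ∀ z ∈ VG, Loc G a f U {b, c} (𝓣.image cv) c1 C1 e L' z ∧
      ∀ v, L' ≤ v → Far G a {b, c} Gd L c1 C1 ε A0 z v) :
    ∃ g0 : (ι → ℝ) ≃ₗ[ℝ] (ι → ℝ),
      (∀ z ∈ VG, ∀ l ∈ labs G a (box z L'), IsRat K (g0 (f l))) ∧
      ∀ w : AbsoluteValue K ℝ, IsNonarchimedean w → GoodAt w 𝓣 1 → ∀ z ∈ VG, G.tp z = true →
        (∀ i, a (G.tlab z i)) → ∀ b' : Fin 3 → K, (∀ i, b' i ≠ 0) →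
        ∑ i, b' i • rat K (g0 (f (G.tlab z i))) = 0 → ∀ i j,
        w (b' i) * N0 w (rat K (g0 (f (G.tlab z i))))
          = w (b' j) * N0 w (rat K (g0 (f (G.tlab z j)))) := by
  rcases VG.eq_empty_or_nonempty with hV | ⟨z0, hz0⟩
  · refine ⟨LinearEquiv.refl ℝ _, fun z hz => ?_, fun w _ _ z hz => ?_⟩ <;>
    exact absurd hz (by rw [hV]; exact Set.notMem_empty z)
  obtain ⟨k, C, hG⟩ := env.ax
  obtain ⟨g0, hg0⟩ := (hVG z0 hz0).1.str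
  have hmem : ∀ l, G.valid l → a l → f l ∈ U b ⊔ U c := fun l hl hal =>
    env.sup b c _ hbc (env.f_mem l hl hal)
  refine ⟨g0, fun z hz l hl => ?_, fun w hna hw z hz htp ha b' hb' hsum i j => ?_⟩
  · obtain ⟨g, hg⟩ := (hVG z hz).1.str
    obtain ⟨θ, h0, hR, hθ, hh, hgθ⟩ := phase1a env hbc 𝓣 c1 C1 ε e A0 L L' hA0 hL hLL hc1 hC1 he
      small1 small2 Gd VG hGd hVG hz0 hz hg0 hg
    obtain ⟨t, -, c', hc', hct⟩ := zph1b_lab hg hl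
    obtain ⟨-, hv, hal⟩ := mem_labs.1 hl
    exact (zph1b_lift hh hθ (env.f_ne l hv hal) (hgθ _ (hmem l hv hal)) hc' hct).1
  obtain ⟨g, hg⟩ := (hVG z hz).1.str
  obtain ⟨θ, h0, hR, hθ, hh, hgθ⟩ := phase1a env hbc 𝓣 c1 C1 ε e A0 L L' hA0 hL hLL hc1 hC1 he
    small1 small2 Gd VG hGd hVG hz0 hz hg0 hg
  obtain ⟨r, hr, hN⟩ := zph1b_all env 𝓣 c1 C1 ε e A0 L L' hA0 hL hLL hc1 hC1 he small1 small2
    Gd VG hGd hVG hz0 hz hg0 hg hh hθ hgθ hna hw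
  have hcan := hG.tp_can z htp
  have hdat : ∀ m, ∃ t ∈ 𝓣, ∃ c' : ℝ, c' ≠ 0 ∧ c' • g (f (G.tlab z m)) = cv t ∧
      IsRat K (g0 (f (G.tlab z m))) ∧ rat K (g0 (f (G.tlab z m))) ≠ 0 ∧
      ∃ β : K, β ≠ 0 ∧ t = β • h0 (rat K (g0 (f (G.tlab z m)))) := by
    intro m
    obtain ⟨t, ht, c', hc', hct⟩ := zph1b_lab hg
      (mem_labs.2 ⟨zph1b_mem_box z L', (hcan m).1, ha m⟩ : G.tlab z m ∈ _)
    exact ⟨t, ht, c', hc', hct, zph1b_lift hh hθ (env.f_ne _ (hcan m).1 (ha m))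
      (hgθ _ (hmem _ (hcan m).1 (ha m))) hc' hct⟩
  choose t ht c' hc' hct hrat hne β hβ htβ using hdat
  have hrel : ∀ m n, w (b' m / β m) = w (b' n / β n) := by
    refine hw.rel t ht (fun m n hmn ρ h => ?_) (fun m => b' m / β m)
      (fun m => div_ne_zero (hb' m) (hβ m)) ?_
    · refine env.indep _ _ (hcan m).1 (hcan n).1 (ha m) (ha n)
        (by rw [(hcan m).2.1, (hcan n).2.1]; exact hmn)
        ((c' m)⁻¹ * (algebraMap K ℝ ρ * c' n)) ?_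
      apply g.injective
      rw [map_smul, ← smul_smul, ← smul_smul, hct n, ← cv_smul, ← h, ← hct m, smul_smul,
        inv_mul_cancel₀ (hc' m), one_smul]
    · have : ∀ m, (b' m / β m) • t m = h0 (b' m • rat K (g0 (f (G.tlab z m)))) := by
        intro m
        rw [htβ m, smul_smul, div_mul_cancel₀ _ (hβ m), map_smul]
      simp only [this]
      rw [← map_sum, hsum, map_zero]
  have hval : ∀ m, w (b' m) * N0 w (rat K (g0 (f (G.tlab z m)))) = w (b' m / β m) / r := by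
    intro m
    have ht0 : t m ≠ 0 := by
      rw [htβ m]
      exact smul_ne_zero (hβ m) (by simpa using hne m)
    have h1 := zph1b_N0_one hw (ht m) ht0
    obtain ⟨c2, -, h2⟩ := rat_spec (hrat m)
    rw [htβ m, (N0_isSN w).smul, hN _ (by
      rw [← h2]
      exact Submodule.smul_mem _ _ ⟨_, hmem _ (hcan m).1 (ha m), rfl⟩)] at h1
    have hwβ : w (β m) ≠ 0 := by simpa using hβ m
    rw [map_div₀, div_div, eq_div_iff (mul_ne_zero hwβ hr.ne')]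
    calc _ = w (b' m) * (w (β m) * (r * N0 w (rat K (g0 (f (G.tlab z m)))))) := by ring
      _ = _ := by rw [h1, mul_one]
  rw [hval i, hval j, hrel i j]

end ECub.Z
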