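import Pool.Agent.P.MP_029dcd_co.F.Z.ZDefs
import Pool.Agent.P.MP_029dcd_co.F.LayE

/-! Selection of minimal subspaces of marks. -/

set_option autoImplicit false

namespace ECub.Z

open CubicStab MeasureTheory Filter Topology Finset
open scoped ENNReal

theorem zsel1_meas {Ω β : Type} [MeasurableSpace Ω] [MeasurableSpace β] (f : Ω → ℕ → β)
    (hf : ∀ j, Measurable fun ω => f ω j) : Measurable fun x : Ω × ℕ => f x.1 x.2 :=
  measurable_from_prod_countable_left hf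

theorem zsel1_fam_meas (S : Sys) : Measurable fun x : S.Ω × ℕ => (S.Γ x.1).fam (0, x.2) :=
  zsel1_meas (fun ω j => (S.Γ ω).fam (0, j)) fun j => S.meas.fam (0, j)

theorem zsel1_can_meas (S : Sys) (i : Fin 3) :
    MeasurableSet {x : S.Ω × ℕ | (S.Γ x.1).Can i (0, x.2)} := by
  have h1 : MeasurableSet {x : S.Ω × ℕ | x.2 < (S.Γ x.1).g 0} :=
    measurableSet_lt measurable_snd ((S.meas.g 0).comp measurable_fst)
  have h2 : MeasurableSet {x : S.Ω × ℕ | (S.Γ x.1).fam (0, x.2) = i} :=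
    zsel1_fam_meas S (measurableSet_singleton i)
  have h3 : MeasurableSet {x : S.Ω × ℕ | (S.Γ x.1).can (0, x.2) = true} :=
    zsel1_meas (fun ω j => (S.Γ ω).can (0, j)) (fun j => S.meas.can (0, j))
      (measurableSet_singleton true)
  exact h1.inter (h2.inter h3)

theorem zsel1_ae_fam (S : Sys) (i : Fin 3) : ∀ᵐ x ∂(S.mh i), (S.Γ x.1).fam (0, x.2) = i := by
  have h := ae_restrict_mem (μ := S.μ.prod Measure.count) (zsel1_can_meas S i)
  exact h.mono fun x hx => hx.2.1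

theorem zsel1_fam_line (S : Sys) : S.LineFn fun x => (S.Γ x.1).fam (0, x.2) := by
  refine Eventually.of_forall fun ω l l' hl hl' hs => ?_
  have h1 := (S.shift ω l.1).fam 0 l.2
  have h2 := (S.shift ω l'.1).fam 0 l'.2
  simp only [add_zero] at h1 h2
  simp only [Sys.ev]
  rw [h1, h2]
  exact (S.ax ω).same_fam l l' hl hl' hs

theorem zsel1_fam_tx (S : Sys) {ω : S.Ω} (h : (S.Γ ω).tp 0 = true) (i : Fin 3) :
    (S.Γ (S.tx ω i).1).fam (0, (S.tx ω i).2) = i :=
  ((S.ax ω).tp_can 0 h i).2.1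

theorem zsel1_sub_meas {n : ℕ} (W : Submodule ℝ (E n)) : MeasurableSet (W : Set (E n)) :=
  W.closed_of_finiteDimensional.measurableSet

/-- the mass of the labels of triple points -/
theorem zsel1_mass (S : Sys) (i : Fin 3) {Z : Set S.Ω} (hZ : MeasurableSet Z)
    (hZt : ∀ ω ∈ Z, (S.Γ ω).tp 0 = true) {B : Set (S.Ω × ℕ)} (hB : MeasurableSet B) :
    S.mh i (B ∩ {x | x.1 ∈ Z ∧ (S.Γ x.1).tl 0 i = x.2}) = S.μ (Z ∩ {ω | S.tx ω i ∈ B}) := by
  have hm : MeasurableSet {x : S.Ω × ℕ | x.1 ∈ Z ∧ (S.Γ x.1).tl 0 i = x.2} :=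
    (measurable_fst hZ).inter
      (measurableSet_eq_fun ((S.meas.tl 0 i).comp measurable_fst) measurable_snd)
  have hm2 : MeasurableSet (Z ∩ {ω | S.tx ω i ∈ B}) := hZ.inter (S.measurable_tx i hB)
  rw [← lintegral_indicator_one (hB.inter hm), ← lintegral_indicator_one hm2,
    S.lintegral_mh i _ (measurable_one.indicator (hB.inter hm))]
  refine lintegral_congr fun ω => ?_
  rw [tsum_eq_single ((S.Γ ω).tl 0 i)]
  · by_cases hω : ω ∈ Z
    · have hc : (S.Γ ω).Can i (0, (S.Γ ω).tl 0 i) := (S.ax ω).tp_can 0 (hZt ω hω) i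
      rw [if_pos hc]
      by_cases hb : S.tx ω i ∈ B
      · rw [Set.indicator_of_mem (show ω ∈ Z ∩ {ω | S.tx ω i ∈ B} from ⟨hω, hb⟩),
          Set.indicator_of_mem]
        · rfl
        · exact ⟨hb, hω, rfl⟩
      · rw [Set.indicator_of_notMem (show ω ∉ Z ∩ {ω | S.tx ω i ∈ B} from fun h => hb h.2),
          Set.indicator_of_notMem]
        exact fun h => hb h.1
    · rw [Set.indicator_of_notMem (show ω ∉ Z ∩ {ω | S.tx ω i ∈ B} from fun h => hω h.1),
        Set.indicator_of_notMem (fun h => hω h.2.1)]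
      simp
  · intro j hj
    rw [Set.indicator_of_notMem (fun h => hj h.2.2.symm)]
    simp

/-- the line density of a set of triple points -/
theorem zsel1_dens (S : Sys) (i : Fin 3) {Z : Set S.Ω} (hZ : MeasurableSet Z)
    (hZt : ∀ ω ∈ Z, (S.Γ ω).tp 0 = true) :
    ∃ Fb : S.Ω × ℕ → ℝ, Measurable Fb ∧ S.LineFn Fb ∧ Integrable Fb (S.mh i) ∧
      ∀ B, S.LineSet B → ∫ x in B, Fb x ∂(S.mh i) = (S.μ (Z ∩ {ω | S.tx ω i ∈ B})).toReal := by
  set Y : Set (S.Ω × ℕ) := {x | x.1 ∈ Z ∧ (S.Γ x.1).tl 0 i = x.2} with hY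
  have hm : MeasurableSet Y :=
    (measurable_fst hZ).inter
      (measurableSet_eq_fun ((S.meas.tl 0 i).comp measurable_fst) measurable_snd)
  obtain ⟨Fb, h1, h2, h3, h4, -⟩ := S.line_et i (Y.indicator fun _ => (1 : ℝ))
    (measurable_const.indicator hm) ((integrable_const (1 : ℝ)).indicator hm)
  refine ⟨Fb, h1, h2, h3, fun B hB => ?_⟩
  rw [h4 B hB, integral_indicator hm, ← zsel1_mass S i hZ hZt hB.1]
  simp only [integral_const, smul_eq_mul, mul_one, Measure.real, Measure.restrict_apply_univ]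
  rw [Measure.restrict_apply hm, Set.inter_comm]

theorem zsel1_lineSet (S : Sys) {β γ : Type*} {F : S.Ω × ℕ → β} {F' : S.Ω × ℕ → γ}
    (hF : S.LineFn F) (hF' : S.LineFn F') (p : β → γ → Prop)
    (hm : MeasurableSet {x | p (F x) (F' x)}) : S.LineSet {x | p (F x) (F' x)} := by
  refine ⟨hm, ?_⟩
  filter_upwards [hF, hF'] with ω h1 h2 l l' hl hl' hs
  have e1 := h1 l l' hl hl' hs
  have e2 := h2 l l' hl hl' hs
  simp only [Sys.ev] at e1 e2
  change p (F (S.T l.1 ω, l.2)) (F' (S.T l.1 ω, l.2)) =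
    p (F (S.T l'.1 ω, l'.2)) (F' (S.T l'.1 ω, l'.2))
  rw [e1, e2]

theorem zsel1_pair (S : Sys) {β γ : Type*} {F : S.Ω × ℕ → β} {F' : S.Ω × ℕ → γ}
    (hF : S.LineFn F) (hF' : S.LineFn F') : S.LineFn fun x => (F x, F' x) := by
  filter_upwards [hF, hF'] with ω h1 h2 l l' hl hl' hs
  have e1 := h1 l l' hl hl' hs
  have e2 := h2 l l' hl hl' hs
  simp only [Sys.ev] at e1 e2 ⊢
  rw [e1, e2]

theorem zsel1_pi (S : Sys) {β : Type*} {F : Fin 3 → S.Ω × ℕ → β} (hF : ∀ i, S.LineFn (F i)) :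
    S.LineFn fun x i => F i x := by
  have h : ∀ᵐ ω ∂S.μ, ∀ i, (S.Γ ω).LineC (S.ev (F i) ω) := ae_all_iff.2 hF
  filter_upwards [h] with ω h1 l l' hl hl' hs
  funext i
  exact h1 i l l' hl hl' hs

/-- the coefficients of the relation at a triple point do not vanish -/
theorem zsel1_co_ne {t : Fin 3 → ℝ} (ht : ∀ i, |t i - ctr i| ≤ 1 / 100) (k : Fin 3) :
    co t k ≠ 0 := by
  have h0 := abs_le.1 (ht 0)
  have h1 := abs_le.1 (ht 1)
  have h2 := abs_le.1 (ht 2)
  simp only [ctr, Matrix.cons_val_zero, Matrix.cons_val_one, Matrix.cons_val] at h0 h1 h2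
  fin_cases k
  · simp only [co, Fin.zero_eta, Matrix.cons_val_zero]
    intro h; linarith [h1.2, h2.1]
  · simp only [co, Fin.mk_one, Matrix.cons_val_one, Matrix.cons_val_zero]
    intro h; linarith [h0.1, h2.2]
  · simp only [co, Fin.reduceFinMk, Matrix.cons_val]
    intro h; linarith [h0.1, h1.2]

theorem zsel1_mem_sup {n : ℕ} {x : Fin 3 → E n} {c : Fin 3 → ℝ} (hc : ∀ k, c k ≠ 0)
    (hs : ∑ i, c i • x i = 0) {W : Fin 3 → Submodule ℝ (E n)} (hW : ∀ i, x i ∈ W i)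
    {i j : Fin 3} (hij : i ≠ j) (k : Fin 3) : x k ∈ W i ⊔ W j := by
  by_cases hki : k = i
  · subst hki; exact Submodule.mem_sup_left (hW k)
  by_cases hkj : k = j
  · subst hkj; exact Submodule.mem_sup_right (hW k)
  have h1 : c k • x k = -∑ m ∈ univ.erase k, c m • x m := by
    rw [← Finset.add_sum_erase univ _ (mem_univ k)] at hs
    exact eq_neg_of_add_eq_zero_left hs
  have h2 : c k • x k ∈ W i ⊔ W j := by
    rw [h1]
    refine Submodule.neg_mem _ (Submodule.sum_mem _ fun m hm => Submodule.smul_mem _ _ ?_)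
    have hmk : m ≠ k := ne_of_mem_erase hm
    have : m = i ∨ m = j := by
      revert hmk hki hkj hij
      fin_cases i <;> fin_cases j <;> fin_cases k <;> fin_cases m <;> simp
    rcases this with rfl | rfl
    · exact Submodule.mem_sup_left (hW m)
    · exact Submodule.mem_sup_right (hW m)
  exact (Submodule.smul_mem_iff _ (hc k)).1 h2

/-- a minimal triple of subspaces -/
theorem zsel1_min {Ω : Type} [MeasurableSpace Ω] (μ : Measure Ω) {n : ℕ} (Z : Set Ω)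
    (hZ : μ Z ≠ 0) (x : Ω → Fin 3 → E n) :
    ∃ W : Fin 3 → Submodule ℝ (E n), μ (Z ∩ {ω | ∀ j, x ω j ∈ W j}) ≠ 0 ∧
      ∀ i W', W' < W i → μ ((Z ∩ {ω | ∀ j, x ω j ∈ W j}) ∩ {ω | x ω i ∈ W'}) = 0 := by
  classical
  have hex : ∃ m : ℕ, ∃ W : Fin 3 → Submodule ℝ (E n),
      μ (Z ∩ {ω | ∀ j, x ω j ∈ W j}) ≠ 0 ∧ ∑ j, Module.finrank ℝ (W j) = m :=
    ⟨_, fun _ => ⊤, by simpa using hZ, rfl⟩
  obtain ⟨W, hW, hm⟩ := Nat.find_spec hex
  refine ⟨W, hW, fun i W' hlt => ?_⟩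
  by_contra hne
  have h1 : μ (Z ∩ {ω | ∀ j, x ω j ∈ Function.update W i W' j}) ≠ 0 := by
    intro h0
    refine hne (measure_mono_null ?_ h0)
    intro ω hω
    refine ⟨hω.1.1, fun j => ?_⟩
    by_cases hj : j = i
    · subst hj; rw [Function.update_self]; exact hω.2
    · rw [Function.update_of_ne hj]; exact hω.1.2 j
  have h2 := Nat.find_min' hex ⟨Function.update W i W', h1, rfl⟩
  rw [← hm] at h2
  have h3 : ∑ j, Module.finrank ℝ (Function.update W i W' j) < ∑ j, Module.finrank ℝ (W j) := by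
    refine Finset.sum_lt_sum (fun j _ => ?_) ⟨i, mem_univ i, ?_⟩
    · by_cases hj : j = i
      · subst hj; rw [Function.update_self]; exact Submodule.finrank_mono hlt.le
      · rw [Function.update_of_ne hj]
    · rw [Function.update_self]; exact Submodule.finrank_lt_finrank_of_lt hlt
  omega

theorem sel (S : Sys) {A : Set (S.Ω × ℕ)} (hA : S.LineSet A) {n : ℕ} {ν : S.Ω × ℕ → E n}
    (hν : S.Marks A ν) (hT : S.μ (S.TA A) ≠ 0) :
    ∃ A' ⊆ A, ∃ W : Fin 3 → Submodule ℝ (E n), S.LineSet A' ∧ S.μ (S.TA A') ≠ 0 ∧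
      (∀ x ∈ A', ν x ∈ W ((S.Γ x.1).fam (0, x.2))) ∧
      (∀ i W', W' < W i → S.mA A' ν i W' = 0) ∧ ∀ i j k, i ≠ j → W k ≤ W i ⊔ W j := by
  obtain ⟨W, hW, hmin⟩ := zsel1_min S.μ (S.TA A) hT fun ω j => ν (S.tx ω j)
  set Z : Set S.Ω := S.TA A ∩ {ω | ∀ j, ν (S.tx ω j) ∈ W j} with hZdef
  have hZ : MeasurableSet Z := by
    refine (S.measurableSet_TA hA.1).inter ?_
    rw [Set.ofPred_forall]
    exact MeasurableSet.iInter fun j =>
      (hν.meas.comp (S.measurable_tx j)) (zsel1_sub_meas (W j))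
  have hZt : ∀ ω ∈ Z, (S.Γ ω).tp 0 = true := fun ω hω => hω.1.1
  choose Fb hFm hFl hFi hF using fun i => zsel1_dens S i hZ hZt
  set fam : S.Ω × ℕ → Fin 3 := fun x => (S.Γ x.1).fam (0, x.2) with hfam
  have hfm : Measurable fam := zsel1_fam_meas S
  have hfl : S.LineFn fam := zsel1_fam_line S
  have hA'm : MeasurableSet {x | x ∈ A ∧ ν x ∈ W (fam x) ∧ 0 < Fb (fam x) x} := by
    have : {x | x ∈ A ∧ ν x ∈ W (fam x) ∧ 0 < Fb (fam x) x} =
        A ∩ ⋃ i, ({x | fam x = i} ∩ ({x | ν x ∈ W i} ∩ {x | 0 < Fb i x})) := by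
      ext x
      simp only [Set.mem_inter_iff, Set.mem_iUnion]
      constructor
      · rintro ⟨h1, h2, h3⟩
        exact ⟨h1, fam x, rfl, h2, h3⟩
      · rintro ⟨h1, i, rfl, h2, h3⟩
        exact ⟨h1, h2, h3⟩
    rw [this]
    exact hA.1.inter (MeasurableSet.iUnion fun i => (hfm (measurableSet_singleton i)).inter
      ((hν.meas (zsel1_sub_meas (W i))).inter (measurableSet_lt measurable_const (hFm i))))
  have hA' : S.LineSet {x | x ∈ A ∧ ν x ∈ W (fam x) ∧ 0 < Fb (fam x) x} :=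
    zsel1_lineSet S (zsel1_pair S hA.2 hν.line) (zsel1_pair S hfl (zsel1_pi S hFl))
      (fun a b => a.1 ∧ a.2 ∈ W b.1 ∧ 0 < b.2 b.1) hA'm
  refine ⟨{x | x ∈ A ∧ ν x ∈ W (fam x) ∧ 0 < Fb (fam x) x}, fun x hx => hx.1, W, hA', ?_,
    fun x hx => hx.2.1, ?_, ?_⟩
  · have h0 : ∀ i, S.μ (Z ∩ {ω | S.tx ω i ∈ {x | Fb i x ≤ 0}}) = 0 := by
      intro i
      have hm : MeasurableSet {x | Fb i x ≤ 0} := measurableSet_le (hFm i) measurable_const
      have hB : S.LineSet {x | Fb i x ≤ 0} :=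
        zsel1_lineSet S (hFl i) (hFl i) (fun a _ => a ≤ 0) hm
      have h1 := hF i _ hB
      have h2 : ∫ x in {x | Fb i x ≤ 0}, Fb i x ∂(S.mh i) ≤ 0 :=
        setIntegral_nonpos hm fun x hx => hx
      rw [h1] at h2
      have h3 := le_antisymm h2 ENNReal.toReal_nonneg
      exact ((ENNReal.toReal_eq_zero_iff _).1 h3).resolve_right (measure_ne_top _ _)
    intro hz
    refine hW (measure_mono_null (t := S.TA _ ∪ ⋃ i, Z ∩ {ω | S.tx ω i ∈ {x | Fb i x ≤ 0}})
      (fun ω hω => ?_) (measure_union_null hz (measure_iUnion_null h0)))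
    by_cases hall : ∀ i, 0 < Fb i (S.tx ω i)
    · refine Or.inl ⟨hZt ω hω, fun i => ⟨hω.1.2 i, ?_, ?_⟩⟩
      · have e : fam (S.tx ω i) = i := zsel1_fam_tx S (hZt ω hω) i
        rw [e]; exact hω.2 i
      · have e : fam (S.tx ω i) = i := zsel1_fam_tx S (hZt ω hω) i
        rw [e]; exact hall i
    · obtain ⟨i, hi⟩ := not_forall.1 hall
      exact Or.inr (Set.mem_iUnion.2 ⟨i, hω, not_lt.1 hi⟩)
  · intro i W' hlt
    have hm : MeasurableSet {x | 0 < Fb i x ∧ ν x ∈ W'} :=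
      (measurableSet_lt measurable_const (hFm i)).inter (hν.meas (zsel1_sub_meas W'))
    have hB : S.LineSet {x | 0 < Fb i x ∧ ν x ∈ W'} :=
      zsel1_lineSet S (hFl i) hν.line (fun a b => 0 < a ∧ b ∈ W') hm
    have h1 := hF i _ hB
    have h2 : S.μ (Z ∩ {ω | S.tx ω i ∈ {x | 0 < Fb i x ∧ ν x ∈ W'}}) = 0 :=
      measure_mono_null (fun ω hω => Set.mem_inter hω.1 hω.2.2) (hmin i W' hlt)
    rw [h2, ENNReal.toReal_zero] at h1
    have h3 : ∀ᵐ x ∂((S.mh i).restrict {x | 0 < Fb i x ∧ ν x ∈ W'}), Fb i x = 0 :=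
      (setIntegral_eq_zero_iff_of_nonneg_ae
        ((ae_restrict_mem hm).mono fun x hx => hx.1.le) (hFi i).integrableOn).1 h1
    have h4 : S.mh i {x | 0 < Fb i x ∧ ν x ∈ W'} = 0 := by
      have h5 : ∀ᵐ x ∂((S.mh i).restrict {x | 0 < Fb i x ∧ ν x ∈ W'}), False := by
        filter_upwards [h3, ae_restrict_mem hm] with x h hx
        exact hx.1.ne' h
      rw [eventually_false_iff_eq_bot, ae_eq_bot, Measure.restrict_eq_zero] at h5
      exact h5
    rw [Sys.mA, Measure.map_apply hν.meas (zsel1_sub_meas W'),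
      Measure.restrict_apply (hν.meas (zsel1_sub_meas W'))]
    refine le_antisymm (le_trans (measure_mono_ae ?_) h4.le) zero_le
    filter_upwards [zsel1_ae_fam S i] with x hx hx'
    have e : fam x = i := hx
    have h6 := hx'.2.2.2
    rw [e] at h6
    exact ⟨h6, hx'.1⟩
  · intro i j k hij
    by_contra hne
    have hlt : W k ⊓ (W i ⊔ W j) < W k :=
      lt_of_le_of_ne inf_le_left fun h => hne (inf_eq_left.1 h)
    have h0 := hmin k _ hlt
    refine hW (le_antisymm (le_trans (measure_mono_ae ?_) h0.le) zero_le)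
    have hl : ∀ᵐ ω ∂S.μ, ∀ m, ω ∈ S.TA A →
        ∑ i, co (fun i => S.sl (S.tx ω i)) i * ν (S.tx ω i) m = 0 := ae_all_iff.2 hν.lin
    filter_upwards [hl] with ω hω hz
    refine ⟨hz, hz.2 k, ?_⟩
    have hc : ∀ m, co (fun i => S.sl (S.tx ω i)) m ≠ 0 := by
      refine zsel1_co_ne fun m => ?_
      have hcan := (S.ax ω).tp_can 0 (hZt ω hz) m
      have := (S.ax ω).slope _ hcan.1
      rw [hcan.2.1] at this
      exact this
    refine zsel1_mem_sup (x := fun m => ν (S.tx ω m)) hc ?_ hz.2 hij k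
    funext m
    simpa [Finset.sum_apply] using hω m hz.1

end ECub.Z
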