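import Pool.Agent.P.MP_029dcd_co.F.Z.ZDefs
import Pool.Agent.P.MP_029dcd_co.F.LayE

/-! The environment of almost every galaxy. -/

set_option autoImplicit false

namespace ECub.Z

open CubicStab MeasureTheory Filter Topology Finset
open scoped ENNReal

theorem zsel2_valid (S : Sys) (ω : S.Ω) (l : Lb) :
    (S.Γ (S.T l.1 ω)).valid (0, l.2) ↔ (S.Γ ω).valid l := by
  simp only [Gal.valid, (S.shift ω l.1).g, add_zero]

theorem zsel2_fam (S : Sys) (ω : S.Ω) (l : Lb) :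
    (S.Γ (S.T l.1 ω)).fam (0, l.2) = (S.Γ ω).fam l := by
  rw [(S.shift ω l.1).fam, add_zero]

theorem zsel2_sl (S : Sys) (ω : S.Ω) (l : Lb) : S.sl (S.T l.1 ω, l.2) = (S.Γ ω).t l := by
  change (S.Γ (S.T l.1 ω)).t (0, l.2) = _
  rw [(S.shift ω l.1).t, add_zero]

theorem zsel2_tx (S : Sys) (ω : S.Ω) (w : Z2) (i : Fin 3) :
    S.tx (S.T w ω) i = (S.T w ω, (S.Γ ω).tl w i) := by
  change (S.T w ω, (S.Γ (S.T w ω)).tl 0 i) = _
  rw [(S.shift ω w).tl, add_zero]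

theorem zsel2_ae_can (S : Sys) (i : Fin 3) : ∀ᵐ x ∂(S.mh i), (S.Γ x.1).Can i (0, x.2) := by
  have hm : MeasurableSet {x : S.Ω × ℕ | (S.Γ x.1).Can i (0, x.2)} := by
    refine measurableSet_setOfPred.2 (measurable_from_prod_countable_left fun j => ?_)
    have h1 : Measurable fun ω => j < (S.Γ ω).g 0 :=
      (measurable_of_countable fun n : ℕ => j < n).comp (S.meas.g 0)
    have h2 : Measurable fun ω => (S.Γ ω).fam (0, j) = i :=
      (measurable_of_countable fun n : Fin 3 => n = i).comp (S.meas.fam (0, j))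
    have h3 : Measurable fun ω => (S.Γ ω).can (0, j) = true :=
      (measurable_of_countable fun n : Bool => n = true).comp (S.meas.can (0, j))
    exact h1.and (h2.and h3)
  exact ae_restrict_mem hm

theorem zsel2_ctr {i j : Fin 3} (h : i ≠ j) {x y : ℝ} (hx : |x - ctr i| ≤ 1 / 100)
    (hy : |y - ctr j| ≤ 1 / 100) : x ≠ y := by
  intro hxy
  subst hxy
  rw [abs_le] at hx hy
  fin_cases i <;> fin_cases j <;> simp [ctr] at h hx hy <;> linarith [hx.1, hx.2, hy.1, hy.2]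

theorem zsel2_mem_UW {n : ℕ} (W : Submodule ℝ (E n)) (x : Ix n → ℝ) :
    x ∈ UW W ↔ (fun k => x (some k)) ∈ W := Iff.rfl

theorem zsel2_toV_mem {n : ℕ} (W : Submodule ℝ (E n)) (f : H n) : toV f ∈ UW W ↔ f.1 ∈ W :=
  Iff.rfl

theorem zsel2_sup {n : ℕ} {W W1 W2 : Submodule ℝ (E n)} (h : W ≤ W1 ⊔ W2) :
    UW W ≤ UW W1 ⊔ UW W2 := by
  intro x hx
  obtain ⟨a, ha, b, hb, hab⟩ := Submodule.mem_sup.1 (h ((zsel2_mem_UW W x).1 hx))
  refine Submodule.mem_sup.2 ⟨toV (a, x none), ha, toV (b, 0), hb, ?_⟩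
  funext o
  cases o with
  | none => simp [toV]
  | some k => exact congrFun hab k

theorem zsel2_two {n : ℕ} {W : Submodule ℝ (E n)} {x : E n} (hx : x ∈ W) (h0 : x 0 = 1) :
    2 ≤ Module.finrank ℝ (UW W) := by
  let v : Fin 2 → UW W := ![⟨toV (x, 0), hx⟩, ⟨toV (0, 1), W.zero_mem⟩]
  have hv : LinearIndependent ℝ v := by
    rw [LinearIndependent.pair_iff]
    intro s t hst
    have h1 := congrFun (congrArg Subtype.val hst) (some 0)
    have h2 := congrFun (congrArg Subtype.val hst) none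
    simp [toV, h0] at h1 h2
    exact ⟨h1, h2⟩
  simpa using hv.fintype_card_le_finrank

theorem zsel2_co_sum (t : Fin 3 → ℝ) (x y : ℝ) : ∑ i, co t i * (y - t i * x) = 0 := by
  simp only [Fin.sum_univ_three, co, Matrix.cons_val_zero, Matrix.cons_val_one,
    Matrix.cons_val]
  ring

theorem zsel2_co_ne {t : Fin 3 → ℝ} (h : ∀ i, |t i - ctr i| ≤ 1 / 100) (i : Fin 3) :
    co t i ≠ 0 := by
  fin_cases i
  · exact sub_ne_zero.2 (zsel2_ctr (by decide) (h 1) (h 2))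
  · exact sub_ne_zero.2 (zsel2_ctr (by decide) (h 2) (h 0))
  · exact sub_ne_zero.2 (zsel2_ctr (by decide) (h 0) (h 1))

theorem mh_ne_zero (S : Sys) {A : Set (S.Ω × ℕ)} (hA : MeasurableSet A) (hT : S.μ (S.TA A) ≠ 0)
    (i : Fin 3) : S.mh i A ≠ 0 := by
  intro h0
  apply hT
  have h1 := S.map_tx_le i A
  rw [h0, Measure.map_apply (S.measurable_tx i) hA,
    Measure.restrict_apply (S.measurable_tx i hA)] at h1
  refine measure_mono_null (fun ω hω => ?_) (le_zero_iff.1 h1)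
  exact ⟨hω.2 i, hω.1⟩

/-- equal directions of the vectors mean equal slope and offset -/
theorem eq_of_fw (S : Sys) {n : ℕ} {ν : S.Ω × ℕ → E n} (hν : S.Marks0 ν) (ω : S.Ω) {l l' : Lb}
    (hl : (S.Γ ω).valid l) (hl' : (S.Γ ω).valid l') {r : ℝ}
    (h : fw S ν ω l = r • fw S ν ω l') :
    (S.Γ ω).t l = (S.Γ ω).t l' ∧ (S.Γ ω).s l = (S.Γ ω).s l' := by
  have h0 : ν (S.T l.1 ω, l.2) 0 = r * ν (S.T l'.1 ω, l'.2) 0 := congrFun h (some 0)
  have h1 : ν (S.T l.1 ω, l.2) 1 = r * ν (S.T l'.1 ω, l'.2) 1 := congrFun h (some 1)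
  have h2 : (S.Γ ω).s l = r * (S.Γ ω).s l' := congrFun h none
  rw [hν.one, hν.one, mul_one] at h0
  rw [hν.slope _ ((zsel2_valid S ω l).2 hl), hν.slope _ ((zsel2_valid S ω l').2 hl'),
    zsel2_sl, zsel2_sl] at h1
  rw [← h0, one_mul] at h1 h2
  exact ⟨h1, h2⟩

theorem env_ae (S : Sys) {A A' : Set (S.Ω × ℕ)} (hA' : S.LineSet A') (hsub : A' ⊆ A) {n : ℕ}
    {ν : S.Ω × ℕ → E n} (hν : S.Marks A ν) (hT : S.μ (S.TA A') ≠ 0)
    (W : Fin 3 → Submodule ℝ (E n)) (hW : ∀ x ∈ A', ν x ∈ W ((S.Γ x.1).fam (0, x.2)))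
    (hsup : ∀ i j k, i ≠ j → W k ≤ W i ⊔ W j) :
    ∀ᵐ ω ∂S.μ, Env (S.Γ ω) (aw S A' ω) (fw S ν ω) fun i => UW (W i) := by
  have hex : ∀ i, ∃ x ∈ W i, x 0 = 1 := by
    intro i
    obtain ⟨ω, hω⟩ := nonempty_of_measure_ne_zero hT
    refine ⟨ν (S.tx ω i), ?_, hν.one _⟩
    have h1 := hW _ (hω.2 i)
    have h2 : (S.Γ ω).fam (0, (S.Γ ω).tl 0 i) = i := ((S.ax ω).tp_can 0 hω.1 i).2.1
    change ν (S.tx ω i) ∈ W ((S.Γ ω).fam (0, (S.Γ ω).tl 0 i)) at h1
    rwa [h2] at h1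
  have hlin : ∀ᵐ ω ∂S.μ, ∀ w k, S.T w ω ∈ S.TA A →
      ∑ i, co (fun i => S.sl (S.tx (S.T w ω) i)) i * ν (S.tx (S.T w ω) i) k = 0 :=
    ae_all_iff.2 fun w => ae_all_iff.2 fun k => (S.mp w).quasiMeasurePreserving.ae (hν.lin k)
  filter_upwards [hA'.2, hν.line, hlin] with ω ha hf hl
  refine
    { ax := ⟨S.k, S.C, S.ax ω⟩
      a_line := ha
      f_line := fun l l' h1 h2 h3 => ?_
      f_mem := fun l _ h2 => ?_
      f_ne := fun l _ _ h => ?_
      sup := fun i j k hij => zsel2_sup (hsup i j k hij)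
      inf := fun i j h => ?_
      two := fun i => ?_
      rel := fun w hw haw => ?_
      indep := fun l l' h1 h2 _ _ h5 c h => ?_ }
  · simp only [fw, Sys.fv, hf l l' h1 h2 h3, (S.ax ω).same_s l l' h1 h2 h3]
  · have h3 := hW _ h2
    rw [zsel2_fam] at h3
    exact h3
  · have h0 : ν (S.T l.1 ω, l.2) 0 = 0 := congrFun h (some 0)
    rw [hν.one] at h0
    exact one_ne_zero h0
  · have h1 : toV ((0, 1) : H n) ∈ UW (W i) ⊓ UW (W j) := ⟨(W i).zero_mem, (W j).zero_mem⟩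
    rw [h, Submodule.mem_bot] at h1
    have h2 : (1 : ℝ) = 0 := congrFun h1 none
    exact one_ne_zero h2
  · obtain ⟨x, hx, h0⟩ := hex i
    exact zsel2_two hx h0
  · have hc := (S.ax ω).tp_can w hw
    have hsl : ∀ i, |(S.Γ ω).t ((S.Γ ω).tlab w i) - ctr i| ≤ 1 / 100 := fun i => by
      have h1 := (S.ax ω).slope _ (hc i).1
      rwa [(hc i).2.1] at h1
    refine ⟨co fun i => (S.Γ ω).t ((S.Γ ω).tlab w i), zsel2_co_ne hsl, ?_⟩
    funext o
    rw [Finset.sum_apply]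
    cases o with
    | none =>
      have h1 := zsel2_co_sum (fun i => (S.Γ ω).t ((S.Γ ω).tlab w i)) ((S.Γ ω).v w).1
        ((S.Γ ω).v w).2
      refine Eq.trans (Finset.sum_congr rfl fun i _ => ?_) h1
      have h2 := (S.ax ω).tp_on w hw i
      change _ * (S.Γ ω).s ((S.Γ ω).tlab w i) = _
      rw [h2]
      ring
    | some k =>
      have hTA : S.T w ω ∈ S.TA A := by
        refine ⟨?_, fun i => ?_⟩
        · rw [(S.shift ω w).tp, add_zero]
          exact hw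
        · rw [zsel2_tx]
          exact hsub (haw i)
      have h1 := hl w k hTA
      have h2 : (fun i => S.sl (S.tx (S.T w ω) i)) = fun i => (S.Γ ω).t ((S.Γ ω).tlab w i) := by
        funext i
        rw [zsel2_tx]
        exact zsel2_sl S ω ((S.Γ ω).tlab w i)
      rw [h2] at h1
      refine Eq.trans (Finset.sum_congr rfl fun i _ => ?_) h1
      rw [zsel2_tx]
      rfl
  · exact zsel2_ctr h5 ((S.ax ω).slope l h1) ((S.ax ω).slope l' h2)
      (eq_of_fw S hν.toMarks0 ω h1 h2 h).1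

theorem nonAt_of_top (S : Sys) {A : Set (S.Ω × ℕ)} (hA : S.LineSet A) {n : ℕ}
    {ν : S.Ω × ℕ → E n} (hν : S.Marks0 ν) (hT : S.μ (S.TA A) ≠ 0)
    (W : Fin 3 → Submodule ℝ (E n)) (hW : ∀ x ∈ A, ν x ∈ W ((S.Γ x.1).fam (0, x.2)))
    (hnd : ∀ i W', W' < W i → S.mA A ν i W' = 0) {b c : Fin 3} (hb : S.NonAt A b) (i : Fin 3)
    (hi : UW (W i) = UW (W b) ⊔ UW (W c)) : S.NonAt A i := by
  intro t0
  let φ : E n →ₗ[ℝ] ℝ := LinearMap.proj 1 - t0 • LinearMap.proj 0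
  have hφ : ∀ x : S.Ω × ℕ, (S.Γ x.1).valid (0, x.2) → (φ (ν x) = 0 ↔ S.sl x = t0) := by
    intro x hx
    change ν x 1 - t0 * ν x 0 = 0 ↔ _
    rw [hν.one, hν.slope x hx, mul_one, sub_eq_zero]
  by_cases hlt : W i ⊓ LinearMap.ker φ < W i
  · have h1 := hnd i _ hlt
    have h2 := Measure.le_map_apply (μ := (S.mh i).restrict A) hν.meas.aemeasurable
      ((W i ⊓ LinearMap.ker φ : Submodule ℝ (E n)) : Set (E n))
    have h3 : (S.mh i).restrict A (ν ⁻¹' (W i ⊓ LinearMap.ker φ : Submodule ℝ (E n))) = 0 :=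
      le_zero_iff.1 (h2.trans (le_of_eq h1))
    rw [Measure.restrict_apply' hA.1] at h3
    refine measure_mono_null_ae ?_ h3
    filter_upwards [zsel2_ae_can S i] with x hx hx'
    refine ⟨⟨?_, (hφ x hx.1).2 hx'.2⟩, hx'.1⟩
    have h4 := hW x hx'.1
    rwa [hx.2.1] at h4
  · exfalso
    have h1 : W i ⊓ LinearMap.ker φ = W i := by
      by_contra hne
      exact hlt (lt_of_le_of_ne inf_le_left hne)
    have h2 : W b ≤ LinearMap.ker φ := by
      intro x hx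
      have h3 : toV (x, 0) ∈ UW (W i) := by
        rw [hi]
        exact Submodule.mem_sup_left ((zsel2_toV_mem (W b) (x, 0)).2 hx)
      have h4 : x ∈ W i := h3
      rw [← h1] at h4
      exact h4.2
    refine mh_ne_zero S hA.1 hT b (measure_mono_null_ae ?_ (hb t0))
    filter_upwards [zsel2_ae_can S b] with x hx hx'
    refine ⟨hx', (hφ x hx.1).1 (h2 ?_)⟩
    have h4 := hW x hx'
    rwa [hx.2.1] at h4

/-- the lines of `A` that have a label in a cell belonging to the event `B` -/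
theorem exists_touch (S : Sys) {A : Set (S.Ω × ℕ)} (hA : S.LineSet A) {B : Set S.Ω}
    (hB : MeasurableSet B) : ∃ A' ⊆ A, S.LineSet A' ∧ S.TA A ∩ B ⊆ S.TA A' ∧
      ∀ᵐ ω ∂S.μ, ∀ l, (S.Γ ω).valid l → aw S A' ω l →
        ∃ l', (S.Γ ω).valid l' ∧ aw S A ω l' ∧ (S.Γ ω).same l l' = true ∧ S.T l'.1 ω ∈ B := by
  let A' : Set (S.Ω × ℕ) := A ∩ {x | ∃ l' : Lb, (S.Γ x.1).valid l' ∧ (S.T l'.1 x.1, l'.2) ∈ A ∧
    (S.Γ x.1).same (0, x.2) l' = true ∧ S.T l'.1 x.1 ∈ B}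
  have key : ∀ ω l, aw S A' ω l ↔ aw S A ω l ∧ ∃ l', (S.Γ ω).valid l' ∧ aw S A ω l' ∧
      (S.Γ ω).same l l' = true ∧ S.T l'.1 ω ∈ B := by
    intro ω l
    have hs := S.shift ω l.1
    refine and_congr Iff.rfl ⟨?_, ?_⟩
    · rintro ⟨⟨x, j⟩, h1, h2, h3, h4⟩
      simp only [← S.T_add] at h2 h4
      rw [add_comm] at h2 h4
      refine ⟨(l.1 + x, j), ?_, h2, ?_, h4⟩
      · simpa only [Gal.valid, hs.g] using h1
      · simpa only [hs.same, add_zero] using h3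
    · rintro ⟨⟨x, j⟩, h1, h2, h3, h4⟩
      have e1 : l.1 + (x - l.1) = x := by abel
      have e2 : x - l.1 + l.1 = x := by abel
      refine ⟨(x - l.1, j), ?_, ?_, ?_, ?_⟩
      · simpa only [Gal.valid, hs.g, e1] using h1
      · simpa only [← S.T_add, e2, aw] using h2
      · simpa only [hs.same, add_zero, e1] using h3
      · simpa only [← S.T_add, e2] using h4
  refine ⟨A', Set.inter_subset_left, ⟨hA.1.inter ?_, ?_⟩, ?_, ?_⟩
  · refine measurableSet_setOfPred.2 (Measurable.exists fun l' => ?_)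
    refine measurable_from_prod_countable_left fun j => ?_
    have h1 : Measurable fun ω => l'.2 < (S.Γ ω).g l'.1 :=
      (measurable_of_countable fun n : ℕ => l'.2 < n).comp (S.meas.g l'.1)
    have h2 : Measurable fun ω => (S.T l'.1 ω, l'.2) ∈ A :=
      measurableSet_setOfPred.1 (((S.mp l'.1).measurable.prodMk measurable_const) hA.1)
    have h3 : Measurable fun ω => (S.Γ ω).same (0, j) l' = true :=
      (measurable_of_countable fun n : Bool => n = true).comp (S.meas.same (0, j) l')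
    have h4 : Measurable fun ω => S.T l'.1 ω ∈ B :=
      measurableSet_setOfPred.1 ((S.mp l'.1).measurable hB)
    exact h1.and (h2.and (h3.and h4))
  · filter_upwards [hA.2] with ω ha
    have hx := S.ax ω
    have one : ∀ l l', (S.Γ ω).valid l → (S.Γ ω).valid l' → (S.Γ ω).same l l' = true →
        aw S A' ω l → aw S A' ω l' := by
      intro l l' h1 h2 h3 h4
      obtain ⟨h5, m, h6, h7, h8, h9⟩ := (key ω l).1 h4
      have h10 : aw S A ω l = aw S A ω l' := ha l l' h1 h2 h3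
      exact (key ω l').2 ⟨h10 ▸ h5, m, h6, h7,
        hx.same_trans _ _ _ h2 h1 h6 (hx.same_symm _ _ h1 h2 h3) h8, h9⟩
    intro l l' h1 h2 h3
    exact propext ⟨one l l' h1 h2 h3, one l' l h2 h1 (hx.same_symm _ _ h1 h2 h3)⟩
  · rintro ω ⟨⟨h1, h2⟩, h3⟩
    refine ⟨h1, fun i => ⟨h2 i, (0, (S.Γ ω).tl 0 i), ?_, ?_, ?_, ?_⟩⟩
    · exact ((S.ax ω).tp_can 0 h1 i).1
    · change (S.T 0 ω, (S.Γ ω).tl 0 i) ∈ A
      rw [S.T_zero]
      exact h2 i
    · exact (S.ax ω).same_refl _ ((S.ax ω).tp_can 0 h1 i).1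
    · change S.T 0 ω ∈ B
      rw [S.T_zero]
      exact h3
  · exact Eventually.of_forall fun ω l _ h => ((key ω l).1 h).2

end ECub.Z
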