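import Pool.Agent.P.MP_029dcd_co.F.Z.ZCount0
import Pool.Agent.P.MP_029dcd_co.F.LayT

/-! Number of lines that visit a box. -/

set_option autoImplicit false

namespace ECub.Z

open CubicStab MeasureTheory Filter Topology Finset
open scoped ENNReal

/-- the bump in the offset -/
noncomputable def zae1_bump (n : ℕ) (δ : ℝ) : BoundedContinuousFunction (E n × ℝ) ℝ :=
  BoundedContinuousFunction.ofNormedAddCommGroup (fun y => max 0 (δ - |y.2|))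
    (by fun_prop) |δ| (fun y => by
      rw [Real.norm_eq_abs, abs_of_nonneg (le_max_left _ _)]
      exact max_le (abs_nonneg _) (by linarith [abs_nonneg y.2, le_abs_self δ]))

theorem zae1_bump_apply (n : ℕ) (δ : ℝ) (y : E n × ℝ) :
    zae1_bump n δ y = max 0 (δ - |y.2|) := rfl

theorem zae1_int_pos {δ : ℝ} (hδ : 0 < δ) : 0 < ∫ s : ℝ, max 0 (δ - |s|) := by
  have hc : Continuous fun s : ℝ => max 0 (δ - |s|) := by fun_prop
  have hs : HasCompactSupport fun s : ℝ => max 0 (δ - |s|) := by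
    refine HasCompactSupport.intro (K := Set.Icc (-δ) δ) isCompact_Icc ?_
    intro x hx
    have : δ ≤ |x| := by
      by_contra h
      exact hx (Set.mem_Icc.2 (abs_le.1 (not_le.1 h).le))
    exact max_eq_left (by linarith)
  refine hc.integral_pos_of_hasCompactSupport_nonneg_nonzero hs (fun s => le_max_left _ _)
    (x := 0) ?_
  simp only [abs_zero, sub_zero]
  exact (lt_max_of_lt_right hδ).ne'

theorem zae1_upper {G : Gal} {k : ℕ} {C : ℝ} {Λ : (ℝ × ℝ) ≃L[ℝ] (ℝ × ℝ)} (hG : G.Ax k C)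
    (hΛ : LamOK Λ) (hL : G.Lin Λ) (a : Lb → Prop) (i : Fin 3) (v : ℕ) (ρ : ℝ)
    (h : ∀ l, G.valid l → l.1 ∈ box 0 (1 * v) → |G.s l| ≤ ρ) :
    Vis G a i 0 v ⊆ G.lns i ρ := by
  classical
  intro p hp
  unfold Vis at hp
  obtain ⟨l, hl, rfl⟩ := Finset.mem_image.1 hp
  obtain ⟨h1, h2, -, h4⟩ := mem_visL.1 hl
  obtain ⟨c1, c2, c3⟩ := Gal.at'_spec hG h2 0
  rw [h4] at c1 c3
  rw [Gal.mem_lns hG hΛ hL]
  refine ⟨⟨c1, c3⟩, ?_⟩
  have : G.s l = G.s (G.rep l) := hG.same_s l _ h2 c1.1 c2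
  rw [← this]
  exact h l h2 (by simpa using h1)

theorem zae1_lower (S : Sys) {Λ : (ℝ × ℝ) ≃L[ℝ] (ℝ × ℝ)} (hΛ : LamOK Λ) (ω : S.Ω)
    (hL : (S.Γ ω).Lin Λ) (A : Set (S.Ω × ℕ)) (i : Fin 3) (v : ℕ) (ρ : ℝ)
    (h : ∀ l, (S.Γ ω).valid l → |(S.Γ ω).s l| ≤ ρ → ((S.Γ ω).rep l).1 ∈ box 0 v) :
    S.lnsA A ω i ρ ⊆ Vis (S.Γ ω) (aw S A ω) i 0 v := by
  classical
  intro l hl
  unfold Sys.lnsA at hl
  obtain ⟨h1, h2⟩ := Finset.mem_filter.1 hl
  obtain ⟨⟨c1, c2⟩, c3⟩ := (Gal.mem_lns (S.ax ω) hΛ hL i ρ l).1 h1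
  have hr : (S.Γ ω).rep l = l := by
    have := Gal.at'_self (S.ax ω) c1
    rw [c2] at this
    exact this
  unfold Vis
  refine Finset.mem_image.2 ⟨l, mem_visL.2 ⟨?_, c1.1, h2, c1.2.1⟩, hr⟩
  have := h l c1.1 c3
  rwa [hr] at this

theorem count_ae (S : Sys) (hS : S.toDyn.Erg) {Λ : (ℝ × ℝ) ≃L[ℝ] (ℝ × ℝ)} (hΛ : S.Lin Λ)
    {A : Set (S.Ω × ℕ)} (hA : S.LineSet A) {n : ℕ} {ν : S.Ω × ℕ → E n} (hν : S.Marks0 ν)
    (i : Fin 3) (hpos : S.mh i A ≠ 0) :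
    ∃ c1 C1 : ℝ, 0 < c1 ∧ ∀ᵐ ω ∂S.μ, ∀ᶠ v : ℕ in atTop, Cnt (S.Γ ω) (aw S A ω) i 0 v c1 C1 := by
  obtain ⟨B, -, hB⟩ := Gal.off_le hΛ.ok 1
  obtain ⟨K, hK⟩ := S.few_lns hS hΛ B
  obtain ⟨δ, hδ, hv⟩ := Gal.vis_small hΛ.ok
  obtain ⟨m, hm, -, hm2, he⟩ := S.equi hS hΛ hA hν i
  have hm0 : 0 < m.real Set.univ := by
    refine ENNReal.toReal_pos (fun h0 => hpos ?_) (measure_ne_top _ _)
    have h1 := hm2 h0
    unfold Sys.mA at h1
    rw [Measure.map_apply hν.meas MeasurableSet.univ, Set.preimage_univ,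
      Measure.restrict_apply_univ] at h1
    exact h1
  have hI : 0 < ∫ y, zae1_bump n δ y ∂(m.prod volume) := by
    have : ∫ y, zae1_bump n δ y ∂(m.prod volume)
        = m.real Set.univ • ∫ s : ℝ, max 0 (δ - |s|) :=
      integral_fun_snd (μ := m) (ν := volume) (fun s : ℝ => max 0 (δ - |s|))
    rw [this, smul_eq_mul]
    exact mul_pos hm0 (zae1_int_pos hδ)
  set I := ∫ y, zae1_bump n δ y ∂(m.prod volume) with hIdef
  refine ⟨I / 2 / δ, K, by positivity, ?_⟩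
  filter_upwards [hK, he, hΛ.lin] with ω h1 h2 hL
  have h3 := h2 δ hδ (zae1_bump n δ) (fun y hy => by
    rw [zae1_bump_apply]; exact max_eq_left (by linarith))
  have h4 := h3.eventually (lt_mem_nhds (show I / 2 < I by linarith))
  filter_upwards [h1, h4, hB (S.ax ω) hL, hv (S.ax ω) hL, eventually_gt_atTop 0]
    with v g1 g4 gB gv g0
  have hv0 : (0 : ℝ) < v := by exact_mod_cast g0
  constructor
  · have s1 := Finset.card_le_card (zae1_lower S hΛ.ok ω hL A i v _ gv)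
    have s2 : (∑ l ∈ S.lnsA A ω i (δ * (S.Γ ω).R v),
        zae1_bump n δ (S.ev ν ω l, (S.Γ ω).s l / (S.Γ ω).R v))
          ≤ (S.lnsA A ω i (δ * (S.Γ ω).R v)).card • δ := by
      refine Finset.sum_le_card_nsmul _ _ _ fun l _ => ?_
      rw [zae1_bump_apply]
      exact max_le hδ.le (by linarith [abs_nonneg ((S.Γ ω).s l / (S.Γ ω).R v)])
    rw [lt_div_iff₀ hv0] at g4
    rw [nsmul_eq_mul] at s2
    have s3 : ((S.lnsA A ω i (δ * (S.Γ ω).R v)).card : ℝ)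
        ≤ (Vis (S.Γ ω) (aw S A ω) i 0 v).card := by exact_mod_cast s1
    rw [div_mul_eq_mul_div, div_le_iff₀ hδ]
    nlinarith
  · have s1 := Finset.card_le_card (zae1_upper (S.ax ω) hΛ.ok hL (aw S A ω) i v _ gB)
    exact_mod_cast s1.trans (g1 i)

end ECub.Z
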