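import Pool.Agent.P.MP_029dcd_co.F.Z.ZCount0

/-! Counting lemmas: local constancy and crossing pairs. -/

set_option autoImplicit false

namespace ECub.Z

open CubicStab MeasureTheory Filter Topology Finset
open scoped ENNReal

variable {ι : Type} [Fintype ι] {G : Gal} {a : Lb → Prop} {k : ℕ} {C : ℝ}

theorem zcount_mem {y w : Z2} {u : ℕ} : w ∈ box y u ↔
    (y.1 - u ≤ w.1 ∧ w.1 ≤ y.1 + u) ∧ y.2 - u ≤ w.2 ∧ w.2 ≤ y.2 + u := by
  simp only [box, mem_product, mem_Icc]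

theorem zcount_card (y : Z2) (u : ℕ) : (box y u).card = (2 * u + 1) ^ 2 := by
  rw [box, card_product, Int.card_Icc, Int.card_Icc, sq]
  congr 1 <;> omega

/-- a line of `Vis` that has a label in the cell `w` visits every box that contains `w` -/
theorem zcount_vis (hG : G.Ax k C) (ha : G.LineC a) {i : Fin 3} {z0 z w : Z2} {v L j : ℕ}
    (hj : G.valid (w, j)) (hp : G.rep (w, j) ∈ Vis G a i z0 v) (hw : w ∈ box z L) :
    G.rep (w, j) ∈ Vis G a i z L := by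
  classical
  obtain ⟨h1, h2, h3, h4, -⟩ := of_mem_Vis hG ha hp
  have hs := (Gal.rep_eq_iff hG hj h1).1 h4.symm
  refine mem_image.2 ⟨(w, j), mem_visL.2 ⟨hw, hj, ?_, ?_⟩, rfl⟩
  · rw [ha _ _ hj h1 hs]
    exact h2
  · rw [hG.same_fam _ _ hj h1 hs]
    exact h3

open Classical in
theorem zcount_X (w : Z2) (hG : G.Ax k C) : ∃ X : Finset (Lb × Lb), X.card ≤ crN G w ∧
    ∀ x : Lb × Lb, Xc G w x.1 x.2 → x ∈ X := by
  refine ⟨((range (G.g w) ×ˢ range (G.g w)).filter fun p => G.cr w p.1 p.2 = true).image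
    fun p => (G.rep (w, p.1), G.rep (w, p.2)), card_image_le, ?_⟩
  rintro x ⟨j, j', h, h1, h2⟩
  obtain ⟨v1, v2, -⟩ := hG.cr_valid w j j' h
  exact mem_image.2 ⟨(j, j'), mem_filter.2 ⟨mem_product.2 ⟨mem_range.2 v1, mem_range.2 v2⟩, h⟩,
    Prod.ext h1 h2⟩

open Classical in
theorem tl0 (hG : G.Ax k C) (ha : G.LineC a) (i : Fin 3) (Gd : Set Z2) (L : ℕ) (hL : 1 ≤ L)
    (C1 e1 : ℝ) (hC1 : 0 ≤ C1) (he1 : 0 ≤ e1) (Rel : Lb → Lb → Prop)
    (hgood : ∀ z ∈ Gd, ((Vis G a i z L).card : ℝ) ≤ C1 * L ∧ ∃ Exc : Finset Lb,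
      (Exc.card : ℝ) ≤ e1 * L ∧ ∀ p ∈ Vis G a i z L, ∀ p' ∈ Vis G a i z L,
        p ∉ Exc → p' ∉ Exc → Rel p p')
    (z0 : Z2) (v : ℕ) (ε : ℝ) (A0 : ℕ) (hA0 : 1 ≤ A0) (hv : L ≤ v)
    (hcr : Crs G a i z0 v ε A0) (hbad : Bad G Gd L z0 v ε A0) :
    (((Vis G a i z0 v ×ˢ Vis G a i z0 v).filter fun x => ¬ Rel x.1 x.2).card : ℝ)
      ≤ (2 * ε + 25 * (A0 : ℝ) ^ 2 * C1 * e1) * (v : ℝ) ^ 2 := by
  choose! Exc hE1 hE2 using fun z hz => (hgood z hz).2
  choose X hX1 hX2 using fun w => zcount_X w hG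
  set V := Vis G a i z0 v with hV
  let F3 := (V ×ˢ V).filter fun x => ¬ Rel x.1 x.2 ∧
    ∃ w ∈ box z0 (A0 * v), Half Gd L w ∧ Xc G w x.1 x.2
  have hsub : ((V ×ˢ V).filter fun x => ¬ Rel x.1 x.2) ⊆
      (((V ×ˢ V).filter fun x => ¬ ∃ w ∈ box z0 (A0 * v), Xc G w x.1 x.2) ∪
        ((box z0 (A0 * v)).filter fun w => ¬ Half Gd L w).biUnion X) ∪ F3 := by
    intro x hx
    obtain ⟨h1, h2⟩ := mem_filter.1 hx
    by_cases h3 : ∃ w ∈ box z0 (A0 * v), Xc G w x.1 x.2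
    · obtain ⟨w, hw, h4⟩ := h3
      by_cases h5 : Half Gd L w
      · exact mem_union_right _ (mem_filter.2 ⟨h1, h2, w, hw, h5, h4⟩)
      · exact mem_union_left _ (mem_union_right _
          (mem_biUnion.2 ⟨w, mem_filter.2 ⟨hw, h5⟩, hX2 w x h4⟩))
    · exact mem_union_left _ (mem_union_left _ (mem_filter.2 ⟨h1, h3⟩))
  have b2 : ((((box z0 (A0 * v)).filter fun w => ¬ Half Gd L w).biUnion X).card : ℝ) ≤
      ε * (v : ℝ) ^ 2 := by
    refine le_trans ?_ hbad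
    rw [← Nat.cast_sum]
    exact Nat.cast_le.2 (card_biUnion_le.trans (sum_le_sum fun w _ => hX1 w))
  have hLr : (1 : ℝ) ≤ L := by exact_mod_cast hL
  have b3 : F3.card • ((2 * (L : ℝ) + 1) ^ 2 / 2) ≤
      ((box z0 (A0 * v + L)).filter fun z => z ∈ Gd).card • (2 * (e1 * L * (C1 * L))) := by
    refine card_nsmul_le_card_nsmul
      (fun x z => x.1 ∈ Vis G a i z L ∧ x.2 ∈ Vis G a i z L) (fun x hx => ?_) fun z hz => ?_
    · obtain ⟨h1, -, w, hw, h2, j, j', h3, h4, h5⟩ := mem_filter.1 hx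
      obtain ⟨v1, v2, -⟩ := hG.cr_valid w j j' h3
      have h6 : ((box w L).filter fun z => z ∈ Gd) ⊆
          ((box z0 (A0 * v + L)).filter fun z => z ∈ Gd).bipartiteAbove
            (fun x z => x.1 ∈ Vis G a i z L ∧ x.2 ∈ Vis G a i z L) x := by
        intro z hz
        obtain ⟨h7, h8⟩ := mem_filter.1 hz
        have h9 : w ∈ box z L := by
          rw [zcount_mem] at h7 ⊢
          omega
        refine (mem_bipartiteAbove _).2 ⟨mem_filter.2 ⟨?_, h8⟩, ?_, ?_⟩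
        · rw [zcount_mem] at hw h7 ⊢
          push_cast at hw ⊢
          omega
        · exact h4 ▸ zcount_vis hG ha v1 (h4.symm ▸ (mem_product.1 h1).1) h9
        · exact h5 ▸ zcount_vis hG ha v2 (h5.symm ▸ (mem_product.1 h1).2) h9
      have h7 : (2 * L + 1) ^ 2 ≤ 2 * _ := h2.trans (Nat.mul_le_mul_left 2 (card_le_card h6))
      rw [div_le_iff₀' two_pos]
      exact_mod_cast h7
    · have hz' := (mem_filter.1 hz).2
      have h6 : F3.bipartiteBelow (fun x z => x.1 ∈ Vis G a i z L ∧ x.2 ∈ Vis G a i z L) z ⊆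
          Exc z ×ˢ Vis G a i z L ∪ Vis G a i z L ×ˢ Exc z := by
        intro x hx
        obtain ⟨h1, h2, h3⟩ := (mem_bipartiteBelow _).1 hx
        by_cases h4 : x.1 ∈ Exc z
        · exact mem_union_left _ (mem_product.2 ⟨h4, h3⟩)
        · exact mem_union_right _ (mem_product.2 ⟨h2, not_not.1 fun h5 =>
            (mem_filter.1 h1).2.1 (hE2 z hz' _ h2 _ h3 h4 h5)⟩)
      have h7 := (card_le_card h6).trans (card_union_le _ _)
      rw [card_product, card_product] at h7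
      have h8 : ((Exc z).card : ℝ) * (Vis G a i z L).card ≤ e1 * L * (C1 * L) :=
        mul_le_mul (hE1 z hz') (hgood z hz').1 (Nat.cast_nonneg _) (by positivity)
      refine (Nat.cast_le.2 h7).trans ?_
      push_cast
      linarith
  have b4 : (((box z0 (A0 * v + L)).filter fun z => z ∈ Gd).card : ℝ) ≤
      25 * (A0 : ℝ) ^ 2 * (v : ℝ) ^ 2 := by
    have h1 : v ≤ A0 * v := Nat.le_mul_of_pos_left v hA0
    have h2 := (card_filter_le (box z0 (A0 * v + L)) fun z => z ∈ Gd).trans_eq (zcount_card _ _)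
    have h3 := h2.trans (Nat.pow_le_pow_left (m := 5 * (A0 * v)) (by omega) 2)
    calc _ ≤ (((5 * (A0 * v)) ^ 2 : ℕ) : ℝ) := Nat.cast_le.2 h3
      _ = _ := by
        push_cast
        ring
  rw [nsmul_eq_mul, nsmul_eq_mul] at b3
  have b5 : (F3.card : ℝ) ≤ 25 * (A0 : ℝ) ^ 2 * C1 * e1 * (v : ℝ) ^ 2 := by
    have h1 : (F3.card : ℝ) * (2 * L ^ 2) ≤ F3.card * ((2 * (L : ℝ) + 1) ^ 2 / 2) :=
      mul_le_mul_of_nonneg_left (by nlinarith) (Nat.cast_nonneg _)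
    have h2 := (h1.trans b3).trans (mul_le_mul_of_nonneg_right b4 (by positivity))
    refine le_of_mul_le_mul_right (h2.trans_eq (by ring)) (show (0 : ℝ) < 2 * L ^ 2 by positivity)
  have b6 := (card_le_card hsub).trans ((card_union_le _ _).trans
    (Nat.add_le_add_right (card_union_le _ _) _))
  have b7 := (Nat.cast_le (α := ℝ)).2 b6
  have b1 : (((V ×ˢ V).filter fun x => ¬ ∃ w ∈ box z0 (A0 * v), Xc G w x.1 x.2).card : ℝ) ≤
      ε * (v : ℝ) ^ 2 := hcr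
  push_cast at b7
  linarith

open Classical in
theorem zcount_pairs {β : Type*} (Lam : Lb → β) {V S T : Finset Lb} (hS : S ⊆ V) (hT : T ⊆ V)
    (h : ∀ p ∈ S, ∀ q ∈ T, Lam p ≠ Lam q) :
    (S.card : ℝ) * T.card ≤ ((V ×ˢ V).filter fun x => Lam x.1 ≠ Lam x.2).card := by
  rw [← Nat.cast_mul, ← card_product]
  exact Nat.cast_le.2 (card_le_card fun x hx => mem_filter.2
    ⟨mem_product.2 ⟨hS (mem_product.1 hx).1, hT (mem_product.1 hx).2⟩,
      h _ (mem_product.1 hx).1 _ (mem_product.1 hx).2⟩)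

open Classical in
/-- the dominant value stays dominant at all larger scales -/
theorem zcount_dom {β : Type*} (Lam : Lb → β) (i : Fin 3) (z : Z2) (L' : ℕ) (hL : 1 ≤ L')
    (c1 e2 e3 : ℝ) (hc1 : 0 < c1) (h2 : 10 * e2 ≤ c1 ^ 2) (h3 : 10 * e3 ≤ c1)
    (h : ∀ v, L' ≤ v → c1 * v ≤ (Vis G a i z v).card ∧
      (((Vis G a i z v ×ˢ Vis G a i z v).filter fun x => Lam x.1 ≠ Lam x.2).card : ℝ)
        ≤ e2 * (v : ℝ) ^ 2) (b : β)
    (h0 : (((Vis G a i z L').filter fun p => Lam p ≠ b).card : ℝ) ≤ e3 * L') (v : ℕ)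
    (hv : L' ≤ v) : 7 / 10 * c1 * v ≤ ((Vis G a i z v).filter fun p => Lam p = b).card := by
  have hs : ∀ v, (((Vis G a i z v).filter fun p => Lam p = b).card : ℝ) +
      ((Vis G a i z v).filter fun p => Lam p ≠ b).card = (Vis G a i z v).card := fun v => by
    exact_mod_cast card_filter_add_card_filter_not (s := Vis G a i z v) fun p => Lam p = b
  induction v, hv using Nat.le_induction with
  | base =>
    have h4 := hs L'
    have h5 := (h L' le_rfl).1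
    have h6 : (0 : ℝ) ≤ L' := Nat.cast_nonneg _
    nlinarith
  | succ v hv ih =>
    obtain ⟨h4, h5⟩ := h (v + 1) (by omega)
    have h6 := hs (v + 1)
    have h7 : (((Vis G a i z v).filter fun p => Lam p = b).card : ℝ) ≤
        ((Vis G a i z (v + 1)).filter fun p => Lam p = b).card :=
      Nat.cast_le.2 (card_le_card (filter_subset_filter _ (Vis_mono fun w hw => by
        rw [zcount_mem] at hw ⊢
        push_cast
        omega)))
    have h8 := (zcount_pairs Lam (filter_subset (fun p => Lam p = b) (Vis G a i z (v + 1)))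
      (filter_subset (fun p => Lam p ≠ b) _) fun p hp q hq e =>
        (mem_filter.1 hq).2 (e.symm.trans (mem_filter.1 hp).2)).trans h5
    have h9 : (1 : ℝ) ≤ v := by exact_mod_cast hL.trans hv
    push_cast at h4 h8 ⊢
    generalize (((Vis G a i z (v + 1)).filter fun p => Lam p = b).card : ℝ) = s at *
    generalize (((Vis G a i z (v + 1)).filter fun p => Lam p ≠ b).card : ℝ) = t at *
    have hm : 0 < c1 * (v + 1) := by positivity
    have hs' : 7 / 20 * (c1 * (v + 1)) ≤ s := by nlinarith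
    have hst : s * t ≤ (c1 * (v + 1)) ^ 2 / 10 := by
      have : (0 : ℝ) ≤ (v + 1) ^ 2 := sq_nonneg _
      nlinarith
    by_contra hn
    have ht : 3 / 10 * (c1 * (v + 1)) < t := by linarith [not_le.1 hn]
    nlinarith

open Classical in
theorem lc {β : Type*} (Lam : Lb → β) (i : Fin 3) (z0 z1 : Z2) (L' : ℕ) (hL : 1 ≤ L')
    (c1 e2 e3 : ℝ) (hc1 : 0 < c1) (h2 : 10 * e2 ≤ c1 ^ 2) (h3 : 10 * e3 ≤ c1)
    (h : ∀ z, z = z0 ∨ z = z1 → ∀ v, L' ≤ v → c1 * v ≤ (Vis G a i z v).card ∧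
      (((Vis G a i z v ×ˢ Vis G a i z v).filter fun x => Lam x.1 ≠ Lam x.2).card : ℝ)
        ≤ e2 * (v : ℝ) ^ 2)
    (b0 b1 : β)
    (h0 : (((Vis G a i z0 L').filter fun p => Lam p ≠ b0).card : ℝ) ≤ e3 * L')
    (h1 : (((Vis G a i z1 L').filter fun p => Lam p ≠ b1).card : ℝ) ≤ e3 * L') : b0 = b1 := by
  by_contra hne
  obtain ⟨v, hv, hz⟩ : ∃ v, L' ≤ v ∧ box z1 v ⊆ box z0 (2 * v) :=
    ⟨L' + (z0.1 - z1.1).natAbs + (z0.2 - z1.2).natAbs, by omega, fun w hw => by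
      rw [zcount_mem] at hw ⊢
      omega⟩
  have d0 := zcount_dom Lam i z0 L' hL c1 e2 e3 hc1 h2 h3 (h z0 (Or.inl rfl)) b0 h0 (2 * v)
    (by omega)
  have d1 := zcount_dom Lam i z1 L' hL c1 e2 e3 hc1 h2 h3 (h z1 (Or.inr rfl)) b1 h1 v hv
  have d2 := (zcount_pairs Lam (filter_subset (fun p => Lam p = b0) (Vis G a i z0 (2 * v)))
    ((filter_subset (fun p => Lam p = b1) _).trans (Vis_mono hz)) fun p hp q hq e =>
      hne ((mem_filter.1 hp).2.symm.trans (e.trans (mem_filter.1 hq).2))).trans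
    (h z0 (Or.inl rfl) (2 * v) (by omega)).2
  have h9 : (1 : ℝ) ≤ v := by exact_mod_cast hL.trans hv
  have hm : 0 < c1 * v := by positivity
  have d3 := (mul_le_mul d0 d1 (by positivity) (Nat.cast_nonneg _)).trans d2
  push_cast at d3
  have : (0 : ℝ) ≤ (v : ℝ) ^ 2 := sq_nonneg _
  nlinarith

end ECub.Z
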