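import Pool.Agent.P.MP_029dcd_co.F.Z.ZDefs
import Pool.Agent.P.MP_029dcd_co.F.LayU

/-! Basic facts on the sets of visiting lines. -/

set_option autoImplicit false

namespace ECub.Z

open CubicStab MeasureTheory Filter Topology Finset
open scoped ENNReal

variable {ι : Type} [Fintype ι] {G : Gal} {a : Lb → Prop} {k : ℕ} {C : ℝ}

theorem mem_labs {B : Finset Z2} {l : Lb} : l ∈ labs G a B ↔ l.1 ∈ B ∧ G.valid l ∧ a l := by
  classical
  obtain ⟨w, j⟩ := l
  simp only [labs, mem_filter, mem_biUnion, mem_image, mem_range, Prod.mk.injEq, Gal.valid]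
  constructor
  · rintro ⟨⟨w', hw, j', hj, rfl, rfl⟩, h⟩
    exact ⟨hw, hj, h⟩
  · rintro ⟨hw, hj, h⟩
    exact ⟨⟨w, hw, j, hj, rfl, rfl⟩, h⟩

theorem mem_visL {i : Fin 3} {z : Z2} {v : ℕ} {l : Lb} :
    l ∈ visL G a i z v ↔ l.1 ∈ box z v ∧ G.valid l ∧ a l ∧ G.fam l = i := by
  simp only [visL, mem_filter, mem_labs, and_assoc]

theorem Vis_mono {i : Fin 3} {z z' : Z2} {v v' : ℕ} (h : box z v ⊆ box z' v') :
    Vis G a i z v ⊆ Vis G a i z' v' := by
  intro p hp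
  unfold Vis at hp ⊢
  obtain ⟨l, hl, rfl⟩ := mem_image.1 hp
  obtain ⟨h1, h2⟩ := mem_visL.1 hl
  exact mem_image_of_mem _ (mem_visL.2 ⟨h h1, h2⟩)

/-- the elements of `Vis` are valid labels with the same data -/
theorem of_mem_Vis (hG : G.Ax k C) (ha : G.LineC a) {i : Fin 3} {z : Z2} {v : ℕ} {p : Lb}
    (hp : p ∈ Vis G a i z v) : G.valid p ∧ a p ∧ G.fam p = i ∧ G.rep p = p ∧
      ∃ l ∈ visL G a i z v, G.rep l = p ∧ G.same l p = true := by
  unfold Vis at hp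
  obtain ⟨l, hl, rfl⟩ := mem_image.1 hp
  obtain ⟨-, h2, h3, h4⟩ := mem_visL.1 hl
  obtain ⟨c1, c2, -⟩ := Gal.at'_spec hG h2 0
  have hv : G.valid (G.rep l) := c1.1
  exact ⟨hv, ha l _ h2 hv c2 ▸ h3, c1.2.1.trans h4, ((Gal.rep_eq_iff hG h2 hv).2 c2).symm,
    l, hl, rfl, c2⟩

open Classical in
/-- few lines lie in a subspace of small dimension -/
theorem ND.card_le (hG : G.Ax k C) {f : Lb → ι → ℝ} (hf : G.LineC f) {i : Fin 3} {z : Z2} {v : ℕ}
    {m : ℝ} {r : ℕ} (h : ND G a f i z v m r) (U' : Submodule ℝ (ι → ℝ))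
    (hU : Module.finrank ℝ U' < r) :
    (((Vis G a i z v).filter fun p => f p ∈ U').card : ℝ) ≤ max m 0 := by
  by_contra hc
  have hm : m < ((Vis G a i z v).filter fun p => f p ∈ U').card :=
    (le_max_left _ _).trans_lt (not_le.1 hc)
  have hex : ∀ p, ∃ l, p ∈ Vis G a i z v → l ∈ visL G a i z v ∧ G.rep l = p := by
    intro p
    by_cases hp : p ∈ Vis G a i z v
    · unfold Vis at hp
      obtain ⟨l, hl⟩ := mem_image.1 hp
      exact ⟨l, fun _ => hl⟩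
    · exact ⟨p, fun h => absurd h hp⟩
  choose σ hσ using hex
  have h1 := h (((Vis G a i z v).filter fun p => f p ∈ U').image σ) (by
    intro l hl
    obtain ⟨p, hp, rfl⟩ := mem_image.1 hl
    exact (hσ p (mem_filter.1 hp).1).1) (by
    intro l hl l' hl' hs
    obtain ⟨p, hp, rfl⟩ := mem_image.1 hl
    obtain ⟨p', hp', rfl⟩ := mem_image.1 hl'
    obtain ⟨a1, a2⟩ := hσ p (mem_filter.1 hp).1
    obtain ⟨b1, b2⟩ := hσ p' (mem_filter.1 hp').1
    rw [← a2, (Gal.rep_eq_iff hG (mem_visL.1 a1).2.1 (mem_visL.1 b1).2.1).2 hs, b2]) (by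
    rwa [card_image_of_injOn fun p hp p' hp' e => by
      rw [← (hσ p (mem_filter.1 hp).1).2, e, (hσ p' (mem_filter.1 hp').1).2]])
  refine absurd (h1.trans (Submodule.finrank_mono (Submodule.span_le.2 ?_))) (not_le.2 hU)
  rintro _ ⟨l, hl, rfl⟩
  obtain ⟨p, hp, rfl⟩ := mem_image.1 (mem_coe.1 hl)
  obtain ⟨a1, a2⟩ := hσ p (mem_filter.1 hp).1
  have hv := (mem_visL.1 a1).2.1
  obtain ⟨c1, c2, -⟩ := Gal.at'_spec hG hv 0
  have e : f (σ p) = f (G.rep (σ p)) := hf _ _ hv c1.1 c2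
  rw [e, a2]
  exact (mem_filter.1 hp).2

/-- two lines determine a triple point -/
theorem tp_inj (hG : G.Ax k C) {w w' : Z2} (hw : G.tp w = true) (hw' : G.tp w' = true)
    {i j : Fin 3} (hij : i ≠ j) (hi : G.rep (G.tlab w i) = G.rep (G.tlab w' i))
    (hj : G.rep (G.tlab w j) = G.rep (G.tlab w' j)) : w = w' := by
  exact hG.cr_uniq w _ _ w' _ _ (hG.tp_cr w hw i j hij) (hG.tp_cr w' hw' i j hij)
    ((Gal.rep_eq_iff hG (hG.tp_can w hw i).1 (hG.tp_can w' hw' i).1).1 hi)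
    ((Gal.rep_eq_iff hG (hG.tp_can w hw j).1 (hG.tp_can w' hw' j).1).1 hj)

open Classical in
/-- a line has at most one triple point per index -/
theorem card_tp_line (hG : G.Ax k C) (i : Fin 3) (u : ℕ) (p : Lb) :
    ((box 0 u).filter fun w => G.tp w = true ∧ G.rep (G.tlab w i) = p).card ≤ 2 * u + 1 := by
  refine (card_le_card_of_injOn (t := Icc (-(u : ℤ)) u) (idx i) (fun w hw => ?_)
    fun w hw w' hw' e => ?_).trans (by rw [Int.card_Icc]; omega)
  · have h1 := (mem_filter.1 (mem_coe.1 hw)).1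
    simp only [box, mem_product, mem_Icc, Prod.fst_zero, Prod.snd_zero, zero_sub, zero_add] at h1
    rw [mem_coe, mem_Icc, idx]
    split_ifs
    · exact h1.1
    · exact h1.2
  · obtain ⟨-, a1, a2⟩ := mem_filter.1 (mem_coe.1 hw)
    obtain ⟨-, b1, b2⟩ := mem_filter.1 (mem_coe.1 hw')
    exact congrArg Prod.fst (hG.can_uniq i _ _ (hG.tp_can w a1 i) (hG.tp_can w' b1 i)
      ((Gal.rep_eq_iff hG (hG.tp_can w a1 i).1 (hG.tp_can w' b1 i).1).1 (a2.trans b2.symm)) e)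

end ECub.Z
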