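import Pool.Agent.P.MP_029dcd_co.F.Defs

/-! Definitions for the arithmetic endgame. -/

set_option autoImplicit false

namespace ECub.Z

open CubicStab MeasureTheory Filter Topology Finset
open scoped ENNReal

/-- coordinates of the space of marks and offsets -/
abbrev Ix (n : ℕ) := Option (Fin (n + 2))

def toV {n : ℕ} (f : H n) : Ix n → ℝ := fun o => o.elim f.2 f.1

/-- the vectors whose mark part lies in `W` -/
def UW {n : ℕ} (W : Submodule ℝ (E n)) : Submodule ℝ (Ix n → ℝ) :=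
  W.comap (LinearMap.funLeft ℝ ℝ some)

/-- membership of a label of the galaxy of `ω` in a set of lines -/
def aw (S : Sys) (A : Set (S.Ω × ℕ)) (ω : S.Ω) (l : Lb) : Prop := (S.T l.1 ω, l.2) ∈ A

/-- the vector of a label of the galaxy of `ω` -/
def fw (S : Sys) {n : ℕ} (ν : S.Ω × ℕ → E n) (ω : S.Ω) (l : Lb) : Ix n → ℝ := toV (S.fv ν ω l)

/-- the cells of the galaxy of `ω` that belong to an event -/
def cw (S : Sys) (B : Set S.Ω) (ω : S.Ω) : Set Z2 := {z | S.T z ω ∈ B}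

section Gal

variable {ι : Type} [Fintype ι] (G : Gal) (a : Lb → Prop)

open Classical in
/-- the valid labels with property `a` in the cells of `B` -/
noncomputable def labs (B : Finset Z2) : Finset Lb :=
  (B.biUnion fun w => (range (G.g w)).image fun j => (w, j)).filter a

open Classical in
noncomputable def visL (i : Fin 3) (z : Z2) (v : ℕ) : Finset Lb :=
  (labs G a (box z v)).filter fun l => G.fam l = i

open Classical in
/-- the lines of family `i` that visit the box -/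
noncomputable def Vis (i : Fin 3) (z : Z2) (v : ℕ) : Finset Lb := (visL G a i z v).image G.rep

/-- the number of crossing pairs in a cell -/
def crN (w : Z2) : ℕ :=
  ((range (G.g w) ×ˢ range (G.g w)).filter fun p => G.cr w p.1 p.2 = true).card

/-- the lines `p` and `p'` cross in the cell `w` -/
def Xc (w : Z2) (p p' : Lb) : Prop :=
  ∃ j j', G.cr w j j' = true ∧ G.rep (w, j) = p ∧ G.rep (w, j') = p'

def Cnt (i : Fin 3) (z : Z2) (v : ℕ) (c1 C1 : ℝ) : Prop :=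
  c1 * v ≤ (Vis G a i z v).card ∧ ((Vis G a i z v).card : ℝ) ≤ C1 * v

open Classical in
/-- most pairs of lines cross not far away -/
def Crs (i : Fin 3) (z : Z2) (v : ℕ) (ε : ℝ) (A0 : ℕ) : Prop :=
  (((Vis G a i z v ×ˢ Vis G a i z v).filter fun x =>
    ¬ ∃ w ∈ box z (A0 * v), Xc G w x.1 x.2).card : ℝ) ≤ ε * (v : ℝ) ^ 2

open Classical in
def Half (Gd : Set Z2) (L : ℕ) (w : Z2) : Prop :=
  (2 * L + 1) ^ 2 ≤ 2 * ((box w L).filter fun z => z ∈ Gd).card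

open Classical in
/-- few crossings happen in cells with a bad neighbourhood -/
def Bad (Gd : Set Z2) (L : ℕ) (z : Z2) (v : ℕ) (ε : ℝ) (A0 : ℕ) : Prop :=
  (∑ w ∈ (box z (A0 * v)).filter (fun w => ¬ Half Gd L w), (crN G w : ℝ)) ≤ ε * (v : ℝ) ^ 2

/-- more than `m` lines span a space of dimension at least `r` -/
def ND (f : Lb → ι → ℝ) (i : Fin 3) (z : Z2) (v : ℕ) (m : ℝ) (r : ℕ) : Prop :=
  ∀ S ⊆ visL G a i z v, (∀ l ∈ S, ∀ l' ∈ S, G.same l l' = true → l = l') → m < S.card →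
    r ≤ Module.finrank ℝ (Submodule.span ℝ (f '' (S : Set Lb)))

/-- in the coordinates `g` the lines of the box are spanned by vectors of `𝓣` -/
def Str (f : Lb → ι → ℝ) (𝓣 : Finset (ι → ℝ)) (z : Z2) (L : ℕ)
    (g : (ι → ℝ) ≃ₗ[ℝ] (ι → ℝ)) : Prop :=
  ∀ l ∈ labs G a (box z L), ∃ τ ∈ 𝓣, ∃ c : ℝ, c ≠ 0 ∧ c • g (f l) = τ

/-- the local structure at the cell `z` -/
structure Loc (f : Lb → ι → ℝ) (U : Fin 3 → Submodule ℝ (ι → ℝ)) (I : Finset (Fin 3))
    (𝓣 : Finset (ι → ℝ)) (c1 C1 e : ℝ) (L : ℕ) (z : Z2) : Prop where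
  str : ∃ g, Str G a f 𝓣 z L g
  cnt : ∀ i ∈ I, Cnt G a i z L c1 C1
  nd : ∀ i ∈ I, ND G a f i z L (e * L) (Module.finrank ℝ (U i))

/-- regularity at the scale `v` around `z` -/
structure Far (I : Finset (Fin 3)) (Gd : Set Z2) (L : ℕ) (c1 C1 ε : ℝ) (A0 : ℕ) (z : Z2)
    (v : ℕ) : Prop where
  cnt : ∀ i ∈ I, Cnt G a i z v c1 C1
  crs : ∀ i ∈ I, Crs G a i z v ε A0
  bad : Bad G Gd L z v ε A0

/-- a galaxy with vectors attached to its lines -/
structure Env (f : Lb → ι → ℝ) (U : Fin 3 → Submodule ℝ (ι → ℝ)) : Prop where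
  ax : ∃ k C, G.Ax k C
  a_line : G.LineC a
  f_line : G.LineC f
  f_mem : ∀ l, G.valid l → a l → f l ∈ U (G.fam l)
  f_ne : ∀ l, G.valid l → a l → f l ≠ 0
  sup : ∀ i j k, i ≠ j → U k ≤ U i ⊔ U j
  inf : ∀ i j, U i ⊓ U j ≠ ⊥
  two : ∀ i, 2 ≤ Module.finrank ℝ (U i)
  rel : ∀ w, G.tp w = true → (∀ i, a (G.tlab w i)) →
    ∃ c : Fin 3 → ℝ, (∀ i, c i ≠ 0) ∧ ∑ i, c i • f (G.tlab w i) = 0
  indep : ∀ l l', G.valid l → G.valid l' → a l → a l' → G.fam l ≠ G.fam l' →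
    ∀ c : ℝ, f l ≠ c • f l'

end Gal

section Arith

variable {ι : Type} [Fintype ι] {K : Type} [Field K]

/-- the real vector of a vector over `K` -/
def cv [Algebra K ℝ] (x : ι → K) : ι → ℝ := fun k => algebraMap K ℝ (x k)

variable (K) in
/-- the line spanned by `x` is defined over `K` -/
def IsRat [Algebra K ℝ] (x : ι → ℝ) : Prop := ∃ y : ι → K, ∃ c : ℝ, c ≠ 0 ∧ c • x = cv y

open Classical in
variable (K) in
/-- a vector over `K` on the line spanned by `x` -/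
noncomputable def rat [Algebra K ℝ] (x : ι → ℝ) : ι → K :=
  if h : IsRat K x then h.choose else 0

/-- the sup norm -/
noncomputable def N0 (w : AbsoluteValue K ℝ) (x : ι → K) : ℝ := ⨆ k, w (x k)

/-- a seminorm for the absolute value `w` -/
structure IsSN (w : AbsoluteValue K ℝ) (σ : (ι → K) → ℝ) : Prop where
  nonneg : ∀ x, 0 ≤ σ x
  smul : ∀ (c : K) x, σ (c • x) = w c * σ x
  add : ∀ x y, σ (x + y) ≤ σ x + σ y

/-- the finite set `𝓣` is controlled by the constant `C` at `w` -/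
structure GoodAt (w : AbsoluteValue K ℝ) (𝓣 : Finset (ι → K)) (C : ℝ) : Prop where
  le : ∀ τ ∈ 𝓣, N0 w τ ≤ C
  ge : ∀ τ ∈ 𝓣, τ ≠ 0 → 1 ≤ C * N0 w τ
  coef : ∀ B ⊆ 𝓣, LinearIndepOn K id (B : Set (ι → K)) → ∀ c : (ι → K) → K, ∀ b ∈ B,
    w (c b) ≤ C * N0 w (∑ x ∈ B, c x • x)

open Classical in
/-- ratios of seminorms are concentrated on the lines of family `i` -/
def TLP (G : Gal) (a : Lb → Prop) (i : Fin 3) (F : Lb → ι → K) (w : AbsoluteValue K ℝ)
    (Uh : Set (ι → K)) (u : ℕ) (Cst e2 : ℝ) : Prop :=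
  ∀ σ σ' : (ι → K) → ℝ, IsSN w σ → IsSN w σ' → (∃ x ∈ Uh, σ x ≠ 0) → (∃ x ∈ Uh, σ' x ≠ 0) →
    (((Vis G a i 0 u ×ˢ Vis G a i 0 u).filter fun x =>
      ¬ (0 < σ (F x.1) ∧ 0 < σ' (F x.1) ∧ 0 < σ (F x.2) ∧ 0 < σ' (F x.2) ∧
        |Real.log (σ (F x.1) / σ' (F x.1)) - Real.log (σ (F x.2) / σ' (F x.2))| ≤ Cst)).card : ℝ)
      ≤ e2 * (u : ℝ) ^ 2

end Arith

end ECub.Z
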