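import Pool.Agent.P.MP_029dcd_co.F.Z.ZCount0
import Pool.Agent.P.MP_029dcd_co.F.Z.ZLinA

/-! Phase 2: averaging and concentration lemmas for the gauges. -/

set_option autoImplicit false

namespace ECub.Z

open CubicStab MeasureTheory Filter Topology Finset
open scoped ENNReal

theorem zgauge_card {α β : Type} (A : Finset α) (B : Finset β) (P : α × β → Prop)
    [DecidablePred P] :
    (((A ×ˢ B).filter P).card : ℝ) = ∑ p ∈ A, ∑ q ∈ B, if P (p, q) then (1 : ℝ) else 0 := by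
  rw [card_filter, sum_product]
  push_cast
  rfl

theorem zgauge_card1 {α : Type} (A : Finset α) (P : α → Prop) [DecidablePred P] :
    ((A.filter P).card : ℝ) = ∑ p ∈ A, if P p then (1 : ℝ) else 0 := by
  rw [card_filter]
  push_cast
  rfl

theorem zgauge_avg {β : Type} (B : Finset β) (hB : B.Nonempty) (h : β → ℝ) (M : ℝ)
    (hM : ∑ q ∈ B, h q ≤ M) : ∃ q ∈ B, h q ≤ M / B.card := by
  have hc : (0 : ℝ) < B.card := by exact_mod_cast hB.card_pos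
  apply exists_le_of_sum_le hB
  rw [sum_const, nsmul_eq_mul, mul_div_cancel₀ _ hc.ne']
  exact hM

variable {ι : Type} [Fintype ι] {K : Type} [Field K] {G : Gal} {a : Lb → Prop}

theorem zgauge_rep {k : ℕ} {C : ℝ} (hG : G.Ax k C) {l : Lb} (hl : G.valid l) :
    G.valid (G.rep l) ∧ G.same l (G.rep l) = true := by
  have h : ∃ l', G.valid l ∧ G.Can (G.fam l) l' ∧ G.same l l' = true ∧
      idx (G.fam l) l'.1 = 0 := by
    obtain ⟨l', h1, h2, h3⟩ := hG.can_ex l hl 0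
    exact ⟨l', hl, h1, h2, h3⟩
  have e : G.rep l = h.choose := by
    unfold Gal.rep Gal.at'
    rw [dif_pos h]
  rw [e]
  exact ⟨h.choose_spec.2.1.1, h.choose_spec.2.2.1⟩

theorem zgauge_mem {k : ℕ} {C : ℝ} (hG : G.Ax k C) {β : Type} {F : Lb → β} (hF : G.LineC F)
    {u : ℕ} {z : Z2} (hz : z ∈ box 0 u) (ht : G.tp z = true) {i : Fin 3}
    (ha : a (G.tlab z i)) :
    G.rep (G.tlab z i) ∈ Vis G a i 0 u ∧ F (G.rep (G.tlab z i)) = F (G.tlab z i) := by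
  classical
  have hc := hG.tp_can z ht i
  obtain ⟨h1, h2⟩ := zgauge_rep hG hc.1
  refine ⟨?_, (hF _ _ hc.1 h1 h2).symm⟩
  unfold Vis
  exact mem_image.2 ⟨G.tlab z i, mem_visL.2 ⟨hz, hc.1, ha, hc.2.1⟩, rfl⟩

/-- concentration of a ratio of seminorms on the lines of one family -/
theorem zgauge_tl {i : Fin 3} {F : Lb → ι → K} {w : AbsoluteValue K ℝ} {Uh : Set (ι → K)}
    {u : ℕ} (hu : 1 ≤ u) {c1 C1 Cst e2 : ℝ} (hc1 : 0 < c1) (he2 : 0 ≤ e2)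
    (hcnt : Cnt G a i 0 u c1 C1) (htl : TLP G a i F w Uh u Cst e2) {σ σ' : (ι → K) → ℝ}
    (hσ : IsSN w σ) (hσ' : IsSN w σ') (h1 : ∃ x ∈ Uh, σ x ≠ 0) (h2 : ∃ x ∈ Uh, σ' x ≠ 0) :
    ∃ κ : ℝ, ∃ Ex : Finset Lb, (Ex.card : ℝ) ≤ e2 / c1 * u ∧ ∀ p ∈ Vis G a i 0 u, p ∉ Ex →
      0 < σ (F p) ∧ 0 < σ' (F p) ∧ |Real.log (σ (F p)) - Real.log (σ' (F p)) - κ| ≤ Cst := by
  classical
  have hu0 : (0 : ℝ) < u := by exact_mod_cast hu
  have hpos : (0 : ℝ) < (Vis G a i 0 u).card := lt_of_lt_of_le (by positivity) hcnt.1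
  have hne : (Vis G a i 0 u).Nonempty := card_pos.1 (by exact_mod_cast hpos)
  have h := htl σ σ' hσ hσ' h1 h2
  rw [zgauge_card, sum_comm] at h
  obtain ⟨q, hq, hq2⟩ := zgauge_avg _ hne _ _ h
  rw [← zgauge_card1] at hq2
  refine ⟨Real.log (σ (F q) / σ' (F q)), _, hq2.trans ?_, ?_⟩
  · rw [div_le_iff₀ hpos]
    have : e2 / c1 * u * (c1 * u) ≤ e2 / c1 * u * (Vis G a i 0 u).card :=
      mul_le_mul_of_nonneg_left hcnt.1 (by positivity)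
    refine le_trans (le_of_eq ?_) this
    field_simp
  · intro p hp hp2
    have hg : 0 < σ (F p) ∧ 0 < σ' (F p) ∧ 0 < σ (F q) ∧ 0 < σ' (F q) ∧
        |Real.log (σ (F p) / σ' (F p)) - Real.log (σ (F q) / σ' (F q))| ≤ Cst := by
      by_contra hh
      exact hp2 (mem_filter.2 ⟨hp, hh⟩)
    refine ⟨hg.1, hg.2.1, ?_⟩
    rw [← Real.log_div hg.1.ne' hg.2.1.ne']
    exact hg.2.2.2.2

/-- concentration of a normalised function of two lines -/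
theorem zgauge_conc {i j : Fin 3} {F : Lb → ι → K} {w : AbsoluteValue K ℝ}
    {Ui Uj : Set (ι → K)} {u : ℕ} (hu : 1 ≤ u) {c1 C1 Cst e2 : ℝ} (hc1 : 0 < c1) (he2 : 0 ≤ e2)
    (hci : Cnt G a i 0 u c1 C1) (hcj : Cnt G a j 0 u c1 C1) (hti : TLP G a i F w Ui u Cst e2)
    (htj : TLP G a j F w Uj u Cst e2) {σ σ' : (ι → K) → ℝ} {Bf : (ι → K) → (ι → K) → ℝ}
    (hσ : IsSN w σ) (hσ' : IsSN w σ') (hB1 : ∀ y, IsSN w fun x => Bf x y)
    (hB2 : ∀ x, IsSN w fun y => Bf x y) (h1 : ∃ x ∈ Ui, σ x ≠ 0) (h2 : ∃ x ∈ Uj, σ' x ≠ 0)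
    (h3 : ∀ q ∈ Vis G a j 0 u, ∃ x ∈ Ui, Bf x (F q) ≠ 0)
    (h4 : ∀ p ∈ Vis G a i 0 u, ∃ y ∈ Uj, Bf (F p) y ≠ 0) :
    ∃ κ : ℝ, ∃ Ex : Finset (Lb × Lb), (Ex.card : ℝ) ≤ 2 * (C1 ^ 2 / c1 ^ 2) * e2 * (u : ℝ) ^ 2 ∧
      ∀ p ∈ Vis G a i 0 u, ∀ q ∈ Vis G a j 0 u, (p, q) ∉ Ex →
        0 < Bf (F p) (F q) ∧ 0 < σ (F p) ∧ 0 < σ' (F q) ∧
        |Real.log (Bf (F p) (F q)) - Real.log (σ (F p)) - Real.log (σ' (F q)) - κ| ≤ 2 * Cst := by
  classical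
  have hu0 : (0 : ℝ) < u := by exact_mod_cast hu
  have hcu : (0 : ℝ) < c1 * u := by positivity
  set Vi := Vis G a i 0 u with hVi
  set Vj := Vis G a j 0 u with hVj
  have hpi : (0 : ℝ) < Vi.card := lt_of_lt_of_le hcu hci.1
  have hpj : (0 : ℝ) < Vj.card := lt_of_lt_of_le hcu hcj.1
  have hni : Vi.Nonempty := card_pos.1 (by exact_mod_cast hpi)
  have hnj : Vj.Nonempty := card_pos.1 (by exact_mod_cast hpj)
  let g1 : Lb → Lb → Lb → Prop := fun q p p' =>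
    0 < Bf (F p) (F q) ∧ 0 < σ (F p) ∧ 0 < Bf (F p') (F q) ∧ 0 < σ (F p') ∧
      |Real.log (Bf (F p) (F q) / σ (F p)) - Real.log (Bf (F p') (F q) / σ (F p'))| ≤ Cst
  let g2 : Lb → Lb → Lb → Prop := fun p q q' =>
    0 < Bf (F p) (F q) ∧ 0 < σ' (F q) ∧ 0 < Bf (F p) (F q') ∧ 0 < σ' (F q') ∧
      |Real.log (Bf (F p) (F q) / σ' (F q)) - Real.log (Bf (F p) (F q') / σ' (F q'))| ≤ Cst
  have e1 : ∀ q ∈ Vj, (∑ p ∈ Vi, ∑ p' ∈ Vi, if ¬ g1 q p p' then (1 : ℝ) else 0)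
      ≤ e2 * (u : ℝ) ^ 2 := by
    intro q hq
    have h := hti _ σ (hB1 (F q)) hσ (h3 q hq) h1
    rw [zgauge_card] at h
    exact h
  have e2' : ∀ p ∈ Vi, (∑ q' ∈ Vj, ∑ q ∈ Vj, if ¬ g2 p q q' then (1 : ℝ) else 0)
      ≤ e2 * (u : ℝ) ^ 2 := by
    intro p hp
    have h := htj _ σ' (hB2 (F p)) hσ' (h4 p hp) h2
    rw [zgauge_card, sum_comm] at h
    exact h
  have s1 : (∑ p' ∈ Vi, ∑ p ∈ Vi, ∑ q ∈ Vj, if ¬ g1 q p p' then (1 : ℝ) else 0)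
      ≤ Vj.card * (e2 * (u : ℝ) ^ 2) := by
    have : (∑ p' ∈ Vi, ∑ p ∈ Vi, ∑ q ∈ Vj, if ¬ g1 q p p' then (1 : ℝ) else 0)
        = ∑ q ∈ Vj, ∑ p ∈ Vi, ∑ p' ∈ Vi, if ¬ g1 q p p' then (1 : ℝ) else 0 := by
      rw [sum_comm]
      conv_rhs => rw [sum_comm]
      exact sum_congr rfl fun p _ => sum_comm
    rw [this]
    refine (sum_le_sum e1).trans (le_of_eq ?_)
    rw [sum_const, nsmul_eq_mul]
  obtain ⟨p', hp', hp2⟩ := zgauge_avg _ hni _ _ s1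
  obtain ⟨q', hq', hq2⟩ := zgauge_avg _ hnj _ _ (e2' p' hp')
  rw [← zgauge_card1] at hq2
  have hp3 : (((Vi ×ˢ Vj).filter fun x => ¬ g1 x.2 x.1 p').card : ℝ)
      ≤ Vj.card * (e2 * (u : ℝ) ^ 2) / Vi.card := by
    rw [zgauge_card]
    exact hp2
  have hCc : c1 ≤ C1 := by
    have := hci.1.trans hci.2
    exact le_of_mul_le_mul_right this hu0
  have hr : C1 / c1 ≤ C1 ^ 2 / c1 ^ 2 := by
    have h1 : 1 ≤ C1 / c1 := (one_le_div hc1).2 hCc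
    rw [← div_pow]
    nlinarith
  have hq : ∀ n m : ℝ, c1 * u ≤ m → n ≤ C1 * u → 0 ≤ n → n / m ≤ C1 ^ 2 / c1 ^ 2 := by
    intro n m hm hn hn0
    refine le_trans ?_ hr
    have : n / m ≤ C1 * u / (c1 * u) := div_le_div₀ (hn0.trans hn) hn hcu hm
    refine this.trans (le_of_eq ?_)
    field_simp
  have hE : (0 : ℝ) ≤ e2 * (u : ℝ) ^ 2 := by positivity
  refine ⟨Real.log (Bf (F p') (F q')) - Real.log (σ (F p')) - Real.log (σ' (F q')),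
    ((Vi ×ˢ Vj).filter fun x => ¬ g1 x.2 x.1 p') ∪ Vi ×ˢ (Vj.filter fun q => ¬ g2 p' q q'),
    ?_, ?_⟩
  · have hcu' := card_union_le ((Vi ×ˢ Vj).filter fun x => ¬ g1 x.2 x.1 p')
      (Vi ×ˢ (Vj.filter fun q => ¬ g2 p' q q'))
    rw [card_product] at hcu'
    have hcu2 : ((((Vi ×ˢ Vj).filter fun x => ¬ g1 x.2 x.1 p') ∪
        Vi ×ˢ (Vj.filter fun q => ¬ g2 p' q q')).card : ℝ) ≤
        (((Vi ×ˢ Vj).filter fun x => ¬ g1 x.2 x.1 p').card : ℝ) +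
          Vi.card * ((Vj.filter fun q => ¬ g2 p' q q').card : ℝ) := by exact_mod_cast hcu'
    have t1 : (Vj.card : ℝ) * (e2 * (u : ℝ) ^ 2) / Vi.card
        ≤ C1 ^ 2 / c1 ^ 2 * (e2 * (u : ℝ) ^ 2) := by
      rw [mul_div_right_comm]
      exact mul_le_mul_of_nonneg_right (hq _ _ hci.1 hcj.2 hpj.le) hE
    have t2 : (Vi.card : ℝ) * ((Vj.filter fun q => ¬ g2 p' q q').card : ℝ)
        ≤ C1 ^ 2 / c1 ^ 2 * (e2 * (u : ℝ) ^ 2) := by
      refine (mul_le_mul_of_nonneg_left hq2 hpi.le).trans ?_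
      rw [← mul_div_assoc, mul_div_right_comm]
      exact mul_le_mul_of_nonneg_right (hq _ _ hcj.1 hci.2 hpi.le) hE
    linarith
  · intro p hp q hq0 hn
    have a1 : g1 q p p' := by
      by_contra hh
      exact hn (mem_union_left _ (mem_filter.2 ⟨mem_product.2 ⟨hp, hq0⟩, hh⟩))
    have a2 : g2 p' q q' := by
      by_contra hh
      exact hn (mem_union_right _ (mem_product.2 ⟨hp, mem_filter.2 ⟨hq0, hh⟩⟩))
    obtain ⟨b1, b2, b3, b4, b5⟩ := a1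
    obtain ⟨d1, d2, d3, d4, d5⟩ := a2
    refine ⟨b1, b2, d2, ?_⟩
    rw [Real.log_div b1.ne' b2.ne', Real.log_div b3.ne' b4.ne'] at b5
    rw [Real.log_div d1.ne' d2.ne', Real.log_div d3.ne' d4.ne'] at d5
    rw [abs_le] at b5 d5 ⊢
    constructor <;> linarith [b5.1, b5.2, d5.1, d5.2]

open Classical in
/-- cells whose pair of lines is exceptional -/
theorem zgauge_cells2 {k : ℕ} {C : ℝ} (hG : G.Ax k C) (u : ℕ) {i j : Fin 3} (hij : i ≠ j)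
    (Ex : Finset (Lb × Lb)) :
    ((box 0 u).filter fun z => G.tp z = true ∧
      (G.rep (G.tlab z i), G.rep (G.tlab z j)) ∈ Ex).card ≤ Ex.card := by
  refine card_le_card_of_injOn (fun z => (G.rep (G.tlab z i), G.rep (G.tlab z j))) ?_ ?_
  · intro z hz
    exact (mem_filter.1 (mem_coe.1 hz)).2.2
  · intro z hz z' hz' h
    have h1 := (mem_filter.1 (mem_coe.1 hz)).2.1
    have h2 := (mem_filter.1 (mem_coe.1 hz')).2.1
    exact tp_inj hG h1 h2 hij (congrArg Prod.fst h) (congrArg Prod.snd h)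

open Classical in
/-- cells with an exceptional line -/
theorem zgauge_cells1 {k : ℕ} {C : ℝ} (hG : G.Ax k C) (u : ℕ) (i : Fin 3) (Ex : Finset Lb) :
    ((box 0 u).filter fun z => G.tp z = true ∧ G.rep (G.tlab z i) ∈ Ex).card
      ≤ (2 * u + 1) * Ex.card := by
  refine card_le_mul_card_image_of_maps_to (f := fun z => G.rep (G.tlab z i)) ?_ _ ?_
  · intro z hz
    exact (mem_filter.1 hz).2.2
  · intro p _
    refine le_trans (card_le_card ?_) (card_tp_line hG i u p)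
    intro z hz
    obtain ⟨h1, h2⟩ := mem_filter.1 hz
    exact mem_filter.2 ⟨(mem_filter.1 h1).1, (mem_filter.1 h1).2.1, h2⟩

end ECub.Z
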