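import Pool.Agent.P.MP_029dcd_co.F.Z.ZCount0

/-! Measurability and shift invariance of the local events. -/

set_option autoImplicit false

namespace ECub.Z

open CubicStab MeasureTheory Filter Topology Finset
open scoped ENNReal

/-- `G'` agrees on the cells of `B` with `G` seen from the cell `z` -/
structure zmeas1_Agree (G G' : Gal) (a a' : Lb → Prop) (Gd Gd' : Set Z2) (z : Z2)
    (B : Finset Z2) : Prop where
  g : ∀ x ∈ B, G'.g x = G.g (z + x)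
  fam : ∀ x ∈ B, ∀ j, j < G'.g x → G'.fam (x, j) = G.fam (z + x, j)
  same : ∀ x ∈ B, ∀ x' ∈ B, ∀ j j', j < G'.g x → j' < G'.g x' →
    G'.same (x, j) (x', j') = G.same (z + x, j) (z + x', j')
  cr : ∀ x ∈ B, ∀ j j', j < G'.g x → j' < G'.g x → G'.cr x j j' = G.cr (z + x) j j'
  a : ∀ x ∈ B, ∀ j, j < G'.g x → (a' (x, j) ↔ a (z + x, j))
  gd : ∀ x ∈ B, (x ∈ Gd' ↔ z + x ∈ Gd)

theorem zmeas1_mem_box {w y : Z2} {u : ℕ} :
    w ∈ box y u ↔ (y.1 - u ≤ w.1 ∧ w.1 ≤ y.1 + u) ∧ (y.2 - u ≤ w.2 ∧ w.2 ≤ y.2 + u) := by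
  simp [box, Finset.mem_product, Finset.mem_Icc]

theorem zmeas1_box_shift {x y z : Z2} {u : ℕ} : z + x ∈ box (z + y) u ↔ x ∈ box y u := by
  simp only [zmeas1_mem_box, Prod.fst_add, Prod.snd_add]
  omega

theorem zmeas1_box_shift0 {x z : Z2} {u : ℕ} : z + x ∈ box z u ↔ x ∈ box 0 u := by
  rw [← zmeas1_box_shift (z := z) (y := 0), add_zero]

open Classical in
theorem zmeas1_card_image {α β γ : Type*} (s : Finset α) (f : α → β) (g : α → γ)
    (h : ∀ x ∈ s, ∀ y ∈ s, f x = f y ↔ g x = g y) : (s.image f).card = (s.image g).card := by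
  refine Finset.card_bij (fun b hb => g (Finset.mem_image.1 hb).choose) ?_ ?_ ?_
  · intro b hb
    exact Finset.mem_image_of_mem g (Finset.mem_image.1 hb).choose_spec.1
  · intro b hb b' hb' e
    have h1 := (Finset.mem_image.1 hb).choose_spec
    have h2 := (Finset.mem_image.1 hb').choose_spec
    rw [← h1.2, ← h2.2]
    exact (h _ h1.1 _ h2.1).2 e
  · intro c hc
    obtain ⟨x, hx, rfl⟩ := Finset.mem_image.1 hc
    refine ⟨f x, Finset.mem_image_of_mem f hx, ?_⟩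
    have h1 := (Finset.mem_image.1 (Finset.mem_image_of_mem f hx)).choose_spec
    exact (h _ h1.1 _ hx).1 h1.2

/-- the translation of labels -/
def zmeas1_tr (z : Z2) (l : Lb) : Lb := (z + l.1, l.2)

section Agree

variable {G G' : Gal} {a a' : Lb → Prop} {Gd Gd' : Set Z2} {z : Z2} {B : Finset Z2}
  {k k' : ℕ} {C C' : ℝ}

theorem zmeas1_valid (h : zmeas1_Agree G G' a a' Gd Gd' z B) {l : Lb} (hl : l.1 ∈ B) :
    G.valid (zmeas1_tr z l) ↔ G'.valid l := by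
  unfold Gal.valid zmeas1_tr
  rw [h.g _ hl]

open Classical in
theorem zmeas1_visL (h : zmeas1_Agree G G' a a' Gd Gd' z B) (i : Fin 3) {v : ℕ}
    (hv : box 0 v ⊆ B) :
    visL G a i z v = (visL G' a' i 0 v).image (zmeas1_tr z) := by
  ext l
  rw [Finset.mem_image, mem_visL]
  constructor
  · rintro ⟨h1, h2, h3, h4⟩
    have e : zmeas1_tr z (l.1 - z, l.2) = l := by
      simp [zmeas1_tr]
    have hb : l.1 - z ∈ box 0 v := by
      rw [← zmeas1_box_shift0 (z := z)]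
      simpa using h1
    have hval : G'.valid (l.1 - z, l.2) := by
      rw [← zmeas1_valid h (hv hb), e]
      exact h2
    have e' : ((z + (l.1 - z), l.2) : Lb) = l := e
    refine ⟨(l.1 - z, l.2), mem_visL.2 ⟨hb, hval, ?_, ?_⟩, e⟩
    · rw [h.a _ (hv hb) _ hval, e']
      exact h3
    · rw [h.fam _ (hv hb) _ hval, e']
      exact h4
  · rintro ⟨⟨x, j⟩, hx, rfl⟩
    obtain ⟨h1, h2, h3, h4⟩ := mem_visL.1 hx
    refine ⟨zmeas1_box_shift0.2 h1, (zmeas1_valid h (hv h1)).2 h2, ?_, ?_⟩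
    · exact (h.a _ (hv h1) _ h2).1 h3
    · rw [← h4]
      exact (h.fam _ (hv h1) _ h2).symm

theorem zmeas1_rep (h : zmeas1_Agree G G' a a' Gd Gd' z B) (hG : G.Ax k C) (hG' : G'.Ax k' C')
    {l l' : Lb} (hl : l.1 ∈ B) (hl' : l'.1 ∈ B) (v : G'.valid l) (v' : G'.valid l') :
    G.rep (zmeas1_tr z l) = G.rep (zmeas1_tr z l') ↔ G'.rep l = G'.rep l' := by
  rw [Gal.rep_eq_iff hG ((zmeas1_valid h hl).2 v) ((zmeas1_valid h hl').2 v'),
    Gal.rep_eq_iff hG' v v']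
  have := h.same _ hl _ hl' _ _ v v'
  unfold zmeas1_tr
  rw [← this]

open Classical in
theorem zmeas1_Vis (h : zmeas1_Agree G G' a a' Gd Gd' z B) (i : Fin 3) {v : ℕ}
    (hv : box 0 v ⊆ B) :
    Vis G a i z v = (visL G' a' i 0 v).image (fun l => G.rep (zmeas1_tr z l)) := by
  unfold Vis
  rw [zmeas1_visL h i hv, Finset.image_image]
  rfl

theorem zmeas1_card_Vis (h : zmeas1_Agree G G' a a' Gd Gd' z B) (hG : G.Ax k C)
    (hG' : G'.Ax k' C') (i : Fin 3) {v : ℕ} (hv : box 0 v ⊆ B) :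
    (Vis G a i z v).card = (Vis G' a' i 0 v).card := by
  classical
  rw [zmeas1_Vis h i hv]
  unfold Vis
  convert zmeas1_card_image (visL G' a' i 0 v) (fun l => G.rep (zmeas1_tr z l)) G'.rep ?_
  intro x hx y hy
  obtain ⟨h1, h2, -, -⟩ := mem_visL.1 hx
  obtain ⟨h3, h4, -, -⟩ := mem_visL.1 hy
  exact zmeas1_rep h hG hG' (hv h1) (hv h3) h2 h4

theorem zmeas1_cnt (h : zmeas1_Agree G G' a a' Gd Gd' z B) (hG : G.Ax k C)
    (hG' : G'.Ax k' C') {i : Fin 3} {v : ℕ} (hv : box 0 v ⊆ B) {c1 C1 : ℝ} :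
    Cnt G a i z v c1 C1 ↔ Cnt G' a' i 0 v c1 C1 := by
  unfold Cnt
  rw [zmeas1_card_Vis h hG hG' i hv]

theorem zmeas1_Xc (h : zmeas1_Agree G G' a a' Gd Gd' z B) (hG : G.Ax k C)
    (hG' : G'.Ax k' C') {w : Z2} (hw : w ∈ B) {l l' : Lb} (hl : l.1 ∈ B) (hl' : l'.1 ∈ B)
    (v : G'.valid l) (v' : G'.valid l') :
    Xc G (z + w) (G.rep (zmeas1_tr z l)) (G.rep (zmeas1_tr z l')) ↔
      Xc G' w (G'.rep l) (G'.rep l') := by
  unfold Xc
  constructor
  · rintro ⟨j, j', h1, h2, h3⟩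
    obtain ⟨u, u', -⟩ := hG.cr_valid _ _ _ h1
    have u1 : G'.valid (w, j) := (zmeas1_valid h (l := (w, j)) hw).1 u
    have u2 : G'.valid (w, j') := (zmeas1_valid h (l := (w, j')) hw).1 u'
    refine ⟨j, j', ?_, ?_, ?_⟩
    · rw [h.cr _ hw _ _ u1 u2]
      exact h1
    · exact (zmeas1_rep h hG hG' (l := (w, j)) hw hl u1 v).1 h2
    · exact (zmeas1_rep h hG hG' (l := (w, j')) hw hl' u2 v').1 h3
  · rintro ⟨j, j', h1, h2, h3⟩
    obtain ⟨u1, u2, -⟩ := hG'.cr_valid _ _ _ h1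
    refine ⟨j, j', ?_, ?_, ?_⟩
    · rw [← h.cr _ hw _ _ u1 u2]
      exact h1
    · exact (zmeas1_rep h hG hG' (l := (w, j)) hw hl u1 v).2 h2
    · exact (zmeas1_rep h hG hG' (l := (w, j')) hw hl' u2 v').2 h3

theorem zmeas1_exXc (h : zmeas1_Agree G G' a a' Gd Gd' z B) (hG : G.Ax k C)
    (hG' : G'.Ax k' C') {u : ℕ} (hu : box 0 u ⊆ B) {l l' : Lb} (hl : l.1 ∈ B) (hl' : l'.1 ∈ B)
    (v : G'.valid l) (v' : G'.valid l') :
    (∃ w ∈ box z u, Xc G w (G.rep (zmeas1_tr z l)) (G.rep (zmeas1_tr z l'))) ↔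
      ∃ w ∈ box 0 u, Xc G' w (G'.rep l) (G'.rep l') := by
  constructor
  · rintro ⟨w, hw, hx⟩
    have e : z + (w - z) = w := by abel
    have hb : w - z ∈ box 0 u := by
      rw [← zmeas1_box_shift0 (z := z), e]
      exact hw
    refine ⟨w - z, hb, (zmeas1_Xc h hG hG' (hu hb) hl hl' v v').1 ?_⟩
    rw [e]
    exact hx
  · rintro ⟨w, hw, hx⟩
    exact ⟨z + w, zmeas1_box_shift0.2 hw, (zmeas1_Xc h hG hG' (hu hw) hl hl' v v').2 hx⟩

open Classical in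
theorem zmeas1_card_pair {α β γ : Type*} (s : Finset α) (f : α → β) (g : α → γ)
    (h : ∀ x ∈ s, ∀ y ∈ s, f x = f y ↔ g x = g y) (P : β × β → Prop) (Q : γ × γ → Prop)
    (hPQ : ∀ x ∈ s, ∀ y ∈ s, P (f x, f y) ↔ Q (g x, g y)) :
    ((s.image f ×ˢ s.image f).filter P).card = ((s.image g ×ˢ s.image g).filter Q).card := by
  have e1 : (s.image f ×ˢ s.image f).filter P =
      ((s ×ˢ s).filter fun x => P (f x.1, f x.2)).image fun x => (f x.1, f x.2) := by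
    ext ⟨p, q⟩
    simp only [Finset.mem_filter, Finset.mem_product, Finset.mem_image, Prod.exists,
      Prod.mk.injEq]
    constructor
    · rintro ⟨⟨⟨x, hx, rfl⟩, ⟨y, hy, rfl⟩⟩, hP⟩
      exact ⟨x, y, ⟨⟨hx, hy⟩, hP⟩, rfl, rfl⟩
    · rintro ⟨x, y, ⟨⟨hx, hy⟩, hP⟩, rfl, rfl⟩
      exact ⟨⟨⟨x, hx, rfl⟩, ⟨y, hy, rfl⟩⟩, hP⟩
  have e2 : (s.image g ×ˢ s.image g).filter Q =
      ((s ×ˢ s).filter fun x => P (f x.1, f x.2)).image fun x => (g x.1, g x.2) := by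
    ext ⟨p, q⟩
    simp only [Finset.mem_filter, Finset.mem_product, Finset.mem_image, Prod.exists,
      Prod.mk.injEq]
    constructor
    · rintro ⟨⟨⟨x, hx, rfl⟩, ⟨y, hy, rfl⟩⟩, hP⟩
      exact ⟨x, y, ⟨⟨hx, hy⟩, (hPQ x hx y hy).2 hP⟩, rfl, rfl⟩
    · rintro ⟨x, y, ⟨⟨hx, hy⟩, hP⟩, rfl, rfl⟩
      exact ⟨⟨⟨x, hx, rfl⟩, ⟨y, hy, rfl⟩⟩, (hPQ x hx y hy).1 hP⟩
  rw [e1, e2]
  convert zmeas1_card_image ((s ×ˢ s).filter fun x => P (f x.1, f x.2))
    (fun x => (f x.1, f x.2)) (fun x => (g x.1, g x.2)) ?_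
  intro x hx y hy
  obtain ⟨h1, h2⟩ := Finset.mem_product.1 (Finset.mem_filter.1 hx).1
  obtain ⟨h3, h4⟩ := Finset.mem_product.1 (Finset.mem_filter.1 hy).1
  simp only [Prod.mk.injEq]
  rw [h _ h1 _ h3, h _ h2 _ h4]

theorem zmeas1_crs (h : zmeas1_Agree G G' a a' Gd Gd' z B) (hG : G.Ax k C)
    (hG' : G'.Ax k' C') {i : Fin 3} {v : ℕ} (hv : box 0 v ⊆ B) {ε : ℝ} {A0 : ℕ}
    (hu : box 0 (A0 * v) ⊆ B) :
    Crs G a i z v ε A0 ↔ Crs G' a' i 0 v ε A0 := by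
  classical
  have key := zmeas1_card_pair (visL G' a' i 0 v) (fun l => G.rep (zmeas1_tr z l)) G'.rep
    (fun x hx y hy => by
      obtain ⟨h1, h2, -, -⟩ := mem_visL.1 hx
      obtain ⟨h3, h4, -, -⟩ := mem_visL.1 hy
      exact zmeas1_rep h hG hG' (hv h1) (hv h3) h2 h4)
    (fun x => ¬ ∃ w ∈ box z (A0 * v), Xc G w x.1 x.2)
    (fun x => ¬ ∃ w ∈ box 0 (A0 * v), Xc G' w x.1 x.2)
    (fun x hx y hy => by
      obtain ⟨h1, h2, -, -⟩ := mem_visL.1 hx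
      obtain ⟨h3, h4, -, -⟩ := mem_visL.1 hy
      exact not_congr (zmeas1_exXc h hG hG' hu (hv h1) (hv h3) h2 h4))
  unfold Crs
  rw [zmeas1_Vis h i hv]
  unfold Vis
  apply Iff.of_eq
  congr 2
  convert key

theorem zmeas1_crN (h : zmeas1_Agree G G' a a' Gd Gd' z B) {w : Z2} (hw : w ∈ B) :
    crN G (z + w) = crN G' w := by
  unfold crN
  rw [← h.g _ hw]
  congr 1
  apply Finset.filter_congr
  intro p hp
  obtain ⟨h1, h2⟩ := Finset.mem_product.1 hp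
  rw [h.cr _ hw _ _ (Finset.mem_range.1 h1) (Finset.mem_range.1 h2)]

theorem zmeas1_half (h : zmeas1_Agree G G' a a' Gd Gd' z B) {w : Z2} {L : ℕ}
    (hw : box w L ⊆ B) : Half Gd L (z + w) ↔ Half Gd' L w := by
  classical
  unfold Half
  apply Iff.of_eq
  congr 2
  symm
  refine Finset.card_bij (fun x _ => z + x) ?_ ?_ ?_
  · intro x hx
    obtain ⟨h1, h2⟩ := Finset.mem_filter.1 hx
    exact Finset.mem_filter.2 ⟨zmeas1_box_shift.2 h1, (h.gd _ (hw h1)).1 h2⟩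
  · intro x _ y _ e
    exact add_left_cancel e
  · intro y hy
    obtain ⟨h1, h2⟩ := Finset.mem_filter.1 hy
    have e : z + (y - z) = y := by abel
    have hb : y - z ∈ box w L := by
      rw [← zmeas1_box_shift (z := z), e]
      exact h1
    refine ⟨y - z, Finset.mem_filter.2 ⟨hb, (h.gd _ (hw hb)).2 ?_⟩, e⟩
    rw [e]
    exact h2

theorem zmeas1_bad (h : zmeas1_Agree G G' a a' Gd Gd' z B) {L v : ℕ} {ε : ℝ} {A0 : ℕ}
    (hu : box 0 (A0 * v + L) ⊆ B) :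
    Bad G Gd L z v ε A0 ↔ Bad G' Gd' L 0 v ε A0 := by
  classical
  have hb1 : ∀ w ∈ box 0 (A0 * v), w ∈ B := by
    intro w hw
    apply hu
    rw [zmeas1_mem_box] at hw ⊢
    push_cast at hw ⊢
    omega
  have hb2 : ∀ w ∈ box 0 (A0 * v), box w L ⊆ B := by
    intro w hw x hx
    apply hu
    rw [zmeas1_mem_box] at hw hx ⊢
    push_cast at hw hx ⊢
    omega
  unfold Bad
  apply Iff.of_eq
  congr 1
  symm
  refine Finset.sum_bij (fun x _ => z + x) ?_ ?_ ?_ ?_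
  · intro x hx
    obtain ⟨h1, h2⟩ := Finset.mem_filter.1 hx
    exact Finset.mem_filter.2 ⟨zmeas1_box_shift0.2 h1,
      fun h3 => h2 ((zmeas1_half h (hb2 _ h1)).1 h3)⟩
  · intro x _ y _ e
    exact add_left_cancel e
  · intro y hy
    obtain ⟨h1, h2⟩ := Finset.mem_filter.1 hy
    have e : z + (y - z) = y := by abel
    have hb : y - z ∈ box 0 (A0 * v) := by
      rw [← zmeas1_box_shift0 (z := z), e]
      exact h1
    refine ⟨y - z, Finset.mem_filter.2 ⟨hb, fun h3 => h2 ?_⟩, e⟩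
    rw [← e]
    exact (zmeas1_half h (hb2 _ hb)).2 h3
  · intro x hx
    rw [zmeas1_crN h (hb1 _ (Finset.mem_filter.1 hx).1)]

end Agree

theorem zmeas1_shift (S : Sys) (A : Set (S.Ω × ℕ)) (B : Set S.Ω) (ω : S.Ω) (z : Z2)
    (Bx : Finset Z2) :
    zmeas1_Agree (S.Γ ω) (S.Γ (S.T z ω)) (aw S A ω) (aw S A (S.T z ω)) (cw S B ω)
      (cw S B (S.T z ω)) z Bx where
  g := fun x _ => (S.shift ω z).g x
  fam := fun x _ j _ => (S.shift ω z).fam x j
  same := fun x _ x' _ j j' _ _ => (S.shift ω z).same x j x' j'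
  cr := fun x _ j j' _ _ => (S.shift ω z).cr x j j'
  a := fun x _ j _ => by
    unfold aw
    rw [add_comm z x, S.T_add]
  gd := fun x _ => by
    unfold cw
    simp only [Set.mem_ofPred_eq]
    rw [add_comm z x, S.T_add]

theorem zmeas1_local (S : Sys) {A : Set (S.Ω × ℕ)} (hA : MeasurableSet A) {B : Set S.Ω}
    (hB : MeasurableSet B) (Bx : Finset Z2) (P : S.Ω → Prop)
    (hP : ∀ ω ω', zmeas1_Agree (S.Γ ω') (S.Γ ω) (aw S A ω') (aw S A ω) (cw S B ω') (cw S B ω)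
      0 Bx → P ω → P ω') : MeasurableSet {ω | P ω} := by
  classical
  refine measurableSet_of_local (ι := Lb × Lb) (β := ℕ × Fin 3 × Bool × Bool × Bool × Bool)
    (fun ω x => ((S.Γ ω).g x.1.1, (S.Γ ω).fam x.1, (S.Γ ω).same x.1 x.2,
      (S.Γ ω).cr x.1.1 x.1.2 x.2.2, decide ((S.T x.1.1 ω, x.1.2) ∈ A),
      decide (S.T x.1.1 ω ∈ B))) ?_ _ ?_
  · intro x
    have hT : Measurable (S.T x.1.1) := (S.mp x.1.1).measurable
    refine (S.meas.g _).prodMk ((S.meas.fam _).prodMk ((S.meas.same _ _).prodMk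
      ((S.meas.cr _ _ _).prodMk (Measurable.prodMk ?_ ?_))))
    · apply measurable_to_bool
      have : (fun ω => decide ((S.T x.1.1 ω, x.1.2) ∈ A)) ⁻¹' {true} =
          (fun ω => (S.T x.1.1 ω, x.1.2)) ⁻¹' A := by
        ext ω
        simp
      rw [this]
      exact (hT.prodMk measurable_const) hA
    · apply measurable_to_bool
      have : (fun ω => decide (S.T x.1.1 ω ∈ B)) ⁻¹' {true} = S.T x.1.1 ⁻¹' B := by
        ext ω
        simp
      rw [this]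
      exact hT hB
  · intro ω hω
    obtain ⟨M, hM⟩ : ∃ M : ℕ, ∀ x ∈ Bx, (S.Γ ω).g x ≤ M :=
      ⟨Bx.sup (S.Γ ω).g, fun x hx => Finset.le_sup hx⟩
    refine ⟨(Bx ×ˢ range (M + 1)) ×ˢ (Bx ×ˢ range (M + 1)), fun ω' h => hP ω ω' ?_ hω⟩
    have key : ∀ x ∈ Bx, ∀ x' ∈ Bx, ∀ j j', j ≤ M → j' ≤ M →
        (S.Γ ω').g x = (S.Γ ω).g x ∧ (S.Γ ω').fam (x, j) = (S.Γ ω).fam (x, j) ∧
        (S.Γ ω').same (x, j) (x', j') = (S.Γ ω).same (x, j) (x', j') ∧
        (S.Γ ω').cr x j j' = (S.Γ ω).cr x j j' ∧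
        ((S.T x ω', j) ∈ A ↔ (S.T x ω, j) ∈ A) ∧ (S.T x ω' ∈ B ↔ S.T x ω ∈ B) := by
      intro x hx x' hx' j j' hj hj'
      have := h ((x, j), (x', j')) (by
        simp only [Finset.mem_product, Finset.mem_range]
        exact ⟨⟨hx, by omega⟩, hx', by omega⟩)
      simpa only [Prod.mk.injEq, decide_eq_decide] using this
    refine ⟨?_, ?_, ?_, ?_, ?_, ?_⟩
    · intro x hx
      rw [zero_add]
      exact (key x hx x hx 0 0 (Nat.zero_le _) (Nat.zero_le _)).1.symm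
    · intro x hx j hj
      rw [zero_add]
      have := hM x hx
      exact (key x hx x hx j 0 (by omega) (Nat.zero_le _)).2.1.symm
    · intro x hx x' hx' j j' hj hj'
      rw [zero_add, zero_add]
      have := hM x hx
      have := hM x' hx'
      exact (key x hx x' hx' j j' (by omega) (by omega)).2.2.1.symm
    · intro x hx j j' hj hj'
      rw [zero_add]
      have := hM x hx
      exact (key x hx x hx j j' (by omega) (by omega)).2.2.2.1.symm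
    · intro x hx j hj
      rw [zero_add]
      have := hM x hx
      exact (key x hx x hx j 0 (by omega) (Nat.zero_le _)).2.2.2.2.1.symm
    · intro x hx
      rw [zero_add]
      exact (key x hx x hx 0 0 (Nat.zero_le _) (Nat.zero_le _)).2.2.2.2.2.symm

variable (S : Sys) {A : Set (S.Ω × ℕ)} {n : ℕ} {ν : S.Ω × ℕ → E n}

theorem meas_cnt (hA : MeasurableSet A) (i : Fin 3) (v : ℕ) (c1 C1 : ℝ) :
    MeasurableSet {ω | Cnt (S.Γ ω) (aw S A ω) i 0 v c1 C1} := by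
  exact zmeas1_local S hA MeasurableSet.empty (box 0 v) _ fun ω ω' h hω =>
    (zmeas1_cnt h (S.ax ω') (S.ax ω) (Finset.Subset.refl _)).2 hω

theorem meas_crs (hA : MeasurableSet A) (i : Fin 3) (v : ℕ) (ε : ℝ) (A0 : ℕ) :
    MeasurableSet {ω | Crs (S.Γ ω) (aw S A ω) i 0 v ε A0} := by
  classical
  exact zmeas1_local S hA MeasurableSet.empty (box 0 v ∪ box 0 (A0 * v)) _ fun ω ω' h hω =>
    (zmeas1_crs h (S.ax ω') (S.ax ω) Finset.subset_union_left Finset.subset_union_right).2 hω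

theorem meas_bad {B : Set S.Ω} (hB : MeasurableSet B) (L v : ℕ) (ε : ℝ) (A0 : ℕ) :
    MeasurableSet {ω | Bad (S.Γ ω) (cw S B ω) L 0 v ε A0} := by
  exact zmeas1_local S MeasurableSet.empty hB (box 0 (A0 * v + L)) _ fun ω ω' h hω =>
    (zmeas1_bad h (Finset.Subset.refl _)).2 hω

theorem shift_cnt (ω : S.Ω) (z : Z2) {i : Fin 3} {v : ℕ} {c1 C1 : ℝ}
    (h : Cnt (S.Γ (S.T z ω)) (aw S A (S.T z ω)) i 0 v c1 C1) :
    Cnt (S.Γ ω) (aw S A ω) i z v c1 C1 := by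
  exact (zmeas1_cnt (zmeas1_shift S A ∅ ω z (box 0 v)) (S.ax _) (S.ax _)
    (Finset.Subset.refl _)).2 h

theorem shift_crs (ω : S.Ω) (z : Z2) {i : Fin 3} {v : ℕ} {ε : ℝ} {A0 : ℕ}
    (h : Crs (S.Γ (S.T z ω)) (aw S A (S.T z ω)) i 0 v ε A0) :
    Crs (S.Γ ω) (aw S A ω) i z v ε A0 := by
  classical
  exact (zmeas1_crs (zmeas1_shift S A ∅ ω z (box 0 v ∪ box 0 (A0 * v))) (S.ax _) (S.ax _)
    Finset.subset_union_left Finset.subset_union_right).2 h

theorem shift_bad (B : Set S.Ω) (ω : S.Ω) (z : Z2) {L v : ℕ} {ε : ℝ} {A0 : ℕ}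
    (h : Bad (S.Γ (S.T z ω)) (cw S B (S.T z ω)) L 0 v ε A0) :
    Bad (S.Γ ω) (cw S B ω) L z v ε A0 := by
  exact (zmeas1_bad (zmeas1_shift S ∅ B ω z (box 0 (A0 * v + L))) (Finset.Subset.refl _)).2 h

end ECub.Z
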