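import Pool.Agent.P.MP_029dcd_co.F.Z.ZCount
import Pool.Agent.P.MP_029dcd_co.F.Z.ZLinB

/-! Phase 1a: a common rational structure. -/

set_option autoImplicit false

namespace ECub.Z

open CubicStab MeasureTheory Filter Topology Finset
open scoped ENNReal

variable {ι : Type} [Fintype ι] {K : Type} [Field K] [Algebra K ℝ] {G : Gal} {a : Lb → Prop}
  {f : Lb → ι → ℝ} {U : Fin 3 → Submodule ℝ (ι → ℝ)}

omit [Fintype ι] in
/-- every visiting line is rational in the coordinates of a structure map -/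
theorem zph1a_str (env : Env G a f U) {T : Finset (ι → ℝ)} (hT : ∀ τ ∈ T, ∃ y : ι → K, cv y = τ)
    {y : Z2} {M : ℕ} {g2 : (ι → ℝ) ≃ₗ[ℝ] (ι → ℝ)} (hg : Str G a f T y M g2) {i : Fin 3} {p : Lb}
    (hp : p ∈ Vis G a i y M) : IsRat K (g2 (f p)) ∧ f p ∈ U i ∧ f p ≠ 0 := by
  obtain ⟨k, C, hG⟩ := env.ax
  obtain ⟨hv, hap, hfam, -, l, hl, -, hs⟩ := of_mem_Vis hG env.a_line hp
  obtain ⟨hlb, hlv, hla, -⟩ := mem_visL.1 hl
  have hfl : f l = f p := env.f_line l p hlv hv hs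
  obtain ⟨τ, hτ, c, hc, hcτ⟩ := hg l (mem_labs.2 ⟨hlb, hlv, hla⟩)
  obtain ⟨x, rfl⟩ := hT τ hτ
  refine ⟨⟨x, c, hc, by rw [← hfl]; exact hcτ⟩, ?_, env.f_ne p hv hap⟩
  have := env.f_mem p hv hap
  rwa [hfam] at this

omit [Fintype ι] in
/-- first alternative: all lines are rational for the reference map -/
theorem zph1a_one {g0 g2 hR : (ι → ℝ) ≃ₗ[ℝ] (ι → ℝ)} {h0 : (ι → K) ≃ₗ[K] (ι → K)}
    (hh : ∀ x, hR (cv x) = cv (h0 x)) {θ : ℝ} (hθ : θ ≠ 0) {x : ι → ℝ}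
    (hx : g2 x = θ • hR (g0 x)) (hr : IsRat K (g2 x)) : IsRat K (g0 x) := by
  obtain ⟨y, c, hc, hy⟩ := hr
  refine ⟨h0.symm y, c * θ, mul_ne_zero hc hθ, ?_⟩
  apply hR.injective
  rw [hh, LinearEquiv.apply_symm_apply, map_smul, mul_smul, ← hx, hy]

open Classical in
/-- second alternative: few lines are rational for the reference map -/
theorem zph1a_two (env : Env G a f U) {T : Finset (ι → ℝ)} (hT : ∀ τ ∈ T, ∃ y : ι → K, cv y = τ)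
    {y : Z2} {M : ℕ} {g0 g2 : (ι → ℝ) ≃ₗ[ℝ] (ι → ℝ)} (hg : Str G a f T y M g2) {i : Fin 3}
    {e : ℝ} (he : 0 ≤ e) (hnd : ND G a f i y M (e * M) (Module.finrank ℝ (U i)))
    (𝓤 : Finset (Submodule ℝ (ι → ℝ))) (hcard : 𝓤.card ≤ Fintype.card ι)
    (hlt : ∀ U' ∈ 𝓤, U' < (U i).map (g0 : (ι → ℝ) →ₗ[ℝ] (ι → ℝ)))
    (hcov : ∀ x : ι → K, x ≠ 0 → cv x ∈ (U i).map (g0 : (ι → ℝ) →ₗ[ℝ] (ι → ℝ)) →
      IsRat K ((g0.symm.trans g2) (cv x)) → ∃ U' ∈ 𝓤, cv x ∈ U') :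
    (((Vis G a i y M).filter fun p => IsRat K (g0 (f p))).card : ℝ)
      ≤ (Fintype.card ι + 2) * e * M := by
  obtain ⟨k, C, hG⟩ := env.ax
  have hsub : ((Vis G a i y M).filter fun p => IsRat K (g0 (f p))) ⊆
      𝓤.biUnion fun U' => (Vis G a i y M).filter fun p =>
        f p ∈ U'.map (g0.symm : (ι → ℝ) →ₗ[ℝ] (ι → ℝ)) := by
    intro p hp
    obtain ⟨hp, x, c, hc, hx⟩ := mem_filter.1 hp
    obtain ⟨⟨x2, c2, hc2, hx2⟩, hU, hne⟩ := zph1a_str (K := K) env hT hg hp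
    have hx0 : x ≠ 0 := by
      rintro rfl
      have h1 : (cv (0 : ι → K) : ι → ℝ) = 0 := by
        funext k
        simp [cv]
      rw [h1, smul_eq_zero] at hx
      rcases hx with hx | hx
      · exact hc hx
      · exact hne (g0.injective (by rw [hx, map_zero]))
    have hmem : cv x ∈ (U i).map (g0 : (ι → ℝ) →ₗ[ℝ] (ι → ℝ)) := by
      rw [← hx]
      exact Submodule.smul_mem _ _ (Submodule.mem_map_of_mem hU)
    have hrat : IsRat K ((g0.symm.trans g2) (cv x)) := by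
      refine ⟨x2, c2 * c⁻¹, mul_ne_zero hc2 (inv_ne_zero hc), ?_⟩
      rw [← hx, map_smul, LinearEquiv.trans_apply, LinearEquiv.symm_apply_apply, smul_smul,
        mul_assoc, inv_mul_cancel₀ hc, mul_one, hx2]
    obtain ⟨U', hU', hxU⟩ := hcov x hx0 hmem hrat
    refine mem_biUnion.2 ⟨U', hU', mem_filter.2 ⟨hp, ?_⟩⟩
    refine Submodule.mem_map.2 ⟨c⁻¹ • cv x, U'.smul_mem _ hxU, ?_⟩
    rw [← hx, smul_smul, inv_mul_cancel₀ hc, one_smul]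
    exact g0.symm_apply_apply _
  have hM : (0 : ℝ) ≤ e * M := mul_nonneg he (Nat.cast_nonneg _)
  have hone : ∀ U' ∈ 𝓤, ((((Vis G a i y M).filter fun p =>
      f p ∈ U'.map (g0.symm : (ι → ℝ) →ₗ[ℝ] (ι → ℝ))).card : ℕ) : ℝ) ≤ e * M := by
    intro U' hU'
    have h1 : Module.finrank ℝ (U'.map (g0.symm : (ι → ℝ) →ₗ[ℝ] (ι → ℝ)))
        < Module.finrank ℝ (U i) := by
      rw [LinearEquiv.finrank_map_eq g0.symm U', ← LinearEquiv.finrank_map_eq g0 (U i)]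
      exact Submodule.finrank_lt_finrank_of_lt (hlt U' hU')
    have h2 := ND.card_le hG env.f_line hnd _ h1
    rwa [max_eq_left hM] at h2
  have h3 : (((Vis G a i y M).filter fun p => IsRat K (g0 (f p))).card : ℝ) ≤
      ∑ U' ∈ 𝓤, ((((Vis G a i y M).filter fun p =>
        f p ∈ U'.map (g0.symm : (ι → ℝ) →ₗ[ℝ] (ι → ℝ))).card : ℕ) : ℝ) := by
    rw [← Nat.cast_sum]
    exact_mod_cast (card_le_card hsub).trans card_biUnion_le
  have h4 := sum_le_sum hone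
  rw [sum_const, nsmul_eq_mul] at h4
  have h5 : (𝓤.card : ℝ) ≤ Fintype.card ι + 2 := by
    have : (𝓤.card : ℝ) ≤ Fintype.card ι := by exact_mod_cast hcard
    linarith
  calc _ ≤ (𝓤.card : ℝ) * (e * M) := h3.trans h4
    _ ≤ (Fintype.card ι + 2) * (e * M) := mul_le_mul_of_nonneg_right h5 hM
    _ = _ := by ring

open Classical in
/-- rationality for the reference map is locally constant -/
theorem zph1a_loc (env : Env G a f U) {T : Finset (ι → ℝ)} (hT : ∀ τ ∈ T, ∃ y : ι → K, cv y = τ)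
    {I : Finset (Fin 3)} {i : Fin 3} (hi : i ∈ I) {c1 C1 e : ℝ} (he : 0 ≤ e) {M : ℕ} {y : Z2}
    (hy : Loc G a f U I T c1 C1 e M y) (g0 : (ι → ℝ) ≃ₗ[ℝ] (ι → ℝ)) :
    ((Vis G a i y M).card : ℝ) ≤ C1 * M ∧ ∃ Exc : Finset Lb,
      (Exc.card : ℝ) ≤ (Fintype.card ι + 2) * e * M ∧ ∀ p ∈ Vis G a i y M, ∀ p' ∈ Vis G a i y M,
        p ∉ Exc → p' ∉ Exc → IsRat K (g0 (f p)) = IsRat K (g0 (f p')) := by
  refine ⟨(hy.cnt i hi).2, ?_⟩
  obtain ⟨g2, hg2⟩ := hy.str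
  obtain ⟨h0, hR, hh, hU⟩ := eig (K := K) (g0.symm.trans g2)
  rcases hU ((U i).map (g0 : (ι → ℝ) →ₗ[ℝ] (ι → ℝ))) with ⟨θ, hθ, h1⟩ | ⟨𝓤, hc, hlt, hcov⟩
  · have key : ∀ p ∈ Vis G a i y M, IsRat K (g0 (f p)) := by
      intro p hp
      obtain ⟨hr, hm, -⟩ := zph1a_str (K := K) env hT hg2 hp
      refine zph1a_one hh hθ ?_ hr
      have h2 := h1 (g0 (f p)) (Submodule.mem_map_of_mem hm)
      rwa [LinearEquiv.trans_apply, LinearEquiv.symm_apply_apply] at h2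
    refine ⟨∅, ?_, fun p hp p' hp' _ _ => propext ⟨fun _ => key p' hp', fun _ => key p hp⟩⟩
    rw [card_empty, Nat.cast_zero]
    positivity
  · refine ⟨_, zph1a_two env hT hg2 he (hy.nd i hi) 𝓤 hc hlt hcov, ?_⟩
    intro p hp p' hp' hn hn'
    exact propext ⟨fun h => (hn (mem_filter.2 ⟨hp, h⟩)).elim,
      fun h => (hn' (mem_filter.2 ⟨hp', h⟩)).elim⟩

open Classical in
/-- the second alternative does not occur at very good cells -/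
theorem zph1a_key (env : Env G a f U) {T : Finset (ι → ℝ)} (hT : ∀ τ ∈ T, ∃ y : ι → K, cv y = τ)
    {I : Finset (Fin 3)} {i : Fin 3} (hi : i ∈ I)
    (c1 C1 ε e : ℝ) (A0 L L' : ℕ) (hA0 : 1 ≤ A0) (hL : 1 ≤ L) (hLL : L ≤ L') (hc1 : 0 < c1)
    (hC1 : 0 ≤ C1) (he : 0 ≤ e)
    (small1 : 10 * (2 * ε + 25 * (A0 : ℝ) ^ 2 * C1 * ((Fintype.card ι + 2) * e)) ≤ c1 ^ 2)
    (small2 : 10 * ((Fintype.card ι + 2) * e) ≤ c1) (Gd VG : Set Z2)
    (hGd : ∀ z ∈ Gd, Loc G a f U I T c1 C1 e L z)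
    (hVG : ∀ z ∈ VG, ∀ v, L' ≤ v → Far G a I Gd L c1 C1 ε A0 z v)
    {z0 z : Z2} (hz0 : z0 ∈ VG) (hz : z ∈ VG) {g0 : (ι → ℝ) ≃ₗ[ℝ] (ι → ℝ)}
    (hg0 : Str G a f T z0 L' g0) :
    ¬ (((Vis G a i z L').filter fun p => IsRat K (g0 (f p))).card : ℝ)
      ≤ (Fintype.card ι + 2) * e * L' := by
  intro hfew
  obtain ⟨k, C, hG⟩ := env.ax
  have he1 : (0 : ℝ) ≤ (Fintype.card ι + 2) * e := by positivity
  have key := lc (G := G) (a := a) (fun p => IsRat K (g0 (f p))) i z0 z L' (hL.trans hLL) c1 _ _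
    hc1 small1 small2 ?_ True False ?_ ?_
  · exact key ▸ trivial
  · intro y hy v hv
    have hyV : y ∈ VG := by
      rcases hy with rfl | rfl
      · exact hz0
      · exact hz
    have hfar := hVG y hyV v hv
    refine ⟨(hfar.cnt i hi).1, ?_⟩
    have h1 := tl0 hG env.a_line i Gd L hL C1 _ hC1 he1
      (fun p p' => IsRat K (g0 (f p)) = IsRat K (g0 (f p')))
      (fun x hx => zph1a_loc env hT hi he (hGd x hx) g0) y v ε A0 hA0 (hLL.trans hv)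
      (hfar.crs i hi) hfar.bad
    refine le_trans (Nat.cast_le.2 (card_le_card ?_)) h1
    intro x hx
    simp only [mem_filter] at hx ⊢
    exact hx
  · refine le_trans (Nat.cast_le.2 (card_le_card (t := ∅) ?_)) ?_
    · intro p hp
      simp only [mem_filter] at hp
      obtain ⟨hp, hne⟩ := hp
      exact (hne (eq_true (zph1a_str (K := K) env hT hg0 hp).1)).elim
    · rw [card_empty, Nat.cast_zero]
      positivity
  · refine le_trans (Nat.cast_le.2 (card_le_card ?_)) hfew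
    intro p hp
    simp only [mem_filter] at hp
    obtain ⟨hp, hne⟩ := hp
    refine mem_filter.2 ⟨hp, ?_⟩
    by_contra h
    exact hne (eq_false h)

open Classical in
theorem phase1a (env : Env G a f U) {b c : Fin 3} (hbc : b ≠ c) (𝓣 : Finset (ι → K))
    (c1 C1 ε e : ℝ) (A0 L L' : ℕ) (hA0 : 1 ≤ A0) (hL : 1 ≤ L) (hLL : L ≤ L') (hc1 : 0 < c1)
    (hC1 : 0 ≤ C1) (he : 0 ≤ e)
    (small1 : 10 * (2 * ε + 25 * (A0 : ℝ) ^ 2 * C1 * ((Fintype.card ι + 2) * e)) ≤ c1 ^ 2)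
    (small2 : 10 * ((Fintype.card ι + 2) * e) ≤ c1) (Gd VG : Set Z2)
    (hGd : ∀ z ∈ Gd, Loc G a f U {b, c} (𝓣.image cv) c1 C1 e L z)
    (hVG : ∀ z ∈ VG, Loc G a f U {b, c} (𝓣.image cv) c1 C1 e L' z ∧
      ∀ v, L' ≤ v → Far G a {b, c} Gd L c1 C1 ε A0 z v)
    {z0 z : Z2} (hz0 : z0 ∈ VG) (hz : z ∈ VG) {g0 g : (ι → ℝ) ≃ₗ[ℝ] (ι → ℝ)}
    (hg0 : Str G a f (𝓣.image cv) z0 L' g0) (hg : Str G a f (𝓣.image cv) z L' g) :
    ∃ (θ : ℝ) (h0 : (ι → K) ≃ₗ[K] (ι → K)) (hR : (ι → ℝ) ≃ₗ[ℝ] (ι → ℝ)), θ ≠ 0 ∧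
      (∀ x, hR (cv x) = cv (h0 x)) ∧ ∀ x ∈ U b ⊔ U c, g x = θ • hR (g0 x) := by
  have hT : ∀ τ ∈ (𝓣.image cv : Finset (ι → ℝ)), ∃ y : ι → K, cv y = τ := by
    intro τ hτ
    obtain ⟨y, -, hy⟩ := mem_image.1 hτ
    exact ⟨y, hy⟩
  obtain ⟨h0, hR, hh, hU⟩ := eig (K := K) (g0.symm.trans g)
  have key : ∀ i ∈ ({b, c} : Finset (Fin 3)), ∃ θ : ℝ, θ ≠ 0 ∧
      ∀ x ∈ U i, g x = θ • hR (g0 x) := by
    intro i hi
    rcases hU ((U i).map (g0 : (ι → ℝ) →ₗ[ℝ] (ι → ℝ))) with ⟨θ, hθ, h1⟩ | ⟨𝓤, hc, hlt, hcov⟩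
    · refine ⟨θ, hθ, fun x hx => ?_⟩
      have h2 := h1 (g0 x) (Submodule.mem_map_of_mem hx)
      rwa [LinearEquiv.trans_apply, LinearEquiv.symm_apply_apply] at h2
    · exact (zph1a_key env hT hi c1 C1 ε e A0 L L' hA0 hL hLL hc1 hC1 he small1 small2 Gd VG hGd
        (fun y hy => (hVG y hy).2) hz0 hz hg0
        (zph1a_two env hT hg he ((hVG z hz).1.nd i hi) 𝓤 hc hlt hcov)).elim
  obtain ⟨θ, hθ, hb⟩ := key b (mem_insert_self _ _)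
  obtain ⟨θ', -, hc⟩ := key c (mem_insert_of_mem (mem_singleton_self _))
  obtain ⟨x0, hx0, hne⟩ := (Submodule.ne_bot_iff _).1 (env.inf b c)
  have hθθ : θ' = θ := by
    have h1 : (θ' - θ) • hR (g0 x0) = 0 := by
      rw [sub_smul, ← hb x0 hx0.1, ← hc x0 hx0.2, sub_self]
    rcases smul_eq_zero.1 h1 with h2 | h2
    · exact sub_eq_zero.1 h2
    · exact (hne (g0.injective (hR.injective (by rw [h2, map_zero, map_zero])))).elim
  subst hθθ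
  refine ⟨θ', h0, hR, hθ, hh, fun x hx => ?_⟩
  obtain ⟨x1, h1, x2, h2, rfl⟩ := Submodule.mem_sup.1 hx
  rw [map_add, map_add, map_add, smul_add, hb x1 h1, hc x2 h2]

end ECub.Z
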