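import Pool.Agent.P.MP_029dcd_co.F.Z.ZPh1a

/-! Auxiliary lemmas for phase 1b. -/

set_option autoImplicit false
set_option linter.unusedSectionVars false

namespace ECub.Z

open CubicStab MeasureTheory Filter Topology Finset
open scoped ENNReal

variable {ι : Type} [Fintype ι] {K : Type} [Field K] [Algebra K ℝ] {G : Gal} {a : Lb → Prop}
  {f : Lb → ι → ℝ} {U : Fin 3 → Submodule ℝ (ι → ℝ)}

theorem zph1b_cv_zero : cv (0 : ι → K) = (0 : ι → ℝ) := by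
  funext k; simp [cv]

theorem zph1b_cv_mem (s : Set (ι → K)) (W : Submodule ℝ (ι → ℝ)) (hs : ∀ t ∈ s, cv t ∈ W)
    {x : ι → K} (hx : x ∈ Submodule.span K s) : cv x ∈ W := by
  induction hx using Submodule.span_induction with
  | mem y hy => exact hs y hy
  | zero => rw [zph1b_cv_zero]; exact W.zero_mem
  | add y z _ _ hy hz => rw [cv_add]; exact W.add_mem hy hz
  | smul r y _ hy => rw [cv_smul]; exact W.smul_mem _ hy

omit [Algebra K ℝ] in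
theorem zph1b_N0_one {w : AbsoluteValue K ℝ} {𝓣 : Finset (ι → K)} (hw : GoodAt w 𝓣 1)
    {t : ι → K} (ht : t ∈ 𝓣) (h0 : t ≠ 0) : N0 w t = 1 := by
  have h1 := hw.le t ht
  have h2 := hw.ge t ht h0
  linarith

theorem zph1b_mem_box (z : Z2) (L : ℕ) : z ∈ box z L := by
  simp [box]

open Classical in
/-- the data of a label in a box with a structure map -/
theorem zph1b_lab {𝓣 : Finset (ι → K)} {z : Z2} {L : ℕ} {g : (ι → ℝ) ≃ₗ[ℝ] (ι → ℝ)}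
    (hg : Str G a f (𝓣.image cv) z L g) {l : Lb} (hl : l ∈ labs G a (box z L)) :
    ∃ t ∈ 𝓣, ∃ c : ℝ, c ≠ 0 ∧ c • g (f l) = cv t := by
  obtain ⟨τ, hτ, c, hc, h⟩ := hg l hl
  obtain ⟨t, ht, rfl⟩ := Finset.mem_image.1 hτ
  exact ⟨t, ht, c, hc, h⟩

open Classical in
/-- the data of a visiting line -/
theorem zph1b_vis (env : Env G a f U) {𝓣 : Finset (ι → K)} {z : Z2} {L : ℕ}
    {g : (ι → ℝ) ≃ₗ[ℝ] (ι → ℝ)} (hg : Str G a f (𝓣.image cv) z L g) {i : Fin 3} {p : Lb}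
    (hp : p ∈ Vis G a i z L) :
    f p ∈ U i ∧ f p ≠ 0 ∧ ∃ t ∈ 𝓣, ∃ c : ℝ, c ≠ 0 ∧ c • g (f p) = cv t := by
  obtain ⟨k, C, hG⟩ := env.ax
  obtain ⟨hv, ha, hfam, -, l, hl, -, hs⟩ := of_mem_Vis hG env.a_line hp
  obtain ⟨hl1, hl2, hl3, -⟩ := mem_visL.1 hl
  have hfl : f l = f p := env.f_line l p hl2 hv hs
  refine ⟨hfam ▸ env.f_mem p hv ha, env.f_ne p hv ha, ?_⟩
  rw [← hfl]
  exact zph1b_lab hg (mem_labs.2 ⟨hl1, hl2, hl3⟩)

open Classical in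
/-- few lines are mapped into a small subspace -/
theorem zph1b_few (env : Env G a f U) {i : Fin 3} {z : Z2} {L : ℕ} {e : ℝ} (he : 0 ≤ e)
    (hnd : ND G a f i z L (e * L) (Module.finrank ℝ (U i))) (g : (ι → ℝ) ≃ₗ[ℝ] (ι → ℝ))
    (W : Submodule ℝ (ι → ℝ)) (hW : Module.finrank ℝ W < Module.finrank ℝ (U i)) :
    ∃ Exc : Finset Lb, (Exc.card : ℝ) ≤ e * L ∧
      ∀ p ∈ Vis G a i z L, g (f p) ∈ W → p ∈ Exc := by
  obtain ⟨k, C, hG⟩ := env.ax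
  have h := ND.card_le hG env.f_line hnd (W.map (g.symm : (ι → ℝ) →ₗ[ℝ] (ι → ℝ)))
    (by rw [LinearEquiv.finrank_map_eq]; exact hW)
  rw [max_eq_left (by positivity)] at h
  refine ⟨_, h, fun p hp hpW => ?_⟩
  rw [Finset.mem_filter]
  exact ⟨hp, ⟨g (f p), hpW, by simp⟩⟩

/-- the vectors of `𝓣` in a real subspace -/
def zph1b_s (𝓣 : Finset (ι → K)) (W : Submodule ℝ (ι → ℝ)) : Set (ι → K) :=
  {t | t ∈ 𝓣 ∧ cv t ∈ W}

theorem zph1b_s_le (𝓣 : Finset (ι → K)) (W : Submodule ℝ (ι → ℝ)) :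
    Submodule.span ℝ (cv '' zph1b_s 𝓣 W) ≤ W := by
  rw [Submodule.span_le]
  rintro _ ⟨t, ht, rfl⟩
  exact ht.2

open Classical in
/-- the vectors of `𝓣` span the image of `U i` -/
theorem zph1b_span (env : Env G a f U) {𝓣 : Finset (ι → K)} {z : Z2} {L : ℕ} (hL : 1 ≤ L)
    {g : (ι → ℝ) ≃ₗ[ℝ] (ι → ℝ)} (hg : Str G a f (𝓣.image cv) z L g) {i : Fin 3} {c1 C1 e : ℝ}
    (he : 0 ≤ e) (hec : e < c1) (hcnt : Cnt G a i z L c1 C1)
    (hnd : ND G a f i z L (e * L) (Module.finrank ℝ (U i))) :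
    Submodule.span ℝ (cv '' zph1b_s 𝓣 ((U i).map (g : (ι → ℝ) →ₗ[ℝ] (ι → ℝ))))
      = (U i).map (g : (ι → ℝ) →ₗ[ℝ] (ι → ℝ)) := by
  apply Submodule.eq_of_le_of_finrank_le (zph1b_s_le _ _)
  rw [LinearEquiv.finrank_map_eq]
  by_contra hlt
  push Not at hlt
  obtain ⟨Exc, hE, hExc⟩ := zph1b_few env he hnd g _ hlt
  have hsub : Vis G a i z L ⊆ Exc := by
    intro p hp
    obtain ⟨hU, -, t, ht, c, hc, hct⟩ := zph1b_vis env hg hp
    apply hExc p hp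
    have h1 : g (f p) = c⁻¹ • cv t := by rw [← hct, smul_smul, inv_mul_cancel₀ hc, one_smul]
    rw [h1]
    refine Submodule.smul_mem _ _ (Submodule.subset_span ⟨t, ⟨ht, ?_⟩, rfl⟩)
    rw [← hct]
    exact Submodule.smul_mem _ _ ⟨f p, hU, rfl⟩
  have h2 : ((Vis G a i z L).card : ℝ) ≤ Exc.card := by exact_mod_cast Finset.card_le_card hsub
  have h3 := hcnt.1
  have hL' : (0 : ℝ) < L := by exact_mod_cast hL
  nlinarith

open Classical in
/-- off a proper subspace an ultrametric seminorm takes its maximal value -/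
theorem zph1b_top {w : AbsoluteValue K ℝ} {𝓣 : Finset (ι → K)} (hw : GoodAt w 𝓣 1)
    {σ : (ι → K) → ℝ} (hσ : IsSN w σ) (hu : ∀ x y, σ (x + y) ≤ max (σ x) (σ y))
    (W : Submodule ℝ (ι → ℝ)) (hW : 0 < Module.finrank ℝ W) :
    ∃ M : ℝ, 0 ≤ M ∧ (∀ t ∈ zph1b_s 𝓣 W, σ t ≤ M) ∧ ∃ W' : Submodule ℝ (ι → ℝ),
      Module.finrank ℝ W' < Module.finrank ℝ W ∧
      ∀ t ∈ zph1b_s 𝓣 W, cv t ∉ W' → σ t = M := by
  by_cases hne : (𝓣.filter fun t => cv t ∈ W).Nonempty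
  swap
  · refine ⟨0, le_rfl, fun t ht => ?_, ⊥, by simpa using hW, fun t ht _ => ?_⟩ <;>
    exact absurd ⟨t, Finset.mem_filter.2 ht⟩ hne
  obtain ⟨t0, ht0, hmax⟩ := Finset.exists_max_image _ σ hne
  have ht0' : t0 ∈ zph1b_s 𝓣 W := Finset.mem_filter.1 ht0
  have hmax' : ∀ t ∈ zph1b_s 𝓣 W, σ t ≤ σ t0 := fun t ht => hmax t (Finset.mem_filter.2 ht)
  refine ⟨σ t0, hσ.nonneg _, hmax', Submodule.span ℝ (cv '' {t | t ∈ zph1b_s 𝓣 W ∧ σ t < σ t0}),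
    ?_, fun t ht hn => ?_⟩
  · by_cases hne2 : (𝓣.filter fun t => cv t ∈ W ∧ σ t < σ t0).Nonempty
    swap
    · have : {t | t ∈ zph1b_s 𝓣 W ∧ σ t < σ t0} = ∅ := by
        ext t
        simp only [Set.mem_ofPred_eq, Set.mem_empty_iff_false, iff_false]
        intro ht
        exact hne2 ⟨t, Finset.mem_filter.2 ⟨ht.1.1, ht.1.2, ht.2⟩⟩
      rw [this, Set.image_empty, Submodule.span_empty]
      simpa using hW
    obtain ⟨t1, ht1, hmax1⟩ := Finset.exists_max_image _ σ hne2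
    have ht1' := Finset.mem_filter.1 ht1
    have hle : Submodule.span ℝ (cv '' {t | t ∈ zph1b_s 𝓣 W ∧ σ t < σ t0}) ≤ W := by
      rw [Submodule.span_le]
      rintro _ ⟨t, ht, rfl⟩
      exact ht.1.2
    apply Submodule.finrank_lt_finrank_of_lt
    refine lt_of_le_of_ne hle fun heq => ?_
    have hx : cv t0 ∈ Submodule.span ℝ (cv '' {t | t ∈ zph1b_s 𝓣 W ∧ σ t < σ t0}) := by
      rw [heq]; exact ht0'.2
    have h1 := gen_ultra hw hσ hu _ (fun t ht => ht.1.1) (σ t1) (hσ.nonneg _)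
      (fun y hy => hmax1 y (Finset.mem_filter.2 ⟨hy.1.1, hy.1.2, hy.2⟩)) t0 hx
    have h2 := hw.le t0 ht0'.1
    have h3 := hσ.nonneg t1
    have h4 := ht1'.2.2
    nlinarith
  · by_contra hne3
    exact hn (Submodule.subset_span ⟨t, ⟨ht, lt_of_le_of_ne (hmax' t ht) hne3⟩, rfl⟩)

/-- transport of rationality -/
theorem zph1b_lift {g0 g hR : (ι → ℝ) ≃ₗ[ℝ] (ι → ℝ)} {h0 : (ι → K) ≃ₗ[K] (ι → K)}
    (hh : ∀ x, hR (cv x) = cv (h0 x)) {θ : ℝ} (hθ : θ ≠ 0) {y : ι → ℝ} (hy : y ≠ 0)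
    (hg : g y = θ • hR (g0 y)) {t : ι → K} {c : ℝ} (hc : c ≠ 0) (hct : c • g y = cv t) :
    IsRat K (g0 y) ∧ rat K (g0 y) ≠ 0 ∧ ∃ β : K, β ≠ 0 ∧ t = β • h0 (rat K (g0 y)) := by
  have h1 : (c * θ) • g0 y = cv (h0.symm t) := by
    apply hR.injective
    rw [hh, LinearEquiv.apply_symm_apply, map_smul, ← hct, hg, smul_smul]
  have hr : IsRat K (g0 y) := ⟨h0.symm t, c * θ, mul_ne_zero hc hθ, h1⟩
  obtain ⟨c', hc', h2⟩ := rat_spec hr
  have hne : rat K (g0 y) ≠ 0 := by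
    intro h0'
    rw [h0', zph1b_cv_zero, smul_eq_zero] at h2
    rcases h2 with h2 | h2
    · exact hc' h2
    · exact hy (by simpa using h2)
  refine ⟨hr, hne, ?_⟩
  have h3 : (c * θ * c'⁻¹) • cv (rat K (g0 y)) = cv (h0.symm t) := by
    rw [← h2, smul_smul, ← h1]
    congr 1
    field_simp
  obtain ⟨β, hβ, h4⟩ := prop_of_cv hne
    (mul_ne_zero (mul_ne_zero hc hθ) (inv_ne_zero hc')) h3
  refine ⟨β, hβ, ?_⟩
  rw [← map_smul, ← h4, LinearEquiv.apply_symm_apply]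

open Classical in
/-- the function that is compared from cell to cell -/
noncomputable def zph1b_Lam (w : AbsoluteValue K ℝ) (g0 : (ι → ℝ) ≃ₗ[ℝ] (ι → ℝ))
    (h0 : (ι → K) ≃ₗ[K] (ι → K)) (f : Lb → ι → ℝ) (p : Lb) : Option ℝ :=
  if IsRat K (g0 (f p)) then
    some (N0 w (h0 (rat K (g0 (f p)))) / N0 w (rat K (g0 (f p)))) else none

theorem zph1b_Lam_eq {w : AbsoluteValue K ℝ} {g0 : (ι → ℝ) ≃ₗ[ℝ] (ι → ℝ)}
    {h0 h2 : (ι → K) ≃ₗ[K] (ι → K)} {p : Lb} (hr : IsRat K (g0 (f p))) {t : ι → K} {β : K}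
    (hβ : β ≠ 0) (ht : t = β • h2 (rat K (g0 (f p)))) :
    zph1b_Lam w g0 h0 f p = some (N0 w (h0 (h2.symm t)) / N0 w (h2.symm t)) := by
  have hwβ : w β ≠ 0 := by simpa using hβ
  rw [zph1b_Lam, if_pos hr, ht, map_smul, LinearEquiv.symm_apply_apply, map_smul,
    (N0_isSN w).smul, (N0_isSN w).smul, mul_div_mul_left _ _ hwβ]

omit [Algebra K ℝ] in
theorem zph1b_sn (w : AbsoluteValue K ℝ) (h : (ι → K) ≃ₗ[K] (ι → K)) :
    IsSN w fun x => N0 w (h x) :=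
  (N0_isSN w).comp (h : (ι → K) →ₗ[K] (ι → K))

omit [Algebra K ℝ] in
theorem zph1b_ul {w : AbsoluteValue K ℝ} (hw : IsNonarchimedean w) (h : (ι → K) ≃ₗ[K] (ι → K))
    (x y : ι → K) : N0 w (h (x + y)) ≤ max (N0 w (h x)) (N0 w (h y)) := by
  rw [map_add]; exact N0_ultra hw _ _

open Classical in
/-- local constancy at a cell with a structure map -/
theorem zph1b_loc (env : Env G a f U) {𝓣 : Finset (ι → K)} {w : AbsoluteValue K ℝ}
    (hna : IsNonarchimedean w) (hw : GoodAt w 𝓣 1) (g0 : (ι → ℝ) ≃ₗ[ℝ] (ι → ℝ))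
    (h0 : (ι → K) ≃ₗ[K] (ι → K)) {z : Z2} {L : ℕ} {g : (ι → ℝ) ≃ₗ[ℝ] (ι → ℝ)}
    (hg : Str G a f (𝓣.image cv) z L g) {i : Fin 3} {e : ℝ} (he : 0 ≤ e)
    (hnd : ND G a f i z L (e * L) (Module.finrank ℝ (U i))) :
    ∃ Exc : Finset Lb, (Exc.card : ℝ) ≤ ((Fintype.card ι + 2) * e) * L ∧
      ∀ p ∈ Vis G a i z L, ∀ p' ∈ Vis G a i z L, p ∉ Exc → p' ∉ Exc →
        zph1b_Lam w g0 h0 f p = zph1b_Lam w g0 h0 f p' := by
  have heL : 0 ≤ e * L := by positivity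
  have hd : (0 : ℝ) ≤ Fintype.card ι := by positivity
  obtain ⟨h2, hR, hh, hU⟩ := eig (K := K) (g0.symm.trans g)
  rcases hU ((U i).map (g0 : (ι → ℝ) →ₗ[ℝ] (ι → ℝ))) with ⟨θ, hθ, h1⟩ | ⟨𝓤, hc, hlt, h1⟩
  · have hW : 0 < Module.finrank ℝ ((U i).map (g : (ι → ℝ) →ₗ[ℝ] (ι → ℝ))) := by
      rw [LinearEquiv.finrank_map_eq]
      have := env.two i
      omega
    obtain ⟨M1, -, -, W1, hW1, hM1⟩ := zph1b_top hw (zph1b_sn w h2.symm) (zph1b_ul hna h2.symm) _ hW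
    obtain ⟨M2, -, -, W2, hW2, hM2⟩ := zph1b_top hw (zph1b_sn w (h2.symm.trans h0))
      (zph1b_ul hna (h2.symm.trans h0)) _ hW
    rw [LinearEquiv.finrank_map_eq] at hW1 hW2
    obtain ⟨E1, hE1, hE1'⟩ := zph1b_few env he hnd g W1 hW1
    obtain ⟨E2, hE2, hE2'⟩ := zph1b_few env he hnd g W2 hW2
    have key : ∀ p ∈ Vis G a i z L, p ∉ E1 ∪ E2 → zph1b_Lam w g0 h0 f p = some (M2 / M1) := by
      intro p hp hpE
      rw [Finset.mem_union, not_or] at hpE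
      obtain ⟨hpU, hp0, t, ht, c, hc, hct⟩ := zph1b_vis env hg hp
      have hgp : g (f p) = θ • hR (g0 (f p)) := by
        have := h1 (g0 (f p)) ⟨f p, hpU, rfl⟩
        simpa using this
      obtain ⟨hr, -, β, hβ, htβ⟩ := zph1b_lift hh hθ hp0 hgp hc hct
      have hts : t ∈ zph1b_s 𝓣 ((U i).map (g : (ι → ℝ) →ₗ[ℝ] (ι → ℝ))) := by
        refine ⟨ht, ?_⟩
        rw [← hct]
        exact Submodule.smul_mem _ _ ⟨f p, hpU, rfl⟩
      have hn1 : cv t ∉ W1 := by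
        intro hm
        rw [← hct, Submodule.smul_mem_iff _ hc] at hm
        exact hpE.1 (hE1' p hp hm)
      have hn2 : cv t ∉ W2 := by
        intro hm
        rw [← hct, Submodule.smul_mem_iff _ hc] at hm
        exact hpE.2 (hE2' p hp hm)
      rw [zph1b_Lam_eq hr hβ htβ, ← hM1 t hts hn1, ← hM2 t hts hn2]
      rfl
    refine ⟨E1 ∪ E2, ?_, fun p hp p' hp' h h' => by rw [key p hp h, key p' hp' h']⟩
    have h3 : ((E1 ∪ E2).card : ℝ) ≤ E1.card + E2.card := by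
      exact_mod_cast Finset.card_union_le E1 E2
    nlinarith [mul_nonneg hd heL]
  · have hfew : ∀ W ∈ 𝓤, ∃ Exc : Finset Lb, (Exc.card : ℝ) ≤ e * L ∧
        ∀ p ∈ Vis G a i z L, g0 (f p) ∈ W → p ∈ Exc := by
      intro W hW
      apply zph1b_few env he hnd g0 W
      have := Submodule.finrank_lt_finrank_of_lt (hlt W hW)
      rwa [LinearEquiv.finrank_map_eq] at this
    choose! E hE hE' using hfew
    have key : ∀ p ∈ Vis G a i z L, p ∉ 𝓤.biUnion E → zph1b_Lam w g0 h0 f p = none := by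
      intro p hp hpE
      rw [zph1b_Lam, if_neg]
      intro hr
      obtain ⟨hpU, hp0, t, ht, c, hc, hct⟩ := zph1b_vis env hg hp
      obtain ⟨c', hc', h3⟩ := rat_spec hr
      have hne : rat K (g0 (f p)) ≠ 0 := by
        intro h0'
        rw [h0', zph1b_cv_zero, smul_eq_zero] at h3
        rcases h3 with h3 | h3
        · exact hc' h3
        · exact hp0 (by simpa using h3)
      obtain ⟨W, hW, hm⟩ := h1 _ hne (by
        rw [← h3]; exact Submodule.smul_mem _ _ ⟨f p, hpU, rfl⟩) (by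
        refine ⟨t, c * c'⁻¹, mul_ne_zero hc (inv_ne_zero hc'), ?_⟩
        rw [← h3, map_smul, smul_smul, ← hct]
        simp only [LinearEquiv.trans_apply, LinearEquiv.symm_apply_apply]
        congr 1
        field_simp)
      rw [← h3, Submodule.smul_mem_iff _ hc'] at hm
      exact hpE (Finset.mem_biUnion.2 ⟨W, hW, hE' W hW p hp hm⟩)
    refine ⟨𝓤.biUnion E, ?_, fun p hp p' hp' h h' => by rw [key p hp h, key p' hp' h']⟩
    have h3 : ((𝓤.biUnion E).card : ℝ) ≤ ∑ W ∈ 𝓤, ((E W).card : ℝ) := by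
      exact_mod_cast Finset.card_biUnion_le
    have h4 : ∑ W ∈ 𝓤, ((E W).card : ℝ) ≤ 𝓤.card • (e * L) := Finset.sum_le_card_nsmul _ _ _ hE
    rw [nsmul_eq_mul] at h4
    have h5 : (𝓤.card : ℝ) ≤ Fintype.card ι := by exact_mod_cast hc
    nlinarith [mul_le_mul_of_nonneg_right h5 heL]

end ECub.Z
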